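import Mathlib
import Pool.Agent.MP_edaf86_an.OneD2

namespace SJ
open Set Filter Topology MeasureTheory Metric Function
open scoped ENNReal

namespace SqueezeX

variable {ι : Type} [Fintype ι]

theorem amp {K0 K1 L : ℝ} (hL : 0 < L) (hst : C2B st K0 K0) {θ : (ι → ℝ) → ℝ}
    (h01 : ∀ x, 0 ≤ θ x ∧ θ x ≤ 1) (hθ : C2B θ (K1 / L) (K1 / L ^ 2)) :
    C2B (fun y : (ι → ℝ) × ℝ => st (-2 / L * y.2 - 1) * θ y.1) ((2 * K0 + K1) / L)
      ((4 * K0 + 4 * K0 * K1 + K1) / L ^ 2) := by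
  have h1 := hst.comp (((C2B.snd' (E := ι → ℝ) (F := ℝ)).const_mul (-2 / L)).sub_const 1)
  have h2 := hθ.comp (C2B.fst' (E := ι → ℝ) (F := ℝ))
  have h3 := C2B.mul (a0 := 1) (b0 := 1) (fun y => abs_le.2 ⟨by linarith [st_nonneg (-2 / L * y.2 - 1)],
    st_le_one _⟩) h1 (fun y => abs_le.2 ⟨by linarith [(h01 y.1).1], (h01 _).2⟩) h2
  have e : |-2 / L| = 2 / L := by
    rw [abs_div, abs_of_pos hL]; norm_num
  rw [e] at h3
  refine h3.mono (le_of_eq ?_) (le_of_eq ?_)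
  · field_simp
  · field_simp; ring

theorem saw {D : ℝ → ℝ} {A B m : ℝ} (hm : 0 < m) (hD : C2B D A B) (k : ι) (ω : ℝ) :
    C2B (fun y : (ι → ℝ) × ℝ => m * D ((y.1 k - y.2 + ω) / m)) (2 * A) (4 * B / m) := by
  have h1 := (C2B.coord k).comp (C2B.fst' (E := ι → ℝ) (F := ℝ))
  have h2 := (hD.comp (((h1.sub C2B.snd').add_const ω).div_const hm)).const_mul m
  rw [abs_of_pos hm] at h2
  refine h2.mono (le_of_eq ?_) (le_of_eq ?_) <;> field_simp <;> ring

theorem modal {α : ι → (ι → ℝ) × ℝ → ℝ} {D : ι → ℝ → ℝ} {μ c M : ℝ} (hμ : 0 < μ) (hc0 : 0 < c)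
    (hc : c ≤ 1) (hM : M * μ ≤ c) (hD0 : ∀ k u, |D k u| ≤ μ / 2)
    (hD : ∀ k u u', u' ≤ u → D k u - D k u' ≤ (1 - c) * (u - u'))
    (h01 : ∀ k y, 0 ≤ α k y ∧ α k y ≤ 1) (hM0 : 0 ≤ M)
    (hα : ∀ k y y', |α k y - α k y'| ≤ M * ‖y - y'‖) :
    ModAL (fun y k => α k y * D k (y.1 k - y.2)) μ c := by
  intro χ Lχ hχ hl hL y y'
  have h0 : 0 ≤ Lχ * ‖y - y'‖ := (abs_nonneg _).trans (hl y y')
  have hn := norm_nonneg (y - y')
  have key := mono_pert D μ c (Lχ * ‖y - y'‖ + M * ‖y - y'‖) hc hc0.le hμ.le (by positivity) hD0 hD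
    (fun k => χ y * α k y) (fun k => χ y' * α k y') (fun k => y.1 k - y.2) (fun k => y'.1 k - y'.2)
    (fun k => ⟨mul_nonneg (hχ y).1 (h01 k y).1, mul_le_one₀ (hχ y).2 (h01 k y).1 (h01 k y).2⟩)
    (fun k => by
      rw [show χ y * α k y - χ y' * α k y' = (χ y - χ y') * α k y + χ y' * (α k y - α k y') by ring]
      refine (abs_add_le _ _).trans (add_le_add ?_ ?_)
      · rw [abs_mul, abs_of_nonneg (h01 k y).1]
        exact (mul_le_of_le_one_right (abs_nonneg _) (h01 k y).2).trans (hl y y')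
      · rw [abs_mul, abs_of_nonneg (hχ y').1]
        exact (mul_le_of_le_one_left (abs_nonneg _) (hχ y').2).trans (hα k y y'))
  set z := sq (fun z => χ z • fun k => α k z * D k (z.1 k - z.2)) y -
    sq (fun z => χ z • fun k => α k z * D k (z.1 k - z.2)) y' with hz
  have z2 : z.2 = y.2 - y'.2 := by simp [hz, sq]
  have a1 : |y.2 - y'.2| ≤ ‖z‖ := by rw [← z2]; exact norm_snd_le z
  have a2 : ‖((fun k => y.1 k - y.2 - χ y * α k y * D k (y.1 k - y.2)) -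
      fun k => y'.1 k - y'.2 - χ y' * α k y' * D k (y'.1 k - y'.2) : ι → ℝ)‖ ≤ 2 * ‖z‖ := by
    refine (pi_norm_le_iff_of_nonneg (by positivity)).2 fun k => ?_
    have b1 : |z.1 k| ≤ ‖z‖ := (norm_le_pi_norm z.1 k).trans (norm_fst_le z)
    have b2 : z.1 k = y.1 k - χ y * (α k y * D k (y.1 k - y.2)) -
        (y'.1 k - χ y' * (α k y' * D k (y'.1 k - y'.2))) := by simp [hz, sq]
    rw [Pi.sub_apply, Real.norm_eq_abs, abs_le]
    rw [b2] at b1
    obtain ⟨c1, c2⟩ := abs_le.1 a1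
    obtain ⟨c3, c4⟩ := abs_le.1 b1
    constructor <;> linarith
  have a3 : ‖y.1 - y'.1‖ ≤ ‖((fun k => y.1 k - y.2) - fun k => y'.1 k - y'.2 : ι → ℝ)‖ +
      |y.2 - y'.2| := by
    refine (pi_norm_le_iff_of_nonneg (by positivity)).2 fun k => ?_
    have b1 := norm_le_pi_norm ((fun k => y.1 k - y.2) - fun k => y'.1 k - y'.2 : ι → ℝ) k
    rw [Pi.sub_apply, Real.norm_eq_abs] at b1 ⊢
    rw [show y.1 k - y'.1 k = (y.1 k - y.2 - (y'.1 k - y'.2)) + (y.2 - y'.2) by ring]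
    exact (abs_add_le _ _).trans (add_le_add b1 le_rfl)
  have a4 : ‖y - y'‖ ≤ ‖y.1 - y'.1‖ ∨ ‖y - y'‖ ≤ |y.2 - y'.2| := by
    rw [Prod.norm_def]
    exact (le_total ‖(y - y').2‖ ‖(y - y').1‖).imp (fun h => (max_eq_left h).le)
      fun h => (max_eq_right h).le
  have hz0 := norm_nonneg z
  rcases a4 with a4 | a4
  · have b1 := mul_le_mul_of_nonneg_left (a4.trans a3) hc0.le
    have b2 := mul_le_mul_of_nonneg_right hL hn
    have b3 := mul_le_mul_of_nonneg_right hM hn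
    have b4 : c * |y.2 - y'.2| ≤ ‖z‖ := (mul_le_of_le_one_left (abs_nonneg _) hc).trans a1
    have b5 := mul_nonneg hc0.le hn
    nlinarith
  · nlinarith

end SqueezeX

open SqueezeX in
theorem squeeze (ι : Type) [Fintype ι] (K1 : ℝ) (hK1 : 1 ≤ K1) : ∃ K : ℝ, 1 ≤ K ∧
    ∀ (θ : ι → (ι → ℝ) → ℝ) (μk ω : ι → ℝ) (L μ c τ : ℝ), 0 < μ → 0 < L → 0 < c → c ≤ 1 →
      0 < τ → τ ≤ 1 / 8 → (∀ k, μ / (Fintype.card ι + 1) ≤ μk k ∧ μk k ≤ μ) → K * μ ≤ c * L →
      (∀ k x, 0 ≤ θ k x ∧ θ k x ≤ 1) → (∀ k, C2B (θ k) (K1 / L) (K1 / L ^ 2)) →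
      ∃ d : (ι → ℝ) × ℝ → ι → ℝ, (∀ y, ‖d y‖ ≤ μ / 2) ∧ C2B d (K / τ) (K / (τ ^ 2 * μ)) ∧
        (∀ y k, θ k y.1 = 0 → d y k = 0) ∧ (∀ y, -L / 2 ≤ y.2 → d y = 0) ∧ ModAL d μ c ∧
        ∀ y k, y.2 ≤ -L → θ k y.1 = 1 → ¬ Near τ ((y.1 k - y.2 + ω k) / μk k) →
          ∃ n : ℤ, |y.1 k - d y k - y.2 + ω k - μk k * n| ≤ c * μ / 2 := by
  obtain ⟨K0, hK0, hst, -, -⟩ := exists_K0
  obtain ⟨Ks, hKs, hsaw⟩ := exists_saw
  set N : ℝ := Fintype.card ι + 1 with hN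
  have hN1 : 1 ≤ N := by rw [hN]; linarith [(Nat.cast_nonneg (Fintype.card ι) : (0 : ℝ) ≤ _)]
  set M1 := 2 * K0 + K1 with hM1
  set M := 4 * K0 + 4 * K0 * K1 + K1 with hM
  have hMM : M1 ≤ M := by nlinarith
  have hM10 : 1 ≤ M1 := by linarith
  have hK : M + 4 * Ks ≤ M + 4 * M1 * Ks + 4 * Ks * N := by nlinarith
  refine ⟨M + 4 * M1 * Ks + 4 * Ks * N, by linarith, ?_⟩
  intro θ μk ω L μ c τ hμ hL hc0 hc hτ hτ' hμk hKL h01 hθ
  obtain ⟨D, hD, hD0, hDm, -, hDp, -⟩ := hsaw c τ hc0 hc hτ hτ'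
  have hm : ∀ k, 0 < μk k := fun k => (div_pos hμ (by linarith)).trans_le (hμk k).1
  have hML : M1 * μ ≤ c * L := le_trans (by nlinarith) hKL
  have hμL : μ ≤ L := by nlinarith
  let α : ι → (ι → ℝ) × ℝ → ℝ := fun k y => st (-2 / L * y.2 - 1) * θ k y.1
  let D' : ι → ℝ → ℝ := fun k w => μk k * D ((w + ω k) / μk k)
  have hα01 : ∀ k y, 0 ≤ α k y ∧ α k y ≤ 1 := fun k y =>
    ⟨mul_nonneg (st_nonneg _) (h01 _ _).1, mul_le_one₀ (st_le_one _) (h01 _ _).1 (h01 _ _).2⟩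
  have hα1 : ∀ k y, |α k y| ≤ 1 := fun k y => abs_le.2 ⟨by linarith [(hα01 k y).1], (hα01 k y).2⟩
  have hαC : ∀ k, C2B (α k) (M1 / L) (M / L ^ 2) := fun k => amp hL hst (h01 k) (hθ k)
  have hD'0 : ∀ k u, |D' k u| ≤ μ / 2 := fun k u => by
    rw [abs_mul, abs_of_pos (hm k)]
    nlinarith [hD0 ((u + ω k) / μk k), (hμk k).2, hm k]
  refine ⟨fun y k => α k y * D' k (y.1 k - y.2), fun y => ?_, ?_, fun y k h => ?_, fun y h => ?_,
    ?_, fun y k h1 h2 h3 => ?_⟩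
  · refine (pi_norm_le_iff_of_nonneg (by positivity)).2 fun k => ?_
    rw [Real.norm_eq_abs, abs_mul]
    exact (mul_le_of_le_one_left (abs_nonneg _) (hα1 k y)).trans (hD'0 _ _)
  · have hK0' : 0 ≤ M + 4 * M1 * Ks + 4 * Ks * N := by linarith
    refine C2B.pi (by positivity) (by positivity) fun k => ?_
    refine (C2B.mul (hα1 k) (hαC k) (fun y => hD'0 k _) (saw (hm k) hD k (ω k))).mono ?_ ?_
    · have a1 : M1 / L * (μ / 2) ≤ M / τ := by
        rw [div_mul_eq_mul_div, div_le_div_iff₀ hL hτ]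
        have : μ / 2 * τ ≤ L := by nlinarith
        nlinarith
      have a2 : (M + 4 * Ks) / τ ≤ (M + 4 * M1 * Ks + 4 * Ks * N) / τ := by gcongr
      have a3 : 0 ≤ Ks / τ := by positivity
      rw [add_div, mul_div_assoc] at a2
      linarith
    · have hτ2 : τ ^ 2 ≤ τ := by nlinarith
      have a0 : τ ^ 2 * μ ≤ τ * L := mul_le_mul hτ2 hμL hμ.le hτ.le
      have a1 : M / L ^ 2 * (μ / 2) ≤ M / (τ ^ 2 * μ) := by
        have b1 : M / L ^ 2 * (μ / 2) ≤ M / L ^ 2 * L :=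
          mul_le_mul_of_nonneg_left (by linarith) (by have : 0 ≤ M := by linarith
                                                      positivity)
        have b2 : M / L ^ 2 * L = M / L := by field_simp
        have b3 : M / L ≤ M / (τ ^ 2 * μ) :=
          div_le_div_of_nonneg_left (by linarith) (by positivity) (by nlinarith)
        linarith
      have a2 : 2 * (M1 / L) * (2 * (Ks / τ)) ≤ 4 * M1 * Ks / (τ ^ 2 * μ) := by
        rw [show 2 * (M1 / L) * (2 * (Ks / τ)) = 4 * M1 * Ks / (τ * L) by field_simp; ring]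
        exact div_le_div_of_nonneg_left (by positivity) (by positivity) a0
      have a3 : 4 * (Ks / τ ^ 2) / μk k ≤ 4 * Ks * N / (τ ^ 2 * μ) := by
        rw [show 4 * Ks * N / (τ ^ 2 * μ) = 4 * (Ks / τ ^ 2) / (μ / N) by field_simp]
        exact div_le_div_of_nonneg_left (by positivity) (by positivity) (hμk k).1
      rw [add_div _ (4 * Ks * N), add_div M (4 * M1 * Ks)]
      linarith
  · simp [α, h]
  · funext k
    have : st (-2 / L * y.2 - 1) = 0 := st_zero (by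
      rw [sub_nonpos, div_mul_eq_mul_div, div_le_one hL]; linarith)
    simp [α, this]
  · refine modal (M := M1 / L) hμ hc0 hc ?_ hD'0 (fun k u u' h => ?_) hα01 (by positivity)
      fun k y y' => (hαC k).lip y y'
    · rwa [div_mul_eq_mul_div, div_le_iff₀ hL]
    · have := mul_le_mul_of_nonneg_left (hDm ((u + ω k) / μk k) ((u' + ω k) / μk k)
        (by have := (hm k).le; gcongr)) (hm k).le
      have e : μk k * ((1 - c) * ((u + ω k) / μk k - (u' + ω k) / μk k)) = (1 - c) * (u - u') := by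
        have := (hm k).ne'
        field_simp
        ring
      rw [e, mul_sub] at this
      exact this
  · have e1 : st (-2 / L * y.2 - 1) = 1 := st_one (by
      rw [le_sub_iff_add_le, div_mul_eq_mul_div, le_div_iff₀ hL]; linarith)
    set v := (y.1 k - y.2 + ω k) / μk k with hv
    have hr := abs_le.1 (abs_sub_round v)
    have n1 : 2 * τ < |v - (round v : ℤ) - 1 / 2| := not_le.1 fun h => h3 ⟨_, h⟩
    have n2 : 2 * τ < |v - (round v - 1 : ℤ) - 1 / 2| := not_le.1 fun h => h3 ⟨_, h⟩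
    rw [abs_of_nonpos (by linarith)] at n1
    push_cast at n2
    rw [abs_of_nonneg (by linarith)] at n2
    have e2 := hDp v (round v) (abs_le.2 ⟨by linarith, by linarith⟩)
    refine ⟨round v, ?_⟩
    have e3 : y.1 k - y.2 + ω k = μk k * v := by rw [hv, mul_div_cancel₀ _ (hm k).ne']
    have e4 : y.1 k - α k y * D' k (y.1 k - y.2) - y.2 + ω k - μk k * (round v : ℤ) =
        c * μk k * (v - (round v : ℤ)) := by
      simp only [α, D', e1, h2, ← hv, e2]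
      linear_combination e3
    rw [e4, abs_mul, abs_of_pos (mul_pos hc0 (hm k))]
    calc _ ≤ c * μ * (1 / 2) := mul_le_mul (mul_le_mul_of_nonneg_left (hμk k).2 hc0.le)
          (abs_sub_round v) (abs_nonneg _) (by positivity)
      _ = _ := by ring

end SJ
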