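import Mathlib
import Pool.Agent.MP_edaf86_an.Grid
import Pool.Agent.MP_edaf86_an.Squeeze
import Pool.Agent.MP_edaf86_an.Inv
import Pool.Agent.MP_edaf86_an.Avg
import Pool.Agent.MP_edaf86_an.Num

namespace SJ
open Set Filter Topology MeasureTheory Metric Function
open scoped ENNReal

variable {ι : Type} [Fintype ι] [DecidableEq ι]

namespace LevExX

theorem cs_mono {X : Type*} [NormedAddCommGroup X] [NormedSpace ℝ X] {I : Finset ℕ}
    {W : ℕ → X → ℝ} {s : ℕ → ℝ} {κ H K K' : ℝ} (h : CS I W s κ H K) (hK : K ≤ K') :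
    CS I W s κ H K' :=
  ⟨h.kpos, h.w01, fun n => (h.wb n).mono (div_le_div_of_nonneg_right hK h.kpos.le)
    (div_le_div_of_nonneg_right hK (pow_pos h.kpos 2).le), h.sep, fun t => (h.cnt t).trans hK⟩

theorem sq_c2b {X : Type*} [NormedAddCommGroup X] [NormedSpace ℝ X] {d : X × ℝ → X} {A B : ℝ}
    (h : C2B d A B) : C2B (sq d) (1 + A) B := by
  have h1 := (C2B.id' (E := X × ℝ)).sub
    (h.prodMk ((C2B.const (E := X × ℝ) (0 : ℝ)).mono h.nonneg1 h.nonneg2))
  rw [zero_add] at h1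
  exact h1

theorem hH {x u : ℝ} (dd : ℕ) (hdd : dd = 50000) (hx : 80 ≤ x)
    (hu : mu x ≤ u / 16 * Real.exp x ^ 4) :
    640 * ell x * Lam x ^ 15 ≤ u * Real.exp x ^ dd - u / 4 := by
  have e0 := Real.exp_pos x
  have u0 : 0 < u := by
    have := (mu_pos x).trans_le hu
    have h4 : 0 < Real.exp x ^ 4 := by positivity
    by_contra hn
    nlinarith
  have h1 : 1 ≤ Real.exp x ^ dd := one_le_pow₀ (Real.one_le_exp (by linarith))
  have h2 : Real.exp (49996 * x) * Real.exp x ^ 4 = Real.exp x ^ dd := by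
    rw [exp_pow', exp_pow', ← Real.exp_add, hdd]
    congr 1
    push_cast
    ring
  have h3 : 80 * (ell x * Lam x ^ 15) ≤ Real.exp (49996 * x) * mu x := by
    rw [mu_eq, Lam_pow, ell_eq, ← Real.exp_add, ← Real.exp_add]
    refine mul_exp_le (le_exp_of_le hx) ?_
    push_cast
    linarith
  have h4 := mul_le_mul_of_nonneg_left hu (Real.exp_pos (49996 * x)).le
  have h5 : Real.exp (49996 * x) * (u / 16 * Real.exp x ^ 4) = u / 16 * Real.exp x ^ dd := by
    rw [← h2]; ring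
  nlinarith

theorem hbad {x V : ℝ} (N m : ℕ) (hm : m = 601000) (hx : 0 ≤ x) (hV : 2 ^ N * 10 ^ m * V ≤ x) :
    2 ^ N * (10 * (1 / Lam x)) ^ m * V ≤ Real.exp (-(600000 * 2800 * x)) := by
  have h1 : (1 / Lam x) ^ m = Real.exp (-(601000 * 2800 * x)) := by
    rw [one_div, inv_pow, Lam_pow, ← Real.exp_neg, hm]
    congr 1
    push_cast
    ring
  rw [mul_pow, h1]
  refine le_of_eq_of_le (by ring) (mul_exp_le (s := -(601000 * 2800 * x)) (le_exp_of_le hV) ?_)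
  linarith

end LevExX
open LevExX

theorem exists_lev (hN : 1299999 ≤ Fintype.card ι) (K1 : ℝ) (hK1 : 1 ≤ K1) :
    ∃ K x0 : ℝ, 1 ≤ K ∧ ∀ x : ℝ, x0 ≤ x → ∀ θ : ι → (ι → ℝ) → ℝ, Reg K1 (ell x) θ →
      ∀ G : (ι → ℝ) × ℝ → (ι → ℝ) × ℝ, Continuous G →
        ∃ I W s κ H d A Bad, Lev K x θ G I W s κ H d A Bad := by
  classical
  obtain ⟨m, hm⟩ : ∃ m : ℕ, m = 601000 := ⟨_, rfl⟩
  obtain ⟨dd, hdd⟩ : ∃ dd : ℕ, dd = 50000 := ⟨_, rfl⟩
  obtain ⟨Kg, hKg, hg⟩ := grid_cs ι m dd (by omega) (by omega)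
  obtain ⟨Ks, hKs, hs⟩ := squeeze ι K1 hK1
  obtain ⟨N, hNN⟩ : ∃ N, N = Fintype.card ι := ⟨_, rfl⟩
  obtain ⟨V, hV⟩ : ∃ V, V = (volume (ball (0 : (ι → ℝ) × ℝ) 1)).toReal := ⟨_, rfl⟩
  have hV0 : 0 ≤ V := hV ▸ ENNReal.toReal_nonneg
  have hV1 : volume (ball (0 : (ι → ℝ) × ℝ) 1) = ENNReal.ofReal V := by
    rw [hV, ENNReal.ofReal_toReal measure_ball_lt_top.ne]
  obtain ⟨f, hf⟩ : ∃ f : ℝ, f = (N.factorial : ℝ) := ⟨_, rfl⟩
  have hf1 : 1 ≤ f := by rw [hf]; exact_mod_cast N.factorial_pos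
  have hN0 : (0 : ℝ) ≤ N := Nat.cast_nonneg N
  obtain ⟨Kb, hKb⟩ : ∃ Kb : ℝ, Kb = 2 ^ N * 10 ^ m * V := ⟨_, rfl⟩
  have hKb0 : 0 ≤ Kb := by rw [hKb]; positivity
  refine ⟨Kg + Ks, 80 + Ks + Kb + 32 * (N + 1) * f, by linarith, fun x hx θ hθ G hG => ?_⟩
  have p0 : 0 ≤ 32 * (N + 1) * f := by positivity
  have x1 : 80 ≤ x := by linarith
  have x2 : Ks ≤ x := by linarith
  have x3 : Kb ≤ x := by linarith
  have x4 : 32 * (N + 1) * f ≤ Real.exp x := le_exp_of_le (by linarith)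
  have B1 : 1 ≤ Real.exp x := Real.one_le_exp (by linarith)
  obtain ⟨p, hp1, hp2⟩ := exists_coprime_family ι ⌈Real.exp x⌉₊
  obtain ⟨c1, hc1⟩ : ∃ c1 : ℝ, c1 = (⌈Real.exp x⌉₊ : ℝ) := ⟨_, rfl⟩
  have c1a : Real.exp x ≤ c1 := hc1 ▸ Nat.le_ceil _
  have c1b : c1 ≤ 2 * Real.exp x := by
    have := Nat.ceil_lt_add_one (Real.exp_pos x).le
    linarith
  obtain ⟨c0, hc0⟩ : ∃ c0 : ℝ, c0 = f * c1 := ⟨_, rfl⟩
  have c0a : Real.exp x ≤ c0 := by nlinarith
  have c0p : 0 < c0 := by linarith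
  have pk1 : ∀ k, c0 + 1 ≤ p k := fun k => by
    rw [hc0, hf, hc1, hNN]; exact_mod_cast (hp2 k).1
  have pk2 : ∀ k, (p k : ℝ) ≤ N * c0 + 1 := fun k => by
    rw [hc0, hf, hc1, hNN]; exact_mod_cast (hp2 k).2
  have m0 := mu_pos x
  have l0 := ell_pos x
  have L0 := Lam_pos x
  have L1 : 8 ≤ Lam x := le_exp_of_le (by linarith)
  obtain ⟨u, hu⟩ : ∃ u : ℝ, u = mu x / ((N + 1) * c0) := ⟨_, rfl⟩
  have u0 : 0 < u := by rw [hu]; positivity
  have u1 : u * ((N + 1) * c0) = mu x := by rw [hu]; field_simp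
  have k1 : mu x ≤ u / 16 * Real.exp x ^ 4 := by
    rw [← u1, show u / 16 * Real.exp x ^ 4 = u * (Real.exp x ^ 4 / 16) by ring]
    refine mul_le_mul_of_nonneg_left ?_ u0.le
    have a1 : (N + 1) * c0 ≤ (N + 1) * f * (2 * Real.exp x) := by
      rw [hc0, ← mul_assoc]; exact mul_le_mul_of_nonneg_left c1b (by positivity)
    have a2 : Real.exp x ^ 2 ≤ Real.exp x ^ 4 := pow_le_pow_right₀ B1 (by norm_num)
    nlinarith
  have k2 : u / 16 * Real.exp x ≤ mu x := by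
    rw [← u1, show u / 16 * Real.exp x = u * (Real.exp x / 16) by ring]
    refine mul_le_mul_of_nonneg_left ?_ u0.le
    nlinarith
  have k3 : u ≤ mu x := by
    rw [← u1]
    refine le_mul_of_one_le_right u0.le ?_
    nlinarith
  have k4 : mu x ≤ ell x := div_le_self l0.le (one_le_pow₀ (by linarith))
  have mk0 : ∀ k, 0 < (p k : ℝ) * u := fun k => mul_pos (by linarith [pk1 k]) u0
  have mk : ∀ k, mu x / (Fintype.card ι + 1) ≤ p k * u ∧ p k * u ≤ mu x := fun k => by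
    rw [← hNN, div_le_iff₀ (by positivity), ← u1]
    have a1 := mul_le_mul_of_nonneg_left (pk1 k) (mul_pos u0 (show (0 : ℝ) < N + 1 by linarith)).le
    have a2 := mul_le_mul_of_nonneg_left (pk2 k) u0.le
    have a3 := mul_le_mul_of_nonneg_left (B1.trans c0a) u0.le
    constructor <;> nlinarith
  obtain ⟨c, hc⟩ : ∃ c : ℝ, c = u / 16 / mu x := ⟨_, rfl⟩
  have cc : c * mu x = u / 16 := by rw [hc]; field_simp
  have cp : 0 < c := by rw [hc]; positivity
  have c1' : c ≤ 1 := by rw [hc, div_le_one m0]; linarith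
  have hcL : Ks * mu x ≤ c * ell x := by
    have a1 : 1 ≤ c * Real.exp x ^ 4 := by
      refine le_of_mul_le_mul_right ?_ m0
      rw [one_mul, mul_right_comm, cc]
      exact k1
    have a2 : Ks * mu x * Real.exp x ^ 4 ≤ ell x := by
      rw [mul_assoc, mu_eq, exp_pow', ← Real.exp_add, ell_eq]
      refine mul_exp_le (le_exp_of_le x2) ?_
      push_cast
      linarith
    have a3 := mul_le_mul_of_nonneg_left a2 cp.le
    have a4 := mul_le_mul_of_nonneg_left a1 (mul_pos (show 0 < Ks by linarith) m0).le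
    nlinarith
  have t0 : 0 < 1 / Lam x := by positivity
  have t1 : 1 / Lam x ≤ 1 / 8 := one_div_le_one_div_of_le (by norm_num) L1
  have hmeas : Measurable fun (y : (ι → ℝ) × ℝ) (k : ι) => ((G y).1 k - (G y).2) / (p k * u) :=
    Continuous.measurable (by fun_prop)
  obtain ⟨ω', hω'⟩ := bad_shift (volume.restrict (ball (0 : (ι → ℝ) × ℝ) 1)) (1 / Lam x) t0
    (by linarith) _ hmeas m
  obtain ⟨d, d0, dC, dpass, dtop, dmod, dpl⟩ := hs θ (fun k => p k * u) (fun k => p k * u * ω' k)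
    (ell x) (mu x) c (1 / Lam x) m0 l0 cp c1' t0 t1 mk hcL hθ.r01 hθ.rC
  have dC' : C2B d ((Kg + Ks) * Lam x) ((Kg + Ks) * Lam x ^ 2 / mu x) := by
    refine dC.mono ?_ ?_
    · rw [div_div_eq_mul_div, div_one]
      exact mul_le_mul_of_nonneg_right (by linarith) L0.le
    · rw [show Ks / ((1 / Lam x) ^ 2 * mu x) = Ks * Lam x ^ 2 / mu x by field_simp]
      exact div_le_div_of_nonneg_right (mul_le_mul_of_nonneg_right (by linarith) (by positivity))
        m0.le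
  have hal : ∀ y y', c / 8 * ‖y - y'‖ ≤ ‖sq d y - sq d y'‖ := by
    have := dmod (fun _ => 1) 0 (fun _ => ⟨zero_le_one, le_rfl⟩) (fun _ _ => by simp)
      (by simpa using cp.le)
    simpa only [one_smul] using this
  obtain ⟨A, A1, A2, A3⟩ := inverse_c2 (sq_c2b dC') (by positivity) hal
  obtain ⟨I, W, s, g1, g2, g3⟩ := hg p (Real.exp x) u (ell x) (fun k => p k * u * ω' k) hp1 B1
    (fun k => by linarith [pk1 k]) u0 (k3.trans k4)
  refine ⟨I, W, s, u / 16, _, d, A, _, cs_mono g1 (by linarith), g2, k1, k2, hH dd hdd x1 k1, d0,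
    dC', dpass, dtop, hc ▸ dmod, A1, A2, ?_, ?_,
    (Measure.le_restrict_apply _ _).trans (hω'.trans ?_)⟩
  · rw [← hc]
    refine A3.mono (le_of_eq ?_) (le_of_eq ?_)
    · field_simp
    · field_simp
  · intro y hy y1 y2
    refine g3 _ _ y1 y2 ?_
    rw [mem_ofPred_eq, not_le] at hy
    have b1 : (Finset.univ.filter fun k => θ k (G y).1 ≠ 1).card ≤ 1 :=
      Finset.card_le_one.2 fun k hk l hl =>
        hθ.one _ k l (Finset.mem_filter.1 hk).2 (Finset.mem_filter.1 hl).2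
    refine le_trans ?_ (Nat.add_le_add_right ((Nat.add_le_add_left b1 _).trans hy) _)
    refine le_trans ?_ (Nat.add_le_add_right (Finset.card_union_le _ _) _)
    refine le_trans ?_ (Finset.card_union_le _ _)
    rw [← Finset.card_univ]
    refine Finset.card_le_card fun k _ => ?_
    simp only [Finset.mem_union, Finset.mem_filter, Finset.mem_univ, true_and]
    by_cases n1 : Near (1 / Lam x) (((G y).1 k - (G y).2) / (p k * u) + ω' k)
    · exact Or.inl (Or.inl n1)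
    by_cases n2 : θ k (G y).1 = 1
    · right
      obtain ⟨n, hn⟩ := dpl (G y) k y2 n2 (by
        rwa [add_div, mul_div_cancel_left₀ _ (mk0 k).ne'])
      refine ⟨n, le_of_eq_of_le ?_ (hn.trans (le_of_eq (by rw [cc]; ring)))⟩
      simp [sq]
    · exact Or.inl (Or.inr n2)
  · rw [Measure.restrict_apply_univ, hV1, ← ENNReal.ofReal_mul (by positivity), ← hNN]
    exact ENNReal.ofReal_le_ofReal (hbad N m hm (by linarith) (hKb ▸ x3))

end SJ
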