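import Mathlib
import Pool.Agent.MP_edaf86_an.Cluster2
import Pool.Agent.MP_edaf86_an.VertS
import Pool.Agent.MP_edaf86_an.Conj
import Pool.Agent.MP_edaf86_an.Num

namespace SJ
open Set Filter Topology MeasureTheory Metric Function
open scoped ENNReal

namespace LevTwoX

theorem exists_log {x κ : ℝ} (hκ : 0 < κ) (k1 : mu x ≤ κ * Real.exp x ^ 4)
    (k2 : κ * Real.exp x ≤ mu x) :
    ∃ a, κ = Real.exp a ∧ -(16805604 * x) ≤ a ∧ a ≤ -(16805601 * x) := by
  obtain ⟨a, rfl⟩ : ∃ a, κ = Real.exp a := ⟨_, (Real.exp_log hκ).symm⟩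
  rw [mu_eq, exp_pow', ← Real.exp_add, Real.exp_le_exp] at k1
  rw [mu_eq, ← Real.exp_add, Real.exp_le_exp] at k2
  push_cast at k1
  exact ⟨a, rfl, by linarith, by linarith⟩

theorem norm_sq_sub {X : Type*} [NormedAddCommGroup X] (d : X × ℝ → X) (y : X × ℝ) :
    ‖y - sq d y‖ = ‖d y‖ := by simp [sq]

theorem num_BA {K Kc x x' a b : ℝ} (hx : 0 ≤ x) (hx' : x' = 401 / 400 * x) (hK0 : 0 ≤ K)
    (hK : 512 * K ≤ Real.exp x) (hKc : 2 * Kc ≤ Real.exp x) (hKc0 : 0 ≤ Kc)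
    (ha : -(16805604 * x) ≤ a) (hb : -(16805604 * x') ≤ b) :
    Kc * (K * Lam x' ^ 2 / mu x' * (8 / (Real.exp b / mu x')) ^ 3 +
      1 / ((Real.exp b / mu x') ^ 2 * Real.exp a)) ≤ Lam x' ^ 20 / ell x' := by
  have h1 : K * Lam x' ^ 2 / mu x' * (8 / (Real.exp b / mu x')) ^ 3 ≤ Real.exp (16855000 * x') := by
    have e : K * Lam x' ^ 2 / mu x' * (8 / (Real.exp b / mu x')) ^ 3 =
        512 * K * (Lam x' ^ 2 * mu x' ^ 2 / Real.exp b ^ 3) := by
      have := mu_pos x'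
      field_simp
      norm_num
    rw [e, Lam_pow, mu_eq, exp_pow', exp_pow', ← Real.exp_add, ← Real.exp_sub]
    refine mul_exp_le hK ?_
    push_cast
    linarith
  have h2 : 1 / ((Real.exp b / mu x') ^ 2 * Real.exp a) ≤ Real.exp (16855000 * x') := by
    rw [mu_eq, ← Real.exp_sub, exp_pow', ← Real.exp_add, one_div, ← Real.exp_neg,
      Real.exp_le_exp]
    push_cast
    linarith
  refine (mul_le_mul_of_nonneg_left (add_le_add h1 h2) hKc0).trans ?_
  rw [← two_mul, ← mul_assoc, mul_comm Kc, Lam_pow_div_ell]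
  refine mul_exp_le hKc ?_
  push_cast
  linarith

end LevTwoX

open LevTwoX

variable {ι : Type} [Fintype ι] [DecidableEq ι]

theorem lev_two : ∃ Kh : ℝ, 64 ≤ Kh ∧ ∀ K : ℝ, 1 ≤ K → ∃ x0 : ℝ, ∀ x : ℝ, x0 ≤ x →
    ∀ (θ θ' : ι → (ι → ℝ) → ℝ) G I W s κ H d A Bad G' I' W' s' κ' H' d' A' Bad',
      Lev K x θ G I W s κ H d A Bad →
      Lev K (401 / 400 * x) θ' G' I' W' s' κ' H' d' A' Bad' →
      ∃ S Γ, Lev2 x (401 / 400 * x) θ' κ κ' (rho (ce I W s (Kh * κ))) (sq d')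
        (rho (ce I' W' s' (Kh * κ'))) S Γ
        {y | 9 / 2 < cq I W s (Kh * κ) y ∧ |ce I W s (Kh * κ) y| < 6 * κ}
        {y | 9 / 2 < cq I' W' s' (Kh * κ') y ∧ |ce I' W' s' (Kh * κ') y| < 6 * κ'} := by
  obtain ⟨Kh, hKh, hvS⟩ := vert_S (X := ι → ℝ)
  refine ⟨Kh, hKh, fun K hK => ?_⟩
  obtain ⟨K', hK', hcl⟩ := cluster_bounds (X := ι → ℝ) K hK
  have hKK : Kh ≤ K' * Kh := le_mul_of_one_le_left (by linarith) hK'
  have hKK' : K' * 64 ≤ K' * Kh := mul_le_mul_of_nonneg_left hKh (by linarith)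
  set K1 := K' * Kh + K with hK1
  have hK11 : 1 ≤ K1 := by linarith
  obtain ⟨Ks, hKs, hS⟩ := hvS K1 hK11
  obtain ⟨Kc, hKc, hG⟩ := conj_Gamma (X := ι → ℝ) K1 hK11
  refine ⟨512 * K + 24 * Kh + Ks + 2 * Kc,
    fun x hx θ θ' G I W s κ H d A Bad G' I' W' s' κ' H' d' A' Bad' L L' => ?_⟩
  have hx0 : 0 ≤ x := by linarith
  set x' := 401 / 400 * x with hx'
  have hκ := L.cs.kpos
  have hκ' := L'.cs.kpos
  have hE := Real.exp_pos x
  have hμ := mu_pos x
  have hμ' := mu_pos x'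
  have hl := ell_pos x
  have hL1 : 1 ≤ Lam x := Real.one_le_exp (by linarith)
  have hL1' : 1 ≤ Lam x' := Real.one_le_exp (by linarith)
  have e1 : 24 * Kh ≤ Real.exp x := le_exp_of_le (by linarith)
  have e2 : 512 * K ≤ Real.exp x := le_exp_of_le (by linarith)
  have e3 : Ks ≤ Real.exp x := le_exp_of_le (by linarith)
  have e4 : 2 * Kc ≤ Real.exp x := le_exp_of_le (by linarith)
  have hEE : Real.exp x ≤ Real.exp x' := Real.exp_le_exp.2 (by linarith)
  have hμl : mu x ≤ ell x := div_le_self hl.le (one_le_pow₀ hL1)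
  have hμl' : mu x' ≤ ell x' := div_le_self (ell_pos x').le (one_le_pow₀ hL1')
  have hh : 24 * (Kh * κ) ≤ mu x := by
    have := mul_le_mul_of_nonneg_left e1 hκ.le
    linarith [L.k2]
  have hk64 : 64 * κ ≤ Kh * κ := mul_le_mul_of_nonneg_right hKh hκ.le
  have hk64' : 64 * κ' ≤ Kh * κ' := mul_le_mul_of_nonneg_right hKh hκ'.le
  have h16 : 16 * κ ≤ Kh * κ := by linarith
  have h10 : 10 * (Kh * κ) ≤ H := by
    have h1 : ell x * 1 ≤ ell x * Lam x ^ 15 := mul_le_mul_of_nonneg_left (one_le_pow₀ hL1) hl.le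
    have := L.hH
    linarith
  obtain ⟨a, ha, a1, a2⟩ := exists_log hκ L.k1 L.k2
  obtain ⟨b, hb, b1, b2⟩ := exists_log hκ' L'.k1 L'.k2
  have hκκ : Kh * κ' ≤ κ := by
    rw [ha, hb]
    exact mul_exp_le (x := x) (by linarith) (by linarith)
  have h10' : 10 * (64 * κ) ≤ H' := by
    have h1 : ell x ≤ ell x' * Lam x' ^ 15 := by
      rw [Lam_pow, ell_eq, ell_eq, ← Real.exp_add, Real.exp_le_exp]
      push_cast
      linarith
    have := L'.hH
    linarith
  obtain ⟨hq, -, he⟩ := hcl I W s κ H (Kh * κ) L.cs h16 h10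
  obtain ⟨-, hf0, hf⟩ := hcl I' W' s' κ' H' (64 * κ) L'.cs (by linarith) h10'
  have hq1 : C2B (cq I W s (Kh * κ)) (K1 / κ) (K1 / κ ^ 2) :=
    hq.mono (div_le_div_of_nonneg_right (by linarith) hκ.le)
      (div_le_div_of_nonneg_right (by linarith) (by positivity))
  have he1 : C2B (ce I W s (Kh * κ)) K1 (K1 / κ) := by
    have e5 : K' * (Kh * κ) / κ = K' * Kh := by field_simp
    have e6 : K' * (Kh * κ) / κ ^ 2 = K' * Kh / κ := by field_simp
    rw [e5, e6] at he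
    exact he.mono (by linarith) (div_le_div_of_nonneg_right (by linarith) hκ.le)
  have hf1 : C2B (ce I' W' s' (64 * κ)) (K1 * κ / κ') (K1 * κ / κ' ^ 2) := by
    have : K' * (64 * κ) ≤ K1 * κ := by
      rw [← mul_assoc]
      exact mul_le_mul_of_nonneg_right (by linarith) hκ.le
    exact hf.mono (div_le_div_of_nonneg_right this hκ'.le)
      (div_le_div_of_nonneg_right this (by positivity))
  have hcov := fun y t h1 h2 h3 => cluster_cov L.cs h16 le_rfl h10 y t h1 h2 h3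
  obtain ⟨S, sC, s1, sinj, svert, sd, sq1, sq2⟩ := hS _ _ _ κ κ' hκ' (by linarith) hq1 he1 hcov
    (fun y => by linarith [hf0 y]) hf1
  have hc1 : κ' / mu x' ≤ 1 := by
    rw [hb, mu_eq, ← Real.exp_sub, Real.exp_le_one_iff]
    linarith
  obtain ⟨Γ, gC, ginj, gd, gq, g1, gid⟩ := hG _ _ d' A' κ (Kh * κ) (mu x') (κ' / mu x')
    (1 / Lam x') _ hκ hk64 hμ' (by positivity) hc1 (by positivity)
    ((div_le_one (by linarith)).2 hL1')
    (by
      rw [ha, hb, mu_eq, Lam_eq, one_div, ← Real.exp_neg, ← Real.exp_sub, ← Real.exp_add,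
        ← Real.exp_add]
      exact mul_exp_le (x := x) (by linarith) (by linarith))
    hq1 he1 hcov L'.d0
    (fun y y' => (L'.dC.lip y y').trans (mul_le_mul_of_nonneg_right (by
      rw [div_div_eq_mul_div, div_one]
      exact mul_le_mul_of_nonneg_right (by linarith) (by linarith)) (norm_nonneg _)))
    L'.dmod L'.Ali L'.Ari L'.AC
  have htop : ∀ y : (ι → ℝ) × ℝ, -ell x / 3 ≤ y.2 → cq I W s (Kh * κ) y = 0 := fun y hy =>
    (cluster_top (W := W) (h := Kh * κ) (by linarith) L.top y (by linarith)).1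
  refine ⟨S, Γ, ?_, s1, sinj, svert, fun y => ?_, fun y hy => ?_, ?_, ginj, fun y => ?_,
    fun y hy => ?_, fun y k hk => ?_, fun y hy hy' => ?_⟩
  · refine sC.mono (div_le_div_of_nonneg_right
      (mul_le_mul_of_nonneg_right (by linarith) hκ.le) hκ'.le) ?_
    rw [mul_div_assoc, ha, hb, exp_pow', ← Real.exp_sub, Lam_pow_div_ell]
    refine mul_exp_le e3 ?_
    push_cast
    linarith
  · exact (sd y).trans (mul_le_mul_of_nonneg_right (by linarith) hκ.le)
  · exact sq1 y (by rw [htop y hy]; norm_num)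
  · refine gC.mono ?_ ?_
    · rw [hb, mu_eq, ← Real.exp_sub, div_eq_mul_inv, ← Real.exp_neg, exp_pow']
      refine mul_exp_le (x := x) (by linarith) ?_
      push_cast
      linarith
    · rw [ha, hb]
      exact num_BA hx0 hx' (by linarith) e2 e4 (by linarith) a1 b1
  · refine (gd y).trans ?_
    rw [ha, mu_eq, Lam_pow, ← Real.exp_sub]
    refine mul_exp_le (x := x) (by linarith) ?_
    push_cast
    linarith
  · exact gq y (by rw [htop y hy]; norm_num)
  · obtain ⟨σ, t, h1⟩ := g1 y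
    have h2 : ‖(A' (y.1, t)).1 - y.1‖ ≤ ell x' := by
      have h3 := norm_sq_sub d' (A' (y.1, t))
      rw [L'.Ari (y.1, t)] at h3
      have h4 := norm_fst_le (A' (y.1, t) - (y.1, t))
      rw [h3] at h4
      exact h4.trans (by linarith [L'.d0 (A' (y.1, t))])
    rw [h1, Pi.add_apply, Pi.smul_apply, L'.dpass _ k (hk _ h2), smul_zero, add_zero]
  · obtain ⟨c1, c2, c3⟩ := gid y hy.1 hy.2
    rw [← c3]
    congr 1
    set z := sq d' y with hz
    have f1 := abs_le.1 c2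
    have f2 := abs_lt.1 hy'.2
    obtain ⟨d1, d2⟩ := hcov z (z.2 - 2 * ce I' W' s' (Kh * κ') z) (by linarith) (by linarith)
      (by rw [abs_le]; constructor <;> linarith)
    obtain ⟨-, d3⟩ := cluster_cov L'.cs (h := Kh * κ') (h' := 64 * κ) (by linarith) (by linarith)
      h10' z (z.2 - ce I W s (Kh * κ) z) (by linarith [hy'.1]) (by linarith [hy'.2])
      (by rw [abs_le]; constructor <;> linarith)
    have e5 : z.2 - 2 * ce I' W' s' (Kh * κ') z -
        ce I W s (Kh * κ) (z.1, z.2 - 2 * ce I' W' s' (Kh * κ') z) =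
        z.2 - ce I W s (Kh * κ) z := by
      rw [d2]
      ring
    rw [rho, sq2 _ (by rw [d1]; linarith) (by rw [d2, abs_le]; constructor <;> linarith)]
    simp only [e5, d3, rho]
    congr 1
    ring

end SJ
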