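import Mathlib
import Pool.Agent.MP_edaf86_an.LevEx
import Pool.Agent.MP_edaf86_an.LevOne
import Pool.Agent.MP_edaf86_an.LevTwo

namespace SJ
open Set Filter Topology MeasureTheory Metric Function
open scoped ENNReal

namespace FPackX

/-- the recursively defined continuous backward compositions -/
def seqG {E : Type*} [TopologicalSpace E] (step : ℕ → C(E, E) → C(E, E)) : ℕ → C(E, E)
  | 0 => ContinuousMap.id E
  | j + 1 => (step j (seqG step j)).comp (seqG step j)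

theorem Gs_eq {E : Type*} [TopologicalSpace E] (step : ℕ → C(E, E) → C(E, E)) (j : ℕ) (y : E) :
    Gs (fun j => (step j (seqG step j) : E → E)) j y = seqG step j y := by
  induction j with
  | zero => rfl
  | succ j ih => simp only [Gs, seqG, ih, ContinuousMap.comp_apply]

theorem Gs_snd {X : Type*} {a : ℕ → X × ℝ → X × ℝ} (ha : ∀ j y, (a j y).2 = y.2) (j : ℕ)
    (y : X × ℝ) : (Gs a j y).2 = y.2 := by
  induction j with
  | zero => rfl
  | succ j ih => simp only [Gs, ha, ih]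

end FPackX

open FPackX

variable {ι : Type} [Fintype ι] [DecidableEq ι]

theorem exists_packF (hN : 1299999 ≤ Fintype.card ι) (K1 : ℝ) (hK1 : 1 ≤ K1) : ∃ x0 : ℝ,
    ∀ lam : ℕ → ℝ, Geo lam → x0 ≤ lam 0 → ∀ θ : ℕ → ι → (ι → ℝ) → ℝ,
      (∀ j, Reg K1 (ell (lam j)) (θ j)) →
      ∃ κ a ρ S Γ O Bad, PackF lam θ κ a ρ S Γ O Bad := by
  obtain ⟨Kh, hKh, h2⟩ := lev_two (ι := ι)
  obtain ⟨K, x1, hK, hex⟩ := exists_lev hN K1 hK1
  obtain ⟨x2, h1⟩ := lev_one (ι := ι) K Kh hK hKh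
  obtain ⟨x3, h2⟩ := h2 K hK
  refine ⟨max x1 (max x2 x3), fun lam hg h0 θ hθ => ?_⟩
  have hj : ∀ j, max x1 (max x2 x3) ≤ lam j := fun j => h0.trans (hg.mono (Nat.zero_le j))
  have hx1 : ∀ j, x1 ≤ lam j := fun j => (le_max_left _ _).trans (hj j)
  have hx2 : ∀ j, x2 ≤ lam j := fun j => ((le_max_left _ _).trans (le_max_right _ _)).trans (hj j)
  have hx3 : ∀ j, x3 ≤ lam j := fun j => ((le_max_right _ _).trans (le_max_right _ _)).trans (hj j)
  have hex' : ∀ (j : ℕ) (G : C((ι → ℝ) × ℝ, (ι → ℝ) × ℝ)),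
      ∃ I W s κ H d A Bad, Lev K (lam j) (θ j) G I W s κ H d A Bad :=
    fun j G => hex (lam j) (hx1 j) (θ j) (hθ j) G G.continuous
  choose I W s κ H d A Bad L using hex'
  let step : ℕ → C((ι → ℝ) × ℝ, (ι → ℝ) × ℝ) → C((ι → ℝ) × ℝ, (ι → ℝ) × ℝ) :=
    fun j G => ⟨sq (d j G), (LevOneX.sq_c2b (L j G).dC).cont⟩
  let G : ℕ → C((ι → ℝ) × ℝ, (ι → ℝ) × ℝ) := seqG step
  have hG : ∀ j y, Gs (fun j => sq (d j (G j))) j y = G j y := Gs_eq step
  have hS : ∀ j, ∃ S Γ, Lev2 (lam j) (lam (j + 1)) (θ (j + 1)) (κ j (G j)) (κ (j + 1) (G (j + 1)))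
      (rho (ce (I j (G j)) (W j (G j)) (s j (G j)) (Kh * κ j (G j)))) (sq (d (j + 1) (G (j + 1))))
      (rho (ce (I (j + 1) (G (j + 1))) (W (j + 1) (G (j + 1))) (s (j + 1) (G (j + 1)))
        (Kh * κ (j + 1) (G (j + 1))))) S Γ
      {y | 9 / 2 < cq (I j (G j)) (W j (G j)) (s j (G j)) (Kh * κ j (G j)) y ∧
        |ce (I j (G j)) (W j (G j)) (s j (G j)) (Kh * κ j (G j)) y| < 6 * κ j (G j)}
      {y | 9 / 2 < cq (I (j + 1) (G (j + 1))) (W (j + 1) (G (j + 1))) (s (j + 1) (G (j + 1)))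
          (Kh * κ (j + 1) (G (j + 1))) y ∧
        |ce (I (j + 1) (G (j + 1))) (W (j + 1) (G (j + 1))) (s (j + 1) (G (j + 1)))
          (Kh * κ (j + 1) (G (j + 1))) y| < 6 * κ (j + 1) (G (j + 1))} := by
    intro j
    have L' := L (j + 1) (G (j + 1))
    rw [hg.succ j] at L' ⊢
    exact h2 (lam j) (hx3 j) _ _ _ _ _ _ _ _ _ _ _ _ _ _ _ _ _ _ _ _ (L j (G j)) L'
  choose S Γ hS using hS
  refine ⟨fun j => κ j (G j), fun j => sq (d j (G j)),
    fun j => rho (ce (I j (G j)) (W j (G j)) (s j (G j)) (Kh * κ j (G j))), S, Γ,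
    fun j => {y | 9 / 2 < cq (I j (G j)) (W j (G j)) (s j (G j)) (Kh * κ j (G j)) y ∧
      |ce (I j (G j)) (W j (G j)) (s j (G j)) (Kh * κ j (G j)) y| < 6 * κ j (G j)},
    fun j => Bad j (G j), fun j => (h1 (lam j) (hx2 j) _ _ _ _ _ _ _ _ _ _ (L j (G j))).1, hS,
    fun j y hy hb hy2 => ?_, fun j => (L j (G j)).bad⟩
  have e2 : (G j y).2 = y.2 := by
    rw [← hG]
    exact Gs_snd (fun j y => LevOneX.sq_snd _ y) j y
  have e3 : -2 ≤ y.2 := by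
    have h3 : ‖y.2‖ ≤ ‖y‖ := norm_snd_le y
    rw [mem_ball_zero_iff] at hy
    rw [Real.norm_eq_abs] at h3
    linarith [neg_abs_le y.2]
  have h4 := (h1 (lam j) (hx2 j) _ _ _ _ _ _ _ _ _ _ (L j (G j))).2 y hb (e2 ▸ e3) (e2 ▸ hy2)
  change sq (d j (G j)) (Gs (fun j => sq (d j (G j))) j y) ∈ _
  rw [hG]
  exact h4

end SJ
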