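import Mathlib
import Pool.Agent.MP_edaf86_an.Lims
import Pool.Agent.MP_edaf86_an.OneD1

namespace SJ
open Set Filter Topology MeasureTheory Metric Function
open scoped ENNReal

variable {ι : Type} [Fintype ι] [DecidableEq ι]
variable {lam : ℕ → ℝ} {θ : ℕ → ι → (ι → ℝ) → ℝ} {κ : ℕ → ℝ}
  {H a ρ S Γ : ℕ → (ι → ℝ) × ℝ → (ι → ℝ) × ℝ} {O Bad : ℕ → Set ((ι → ℝ) × ℝ)}
  {g : ℕ → (ι → ℝ) → ι → ℝ} {U : ℕ → (ι → ℝ) → ℝ}

namespace PLocalX

theorem ell_anti {x x' : ℝ} (h : x ≤ x') : ell x' ≤ ell x :=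
  Real.exp_le_exp.2 (by linarith)

theorem big {x : ℝ} (h : 400 ≤ x) : 24 ≤ Real.exp x := le_exp_of_le (by linarith)

theorem exp_le_Lam {x : ℝ} (h : 400 ≤ x) : Real.exp x ≤ Lam x :=
  Real.exp_le_exp.2 (by linarith)

theorem fw_inv {E : Type*} {P : ℕ → E → E} {T : E → Prop} (n : ℕ)
    (h : ∀ i < n, ∀ z, T z → T (P i z)) : ∀ z, T z → T (Fw P n z) := by
  induction n with
  | zero => exact fun _ hz => hz
  | succ n ih =>
    exact fun z hz => ih (fun i hi => h i (by omega)) _ (h n (Nat.lt_succ_self n) z hz)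

theorem fw_fix {E : Type*} {P : ℕ → E → E} {z : E} (h : ∀ i, P i z = z) (n : ℕ) :
    Fw P n z = z := by
  induction n with
  | zero => rfl
  | succ n ih => exact (congrArg (Fw P n) (h n)).trans ih

theorem gs_fix {E : Type*} {a : ℕ → E → E} {z : E} (h : ∀ i, a i z = z) (n : ℕ) :
    Gs a n z = z := by
  induction n with
  | zero => rfl
  | succ n ih => exact (congrArg (a n) ih).trans (h n)

omit [DecidableEq ι] in
theorem snd_le {y z : (ι → ℝ) × ℝ} {c : ℝ} (h : ‖z - y‖ ≤ c) : z.2 ≤ y.2 + c := by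
  have := (le_abs_self _).trans ((norm_snd_le (z - y)).trans h)
  rw [Prod.snd_sub] at this
  linarith

omit [DecidableEq ι] in
theorem gs_snd (hF : PackF lam θ κ a ρ S Γ O Bad) (n : ℕ) (y : (ι → ℝ) × ℝ) :
    (Gs a n y).2 = y.2 := by
  induction n with
  | zero => rfl
  | succ n ih => exact ((hF.l1 n).a2 _).trans ih

omit [DecidableEq ι] in
theorem gs_cont (hF : PackF lam θ κ a ρ S Γ O Bad) (n : ℕ) : Continuous (Gs a n) := by
  induction n with
  | zero => exact continuous_id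
  | succ n ih => exact (hF.l1 n).aC.cd.continuous.comp ih

omit [DecidableEq ι] in
theorem pn_inv (hG : Geo lam) (hF : PackF lam θ κ a ρ S Γ O Bad) {i j : ℕ} (hij : i < j)
    (z : (ι → ℝ) × ℝ) (hz : z.2 ≤ -ell (lam j) / 2) : (Γ i (S i z)).2 ≤ -ell (lam j) / 2 := by
  by_cases h : -ell (lam i) / 3 ≤ z.2
  · rwa [(hF.l2 i).stop z h, (hF.l2 i).gtop z h]
  push Not at h
  have h₁ := snd_le ((hF.l2 i).sd z)
  have h₂ := snd_le ((hF.l2 i).gd (S i z))
  have k₂ := (hF.l1 i).k2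
  have x₁ := hG.ge400 i
  have e₁ := big x₁
  have l₁ := e₁.trans (exp_le_Lam x₁)
  have l₂ := (big (hG.ge400 (i + 1))).trans (exp_le_Lam (hG.ge400 (i + 1)))
  have p := ell_pos (lam i)
  have q := Lam_pos (lam i)
  have k₃ : ell (lam i) / Lam (lam i) ^ 2 ≤ ell (lam i) / 24 / Lam (lam i) := by
    rw [div_div, pow_two]; gcongr
  have a₁ : Real.exp (lam i) * κ i ≤ ell (lam i) / 24 :=
    calc _ ≤ Real.exp (lam i) * (ell (lam i) / 24 / Lam (lam i)) := by
          gcongr; exact k₂.trans k₃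
      _ ≤ Lam (lam i) * (ell (lam i) / 24 / Lam (lam i)) := by
          gcongr; exact exp_le_Lam x₁
      _ = _ := by field_simp
  have a₂ : κ i / Lam (lam (i + 1)) ^ 2 ≤ ell (lam i) / 24 :=
    calc _ ≤ ell (lam i) / 24 / Lam (lam i) / Lam (lam (i + 1)) ^ 2 := by
          gcongr; exact k₂.trans k₃
      _ ≤ ell (lam i) / 24 / Lam (lam i) :=
          div_le_self (by positivity) (one_le_pow₀ (by linarith))
      _ ≤ _ := div_le_self (by positivity) (by linarith)
  have a₃ : ell (lam j) ≤ ell (lam i) / 2 :=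
    calc _ ≤ ell (lam (i + 1)) := ell_anti (hG.mono hij)
      _ = ell (lam i) / Lam (lam i) ^ 15 := hG.ell_succ i
      _ ≤ _ := by
          gcongr
          exact le_trans (by linarith) (le_self_pow₀ (by linarith) (by norm_num))
  linarith

end PLocalX

open PLocalX in
theorem pack_local (hG : Geo lam) (hT : PackT lam θ H g U) (hF : PackF lam θ κ a ρ S Γ O Bad)
    (j : ℕ) (y : (ι → ℝ) × ℝ) (hy : y ∈ ball (0 : (ι → ℝ) × ℝ) 1) (ht : ell (lam j) ≤ |y.2|)
    (h1 : y ∉ Bad j) (h2 : y ∉ Bad (j + 1)) :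
    FF H S Γ ρ a (j + 1) =ᶠ[𝓝 y] FF H S Γ ρ a j := by
  have p := ell_pos (lam j)
  have hl : ell (lam (j + 1)) ≤ ell (lam j) := ell_anti (hG.mono (Nat.le_succ j))
  rcases le_abs.1 ht with h | h
  · have ho : ∀ᶠ y' in 𝓝 y, ell (lam j) / 2 < y'.2 :=
      continuous_snd.continuousAt.eventually (lt_mem_nhds (by linarith))
    filter_upwards [ho] with y' hy'
    have t : ∀ i, -ell (lam i) / 3 ≤ y'.2 := fun i => by linarith [ell_pos (lam i)]
    have ha := gs_fix fun i => (hF.l1 i).atop y' (t i)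
    have hr := fun i => (hF.l1 i).rtop y' (t i)
    have hp := fw_fix (P := fun i z => Γ i (S i z)) (z := y') fun i => by
      rw [(hF.l2 i).stop y' (t i), (hF.l2 i).gtop y' (t i)]
    have hh := hT.hoff (j + 1) y' (le_trans (by linarith) (le_abs_self _))
    simp only [FF, ha, hr, hp]
    exact congrArg (fun z => Phi (Fw H (j + 1) z)) hh
  · have o₁ := (gs_cont hF (j + 1)).continuousAt.eventually
      ((hF.l1 j).oopen.mem_nhds (hF.good j y hy h1 (by linarith)))
    have o₂ := (gs_cont hF (j + 2)).continuousAt.eventually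
      ((hF.l1 (j + 1)).oopen.mem_nhds (hF.good (j + 1) y hy h2 (by linarith)))
    have ho : ∀ᶠ y' in 𝓝 y, y'.2 < -(3 / 4 * ell (lam j)) :=
      continuous_snd.continuousAt.eventually (gt_mem_nhds (by linarith))
    filter_upwards [o₁, o₂, ho] with y' w₁ w₂ hy'
    have hi := (hF.l2 j).ident _ w₁ w₂
    have l₁ := (big (hG.ge400 j)).trans (exp_le_Lam (hG.ge400 j))
    have r₁ := snd_le ((hF.l1 j).rd (Gs a (j + 1) y'))
    have r₂ : ell (lam j) / Lam (lam j) ≤ ell (lam j) / 24 := by gcongr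
    rw [gs_snd hF] at r₁
    have r₃ := fw_inv (P := fun i z => Γ i (S i z)) (T := fun z => z.2 ≤ -ell (lam j) / 2) j
      (fun i hi z hz => pn_inv hG hF hi z hz) (ρ j (Gs a (j + 1) y')) (by linarith)
    have hh := hT.hoff (j + 1) _ (le_trans (by linarith) (neg_le_abs
      (Fw (fun i z => Γ i (S i z)) j (ρ j (Gs a (j + 1) y'))).2))
    change Phi (Fw H (j + 1) (H (j + 1) (Fw (fun i z => Γ i (S i z)) j
      (Γ j (S j (ρ (j + 1) (a (j + 1) (Gs a (j + 1) y')))))))) = _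
    rw [hi, hh]
    rfl

end SJ
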