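import Mathlib
import Pool.Agent.MP_edaf86_an.Lims
import Pool.Agent.MP_edaf86_an.OneD1

namespace SJ
open Set Filter Topology MeasureTheory Metric Function
open scoped ENNReal

namespace PStripX

section Num
variable {lam : ℕ → ℝ}

theorem exp_le_Lam (hG : Geo lam) (j : ℕ) : Real.exp (lam j) ≤ Lam (lam j) :=
  Real.exp_le_exp.2 (by linarith [hG.ge400 j])

theorem Lam_ge (hG : Geo lam) (j : ℕ) : 100 ≤ Lam (lam j) :=
  (le_exp_of_le (by linarith [hG.ge400 j])).trans (exp_le_Lam hG j)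

theorem Lam_mono (hG : Geo lam) (j : ℕ) : Lam (lam j) ≤ Lam (lam (j + 1)) :=
  Real.exp_le_exp.2 (by linarith [hG.mono (Nat.le_succ j)])

theorem ell_succ_le (hG : Geo lam) (j : ℕ) : ell (lam (j + 1)) ≤ ell (lam j) / 100 := by
  rw [hG.ell_succ]
  have h1 := Lam_ge hG j
  have h2 : Lam (lam j) ≤ Lam (lam j) ^ 15 := le_self_pow₀ (by linarith) (by norm_num)
  exact div_le_div_of_nonneg_left (ell_pos _).le (by norm_num) (h1.trans h2)

theorem ell_lt (hG : Geo lam) {i j : ℕ} (h : i < j) : ell (lam j) ≤ ell (lam i) / 100 :=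
  le_trans (Real.exp_le_exp.2 (by linarith [hG.mono (Nat.succ_le_of_lt h)])) (ell_succ_le hG i)

theorem ell_div_le (hG : Geo lam) (j : ℕ) : ell (lam j) / Lam (lam j) ≤ ell (lam j) / 100 :=
  div_le_div_of_nonneg_left (ell_pos _).le (by norm_num) (Lam_ge hG j)

theorem ell_div_le' (hG : Geo lam) (j : ℕ) :
    ell (lam (j + 1)) / Lam (lam (j + 1)) ≤ ell (lam j) / 100 := by
  have h1 := ell_div_le hG (j + 1)
  have h2 := ell_succ_le hG j
  have h3 := ell_pos (lam j)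
  linarith

theorem ell_sq_le (hG : Geo lam) (j : ℕ) : ell (lam j) ^ 2 / ell (lam (j + 1)) ≤ 1 := by
  rw [div_le_one (ell_pos _), ell_eq, ell_eq, exp_pow', hG.succ]
  refine Real.exp_le_exp.2 ?_
  push_cast
  linarith [hG.ge400 j]

theorem ell_le_one (hG : Geo lam) (j : ℕ) : ell (lam j) ≤ 1 :=
  Real.exp_le_one_iff.2 (by linarith [hG.ge400 j])

end Num

section Gen
variable {E : Type*} [NormedAddCommGroup E] [NormedSpace ℝ E]

theorem step {g f : E → E} {Z r c : ℝ} {n : ℕ} (hZ : 1 ≤ Z) (hr : 0 < r) (hc : 0 ≤ c)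
    (hg : C2B g Z (Z / r)) (hf : C2B f (Z ^ (n + 1)) (c * Z ^ (2 * n + 1) / r)) :
    C2B (fun x => g (f x)) (Z ^ (n + 1 + 1)) ((c + 1) * Z ^ (2 * (n + 1) + 1) / r) := by
  refine (hg.comp hf).mono (le_of_eq (by ring)) ?_
  have h1 : Z ^ (2 * n + 2) ≤ Z ^ (2 * (n + 1) + 1) := pow_le_pow_right₀ hZ (by omega)
  have h2 : c * Z ^ (2 * n + 2) / r ≤ c * Z ^ (2 * (n + 1) + 1) / r := by gcongr
  calc _ = Z ^ (2 * (n + 1) + 1) / r + c * Z ^ (2 * n + 2) / r := by ring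
    _ ≤ Z ^ (2 * (n + 1) + 1) / r + c * Z ^ (2 * (n + 1) + 1) / r := by linarith
    _ = _ := by ring

omit [NormedSpace ℝ E] in
theorem disp {f : E → E} {e d : ℝ} (hf : ∀ z, ‖f z - z‖ ≤ e) {z y : E} (h : ‖z - y‖ ≤ d) :
    ‖f z - y‖ ≤ d + e := by
  have := norm_sub_le_norm_sub_add_norm_sub (f z) z y
  linarith [hf z]

end Gen

variable {ι : Type} [Fintype ι] [DecidableEq ι]
variable {lam : ℕ → ℝ} {θ : ℕ → ι → (ι → ℝ) → ℝ} {κ : ℕ → ℝ}
  {H a ρ S Γ : ℕ → (ι → ℝ) × ℝ → (ι → ℝ) × ℝ} {O Bad : ℕ → Set ((ι → ℝ) × ℝ)}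
  {g : ℕ → (ι → ℝ) → ι → ℝ} {U : ℕ → (ι → ℝ) → ℝ}

omit [Fintype ι] [DecidableEq ι] in
/-- the seven active maps -/
def Xi (H S Γ ρ a : ℕ → (ι → ℝ) × ℝ → (ι → ℝ) × ℝ) (j : ℕ) (y : (ι → ℝ) × ℝ) : (ι → ℝ) × ℝ :=
  H j (H (j + 1) (Γ j (S j (ρ (j + 1) (a (j + 1) (a j y))))))

theorem moves (hG : Geo lam) (hT : PackT lam θ H g U) (hF : PackF lam θ κ a ρ S Γ O Bad) (j : ℕ) :
    (∀ z, ‖a j z - z‖ ≤ ell (lam j) / 100) ∧ (∀ z, ‖a (j + 1) z - z‖ ≤ ell (lam j) / 100) ∧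
    (∀ z, ‖ρ (j + 1) z - z‖ ≤ ell (lam j) / 100) ∧ (∀ z, ‖S j z - z‖ ≤ ell (lam j) / 100) ∧
    (∀ z, ‖Γ j z - z‖ ≤ ell (lam j) / 100) ∧ (∀ z, ‖H (j + 1) z - z‖ ≤ ell (lam j) / 100) ∧
    ∀ z, ‖H j z - z‖ ≤ ell (lam j) / 100 := by
  have h1 := ell_div_le hG j
  have h2 := ell_div_le' hG j
  have k2 := (hF.l1 j).k2
  have k0 : 0 < κ j := (div_pos (ell_pos _) (pow_pos (Lam_pos _) 3)).trans_le (hF.l1 j).k1
  have L0 := Lam_pos (lam j)
  have h3 : Lam (lam j) * κ j ≤ ell (lam j) / 100 := by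
    refine le_trans ?_ h1
    calc _ ≤ Lam (lam j) * (ell (lam j) / Lam (lam j) ^ 2) := by gcongr
      _ = _ := by field_simp
  refine ⟨fun z => ((hF.l1 j).ad z).trans h1, fun z => ((hF.l1 (j + 1)).ad z).trans h2,
    fun z => ((hF.l1 (j + 1)).rd z).trans h2, fun z => ((hF.l2 j).sd z).trans ?_,
    fun z => ((hF.l2 j).gd z).trans ?_, fun z => (hT.hd (j + 1) z).trans h2,
    fun z => (hT.hd j z).trans h1⟩
  · exact (mul_le_mul_of_nonneg_right (exp_le_Lam hG j) k0.le).trans h3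
  · have a1 := Lam_ge hG (j + 1)
    have a2 := Lam_ge hG j
    have a3 : κ j / Lam (lam (j + 1)) ^ 2 ≤ κ j := div_le_self k0.le (one_le_pow₀ (by linarith))
    nlinarith

theorem xi_disp (hG : Geo lam) (hT : PackT lam θ H g U) (hF : PackF lam θ κ a ρ S Γ O Bad)
    (j : ℕ) (y : (ι → ℝ) × ℝ) : ‖Xi H S Γ ρ a j y - y‖ ≤ ell (lam j) / 4 := by
  obtain ⟨m1, m2, m3, m4, m5, m6, m7⟩ := moves hG hT hF j
  have := disp m7 (disp m6 (disp m5 (disp m4 (disp m3 (disp m2 (m1 y))))))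
  have h := ell_pos (lam j)
  exact this.trans (by linarith)

omit [DecidableEq ι] in
theorem snd_le {z y : (ι → ℝ) × ℝ} {d : ℝ} (h : ‖z - y‖ ≤ d) : |z.2| ≤ |y.2| + d := by
  have h1 : |z.2 - y.2| ≤ d := (norm_snd_le (z - y)).trans h
  have := abs_sub_abs_le_abs_sub z.2 y.2
  linarith

omit [DecidableEq ι] in
theorem fst_le {z y : (ι → ℝ) × ℝ} {d : ℝ} (h : ‖z - y‖ ≤ d) : ‖z.1 - y.1‖ ≤ d :=
  (norm_fst_le (z - y)).trans h

theorem ff_eq (hG : Geo lam) (hT : PackT lam θ H g U) (hF : PackF lam θ κ a ρ S Γ O Bad)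
    (j : ℕ) {y : (ι → ℝ) × ℝ} (hy : |y.2| ≤ 2 * ell (lam j)) :
    FF H S Γ ρ a (j + 1) y = Phi (Fw H j (Xi H S Γ ρ a j y)) := by
  have l0 := ell_pos (lam j)
  have top : ∀ i < j, ∀ z : (ι → ℝ) × ℝ, |z.2| ≤ 3 * ell (lam j) → -ell (lam i) / 3 ≤ z.2 :=
    fun i hi z hz => by linarith [ell_lt hG hi, (abs_le.1 hz).1]
  have e1 : ∀ i ≤ j, Gs a i y = y := fun i hi => by
    induction i with
    | zero => rfl
    | succ i ih =>
      change a i (Gs a i y) = y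
      rw [ih (Nat.le_of_succ_le hi)]
      exact (hF.l1 i).atop y (top i hi y (by linarith))
  have e2 : ∀ z : (ι → ℝ) × ℝ, |z.2| ≤ 3 * ell (lam j) → ∀ i ≤ j,
      Fw (fun i z => Γ i (S i z)) i z = z := fun z hz i hi => by
    induction i with
    | zero => rfl
    | succ i ih =>
      change Fw (fun i z => Γ i (S i z)) i (Γ i (S i z)) = z
      rw [(hF.l2 i).stop z (top i hi z hz), (hF.l2 i).gtop z (top i hi z hz)]
      exact ih (Nat.le_of_succ_le hi)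
  obtain ⟨m1, m2, m3, m4, m5, -, -⟩ := moves hG hT hF j
  have d := snd_le (disp m5 (disp m4 (disp m3 (disp m2 (m1 y)))))
  change Phi (Fw H j (H j (H (j + 1) (Fw (fun i z => Γ i (S i z)) j
    (Γ j (S j (ρ (j + 1) (a (j + 1) (a j (Gs a j y)))))))))) = _
  rw [e1 j le_rfl, e2 _ (by linarith) j le_rfl]
  rfl

theorem fw_eq (hG : Geo lam) (hT : PackT lam θ H g U) (j : ℕ) : ∀ i ≤ j, ∀ v : (ι → ℝ) × ℝ,
    |v.2| ≤ 3 * ell (lam j) → Fw H i v = (g i v.1, v.2) := fun i hi => by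
  induction i with
  | zero =>
    intro v _
    rw [hT.g0]
    rfl
  | succ i ih =>
    intro v hv
    change Fw H i (H i v) = _
    have := ell_pos (lam j)
    rw [ih (Nat.le_of_succ_le hi) _ (by rw [hT.h2]; exact hv), hT.h2,
      hT.hon i v (by linarith [ell_lt hG (Nat.lt_of_succ_le hi)])]

theorem xi_c2b (hG : Geo lam) (hT : PackT lam θ H g U) (hF : PackF lam θ κ a ρ S Γ O Bad)
    (j : ℕ) : C2B (Xi H S Γ ρ a j) ((Lam (lam (j + 1)) ^ 20) ^ 7)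
      (7 * (Lam (lam (j + 1)) ^ 20) ^ 13 / ell (lam (j + 1))) := by
  have L1 : 1 ≤ Lam (lam (j + 1)) := by linarith [Lam_ge hG (j + 1)]
  have L0 := Lam_pos (lam j)
  have LL := Lam_mono hG j
  have hZ : 1 ≤ Lam (lam (j + 1)) ^ 20 := one_le_pow₀ L1
  have hr := ell_pos (lam (j + 1))
  have l0 := ell_pos (lam j)
  have ll : ell (lam (j + 1)) ≤ ell (lam j) := by linarith [ell_succ_le hG j]
  have b1 : Lam (lam j) ^ 20 ≤ Lam (lam (j + 1)) ^ 20 := by gcongr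
  have b2 : Lam (lam j) ^ 20 / ell (lam j) ≤ Lam (lam (j + 1)) ^ 20 / ell (lam (j + 1)) := by
    gcongr
  have b3 : Lam (lam (j + 1)) ^ 6 ≤ Lam (lam (j + 1)) ^ 20 := pow_le_pow_right₀ L1 (by norm_num)
  have b4 : Real.exp (lam (j + 1)) * κ j / κ (j + 1) ≤ Lam (lam (j + 1)) ^ 20 := by
    have k1 := (hF.l1 (j + 1)).k1
    have k2 := (hF.l1 j).k2
    rw [ell_div_Lam_pow] at k1 k2
    have k0 : 0 < κ (j + 1) := (Real.exp_pos _).trans_le k1
    rw [div_le_iff₀ k0, Lam_pow]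
    calc _ ≤ Real.exp (lam (j + 1)) * Real.exp (-((16800000 + 2800 * (2 : ℕ)) * lam j)) :=
          mul_le_mul_of_nonneg_left k2 (Real.exp_pos _).le
      _ ≤ Real.exp ((20 : ℕ) * (2800 * lam (j + 1))) *
            Real.exp (-((16800000 + 2800 * (3 : ℕ)) * lam (j + 1))) := by
          rw [← Real.exp_add, ← Real.exp_add]
          refine Real.exp_le_exp.2 ?_
          push_cast
          linarith [hG.ge400 j, hG.succ j]
      _ ≤ _ := mul_le_mul_of_nonneg_left k1 (Real.exp_pos _).le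
  have c1 : C2B (a j) ((Lam (lam (j + 1)) ^ 20) ^ (0 + 1))
      (1 * (Lam (lam (j + 1)) ^ 20) ^ (2 * 0 + 1) / ell (lam (j + 1))) :=
    (hF.l1 j).aC.mono (by simpa using b1) (by simpa using b2)
  have c2 := step hZ hr (by norm_num) (hF.l1 (j + 1)).aC c1
  have c3 := step hZ hr (by norm_num) (hF.l1 (j + 1)).rC c2
  have c4 := step hZ hr (by norm_num) ((hF.l2 j).sC.mono b4 le_rfl) c3
  have c5 := step hZ hr (by norm_num) ((hF.l2 j).gC.mono
    (le_trans (by gcongr; exact exp_le_Lam hG (j + 1)) b3) le_rfl) c4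
  have c6 := step hZ hr (by norm_num) ((hT.hC (j + 1)).mono b3 le_rfl) c5
  have c7 := step hZ hr (by norm_num) ((hT.hC j).mono (le_trans (by gcongr) b3) b2) c6
  exact c7.mono le_rfl (le_of_eq (by norm_num))

theorem xi_pass (hG : Geo lam) (hT : PackT lam θ H g U) (hF : PackF lam θ κ a ρ S Γ O Bad)
    (j : ℕ) {y y' : (ι → ℝ) × ℝ} {k : ι}
    (h : ∀ x', ‖x' - y.1‖ ≤ ell (lam j) → θ j k x' = 0 ∧ θ (j + 1) k x' = 0)
    (hy : ‖y' - y‖ ≤ ell (lam j) / 4) : (Xi H S Γ ρ a j y').1 k = y'.1 k := by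
  obtain ⟨m1, m2, m3, m4, m5, m6, -⟩ := moves hG hT hF j
  have l0 := ell_pos (lam j)
  have d1 := disp m1 hy
  have d4 := disp m4 (disp m3 (disp m2 d1))
  have d5 := disp m5 d4
  have d6 := disp m6 d5
  unfold Xi
  rw [hT.hpass j _ k (h _ ((fst_le d6).trans (by linarith))).1,
    hT.hpass (j + 1) _ k (h _ ((fst_le d5).trans (by linarith))).2,
    (hF.l2 j).gpass _ k fun z hz => (h z ?_).2, (hF.l2 j).s1, (hF.l1 (j + 1)).r1,
    (hF.l1 (j + 1)).apass _ k (h _ ((fst_le d1).trans (by linarith))).2,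
    (hF.l1 j).apass _ k (h _ ((fst_le hy).trans (by linarith))).1]
  have := norm_sub_le_norm_sub_add_norm_sub z (S j (ρ (j + 1) (a (j + 1) (a j y')))).1 y.1
  linarith [fst_le d4, ell_succ_le hG j]

theorem first (hG : Geo lam) (hT : PackT lam θ H g U) (hF : PackF lam θ κ a ρ S Γ O Bad)
    (j : ℕ) (y y' : (ι → ℝ) × ℝ) :
    ‖Phi (Fw H j (Xi H S Γ ρ a j y')) - Phi (Fw H j (Xi H S Γ ρ a j y))‖ ≤
      Lam (lam (j + 1)) ^ 2600 * ‖y' - y‖ := by
  have h1 := Phi_c2b.lip (Fw H j (Xi H S Γ ρ a j y')) (Fw H j (Xi H S Γ ρ a j y))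
  have h2 := fw_lip H (fun i => Lam (lam i) ^ 6) (fun i => Lam (lam i) ^ 2400)
    (one_le_pow₀ (by linarith [Lam_ge hG 0])) (fun i => (pow_pos (Lam_pos _) _).le)
    (fun i => by
      rw [← pow_add, Lam_pow, Lam_pow, hG.succ]
      refine le_of_eq (congrArg Real.exp ?_)
      push_cast
      ring) (fun i => (hT.hC i).lip) j (Xi H S Γ ρ a j y') (Xi H S Γ ρ a j y)
  have h3 := (xi_c2b hG hT hF j).lip y' y
  have L0 := Lam_pos (lam j)
  have L1 := Lam_ge hG (j + 1)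
  have h4 : Lam (lam j) ^ 2400 ≤ Lam (lam (j + 1)) ^ 2400 :=
    pow_le_pow_left₀ L0.le (Lam_mono hG j) _
  have h5 : 2 ≤ Lam (lam (j + 1)) ^ 60 :=
    le_trans (by linarith) (le_self_pow₀ (by linarith) (by norm_num))
  have h6 : Lam (lam (j + 1)) ^ 2600 =
      Lam (lam (j + 1)) ^ 60 * (Lam (lam (j + 1)) ^ 2400 * (Lam (lam (j + 1)) ^ 20) ^ 7) := by
    rw [← pow_mul, ← pow_add, ← pow_add]
  have h7 : 0 ≤ (Lam (lam (j + 1)) ^ 20) ^ 7 * ‖y' - y‖ :=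
    mul_nonneg (pow_pos (pow_pos (Lam_pos _) _) _).le (norm_nonneg _)
  rw [h6]
  calc _ ≤ _ := h1
    _ ≤ 2 * (Lam (lam j) ^ 2400 * ((Lam (lam (j + 1)) ^ 20) ^ 7 * ‖y' - y‖)) :=
        mul_le_mul_of_nonneg_left (h2.trans (mul_le_mul_of_nonneg_left h3 (pow_pos L0 _).le))
          (by norm_num)
    _ ≤ Lam (lam (j + 1)) ^ 60 *
          (Lam (lam (j + 1)) ^ 2400 * ((Lam (lam (j + 1)) ^ 20) ^ 7 * ‖y' - y‖)) :=
        mul_le_mul h5 (mul_le_mul_of_nonneg_right h4 h7) (mul_nonneg (pow_pos L0 _).le h7)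
          (pow_pos (Lam_pos _) _).le
    _ = _ := by simp only [mul_assoc]

theorem column (hG : Geo lam) (hT : PackT lam θ H g U) (hF : PackF lam θ κ a ρ S Γ O Bad)
    (j : ℕ) (y v w : (ι → ℝ) × ℝ) (k : ι) :
    ‖D2 (fun z => (Xi H S Γ ρ a j z).1) y v w k •
        fderiv ℝ (g j) (Xi H S Γ ρ a j y).1 (Pi.single k 1)‖ ≤
      7 * (Lam (lam (j + 1)) ^ 20) ^ 13 / ell (lam (j + 1)) * ‖v‖ * ‖w‖ *
        (Lam (lam j) ^ 10 * (3 * U j y.1)) := by
  have c := (xi_c2b hG hT hF j).fst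
  have l0 := ell_pos (lam j)
  have L0 := Lam_pos (lam j)
  have B0 := c.nonneg2
  have U0 := hT.upos j y.1
  by_cases h : ∀ x', ‖x' - y.1‖ ≤ ell (lam j) → θ j k x' = 0 ∧ θ (j + 1) k x' = 0
  · let P : (ι → ℝ) →L[ℝ] ℝ := ContinuousLinearMap.proj k
    have e1 := D2_clm_comp P c.cd y v w
    have e2 : (fun z => P (Xi H S Γ ρ a j z).1) =ᶠ[𝓝 y]
        fun z => (P.comp (ContinuousLinearMap.fst ℝ (ι → ℝ) ℝ)) z := by
      filter_upwards [closedBall_mem_nhds y (by linarith : 0 < ell (lam j) / 4)] with z hz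
      exact xi_pass hG hT hF j h (mem_closedBall_iff_norm.1 hz)
    rw [D2_congr e2, D2_clm] at e1
    have e3 : D2 (fun z => (Xi H S Γ ρ a j z).1) y v w k = 0 := e1.symm
    rw [e3, zero_smul, norm_zero]
    positivity
  · push Not at h
    obtain ⟨x', h1, h2⟩ := h
    have h3 : θ j k x' ≠ 0 ∨ θ (j + 1) k x' ≠ 0 := by
      by_cases h0 : θ j k x' = 0
      · exact Or.inr (h2 h0)
      · exact Or.inl h0
    have h4 := fst_le (xi_disp hG hT hF j y)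
    have h5 := hT.gcol j (Xi H S Γ ρ a j y).1 x' k (by
      have := norm_sub_le_norm_sub_add_norm_sub (Xi H S Γ ρ a j y).1 y.1 x'
      rw [norm_sub_rev y.1] at this
      linarith) h3
    have h6 := hT.usv j y.1 x' (by rw [norm_sub_rev]; exact h1)
    have h7 := (norm_le_pi_norm (D2 (fun z => (Xi H S Γ ρ a j z).1) y v w) k).trans
      (norm_D2_apply_le _ y v w)
    have h8 := c.d2 y
    rw [norm_smul]
    refine mul_le_mul (h7.trans (by gcongr)) (h5.trans (by gcongr)) (norm_nonneg _)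
      (by positivity)

theorem second1 (hG : Geo lam) (hT : PackT lam θ H g U) (hF : PackF lam θ κ a ρ S Γ O Bad)
    (hN : (Fintype.card ι : ℝ) ≤ Real.exp (lam 0)) (j : ℕ) (y v w : (ι → ℝ) × ℝ) :
    ‖D2 (fun z => g j (Xi H S Γ ρ a j z).1) y v w‖ ≤
      Lam (lam (j + 1)) ^ 300 * (U j y.1 / ell (lam (j + 1))) * ‖v‖ * ‖w‖ := by
  have c := (xi_c2b hG hT hF j).fst
  have l0 := ell_pos (lam j)
  have hr := ell_pos (lam (j + 1))
  have L0 := Lam_pos (lam j)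
  have L1 := Lam_ge hG (j + 1)
  have LL := Lam_mono hG j
  have U0 := hT.upos j y.1
  have ll : ell (lam (j + 1)) ≤ ell (lam j) := by linarith [ell_succ_le hG j]
  have hN' : (Fintype.card ι : ℝ) ≤ Lam (lam (j + 1)) :=
    hN.trans ((Real.exp_le_exp.2 (hG.mono (Nat.zero_le _))).trans (exp_le_Lam hG (j + 1)))
  rw [D2_comp_apply (hT.gcd j) c.cd]
  have a1 : ‖D2 (g j) (Xi H S Γ ρ a j y).1‖ ≤ 3 * U j y.1 / ell (lam (j + 1)) := by
    have := hT.usv j y.1 (Xi H S Γ ρ a j y).1 (by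
      rw [norm_sub_rev]
      linarith [fst_le (xi_disp hG hT hF j y)])
    exact (hT.gd2 j _).trans (by gcongr)
  have a2 : ∀ u, ‖fderiv ℝ (fun z => (Xi H S Γ ρ a j z).1) y u‖ ≤
      (Lam (lam (j + 1)) ^ 20) ^ 7 * ‖u‖ := fun u =>
    (ContinuousLinearMap.le_opNorm _ _).trans (by gcongr; exact c.d1 y)
  have a3 := (norm_D2_apply_le (g j) (Xi H S Γ ρ a j y).1 _ _).trans
    (mul_le_mul (mul_le_mul a1 (a2 v) (norm_nonneg _) (by positivity)) (a2 w) (norm_nonneg _)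
      (by positivity))
  set u := D2 (fun z => (Xi H S Γ ρ a j z).1) y v w with hu
  have a4 : fderiv ℝ (g j) (Xi H S Γ ρ a j y).1 u =
      ∑ k, u k • fderiv ℝ (g j) (Xi H S Γ ρ a j y).1 (Pi.single k 1) := by
    conv_lhs => rw [pi_eq_sum_univ' u]
    simp only [map_sum, map_smul]
  have a5 := (norm_sum_le _ _).trans
    (Finset.sum_le_sum (s := Finset.univ) fun k _ => column hG hT hF j y v w k)
  rw [← hu, ← a4, Finset.sum_const, Finset.card_univ, nsmul_eq_mul] at a5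
  refine (norm_add_le _ _).trans ((add_le_add a3 a5).trans ?_)
  set L := Lam (lam (j + 1))
  set q := U j y.1 / ell (lam (j + 1)) * ‖v‖ * ‖w‖ with hq
  have q0 : 0 ≤ q := by positivity
  have b1 : (Fintype.card ι : ℝ) * Lam (lam j) ^ 10 ≤ L * L ^ 10 := by gcongr
  have b2 : 3 * L ^ 280 + 21 * L ^ 260 * (L * L ^ 10) ≤ L ^ 300 := by
    have c1 : L ^ 271 ≤ L ^ 280 := pow_le_pow_right₀ (by linarith) (by norm_num)
    have c2 : 24 ≤ L ^ 20 := le_trans (by linarith) (le_self_pow₀ (by linarith) (by norm_num))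
    have c3 : 24 * L ^ 280 ≤ L ^ 20 * L ^ 280 := by gcongr
    calc _ = 3 * L ^ 280 + 21 * L ^ 271 := by ring
      _ ≤ 24 * L ^ 280 := by linarith
      _ ≤ _ := c3.trans (le_of_eq (by ring))
  calc _ = (3 * L ^ 280 + 21 * L ^ 260 * ((Fintype.card ι : ℝ) * Lam (lam j) ^ 10)) * q := by
        rw [hq]; ring
    _ ≤ (3 * L ^ 280 + 21 * L ^ 260 * (L * L ^ 10)) * q := by gcongr
    _ ≤ L ^ 300 * q := by gcongr
    _ = _ := by rw [hq]; ring

theorem second2 (hG : Geo lam) (hT : PackT lam θ H g U) (hF : PackF lam θ κ a ρ S Γ O Bad)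
    (j : ℕ) (y : (ι → ℝ) × ℝ) (ht : |y.2| ≤ ell (lam j)) :
    ‖D2 (fun z => phi (Xi H S Γ ρ a j z).2) y‖ ≤ Lam (lam (j + 1)) ^ 300 := by
  have c := (xi_c2b hG hT hF j).snd
  have l0 := ell_pos (lam j)
  have hr := ell_pos (lam (j + 1))
  have L1 := Lam_ge hG (j + 1)
  have l1 := ell_le_one hG j
  have l2 := ell_sq_le hG j
  have t1 : |(Xi H S Γ ρ a j y).2| ≤ 2 * ell (lam j) := by
    linarith [snd_le (xi_disp hG hT hF j y)]
  have a1 := (phi_deriv2_le (Xi H S Γ ρ a j y).2).trans t1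
  have a2 : |deriv phi (Xi H S Γ ρ a j y).2| ≤ (2 * ell (lam j)) ^ 2 / 2 := by
    refine (phi_deriv_le _).trans ?_
    rw [← sq_abs]
    gcongr
  refine (norm_D2_comp_le phi_c2b.cd c.cd y).trans ?_
  rw [norm_D2_real phi_c2b.cd, norm_fderiv_real]
  have a3 := c.d1 y
  have a4 := c.d2 y
  set L := Lam (lam (j + 1))
  have c1 : L ^ 260 ≤ L ^ 280 := pow_le_pow_right₀ (by linarith) (by norm_num)
  have c2 : 24 ≤ L ^ 20 := le_trans (by linarith) (le_self_pow₀ (by linarith) (by norm_num))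
  have c3 : 24 * L ^ 280 ≤ L ^ 20 * L ^ 280 := by gcongr
  have c4 : 0 < L ^ 280 := by positivity
  calc _ ≤ 2 * ell (lam j) * ((L ^ 20) ^ 7) ^ 2 +
          (2 * ell (lam j)) ^ 2 / 2 * (7 * (L ^ 20) ^ 13 / ell (lam (j + 1))) := by gcongr
    _ = 2 * ell (lam j) * L ^ 280 + 14 * (ell (lam j) ^ 2 / ell (lam (j + 1))) * L ^ 260 := by ring
    _ ≤ 2 * 1 * L ^ 280 + 14 * 1 * L ^ 280 := by gcongr
    _ ≤ L ^ 20 * L ^ 280 := by linarith
    _ = _ := by ring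

end PStripX

open PStripX

variable {ι : Type} [Fintype ι] [DecidableEq ι]
variable {lam : ℕ → ℝ} {θ : ℕ → ι → (ι → ℝ) → ℝ} {κ : ℕ → ℝ}
  {H a ρ S Γ : ℕ → (ι → ℝ) × ℝ → (ι → ℝ) × ℝ} {O Bad : ℕ → Set ((ι → ℝ) × ℝ)}
  {g : ℕ → (ι → ℝ) → ι → ℝ} {U : ℕ → (ι → ℝ) → ℝ}

theorem pack_strip (hG : Geo lam) (hT : PackT lam θ H g U) (hF : PackF lam θ κ a ρ S Γ O Bad)
    (hN : (Fintype.card ι : ℝ) ≤ Real.exp (lam 0)) (j : ℕ) (y : (ι → ℝ) × ℝ)
    (ht : |y.2| ≤ ell (lam j)) :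
    ‖fderiv ℝ (FF H S Γ ρ a (j + 1)) y‖ ≤ Lam (lam (j + 1)) ^ 2600 ∧
    ‖D2 (FF H S Γ ρ a (j + 1)) y‖ ≤
      Lam (lam (j + 1)) ^ 300 * (U j y.1 / ell (lam (j + 1)) + 1) := by
  have l0 := ell_pos (lam j)
  have hr := ell_pos (lam (j + 1))
  have L0 := Lam_pos (lam (j + 1))
  have U0 := hT.upos j y.1
  have nb : ∀ᶠ z in 𝓝 y, |z.2| ≤ 2 * ell (lam j) := by
    filter_upwards [closedBall_mem_nhds y l0] with z hz
    linarith [snd_le (mem_closedBall_iff_norm.1 hz)]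
  constructor
  · refine norm_fderiv_le_of_lip' ℝ (pow_pos L0 _).le ?_
    filter_upwards [nb] with z hz
    rw [ff_eq hG hT hF j hz, ff_eq hG hT hF j (y := y) (by linarith)]
    exact first hG hT hF j y z
  · have e : FF H S Γ ρ a (j + 1) =ᶠ[𝓝 y]
        fun z => (g j (Xi H S Γ ρ a j z).1, phi (Xi H S Γ ρ a j z).2) := by
      filter_upwards [nb] with z hz
      rw [ff_eq hG hT hF j hz, fw_eq hG hT j j le_rfl _ (by
        linarith [snd_le (xi_disp hG hT hF j z)])]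
      rfl
    have c := xi_c2b hG hT hF j
    have cd : ContDiff ℝ 2 fun z => (g j (Xi H S Γ ρ a j z).1, phi (Xi H S Γ ρ a j z).2) :=
      ((hT.gcd j).comp c.fst.cd).prodMk (phi_c2b.cd.comp c.snd.cd)
    rw [D2_congr e]
    refine norm_D2_le_of_apply (by positivity) fun v w => ?_
    have e1 := D2_clm_comp (ContinuousLinearMap.fst ℝ (ι → ℝ) ℝ) cd y v w
    have e2 := D2_clm_comp (ContinuousLinearMap.snd ℝ (ι → ℝ) ℝ) cd y v w
    simp only [ContinuousLinearMap.coe_fst', ContinuousLinearMap.coe_snd'] at e1 e2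
    rw [Prod.norm_def, ← e1, ← e2]
    refine max_le ((second1 hG hT hF hN j y v w).trans ?_)
      ((norm_D2_apply_le _ y v w).trans ?_)
    · gcongr
      linarith
    · have h1 := second2 hG hT hF j y ht
      have h2 : Lam (lam (j + 1)) ^ 300 ≤
          Lam (lam (j + 1)) ^ 300 * (U j y.1 / ell (lam (j + 1)) + 1) :=
        le_mul_of_one_le_right (by positivity) (le_add_of_nonneg_left (by positivity))
      gcongr
      exact h1.trans h2

end SJ
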