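import Mathlib
import Pool.Agent.MP_edaf86_an.Lims
import Pool.Agent.MP_edaf86_an.OneD1

namespace SJ
open Set Filter Topology MeasureTheory Metric Function
open scoped ENNReal

namespace PSupX

theorem two_le_exp {s : ℝ} (h : 1 ≤ s) : 2 ≤ Real.exp s := by
  have := Real.add_one_le_exp s
  linarith

theorem exp_add_le {s t d : ℝ} (hs : s + 1 ≤ d) (ht : t + 1 ≤ d) :
    Real.exp s + Real.exp t ≤ Real.exp d := by
  have h1 : Real.exp s ≤ Real.exp (d - 1) := Real.exp_le_exp.2 (by linarith)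
  have h2 : Real.exp t ≤ Real.exp (d - 1) := Real.exp_le_exp.2 (by linarith)
  have h3 := mul_exp_le (s := d - 1) (t := d) (two_le_exp le_rfl) (by linarith)
  linarith

variable {E F G : Type*} [NormedAddCommGroup E] [NormedSpace ℝ E] [NormedAddCommGroup F]
  [NormedSpace ℝ F] [NormedAddCommGroup G] [NormedSpace ℝ G]

theorem mono_exp {f : E → F} {a b c d : ℝ} (hf : C2B f (Real.exp a) (Real.exp b)) (h1 : a ≤ c)
    (h2 : b ≤ d) : C2B f (Real.exp c) (Real.exp d) :=
  hf.mono (Real.exp_le_exp.2 h1) (Real.exp_le_exp.2 h2)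

theorem comp_exp {g : F → G} {f : E → F} {a b a' b' : ℝ} (c d : ℝ)
    (hg : C2B g (Real.exp a') (Real.exp b')) (hf : C2B f (Real.exp a) (Real.exp b))
    (h1 : a' + a ≤ c) (h2 : b' + 2 * a + 1 ≤ d) (h3 : a' + b + 1 ≤ d) :
    C2B (fun x => g (f x)) (Real.exp c) (Real.exp d) := by
  refine (hg.comp hf).mono ?_ ?_
  · rw [← Real.exp_add]
    exact Real.exp_le_exp.2 h1
  · rw [exp_pow', ← Real.exp_add, ← Real.exp_add]
    exact exp_add_le (by push_cast; linarith) h3

theorem lam_exp {f : E → F} {x : ℝ} {n : ℕ} (hf : C2B f (Lam x ^ n) (Lam x ^ 20 / ell x)) :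
    C2B f (Real.exp (n * (2800 * x))) (Real.exp (16856000 * x)) := by
  rw [Lam_pow_div_ell, Lam_pow] at hf
  refine hf.mono le_rfl (le_of_eq ?_)
  congr 1
  push_cast
  ring

end PSupX

open PSupX

variable {ι : Type} [Fintype ι] [DecidableEq ι]
variable {lam : ℕ → ℝ} {θ : ℕ → ι → (ι → ℝ) → ℝ} {κ : ℕ → ℝ}
  {H a ρ S Γ : ℕ → (ι → ℝ) × ℝ → (ι → ℝ) × ℝ} {O Bad : ℕ → Set ((ι → ℝ) × ℝ)}
  {g : ℕ → (ι → ℝ) → ι → ℝ} {U : ℕ → (ι → ℝ) → ℝ}

omit [DecidableEq ι] in
theorem PSupX.corr (hG : Geo lam) (hF : PackF lam θ κ a ρ S Γ O Bad) (j : ℕ) :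
    C2B (fun z => Γ j (S j z)) (Real.exp (280000 * lam j)) (Real.exp (112000000 * lam (j + 1))) := by
  have hx := hG.ge400 j
  have hs := hG.succ j
  have e1 : Lam (lam (j + 1)) ^ 20 / ell (lam (j + 1)) = Real.exp (16856000 * lam (j + 1)) := by
    rw [Lam_pow_div_ell]
    congr 1
    push_cast
    ring
  have k1 := (hF.l1 (j + 1)).k1
  have k2 := (hF.l1 j).k2
  rw [ell_div_Lam_pow] at k1 k2
  have k0 : 0 < κ (j + 1) := (Real.exp_pos _).trans_le k1
  have h1 : C2B (S j) (Real.exp (45000 * lam j)) (Real.exp (16856000 * lam (j + 1))) := by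
    refine (hF.l2 j).sC.mono ?_ e1.le
    rw [div_le_iff₀ k0]
    calc _ ≤ Real.exp (lam (j + 1)) * Real.exp (-((16800000 + 2800 * (2 : ℕ)) * lam j)) :=
          mul_le_mul_of_nonneg_left k2 (Real.exp_pos _).le
      _ ≤ Real.exp (45000 * lam j) * Real.exp (-((16800000 + 2800 * (3 : ℕ)) * lam (j + 1))) := by
          rw [← Real.exp_add, ← Real.exp_add]
          refine Real.exp_le_exp.2 ?_
          push_cast
          linarith
      _ ≤ _ := mul_le_mul_of_nonneg_left k1 (Real.exp_pos _).le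
  have h2 : C2B (Γ j) (Real.exp (6 * lam (j + 1))) (Real.exp (16856000 * lam (j + 1))) :=
    (hF.l2 j).gC.mono (by rw [exp_pow']; exact le_of_eq (by norm_num)) e1.le
  exact comp_exp _ _ h2 h1 (by linarith) (by linarith) (by linarith)

theorem pack_sup (hG : Geo lam) (hT : PackT lam θ H g U) (hF : PackF lam θ κ a ρ S Γ O Bad)
    (j : ℕ) : C2B (FF H S Γ ρ a j) (Real.exp (560000 * (2800 * lam j)))
      (Real.exp (560000 * (2800 * lam j))) := by
  have hZ : ∀ i, 2 ≤ Real.exp (280000 * lam i) := fun i => two_le_exp (by linarith [hG.ge400 i])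
  have hY0 : 1 ≤ Real.exp (112000000 * lam 0) := Real.one_le_exp (by linarith [hG.ge400 0])
  have hY : ∀ i, Real.exp (112000000 * lam (i + 1)) =
      Real.exp (112000000 * lam i) * Real.exp (280000 * lam i) := fun i => by
    rw [← Real.exp_add, hG.succ]
    congr 1
    ring
  have hx := hG.ge400 j
  have hs := hG.succ j
  have h1 := gs_c2b a (fun i => Real.exp (280000 * lam i)) (fun i => Real.exp (112000000 * lam i))
    hZ hY0 hY (fun i => mono_exp (lam_exp (hF.l1 i).aC) (by push_cast; linarith [hG.ge400 i])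
      (by linarith [hG.ge400 i, hG.succ i])) (j + 1)
  have h2 := lam_exp (hF.l1 j).rC
  have h3 := fw_c2b (fun i z => Γ i (S i z)) (fun i => Real.exp (280000 * lam i))
    (fun i => Real.exp (112000000 * lam i)) hZ hY0 hY (PSupX.corr hG hF) j
  have h4 := fw_c2b H (fun i => Real.exp (280000 * lam i)) (fun i => Real.exp (112000000 * lam i))
    hZ hY0 hY (fun i => mono_exp (lam_exp (hT.hC i)) (by push_cast; linarith [hG.ge400 i])
      (by linarith [hG.ge400 i, hG.succ i])) (j + 1)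
  have h5 : C2B (Phi : (ι → ℝ) × ℝ → (ι → ℝ) × ℝ) (Real.exp 1) (Real.exp 0) :=
    Phi_c2b.mono (two_le_exp le_rfl) Real.exp_zero.ge
  rw [exp_pow'] at h1 h3 h4
  push_cast at h1 h2 h3 h4
  have c1 := comp_exp (224560000 * lam j) (673680000 * lam j + 1) h2 h1 (by linarith) (by linarith)
    (by linarith)
  have c2 := comp_exp (336840000 * lam j) (898240000 * lam j + 1) h3 c1 (by linarith) (by linarith)
    (by linarith)
  have c3 := comp_exp (449120000 * lam j) (1122800000 * lam j + 1) h4 c2 (by linarith)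
    (by linarith) (by linarith)
  have c4 := comp_exp (560000 * (2800 * lam j)) (560000 * (2800 * lam j)) h5 c3 (by linarith)
    (by linarith) (by linarith)
  exact c4

end SJ
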