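import Mathlib
import Pool.Agent.MP_edaf86_an.PLocal
import Pool.Agent.MP_edaf86_an.PSup
import Pool.Agent.MP_edaf86_an.PStrip

namespace SJ
open Set Filter Topology MeasureTheory Metric Function
open scoped ENNReal

variable {ι : Type} [Fintype ι] [DecidableEq ι]
variable {lam : ℕ → ℝ} {θ : ℕ → ι → (ι → ℝ) → ℝ} {κ : ℕ → ℝ}
  {H a ρ S Γ : ℕ → (ι → ℝ) × ℝ → (ι → ℝ) × ℝ} {O Bad : ℕ → Set ((ι → ℝ) × ℝ)}
  {g : ℕ → (ι → ℝ) → ι → ℝ} {U : ℕ → (ι → ℝ) → ℝ}

namespace PIntX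

omit [DecidableEq ι] in
theorem strip_int {u : (ι → ℝ) → ℝ} (hu : Continuous u) (l : ℝ) :
    ∫⁻ y in ball (0 : (ι → ℝ) × ℝ) 1,
      {y : (ι → ℝ) × ℝ | |y.2| ≤ l}.indicator (fun y => ENNReal.ofReal (u y.1)) y ≤
      (∫⁻ x in ball (0 : ι → ℝ) 1, ENNReal.ofReal (u x)) * ENNReal.ofReal (2 * l) := by
  have hm : MeasurableSet {y : (ι → ℝ) × ℝ | |y.2| ≤ l} :=
    (isClosed_le (by fun_prop) continuous_const).measurableSet
  have hu' : Measurable fun x => ENNReal.ofReal (u x) := hu.measurable.ennreal_ofReal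
  rw [lintegral_indicator hm, Measure.restrict_restrict hm]
  refine le_trans (lintegral_mono_set (t := ball (0 : ι → ℝ) 1 ×ˢ Icc (-l) l) ?_) (le_of_eq ?_)
  · rintro y ⟨h₁, h₂⟩
    refine ⟨?_, abs_le.1 h₁⟩
    rw [mem_ball_zero_iff] at h₂ ⊢
    exact (norm_fst_le y).trans_lt h₂
  · rw [Measure.volume_eq_prod, ← Measure.prod_restrict,
      lintegral_prod (fun y : (ι → ℝ) × ℝ => ENNReal.ofReal (u y.1))
        (hu'.comp measurable_fst).aemeasurable]
    simp only [lintegral_const, Measure.restrict_apply_univ, Real.volume_Icc]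
    rw [lintegral_mul_const _ hu']
    congr 2
    ring

omit [DecidableEq ι] in
theorem master {F : Type*} [NormedAddCommGroup F] (D D' : (ι → ℝ) × ℝ → F) {u : (ι → ℝ) → ℝ}
    (hu : Continuous u) {l M z e₁ e₂ : ℝ} {B₁ B₂ : Set ((ι → ℝ) × ℝ)} (hl : 0 ≤ l) (hz : 0 ≤ z)
    (he₁ : 0 ≤ e₁) (he₂ : 0 ≤ e₂) (hM : 0 ≤ M)
    (h₀ : ∫⁻ x in ball (0 : ι → ℝ) 1, ENNReal.ofReal (u x) ≤ ENNReal.ofReal z)
    (h₁ : volume (B₁ ∩ ball 0 1) ≤ ENNReal.ofReal e₁)
    (h₂ : volume (B₂ ∩ ball 0 1) ≤ ENNReal.ofReal e₂)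
    (hs : ∀ y, |y.2| ≤ l → ‖D y‖ + ‖D' y‖ ≤ u y.1) (hb : ∀ y, ‖D y‖ + ‖D' y‖ ≤ M)
    (h0 : ∀ y ∈ ball (0 : (ι → ℝ) × ℝ) 1, l ≤ |y.2| → y ∉ B₁ → y ∉ B₂ → D y = D' y) :
    ∫⁻ y in ball (0 : (ι → ℝ) × ℝ) 1, ‖D y - D' y‖ₑ ≤
      ENNReal.ofReal (z * (2 * l) + M * (e₁ + e₂)) := by
  have hm : MeasurableSet {y : (ι → ℝ) × ℝ | |y.2| ≤ l} :=
    (isClosed_le (by fun_prop) continuous_const).measurableSet
  have hu' : Measurable fun y : (ι → ℝ) × ℝ => ENNReal.ofReal (u y.1) :=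
    hu.measurable.ennreal_ofReal.comp measurable_fst
  calc _ ≤ ∫⁻ y in ball (0 : (ι → ℝ) × ℝ) 1,
        ({y : (ι → ℝ) × ℝ | |y.2| ≤ l}.indicator (fun y => ENNReal.ofReal (u y.1)) y +
          (B₁ ∩ ball 0 1 ∪ B₂ ∩ ball 0 1).indicator (fun _ => ENNReal.ofReal M) y) := by
        refine setLIntegral_mono' measurableSet_ball fun y hy => ?_
        rw [← ofReal_norm]
        by_cases c₁ : |y.2| ≤ l
        · rw [indicator_of_mem (by exact c₁)]
          exact (ENNReal.ofReal_le_ofReal ((norm_sub_le _ _).trans (hs y c₁))).trans le_self_add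
        by_cases c₂ : y ∈ B₁ ∩ ball 0 1 ∪ B₂ ∩ ball 0 1
        · rw [indicator_of_mem c₂]
          exact (ENNReal.ofReal_le_ofReal ((norm_sub_le _ _).trans (hb y))).trans le_add_self
        rw [h0 y hy (not_le.1 c₁).le (fun h => c₂ (Or.inl ⟨h, hy⟩)) fun h => c₂ (Or.inr ⟨h, hy⟩)]
        simp
    _ ≤ ENNReal.ofReal z * ENNReal.ofReal (2 * l) +
        ENNReal.ofReal M * (ENNReal.ofReal e₁ + ENNReal.ofReal e₂) := by
        rw [lintegral_add_left (hu'.indicator hm)]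
        refine add_le_add ((strip_int hu l).trans (by gcongr))
          ((lintegral_indicator_const_le _ _).trans ?_)
        gcongr
        exact (Measure.restrict_apply_le _ _).trans ((measure_union_le _ _).trans (add_le_add h₁ h₂))
    _ = _ := by
        rw [← ENNReal.ofReal_add he₁ he₂, ← ENNReal.ofReal_mul hz, ← ENNReal.ofReal_mul hM,
          ← ENNReal.ofReal_add (by positivity) (by positivity)]

omit [DecidableEq ι] in
theorem int_add {u v : (ι → ℝ) → ℝ} (hu : Continuous u) {z w : ℝ} (hz : 0 ≤ z) (hw : 0 ≤ w)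
    (h₁ : ∫⁻ x in ball (0 : ι → ℝ) 1, ENNReal.ofReal (u x) ≤ ENNReal.ofReal z)
    (h₂ : ∫⁻ x in ball (0 : ι → ℝ) 1, ENNReal.ofReal (v x) ≤ ENNReal.ofReal w) :
    ∫⁻ x in ball (0 : ι → ℝ) 1, ENNReal.ofReal (u x + v x) ≤ ENNReal.ofReal (z + w) := by
  refine (lintegral_mono fun x => ENNReal.ofReal_add_le).trans ?_
  rw [lintegral_add_left hu.measurable.ennreal_ofReal, ENNReal.ofReal_add hz hw]
  exact add_le_add h₁ h₂

omit [DecidableEq ι] in
theorem int_mul {u : (ι → ℝ) → ℝ} {c z : ℝ} (hc : 0 ≤ c)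
    (h₁ : ∫⁻ x in ball (0 : ι → ℝ) 1, ENNReal.ofReal (u x) ≤ ENNReal.ofReal z) :
    ∫⁻ x in ball (0 : ι → ℝ) 1, ENNReal.ofReal (c * u x) ≤ ENNReal.ofReal (c * z) := by
  simp only [ENNReal.ofReal_mul hc]
  rw [lintegral_const_mul' _ _ ENNReal.ofReal_ne_top]
  gcongr

omit [DecidableEq ι] in
theorem int_fin {u : (ι → ℝ) → ℝ} (hu : Continuous u) : ∃ z, 0 ≤ z ∧
    ∫⁻ x in ball (0 : ι → ℝ) 1, ENNReal.ofReal (u x) ≤ ENNReal.ofReal z := by
  have h : IntegrableOn u (ball (0 : ι → ℝ) 1) :=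
    (hu.continuousOn.integrableOn_compact (isCompact_closedBall 0 1)).mono_set
      ball_subset_closedBall
  exact ⟨_, ENNReal.toReal_nonneg, (ENNReal.ofReal_toReal h.lintegral_lt_top.ne).ge⟩

theorem int_U (hG : Geo lam) (hT : PackT lam θ H g U) : ∃ c, 0 ≤ c ∧ ∀ j,
    ∫⁻ x in ball (0 : ι → ℝ) 1, ENNReal.ofReal (U j x) ≤
      ENNReal.ofReal (c * Real.exp (-(1120000 * lam j))) := by
  obtain ⟨z, hz, h⟩ := int_fin (hT.ucont 0)
  refine ⟨z * Real.exp (1120000 * lam 0), by positivity, fun j => ?_⟩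
  induction j with
  | zero => rwa [mul_assoc, ← Real.exp_add, add_neg_cancel, Real.exp_zero, mul_one]
  | succ j ih =>
    refine (hT.uint j).trans ((mul_le_mul_right ih _).trans (le_of_eq ?_))
    rw [← ENNReal.ofReal_mul (one_div_pos.2 (Lam_pos _)).le, Lam_eq, one_div, ← Real.exp_neg,
      mul_left_comm, ← Real.exp_add, hG.succ]
    congr 3
    ring

end PIntX

open PIntX in
theorem pack_int (hG : Geo lam) (hT : PackT lam θ H g U) (hF : PackF lam θ κ a ρ S Γ O Bad)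
    (hN : (Fintype.card ι : ℝ) ≤ Real.exp (lam 0)) : ∃ C : ℝ, 10 ≤ C ∧ ∀ j, 1 ≤ j →
    (∫⁻ y in ball (0 : (ι → ℝ) × ℝ) 1,
      ‖fderiv ℝ (FF H S Γ ρ a (j + 1)) y - fderiv ℝ (FF H S Γ ρ a j) y‖ₑ ≤
        ENNReal.ofReal (C * Real.exp (-(2800 * lam (j + 1))))) ∧
    (∫⁻ y in ball (0 : (ι → ℝ) × ℝ) 1,
      ‖D2 (FF H S Γ ρ a (j + 1)) y - D2 (FF H S Γ ρ a j) y‖ₑ ≤
        ENNReal.ofReal (C * Real.exp (-(2800 * lam (j + 1))))) := by
  obtain ⟨c, hc, hU⟩ := int_U hG hT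
  obtain ⟨V, hV, h1⟩ := int_fin (ι := ι) (u := fun _ => 1) continuous_const
  refine ⟨10 + 4 * c + 4 * V, by linarith, fun j hj => ?_⟩
  obtain ⟨i, rfl⟩ : ∃ i, j = i + 1 := ⟨j - 1, by omega⟩
  have s₁ := hG.succ i
  have s₂ := hG.succ (i + 1)
  have x₀ := hG.ge400 i
  have hl : ell (lam (i + 1)) ≤ ell (lam i) := PLocalX.ell_anti (hG.mono (Nat.le_succ i))
  have p₁ := pack_sup hG hT hF (i + 1)
  have p₂ := pack_sup hG hT hF (i + 1 + 1)
  have q₁ := fun y (h : |y.2| ≤ ell (lam (i + 1))) => pack_strip hG hT hF hN i y (h.trans hl)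
  have q₂ := pack_strip hG hT hF hN (i + 1)
  have loc := pack_local hG hT hF (i + 1)
  have b₁ := hF.bad (i + 1)
  have b₂ := hF.bad (i + 1 + 1)
  have U₁ := hU i
  have U₂ := hU (i + 1)
  generalize lam (i + 1 + 1) = x₂ at *
  generalize lam (i + 1) = x₁ at *
  have hM : Real.exp (560000 * (2800 * x₁)) ≤ Real.exp (560000 * (2800 * x₂)) :=
    Real.exp_le_exp.2 (by linarith)
  have L₁ := Lam_pos x₁
  have L₂ := Lam_pos x₂
  have l₁ := ell_pos x₁
  have l₂ := ell_pos x₂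
  have he := Real.exp_pos (-(2800 * x₂))
  have core : 2 * Real.exp (560000 * (2800 * x₂)) * (Real.exp (-(600000 * 2800 * x₁)) +
      Real.exp (-(600000 * 2800 * x₂))) ≤ 4 * Real.exp (-(2800 * x₂)) := by
    have t₁ : Real.exp (560000 * (2800 * x₂)) * Real.exp (-(600000 * 2800 * x₁)) ≤
      Real.exp (-(2800 * x₂)) := by rw [← Real.exp_add]; exact Real.exp_le_exp.2 (by linarith)
    have t₂ : Real.exp (560000 * (2800 * x₂)) * Real.exp (-(600000 * 2800 * x₂)) ≤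
      Real.exp (-(2800 * x₂)) := by rw [← Real.exp_add]; exact Real.exp_le_exp.2 (by linarith)
    linarith
  have t : ∀ x : ℝ, ∀ n : ℕ, x ≤ x₂ → 0 ≤ x → (n : ℝ) ≤ 2600 →
      Lam x ^ n * ell x₁ ≤ Real.exp (-(2800 * x₂)) := fun x n h h' hn => by
    rw [Lam_pow, ell_eq, ← Real.exp_add]
    refine Real.exp_le_exp.2 ?_
    nlinarith [mul_le_mul_of_nonneg_right hn h']
  constructor
  · refine (master (fderiv ℝ (FF H S Γ ρ a (i + 1 + 1))) (fderiv ℝ (FF H S Γ ρ a (i + 1)))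
      (u := fun _ => (Lam x₂ ^ 2600 + Lam x₁ ^ 2600) * 1)
      (M := 2 * Real.exp (560000 * (2800 * x₂))) continuous_const l₁.le (by positivity)
      (by positivity) (by positivity) (by positivity) (int_mul (by positivity) h1) b₁ b₂
      (fun y hy => ?_) (fun y => ?_)
      fun y hy h h' h'' => (loc y hy h h' h'').fderiv_eq).trans
      (ENNReal.ofReal_le_ofReal ?_)
    · linarith [(q₁ y hy).1, (q₂ y hy).1]
    · linarith [p₁.d1 y, p₂.d1 y]
    · have t₁ := mul_le_mul_of_nonneg_left (t x₂ 2600 le_rfl (by linarith) (by norm_num)) hV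
      have t₂ := mul_le_mul_of_nonneg_left (t x₁ 2600 (by linarith) (by linarith) (by norm_num)) hV
      have := mul_nonneg hc he.le
      generalize Lam x₂ ^ 2600 = A at *
      generalize Lam x₁ ^ 2600 = B at *
      linarith
  · have c₁ := hT.ucont i
    have c₂ := hT.ucont (i + 1)
    refine (master (D2 (FF H S Γ ρ a (i + 1 + 1))) (D2 (FF H S Γ ρ a (i + 1)))
      (u := fun x => Lam x₂ ^ 300 / ell x₂ * U (i + 1) x +
      (Lam x₁ ^ 300 / ell x₁ * U i x + (Lam x₂ ^ 300 + Lam x₁ ^ 300) * 1))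
      (M := 2 * Real.exp (560000 * (2800 * x₂))) (by fun_prop) l₁.le (by positivity)
      (by positivity) (by positivity) (by positivity)
      (int_add (by fun_prop) (by positivity) (by positivity) (int_mul (by positivity) U₂)
        (int_add (by fun_prop) (by positivity) (by positivity) (int_mul (by positivity) U₁)
          (int_mul (by positivity) h1))) b₁ b₂
      (fun y hy => ?_) (fun y => ?_)
      fun y hy h h' h'' => D2_congr (loc y hy h h' h'')).trans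
      (ENNReal.ofReal_le_ofReal ?_)
    · refine (add_le_add (q₂ y hy).2 (q₁ y hy).2).trans (le_of_eq ?_)
      ring
    · linarith [p₁.d2 y, p₂.d2 y]
    · have t₁ := mul_le_mul_of_nonneg_left (t x₂ 300 le_rfl (by linarith) (by norm_num)) hV
      have t₂ := mul_le_mul_of_nonneg_left (t x₁ 300 (by linarith) (by linarith) (by norm_num)) hV
      have t₃ : Lam x₂ ^ 300 / ell x₂ * Real.exp (-(1120000 * x₁)) * ell x₁ ≤
          Real.exp (-(2800 * x₂)) := by
        rw [Lam_pow_div_ell, ell_eq, ← Real.exp_add, ← Real.exp_add]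
        refine Real.exp_le_exp.2 ?_
        push_cast
        linarith
      have t₄ : Lam x₁ ^ 300 / ell x₁ * Real.exp (-(1120000 * lam i)) * ell x₁ ≤
          Real.exp (-(2800 * x₂)) := by
        rw [Lam_pow_div_ell, ell_eq, ← Real.exp_add, ← Real.exp_add]
        refine Real.exp_le_exp.2 ?_
        push_cast
        linarith
      have t₅ := mul_le_mul_of_nonneg_left t₃ hc
      have t₆ := mul_le_mul_of_nonneg_left t₄ hc
      generalize Lam x₂ ^ 300 / ell x₂ = A' at *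
      generalize Lam x₁ ^ 300 / ell x₁ = B' at *
      generalize Lam x₂ ^ 300 = A at *
      generalize Lam x₁ ^ 300 = B at *
      linarith

end SJ
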