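import Mathlib
import Pool.Agent.MP_edaf86_an.Lims
import Pool.Agent.MP_edaf86_an.OneD1

namespace SJ
open Set Filter Topology MeasureTheory Metric Function
open scoped ENNReal

variable {ι : Type} [Fintype ι] [DecidableEq ι]
variable {lam : ℕ → ℝ} {θ : ℕ → ι → (ι → ℝ) → ℝ} {κ : ℕ → ℝ}
  {H a ρ S Γ : ℕ → (ι → ℝ) × ℝ → (ι → ℝ) × ℝ} {O Bad : ℕ → Set ((ι → ℝ) × ℝ)}
  {g : ℕ → (ι → ℝ) → ι → ℝ} {U : ℕ → (ι → ℝ) → ℝ}

namespace PLimitX

theorem small_le (hG : Geo lam) (j : ℕ) :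
    ell (lam j) / Lam (lam j) ≤ Real.exp (-(1 * lam j)) := by
  rw [ell_div_Lam]
  refine Real.exp_le_exp.2 ?_
  have := hG.ge400 j
  linarith

theorem two_le_exp {x : ℝ} (h : 1 ≤ x) : 2 ≤ Real.exp x := by
  have := Real.add_one_le_exp x
  linarith

theorem kpos (hF : PackF lam θ κ a ρ S Γ O Bad) (j : ℕ) : 0 < κ j :=
  lt_of_lt_of_le (div_pos (ell_pos _) (pow_pos (Lam_pos _) 3)) (hF.l1 j).k1

theorem k_le (hF : PackF lam θ κ a ρ S Γ O Bad) (j : ℕ) :
    κ j ≤ Real.exp (-(16805600 * lam j)) := by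
  have h := (hF.l1 j).k2
  rw [ell_div_Lam_pow] at h
  refine h.trans (le_of_eq ?_)
  congr 1
  push_cast
  ring

theorem k_ge (hF : PackF lam θ κ a ρ S Γ O Bad) (j : ℕ) :
    Real.exp (-(16808400 * lam j)) ≤ κ j := by
  have h := (hF.l1 j).k1
  rw [ell_div_Lam_pow] at h
  refine le_trans (le_of_eq ?_) h
  congr 1
  push_cast
  ring

/-- limit of the backward compositions -/
theorem lim_G (hG : Geo lam) (hF : PackF lam θ κ a ρ S Γ O Bad) :
    ∃ G : (ι → ℝ) × ℝ → (ι → ℝ) × ℝ, Continuous G ∧ Injective G ∧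
      TendstoUniformly (Gs a) G atTop := by
  have hal := gs_antilip a (fun j => Real.exp (lam j) ^ 5) (fun j => Real.exp (2000 * lam j))
    (Real.one_le_exp (by have := hG.ge400 0; linarith))
    (fun j => by positivity)
    (fun j => by
      rw [exp_pow', ← Real.exp_add, hG.succ]
      refine Real.exp_le_exp.2 (le_of_eq ?_)
      push_cast
      ring)
    (fun j y y' => (hF.l1 j).aal y y')
  refine gs_limit a (fun j => ell (lam j) / Lam (lam j)) (fun j => Real.exp (2000 * lam j))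
    (fun j => (hF.l1 j).aC.cont) (fun j y => (hF.l1 j).ad y) (fun j => ?_)
    (fun j => (Real.exp_pos _).le) hal ?_
  · rw [ell_div_Lam, ell_div_Lam, hG.succ, le_div_iff₀ (by norm_num), mul_comm]
    have h4 := hG.ge400 j
    refine mul_exp_le (x := lam j) (two_le_exp (by linarith)) ?_
    linarith
  · have := hG.tendsto_exp (c := 16800800) (by norm_num)
    refine this.congr fun j => ?_
    rw [ell_div_Lam, ← Real.exp_add]
    congr 1
    ring

/-- limit of the horizontal degenerating compositions -/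
theorem lim_T (hG : Geo lam) (hT : PackT lam θ H g U) :
    ∃ T : (ι → ℝ) × ℝ → (ι → ℝ) × ℝ, Continuous T ∧ Injective T ∧
      TendstoUniformly (Fw H) T atTop := by
  have hl := fw_lip H (fun j => Lam (lam j) ^ 6) (fun j => Real.exp (6720000 * lam j))
    (Real.one_le_exp (by have := hG.ge400 0; linarith))
    (fun j => (pow_pos (Lam_pos _) 6).le)
    (fun j => by
      rw [Lam_pow, ← Real.exp_add, hG.succ]
      refine Real.exp_le_exp.2 (le_of_eq ?_)
      push_cast
      ring)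
    (fun j y y' => (hT.hC j).lip y y')
  refine fw_limit H (fun j => Real.exp (-(1 * lam j))) (fun j => Real.exp (-(1 * lam j)))
    (fun j => (hT.hC j).cont) hT.hinj (fun j y => (hT.hd j y).trans (small_le hG j))
    (hG.summable_exp one_pos) (fun j y => ?_) (hG.summable_exp one_pos)
  calc ‖Fw H (j + 1) y - Fw H j y‖ = ‖Fw H j (H j y) - Fw H j y‖ := rfl
    _ ≤ Real.exp (6720000 * lam j) * ‖H j y - y‖ := hl j _ _
    _ ≤ Real.exp (6720000 * lam j) * (ell (lam j) / Lam (lam j)) :=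
        mul_le_mul_of_nonneg_left (hT.hd j y) (Real.exp_pos _).le
    _ ≤ Real.exp (-(1 * lam j)) := by
        rw [ell_div_Lam, ← Real.exp_add]
        refine Real.exp_le_exp.2 ?_
        have := hG.ge400 j
        linarith

theorem pn_disp (hG : Geo lam) (hF : PackF lam θ κ a ρ S Γ O Bad) (j : ℕ) (y : (ι → ℝ) × ℝ) :
    ‖Γ j (S j y) - y‖ ≤ Real.exp (-(1 * lam j)) := by
  have h1 := (hF.l2 j).gd (S j y)
  have h2 := (hF.l2 j).sd y
  have hk := kpos hF j
  have h4 := hG.ge400 j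
  have h5 := hG.ge400 (j + 1)
  have h3 : κ j / Lam (lam (j + 1)) ^ 2 ≤ Real.exp (lam j) * κ j := by
    have h6 : 1 ≤ Lam (lam (j + 1)) ^ 2 := by
      rw [Lam_pow]
      refine Real.one_le_exp ?_
      push_cast
      linarith
    have h7 : 1 ≤ Real.exp (lam j) := Real.one_le_exp (by linarith)
    calc κ j / Lam (lam (j + 1)) ^ 2 ≤ κ j := div_le_self hk.le h6
      _ ≤ Real.exp (lam j) * κ j := le_mul_of_one_le_left hk.le h7
  have h8 : Real.exp (lam j) * κ j ≤ Real.exp (-(16805599 * lam j)) := by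
    calc Real.exp (lam j) * κ j ≤ Real.exp (lam j) * Real.exp (-(16805600 * lam j)) :=
          mul_le_mul_of_nonneg_left (k_le hF j) (Real.exp_pos _).le
      _ = _ := by
          rw [← Real.exp_add]
          congr 1
          ring
  calc ‖Γ j (S j y) - y‖ ≤ ‖Γ j (S j y) - S j y‖ + ‖S j y - y‖ := norm_sub_le_norm_sub_add_norm_sub _ _ _
    _ ≤ 2 * Real.exp (-(16805599 * lam j)) := by linarith
    _ ≤ Real.exp (-(1 * lam j)) :=
        mul_exp_le (x := lam j) (two_le_exp (by linarith)) (by linarith)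

theorem pn_lip (hG : Geo lam) (hF : PackF lam θ κ a ρ S Γ O Bad) (j : ℕ)
    (y y' : (ι → ℝ) × ℝ) :
    ‖Fw (fun i z => Γ i (S i z)) j y - Fw (fun i z => Γ i (S i z)) j y'‖ ≤
      Real.exp (2800 * lam (j + 1)) * κ 0 / κ j * ‖y - y'‖ := by
  refine fw_lip (fun i z => Γ i (S i z))
    (fun j => Real.exp (lam (j + 1)) ^ 6 * (Real.exp (lam (j + 1)) * κ j / κ (j + 1)))
    (fun j => Real.exp (2800 * lam (j + 1)) * κ 0 / κ j) ?_ (fun j => ?_) (fun j => ?_)
    (fun j y y' => ?_) j y y'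
  · have := kpos hF 0
    rw [mul_div_assoc, div_self this.ne', mul_one]
    refine Real.one_le_exp ?_
    have := hG.ge400 (0 + 1)
    linarith
  · have := kpos hF j
    have := kpos hF (j + 1)
    positivity
  · have h1 := kpos hF j
    have h2 := kpos hF (j + 1)
    have h3 : Real.exp (2800 * lam (j + 1 + 1)) =
        Real.exp (2800 * lam (j + 1)) * Real.exp (lam (j + 1)) ^ 6 * Real.exp (lam (j + 1)) := by
      rw [exp_pow', ← Real.exp_add, ← Real.exp_add, hG.succ (j + 1)]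
      congr 1
      push_cast
      ring
    rw [h3]
    refine le_of_eq ?_
    field_simp
  · calc ‖Γ j (S j y) - Γ j (S j y')‖ ≤ Real.exp (lam (j + 1)) ^ 6 * ‖S j y - S j y'‖ :=
          (hF.l2 j).gC.lip _ _
      _ ≤ Real.exp (lam (j + 1)) ^ 6 * (Real.exp (lam (j + 1)) * κ j / κ (j + 1) * ‖y - y'‖) :=
          mul_le_mul_of_nonneg_left ((hF.l2 j).sC.lip _ _) (by positivity)
      _ = _ := by ring

theorem s_vert (hF : PackF lam θ κ a ρ S Γ O Bad) (i : ℕ) (y y' : (ι → ℝ) × ℝ)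
    (h : y.1 = y'.1) : ‖S i y - S i y'‖ ≤ 2 * ‖y - y'‖ := by
  obtain ⟨z, t⟩ := y
  obtain ⟨z', t'⟩ := y'
  simp only at h
  subst h
  have h1 := (hF.l2 i).svert z t t'
  have h2 := (hF.l2 i).s1 (z, t)
  have h3 := (hF.l2 i).s1 (z, t')
  have h4 : |t - t'| ≤ ‖((z, t) : (ι → ℝ) × ℝ) - (z, t')‖ := by
    have := norm_snd_le (((z, t) : (ι → ℝ) × ℝ) - (z, t'))
    simpa using this
  rw [Prod.norm_def]
  refine max_le ?_ ?_
  · rw [Prod.fst_sub, h2, h3, sub_self, norm_zero]
    positivity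
  · rw [Prod.snd_sub, Real.norm_eq_abs]
    linarith

theorem pn_step (hG : Geo lam) (hF : PackF lam θ κ a ρ S Γ O Bad) (j : ℕ) (y : (ι → ℝ) × ℝ) :
    ‖Fw (fun i z => Γ i (S i z)) (j + 1) y - Fw (fun i z => Γ i (S i z)) j y‖ ≤
      (κ 0 + 2 * κ 0 + Real.exp (2794 * lam 0) * κ 0) * Real.exp (-(2793 * lam j)) := by
  set P : ℕ → (ι → ℝ) × ℝ → (ι → ℝ) × ℝ := fun i z => Γ i (S i z) with hP
  have hk0 := kpos hF 0
  have hkj := kpos hF j
  have hj := hG.ge400 j
  have hA : ‖Fw P j (Γ j (S j y)) - Fw P j (S j y)‖ ≤ κ 0 * Real.exp (-(2793 * lam j)) := by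
    calc ‖Fw P j (Γ j (S j y)) - Fw P j (S j y)‖
        ≤ Real.exp (2800 * lam (j + 1)) * κ 0 / κ j * ‖Γ j (S j y) - S j y‖ := pn_lip hG hF j _ _
      _ ≤ Real.exp (2800 * lam (j + 1)) * κ 0 / κ j * (κ j / Lam (lam (j + 1)) ^ 2) :=
          mul_le_mul_of_nonneg_left ((hF.l2 j).gd _) (by positivity)
      _ = κ 0 * (Real.exp (2800 * lam (j + 1)) / Lam (lam (j + 1)) ^ 2) := by
          field_simp
      _ ≤ κ 0 * Real.exp (-(2793 * lam j)) := by
          refine mul_le_mul_of_nonneg_left ?_ hk0.le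
          rw [Lam_pow, ← Real.exp_sub, hG.succ]
          refine Real.exp_le_exp.2 ?_
          push_cast
          linarith
  have hB : ‖Fw P j (S j y) - Fw P j y‖ ≤
      (2 * κ 0 + Real.exp (2794 * lam 0) * κ 0) * Real.exp (-(2793 * lam j)) := by
    rcases j with _ | i
    · calc ‖Fw P 0 (S 0 y) - Fw P 0 y‖ = ‖S 0 y - y‖ := rfl
        _ ≤ Real.exp (lam 0) * κ 0 := (hF.l2 0).sd y
        _ = (Real.exp (2794 * lam 0) * Real.exp (-(2793 * lam 0))) * κ 0 := by
            rw [← Real.exp_add]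
            congr 2
            ring
        _ ≤ _ := by
            have : 0 ≤ 2 * κ 0 * Real.exp (-(2793 * lam 0)) := by positivity
            nlinarith
    · have hki := kpos hF i
      have hi := hG.ge400 i
      have h1 : ‖S i (S (i + 1) y) - S i y‖ ≤ 2 * (Real.exp (lam (i + 1)) * κ (i + 1)) :=
        (s_vert hF i _ _ ((hF.l2 (i + 1)).s1 y)).trans
          (mul_le_mul_of_nonneg_left ((hF.l2 (i + 1)).sd y) (by norm_num))
      have h2 : κ (i + 1) / κ i ≤ Real.exp (-(5600 * lam (i + 1))) := by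
        calc κ (i + 1) / κ i
            ≤ Real.exp (-(16805600 * lam (i + 1))) / Real.exp (-(16808400 * lam i)) :=
              div_le_div₀ (Real.exp_pos _).le (k_le hF _) (Real.exp_pos _) (k_ge hF _)
          _ ≤ _ := by
              rw [← Real.exp_sub, hG.succ]
              refine Real.exp_le_exp.2 ?_
              linarith
      calc ‖Fw P (i + 1) (S (i + 1) y) - Fw P (i + 1) y‖
          = ‖Fw P i (Γ i (S i (S (i + 1) y))) - Fw P i (Γ i (S i y))‖ := rfl
        _ ≤ Real.exp (2800 * lam (i + 1)) * κ 0 / κ i * ‖Γ i (S i (S (i + 1) y)) - Γ i (S i y)‖ :=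
            pn_lip hG hF i _ _
        _ ≤ Real.exp (2800 * lam (i + 1)) * κ 0 / κ i *
              (Real.exp (lam (i + 1)) ^ 6 * (2 * (Real.exp (lam (i + 1)) * κ (i + 1)))) := by
            refine mul_le_mul_of_nonneg_left ?_ (by positivity)
            exact ((hF.l2 i).gC.lip _ _).trans (mul_le_mul_of_nonneg_left h1 (by positivity))
        _ = 2 * κ 0 * (Real.exp (2800 * lam (i + 1)) * Real.exp (lam (i + 1)) ^ 6 *
              Real.exp (lam (i + 1)) * (κ (i + 1) / κ i)) := by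
            field_simp
        _ ≤ 2 * κ 0 * (Real.exp (2800 * lam (i + 1)) * Real.exp (lam (i + 1)) ^ 6 *
              Real.exp (lam (i + 1)) * Real.exp (-(5600 * lam (i + 1)))) := by
            refine mul_le_mul_of_nonneg_left ?_ (by positivity)
            exact mul_le_mul_of_nonneg_left h2 (by positivity)
        _ = 2 * κ 0 * Real.exp (-(2793 * lam (i + 1))) := by
            rw [exp_pow', ← Real.exp_add, ← Real.exp_add, ← Real.exp_add]
            congr 2
            push_cast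
            ring
        _ ≤ _ := by
            have : 0 ≤ Real.exp (2794 * lam 0) * κ 0 * Real.exp (-(2793 * lam (i + 1))) := by
              positivity
            nlinarith
  calc ‖Fw P (j + 1) y - Fw P j y‖ = ‖Fw P j (Γ j (S j y)) - Fw P j y‖ := rfl
    _ ≤ ‖Fw P j (Γ j (S j y)) - Fw P j (S j y)‖ + ‖Fw P j (S j y) - Fw P j y‖ :=
        norm_sub_le_norm_sub_add_norm_sub _ _ _
    _ ≤ _ := by linarith

/-- limit of the correction compositions -/
theorem lim_P (hG : Geo lam) (hF : PackF lam θ κ a ρ S Γ O Bad) :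
    ∃ Ψ : (ι → ℝ) × ℝ → (ι → ℝ) × ℝ, Continuous Ψ ∧ Injective Ψ ∧
      TendstoUniformly (Fw fun i z => Γ i (S i z)) Ψ atTop :=
  fw_limit (fun i z => Γ i (S i z)) (fun j => Real.exp (-(1 * lam j)))
    (fun j => (κ 0 + 2 * κ 0 + Real.exp (2794 * lam 0) * κ 0) * Real.exp (-(2793 * lam j)))
    (fun j => (hF.l2 j).gC.cont.comp (hF.l2 j).sC.cont)
    (fun j => (hF.l2 j).ginj.comp (hF.l2 j).sinj) (pn_disp hG hF) (hG.summable_exp one_pos)
    (pn_step hG hF) ((hG.summable_exp (by norm_num)).mul_left _)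

theorem shift {E : Type*} [UniformSpace E] {F : ℕ → E → E} {f : E → E}
    (h : TendstoUniformly F f atTop) : TendstoUniformly (fun j => F (j + 1)) f atTop :=
  fun u hu => (tendsto_add_atTop_nat 1).eventually (h u hu)

theorem norm_Phi_le (w : (ι → ℝ) × ℝ) : ‖Phi w‖ ≤ ‖w‖ + 1 := by
  have h1 := norm_fst_le w
  have h2 := norm_snd_le w
  have h3 := abs_phi_le w.2
  rw [Real.norm_eq_abs] at h2
  rw [Prod.norm_def]
  refine max_le ?_ ?_
  · change ‖w.1‖ ≤ _
    linarith
  · change ‖phi w.2‖ ≤ _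
    rw [Real.norm_eq_abs]
    linarith

end PLimitX

theorem pack_limit (hG : Geo lam) (hT : PackT lam θ H g U) (hF : PackF lam θ κ a ρ S Γ O Bad) :
    ∃ f : (ι → ℝ) × ℝ → (ι → ℝ) × ℝ, Continuous f ∧ Injective f ∧
      (∀ y, Tendsto (fun j => FF H S Γ ρ a j y) atTop (𝓝 (f y))) ∧
      ∀ j, ∀ y ∈ ball (0 : (ι → ℝ) × ℝ) 1, ‖FF H S Γ ρ a j y‖ ≤ 10 := by
  obtain ⟨G, Gc, Gi, Gl⟩ := PLimitX.lim_G hG hF
  obtain ⟨T, Tc, Ti, Tl⟩ := PLimitX.lim_T hG hT
  obtain ⟨Ψ, Pc, Pi, Pl⟩ := PLimitX.lim_P hG hF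
  have hΦ : Continuous (Phi : (ι → ℝ) × ℝ → (ι → ℝ) × ℝ) := Phi_c2b.cont
  refine ⟨fun y => Phi (T (Ψ (G y))), hΦ.comp (Tc.comp (Pc.comp Gc)),
    Phi_inj.comp (Ti.comp (Pi.comp Gi)), fun y => ?_, fun j y hy => ?_⟩
  · have h1 : Tendsto (fun j => Gs a (j + 1) y) atTop (𝓝 (G y)) :=
      (PLimitX.shift Gl).tendsto_at y
    have h2 : Tendsto (fun j => ρ j (Gs a (j + 1) y) - Gs a (j + 1) y) atTop (𝓝 0) :=
      squeeze_zero_norm (fun j => ((hF.l1 j).rd _).trans (PLimitX.small_le hG j))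
        (hG.tendsto_exp one_pos)
    have h3 : Tendsto (fun j => ρ j (Gs a (j + 1) y)) atTop (𝓝 (G y)) := by
      have := h2.add h1
      simpa using this
    have h4 := Pl.tendsto_comp Pc.continuousAt h3
    have h5 := (PLimitX.shift Tl).tendsto_comp Tc.continuousAt h4
    exact (hΦ.tendsto _).comp h5
  · have hy1 : ‖y‖ < 1 := by simpa using hy
    have hs := fun n => hG.sum_exp_le (c := 1) le_rfl n
    have h1 := (gs_disp a (fun j => Real.exp (-(1 * lam j)))
      (fun j y => ((hF.l1 j).ad y).trans (PLimitX.small_le hG j)) (j + 1) y).trans (hs _)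
    have h2 : ‖ρ j (Gs a (j + 1) y) - Gs a (j + 1) y‖ ≤ 1 := by
      refine (((hF.l1 j).rd _).trans (PLimitX.small_le hG j)).trans ?_
      refine Real.exp_le_one_iff.2 ?_
      have := hG.ge400 j
      linarith
    have h3 := (fw_disp (fun i z => Γ i (S i z)) (fun j => Real.exp (-(1 * lam j)))
      (PLimitX.pn_disp hG hF) j (ρ j (Gs a (j + 1) y))).trans (hs _)
    have h4 := (fw_disp H (fun j => Real.exp (-(1 * lam j)))
      (fun j y => (hT.hd j y).trans (PLimitX.small_le hG j)) (j + 1)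
      (Fw (fun i z => Γ i (S i z)) j (ρ j (Gs a (j + 1) y)))).trans (hs _)
    have h5 := PLimitX.norm_Phi_le
      (Fw H (j + 1) (Fw (fun i z => Γ i (S i z)) j (ρ j (Gs a (j + 1) y))))
    have e1 := norm_le_norm_add_norm_sub' (Gs a (j + 1) y) y
    have e2 := norm_le_norm_add_norm_sub' (ρ j (Gs a (j + 1) y)) (Gs a (j + 1) y)
    have e3 := norm_le_norm_add_norm_sub'
      (Fw (fun i z => Γ i (S i z)) j (ρ j (Gs a (j + 1) y))) (ρ j (Gs a (j + 1) y))
    have e4 := norm_le_norm_add_norm_sub'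
      (Fw H (j + 1) (Fw (fun i z => Γ i (S i z)) j (ρ j (Gs a (j + 1) y))))
      (Fw (fun i z => Γ i (S i z)) j (ρ j (Gs a (j + 1) y)))
    unfold FF
    linarith

end SJ
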