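import Mathlib
import Pool.Agent.MP_edaf86_an.PLocal
import Pool.Agent.MP_edaf86_an.Inv

namespace SJ
open Set Filter Topology MeasureTheory Metric Function
open scoped ENNReal

namespace PSignX

theorem exp_small {t : ℝ} (h : 7 ≤ t) : Real.exp (-t) ≤ 1 / 8 := by
  rw [Real.exp_neg, ← one_div]
  refine one_div_le_one_div_of_le (by norm_num) ?_
  linarith [Real.add_one_le_exp t]

theorem ell_le {x : ℝ} (h : 400 ≤ x) : ell x ≤ 1 / 8 := exp_small (by linarith)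

theorem ell_div_le {x : ℝ} (h : 400 ≤ x) : ell x / Lam x ≤ 1 / 8 := by
  rw [ell_div_Lam]
  exact exp_small (by linarith)

variable {ι : Type} [Fintype ι]

theorem det_Phi {y : (ι → ℝ) × ℝ} (h0 : y.2 ≠ 0) (h : |y.2| ≤ 2) :
    0 < (fderiv ℝ (Phi : (ι → ℝ) × ℝ → (ι → ℝ) × ℝ) y).det := by
  have := det_vert (u := fun z : (ι → ℝ) × ℝ => phi z.2) (y := y)
    ((phi_c2b.diff _).comp y differentiableAt_snd)
  exact lt_of_lt_of_eq (phi_deriv_pos h0 h) this.symm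

theorem vol_pos {lam : ℕ → ℝ} (hG : Geo lam) {Bad : ℕ → Set ((ι → ℝ) × ℝ)}
    (hb : ∀ j, volume (Bad j ∩ ball 0 1) ≤ ENNReal.ofReal (Real.exp (-(600000 * 2800 * lam j))))
    {s : ℝ} (h1 : -1 ≤ s) (h2 : s ≤ 1 / 2) :
    0 < volume ((ball (0 : ι → ℝ) 1 ×ˢ Ioo s (s + 1 / 2)) \ ⋃ j, Bad j) := by
  rw [pos_iff_ne_zero]
  intro h0
  have a1 : volume (⋃ j, Bad j ∩ ball (0 : (ι → ℝ) × ℝ) 1) ≤ ENNReal.ofReal (1 / 100) := by
    refine (measure_iUnion_le _).trans ((ENNReal.tsum_le_tsum hb).trans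
      (ENNReal.tsum_le_of_sum_range_le fun n => ?_))
    rw [← ENNReal.ofReal_sum_of_nonneg fun j _ => (Real.exp_pos _).le]
    exact ENNReal.ofReal_le_ofReal (hG.sum_exp_le (c := 600000 * 2800) (by norm_num) n)
  have a2 : ENNReal.ofReal (1 / 2) ≤ volume (ball (0 : ι → ℝ) 1 ×ˢ Ioo s (s + 1 / 2)) := by
    rw [Measure.volume_eq_prod, Measure.prod_prod, Real.volume_pi_ball _ one_pos, Real.volume_Ioo,
      add_sub_cancel_left]
    exact le_mul_of_one_le_left' (ENNReal.one_le_ofReal.2 (one_le_pow₀ (by norm_num)))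
  have a3 : ball (0 : ι → ℝ) 1 ×ˢ Ioo s (s + 1 / 2) ⊆
      ((ball (0 : ι → ℝ) 1 ×ˢ Ioo s (s + 1 / 2)) \ ⋃ j, Bad j) ∪
        ⋃ j, Bad j ∩ ball (0 : (ι → ℝ) × ℝ) 1 := by
    intro y hy
    by_cases h : y ∈ ⋃ j, Bad j
    · obtain ⟨j, hj⟩ := mem_iUnion.1 h
      refine Or.inr (mem_iUnion.2 ⟨j, hj, ?_⟩)
      rw [← Prod.mk_zero_zero, ← ball_prod_same]
      refine ⟨hy.1, ?_⟩
      rw [mem_ball_zero_iff, Real.norm_eq_abs, abs_lt]
      exact ⟨by linarith [hy.2.1], by linarith [hy.2.2]⟩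
    · exact Or.inl ⟨hy, h⟩
  have a4 := a2.trans ((measure_mono a3).trans (measure_union_le _ _))
  rw [h0, zero_add] at a4
  have := (ENNReal.ofReal_le_ofReal_iff (by norm_num)).1 (a4.trans a1)
  norm_num at this

theorem mem_ball_of {s : ℝ} (h1 : -1 ≤ s) (h2 : s ≤ 1 / 2) {y : (ι → ℝ) × ℝ}
    (hy : y ∈ ball (0 : ι → ℝ) 1 ×ˢ Ioo s (s + 1 / 2)) : y ∈ ball (0 : (ι → ℝ) × ℝ) 1 := by
  rw [← Prod.mk_zero_zero, ← ball_prod_same]
  refine ⟨hy.1, ?_⟩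
  rw [mem_ball_zero_iff, Real.norm_eq_abs, abs_lt]
  exact ⟨by linarith [hy.2.1], by linarith [hy.2.2]⟩

end PSignX

open PSignX

variable {ι : Type} [Fintype ι] [DecidableEq ι]
variable {lam : ℕ → ℝ} {θ : ℕ → ι → (ι → ℝ) → ℝ} {κ : ℕ → ℝ}
  {H a ρ S Γ : ℕ → (ι → ℝ) × ℝ → (ι → ℝ) × ℝ} {O Bad : ℕ → Set ((ι → ℝ) × ℝ)}
  {g : ℕ → (ι → ℝ) → ι → ℝ} {U : ℕ → (ι → ℝ) → ℝ}

theorem pack_sign (hG : Geo lam) (hT : PackT lam θ H g U) (hF : PackF lam θ κ a ρ S Γ O Bad) :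
    ∃ Pos Neg : Set ((ι → ℝ) × ℝ), Pos ⊆ ball 0 1 ∧ Neg ⊆ ball 0 1 ∧
      0 < volume Pos ∧ 0 < volume Neg ∧
      (∀ y ∈ Pos, 0 < (fderiv ℝ (FF H S Γ ρ a 0) y).det ∧
        ∀ j, fderiv ℝ (FF H S Γ ρ a j) y = fderiv ℝ (FF H S Γ ρ a 0) y) ∧
      (∀ y ∈ Neg, (fderiv ℝ (FF H S Γ ρ a 0) y).det < 0 ∧
        ∀ j, fderiv ℝ (FF H S Γ ρ a j) y = fderiv ℝ (FF H S Γ ρ a 0) y) := by
  have key : ∀ y ∈ ball (0 : (ι → ℝ) × ℝ) 1, 1 / 2 ≤ |y.2| → y ∉ ⋃ j, Bad j →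
      ∀ j, fderiv ℝ (FF H S Γ ρ a j) y = fderiv ℝ (FF H S Γ ρ a 0) y := by
    intro y hy h hb j
    induction j with
    | zero => rfl
    | succ j ih =>
      rw [← ih]
      exact (pack_local hG hT hF j y hy (by linarith [ell_le (hG.ge400 j)])
        (fun h => hb (mem_iUnion.2 ⟨_, h⟩)) fun h => hb (mem_iUnion.2 ⟨_, h⟩)).fderiv_eq
  have l0 := hF.l1 0
  have e0 := ell_pos (lam 0)
  have e1 := ell_le (hG.ge400 0)
  have e2 := ell_div_le (hG.ge400 0)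
  have eF : ∀ z, FF H S Γ ρ a 0 z = Phi (H 0 (ρ 0 (a 0 z))) := fun _ => rfl
  refine ⟨(ball (0 : ι → ℝ) 1 ×ˢ Ioo (1 / 2) (1 / 2 + 1 / 2)) \ ⋃ j, Bad j,
    (ball (0 : ι → ℝ) 1 ×ˢ Ioo (-1) (-1 + 1 / 2)) \ ⋃ j, Bad j,
    fun y hy => mem_ball_of (by norm_num) le_rfl hy.1,
    fun y hy => mem_ball_of le_rfl (by norm_num) hy.1,
    vol_pos hG hF.bad (by norm_num) le_rfl, vol_pos hG hF.bad le_rfl (by norm_num),
    fun y hy => ⟨?_, key y (mem_ball_of (by norm_num) le_rfl hy.1) (hy.1.2.1.le.trans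
      (le_abs_self _)) hy.2⟩,
    fun y hy => ⟨?_, key y (mem_ball_of le_rfl (by norm_num) hy.1) (le_trans
      (by linarith [hy.1.2.2]) (neg_le_abs _)) hy.2⟩⟩
  · have h1 := hy.1.2.1
    have h2 := hy.1.2.2
    have : FF H S Γ ρ a 0 =ᶠ[𝓝 y] Phi := by
      filter_upwards [(continuous_snd.tendsto y).eventually (lt_mem_nhds h1)] with z hz
      rw [eF, l0.atop z (by linarith), l0.rtop z (by linarith),
        hT.hoff 0 z (le_trans (by linarith) (le_abs_self _))]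
    rw [this.fderiv_eq]
    exact det_Phi (by linarith) (abs_le.2 ⟨by linarith, by linarith⟩)
  · have h1 := hy.1.2.1
    have h2 := hy.1.2.2
    have hd : ∀ z, |(ρ 0 (a 0 z)).2 - z.2| ≤ 1 / 8 := fun z => by
      rw [← l0.a2 z]
      exact (norm_snd_le (ρ 0 (a 0 z) - a 0 z)).trans ((l0.rd _).trans e2)
    have : FF H S Γ ρ a 0 =ᶠ[𝓝 y] fun z => Phi (ρ 0 (a 0 z)) := by
      filter_upwards [(continuous_snd.tendsto y).eventually (gt_mem_nhds h2)] with z hz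
      rw [eF, hT.hoff 0 _ (le_trans (by linarith [(abs_le.1 (hd z)).2]) (neg_le_abs _))]
    have d1 := abs_le.1 (hd y)
    rw [this.fderiv_eq, det_fderiv_comp (f := fun z => ρ 0 (a 0 z)) (Phi_c2b.diff _)
      ((l0.rC.diff _).comp y (l0.aC.diff _)), det_fderiv_comp (l0.rC.diff _) (l0.aC.diff _)]
    refine mul_neg_of_pos_of_neg (det_Phi (by linarith) (abs_le.2 ⟨by linarith, by linarith⟩))
      (mul_neg_of_neg_of_pos (l0.odet _ (hF.good 0 y (mem_ball_of le_rfl (by norm_num) hy.1)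
        (fun h => hy.2 (mem_iUnion.2 ⟨_, h⟩)) (by linarith)))
        (det_pos_of_antilip l0.aC.cd l0.aal (0, 1) ?_ y))
    filter_upwards [(continuous_snd.tendsto ((0, 1) : (ι → ℝ) × ℝ)).eventually
      (lt_mem_nhds (show (0 : ℝ) < 1 from one_pos))] with z hz
    exact l0.atop z (by linarith)

end SJ
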