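import Mathlib
import Pool.Agent.MP_edaf86_an.Act
import Pool.Agent.MP_edaf86_an.OneD2

namespace SJ.TStepX
open Set Filter Topology MeasureTheory Metric Function

variable {ι : Type} [Fintype ι] [DecidableEq ι]

theorem norm_clm_le_sum {F : Type*} [NormedAddCommGroup F] [NormedSpace ℝ F]
    (L : (ι → ℝ) →L[ℝ] F) (u : ι → ℝ) : ‖L u‖ ≤ ∑ l, |u l| * ‖L (Pi.single l 1)‖ := by
  have h : u = ∑ l, u l • (Pi.single l (1 : ℝ) : ι → ℝ) := by
    ext k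
    simp [Finset.sum_apply, Pi.single_apply]
  calc ‖L u‖ = ‖∑ l, u l • L (Pi.single l 1)‖ := by
        conv_lhs => rw [h]
        simp only [map_sum, map_smul]
    _ ≤ ∑ l, ‖u l • L (Pi.single l 1)‖ := norm_sum_le _ _
    _ = _ := by simp only [norm_smul, Real.norm_eq_abs]

noncomputable def vv (δ : ℝ) (ω : ι → ℝ) (k : ι) (x : ι → ℝ) : ℝ := x k / δ + ω k

noncomputable def dd (θ : ι → (ι → ℝ) → ℝ) (δ : ℝ) (D : ℝ → ℝ) (ω : ι → ℝ) (x : ι → ℝ) :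
    ι → ℝ := fun k => θ k x * (δ * D (vv δ ω k x))

omit [DecidableEq ι] in
theorem vv_c2b {δ : ℝ} (hδ : 0 < δ) (ω : ι → ℝ) (k : ι) : C2B (vv δ ω k) (1 / δ) 0 := by
  have h := ((C2B.coord (ι := ι) k).div_const hδ).add_const (ω k)
  rw [zero_div] at h
  exact h

omit [DecidableEq ι] in
theorem comp_vv_c2b {δ A B : ℝ} (hδ : 0 < δ) (ω : ι → ℝ) (k : ι) {D : ℝ → ℝ} (hD : C2B D A B) :
    C2B (fun x => D (vv δ ω k x)) (A / δ) (B / δ ^ 2) := by
  refine (hD.comp (vv_c2b hδ ω k)).mono (le_of_eq ?_) (le_of_eq ?_)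
  · ring
  · field_simp
    ring

omit [DecidableEq ι] in
theorem Dv_c2b {δ A B : ℝ} (hδ : 0 < δ) (ω : ι → ℝ) (k : ι) {D : ℝ → ℝ} (hD : C2B D A B) :
    C2B (fun x => δ * D (vv δ ω k x)) A (B / δ) := by
  refine ((comp_vv_c2b hδ ω k hD).const_mul δ).mono (le_of_eq ?_) (le_of_eq ?_)
  · rw [abs_of_pos hδ]; field_simp
  · rw [abs_of_pos hδ]; field_simp

omit [Fintype ι] [DecidableEq ι] in
theorem Dv_abs {δ : ℝ} (hδ : 0 < δ) (ω : ι → ℝ) (k : ι) {D : ℝ → ℝ} (hD : ∀ u, |D u| ≤ 1 / 2)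
    (x : ι → ℝ) : |δ * D (vv δ ω k x)| ≤ δ / 2 := by
  rw [abs_mul, abs_of_pos hδ]
  have := mul_le_mul_of_nonneg_left (hD (vv δ ω k x)) hδ.le
  linarith

omit [DecidableEq ι] in
theorem dd_coord_c2b {θ : ι → (ι → ℝ) → ℝ} {δ A B a1 a2 : ℝ} (hδ : 0 < δ) (ω : ι → ℝ)
    {D : ℝ → ℝ} (hD : C2B D A B) (hD0 : ∀ u, |D u| ≤ 1 / 2)
    (h01 : ∀ k x, 0 ≤ θ k x ∧ θ k x ≤ 1) (hθ : ∀ k, C2B (θ k) a1 a2) (k : ι) :
    C2B (fun x => dd θ δ D ω x k) (a1 * (δ / 2) + A) (a2 * (δ / 2) + 2 * a1 * A + B / δ) := by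
  have h := C2B.mul (a0 := 1) (b0 := δ / 2) (fun x => abs_le.2 ⟨by linarith [(h01 k x).1], (h01 k x).2⟩)
    (hθ k) (Dv_abs hδ ω k hD0) (Dv_c2b hδ ω k hD)
  simpa [dd] using h

omit [DecidableEq ι] in
theorem dd_norm {θ : ι → (ι → ℝ) → ℝ} {δ : ℝ} (hδ : 0 < δ) (ω : ι → ℝ)
    {D : ℝ → ℝ} (hD0 : ∀ u, |D u| ≤ 1 / 2) (h01 : ∀ k x, 0 ≤ θ k x ∧ θ k x ≤ 1) (x : ι → ℝ) :
    ‖dd θ δ D ω x‖ ≤ δ / 2 := by
  refine (pi_norm_le_iff_of_nonneg (by linarith)).2 fun k => ?_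
  rw [Real.norm_eq_abs, dd, abs_mul]
  have h1 := Dv_abs hδ ω k hD0 x
  have h2 : |θ k x| ≤ 1 := abs_le.2 ⟨by linarith [(h01 k x).1], (h01 k x).2⟩
  calc |θ k x| * |δ * D (vv δ ω k x)| ≤ 1 * (δ / 2) :=
        mul_le_mul h2 h1 (abs_nonneg _) zero_le_one
    _ = δ / 2 := one_mul _

theorem fderiv_Dv {δ : ℝ} (hδ : 0 < δ) (ω : ι → ℝ) (l k : ι) {D : ℝ → ℝ}
    (hD : Differentiable ℝ D) (x : ι → ℝ) :
    fderiv ℝ (fun x => δ * D (vv δ ω l x)) x (Pi.single k 1) =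
      if l = k then deriv D (vv δ ω l x) else 0 := by
  have h1 : HasFDerivAt (vv δ ω l)
      ((δ⁻¹ : ℝ) • (ContinuousLinearMap.proj l : (ι → ℝ) →L[ℝ] ℝ)) x := by
    have h0 : HasFDerivAt (fun x : ι → ℝ => x l)
        (ContinuousLinearMap.proj l : (ι → ℝ) →L[ℝ] ℝ) x :=
      (ContinuousLinearMap.proj l : (ι → ℝ) →L[ℝ] ℝ).hasFDerivAt
    have h2 := (h0.const_mul δ⁻¹).add_const (ω l)
    refine h2.congr_of_eventuallyEq (Eventually.of_forall fun y => ?_)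
    simp [vv, div_eq_inv_mul]
  have h3 := ((hD (vv δ ω l x)).hasDerivAt.comp_hasFDerivAt x h1).const_mul δ
  have h4 : fderiv ℝ (fun x => δ * D (vv δ ω l x)) x = _ := h3.fderiv
  rw [h4]
  by_cases h : l = k
  · subst h
    simp
    field_simp
  · simp [h]

theorem fderiv_dd {θ : ι → (ι → ℝ) → ℝ} {δ : ℝ} (hδ : 0 < δ) (ω : ι → ℝ) (l k : ι) {D : ℝ → ℝ}
    (hD : ContDiff ℝ 2 D) (hθ : Differentiable ℝ (θ l)) (x : ι → ℝ) :
    fderiv ℝ (fun x => dd θ δ D ω x l) x (Pi.single k 1) =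
      θ l x * (if l = k then deriv D (vv δ ω l x) else 0) +
        δ * D (vv δ ω l x) * fderiv ℝ (θ l) x (Pi.single k 1) := by
  have hD1 : Differentiable ℝ D := hD.differentiable (by norm_num)
  have hv : Differentiable ℝ (vv δ ω l) := (vv_c2b hδ ω l).diff
  have h2 : DifferentiableAt ℝ (fun x => δ * D (vv δ ω l x)) x :=
    ((hD1 _).comp x (hv x)).const_mul δ
  have h3 : fderiv ℝ (fun x => dd θ δ D ω x l) x =
      θ l x • fderiv ℝ (fun x => δ * D (vv δ ω l x)) x +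
        (δ * D (vv δ ω l x)) • fderiv ℝ (θ l) x := fderiv_fun_mul (hθ x) h2
  rw [h3]
  simp only [add_apply, smul_apply, smul_eq_mul]
  rw [fderiv_Dv hδ ω l k hD1]

omit [DecidableEq ι] in
theorem fderiv_coord {E : Type*} [NormedAddCommGroup E] [NormedSpace ℝ E] {d : E → ι → ℝ}
    (hd : Differentiable ℝ d) (x v : E) (l : ι) :
    fderiv ℝ d x v l = fderiv ℝ (fun y => d y l) x v := by
  have h := ((ContinuousLinearMap.proj l : (ι → ℝ) →L[ℝ] ℝ).hasFDerivAt.comp x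
    (hd x).hasFDerivAt).fderiv
  have h2 : fderiv ℝ (fun y => d y l) x = _ := h
  rw [h2]
  simp

omit [DecidableEq ι] in
theorem D2_coord {E : Type*} [NormedAddCommGroup E] [NormedSpace ℝ E] {d : E → ι → ℝ}
    (hd : ContDiff ℝ 2 d) (x v w : E) (l : ι) :
    D2 d x v w l = D2 (fun y => d y l) x v w :=
  (D2_clm_comp (ContinuousLinearMap.proj l : (ι → ℝ) →L[ℝ] ℝ) hd x v w).symm

/-- column estimate for g after id - d -/
theorem col_bound {g d : (ι → ℝ) → ι → ℝ} (hg : ContDiff ℝ 2 g) (hd : ContDiff ℝ 2 d)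
    (x : ι → ℝ) (k : ι) :
    ‖fderiv ℝ (fun x => g (x - d x)) x (Pi.single k 1)‖ ≤
      ∑ l, |(if l = k then 1 else 0) - fderiv ℝ (fun y => d y l) x (Pi.single k 1)| *
        ‖fderiv ℝ g (x - d x) (Pi.single l 1)‖ := by
  have hg1 : Differentiable ℝ g := hg.differentiable (by norm_num)
  have hd1 : Differentiable ℝ d := hd.differentiable (by norm_num)
  have h1 : HasFDerivAt (fun x => x - d x) (ContinuousLinearMap.id ℝ _ - fderiv ℝ d x) x :=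
    (hasFDerivAt_id x).sub (hd1 x).hasFDerivAt
  have h2 : fderiv ℝ (fun x => g (x - d x)) x = _ :=
    ((hg1 (x - d x)).hasFDerivAt.comp x h1).fderiv
  rw [h2, ContinuousLinearMap.comp_apply]
  refine (norm_clm_le_sum _ _).trans (le_of_eq ?_)
  refine Finset.sum_congr rfl fun l _ => ?_
  congr 2
  simp only [sub_apply, ContinuousLinearMap.id_apply, Pi.sub_apply]
  rw [fderiv_coord hd1, Pi.single_apply]

/-- second derivative estimate for g after id - d -/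
theorem d2_bound {g d : (ι → ℝ) → ι → ℝ} (hg : ContDiff ℝ 2 g) {A B : ℝ} (hd : C2B d A B)
    (x : ι → ℝ) {s c : ℝ} (hs : ‖D2 g (x - d x)‖ ≤ s) (hc : 0 ≤ c)
    (hcol : ∀ l, (fun y => d y l) =ᶠ[𝓝 x] (fun _ => 0) ∨
      ‖fderiv ℝ g (x - d x) (Pi.single l 1)‖ ≤ c) :
    ‖D2 (fun x => g (x - d x)) x‖ ≤ s * (1 + A) ^ 2 + Fintype.card ι * (B * c) := by
  have hh : C2B (fun x => x - d x) (1 + A) (0 + B) := C2B.id'.sub hd
  have hA := hd.nonneg1
  have hB := hd.nonneg2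
  have hs0 : 0 ≤ s := (ContinuousLinearMap.opNorm_nonneg _).trans hs
  refine norm_D2_le_of_apply (by positivity) fun v w => ?_
  rw [D2_comp_apply hg hh.cd]
  refine (norm_add_le _ _).trans ?_
  have e1 : ‖D2 g (x - d x) (fderiv ℝ (fun x => x - d x) x v) (fderiv ℝ (fun x => x - d x) x w)‖ ≤
      s * (1 + A) ^ 2 * ‖v‖ * ‖w‖ := by
    refine (norm_D2_apply_le _ _ _ _).trans ?_
    have a1 : ‖fderiv ℝ (fun x => x - d x) x v‖ ≤ (1 + A) * ‖v‖ :=
      (ContinuousLinearMap.le_opNorm _ _).trans (mul_le_mul_of_nonneg_right (hh.d1 x) (norm_nonneg _))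
    have a2 : ‖fderiv ℝ (fun x => x - d x) x w‖ ≤ (1 + A) * ‖w‖ :=
      (ContinuousLinearMap.le_opNorm _ _).trans (mul_le_mul_of_nonneg_right (hh.d1 x) (norm_nonneg _))
    calc _ ≤ s * ((1 + A) * ‖v‖) * ((1 + A) * ‖w‖) := by gcongr
      _ = _ := by ring
  have e2 : ‖fderiv ℝ g (x - d x) (D2 (fun x => x - d x) x v w)‖ ≤
      Fintype.card ι * (B * c) * ‖v‖ * ‖w‖ := by
    refine (norm_clm_le_sum _ _).trans ?_
    have key : ∀ l, |D2 (fun x => x - d x) x v w l| * ‖fderiv ℝ g (x - d x) (Pi.single l 1)‖ ≤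
        B * c * ‖v‖ * ‖w‖ := by
      intro l
      rcases hcol l with h | h
      · have h1 : (fun y => (y - d y) l) =ᶠ[𝓝 x]
            fun y => (ContinuousLinearMap.proj l : (ι → ℝ) →L[ℝ] ℝ) y := by
          filter_upwards [h] with y hy
          simp [hy]
        rw [D2_coord hh.cd, D2_congr h1, D2_clm]
        simp only [zero_apply, abs_zero, zero_mul]
        positivity
      · have h1 : |D2 (fun x => x - d x) x v w l| ≤ B * ‖v‖ * ‖w‖ := by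
          rw [← Real.norm_eq_abs]
          refine (norm_le_pi_norm _ l).trans ((norm_D2_apply_le _ _ _ _).trans ?_)
          have := hh.d2 x
          rw [zero_add] at this
          gcongr
        calc _ ≤ B * ‖v‖ * ‖w‖ * c := mul_le_mul h1 h (norm_nonneg _) (by positivity)
          _ = _ := by ring
    calc _ ≤ ∑ _l : ι, B * c * ‖v‖ * ‖w‖ := Finset.sum_le_sum fun l _ => key l
      _ = _ := by
        rw [Finset.sum_const, Finset.card_univ, nsmul_eq_mul]; ring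
  linarith

omit [DecidableEq ι] in
theorem dd_inj {θ : ι → (ι → ℝ) → ℝ} {δ c a1 a2 : ℝ} (hδ : 0 < δ) (ω : ι → ℝ)
    {D : ℝ → ℝ} (hD0 : ∀ u, |D u| ≤ 1 / 2) (hc0 : 0 ≤ c) (hc1 : c ≤ 1)
    (hD : ∀ u u', u' ≤ u → D u - D u' ≤ (1 - c) * (u - u'))
    (h01 : ∀ k x, 0 ≤ θ k x ∧ θ k x ≤ 1) (hθ : ∀ k, C2B (θ k) a1 a2) (ha : 0 ≤ a1)
    (hsm : a1 * δ / 2 < c) (ξ : ℝ) (h0 : 0 ≤ ξ) (h1 : ξ ≤ 1) :
    Injective fun x => x - ξ • dd θ δ D ω x := by
  intro x x' hxx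
  have key := mono_pert (fun k w => δ * D (w / δ + ω k)) δ c (a1 * ‖x - x'‖) hc1 hc0 hδ.le
    (by positivity)
    (fun k u => by
      rw [abs_mul, abs_of_pos hδ]
      have := mul_le_mul_of_nonneg_left (hD0 (u / δ + ω k)) hδ.le
      linarith)
    (fun k u u' h => by
      have h2 : u' / δ + ω k ≤ u / δ + ω k := by gcongr
      have h3 := mul_le_mul_of_nonneg_left (hD _ _ h2) hδ.le
      have h4 : δ * ((1 - c) * (u / δ + ω k - (u' / δ + ω k))) = (1 - c) * (u - u') := by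
        field_simp
        ring
      linarith)
    (fun k => ξ * θ k x) (fun k => ξ * θ k x') x x'
    (fun k => ⟨mul_nonneg h0 (h01 k x).1, mul_le_one₀ h1 (h01 k x).1 (h01 k x).2⟩)
    (fun k => by
      rw [← mul_sub, abs_mul, abs_of_nonneg h0, ← Real.norm_eq_abs]
      calc ξ * ‖θ k x - θ k x'‖ ≤ 1 * (a1 * ‖x - x'‖) :=
            mul_le_mul h1 ((hθ k).lip x x') (norm_nonneg _) zero_le_one
        _ = _ := one_mul _)
  have e : ∀ z : ι → ℝ, (fun k => z k - ξ * θ k z * (δ * D (z k / δ + ω k))) =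
      z - ξ • dd θ δ D ω z := by
    intro z
    ext k
    simp [dd, vv, mul_assoc]
  rw [e x, e x'] at key
  have hxx' : x - ξ • dd θ δ D ω x = x' - ξ • dd θ δ D ω x' := hxx
  rw [hxx', sub_self, norm_zero] at key
  have hn : ‖x - x'‖ ≤ 0 := by
    by_contra hne
    push Not at hne
    nlinarith
  exact sub_eq_zero.1 (norm_le_zero_iff.1 hn)

end SJ.TStepX
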