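import Mathlib
import Pool.Agent.MP_edaf86_an.TStepA
import Pool.Agent.MP_edaf86_an.Avg

namespace SJ.TStepX
open Set Filter Topology MeasureTheory Metric Function
open scoped ENNReal

theorem pair_bound {bk bl σ P a c tk tl Vk Vl nk nl : ℝ} (hbk : 0 ≤ bk) (hbl : 0 ≤ bl)
    (hσ : 0 ≤ σ) (h1 : bk * bl ≤ P) (h2 : σ * bk ≤ P) (h3 : σ * bl ≤ P) (h4 : σ ^ 2 ≤ P)
    (ha0 : 0 ≤ a) (ha1 : a ≤ 1) (hc : 0 ≤ c) (_htk0 : 0 ≤ tk) (htk1 : tk ≤ 1) (_htl0 : 0 ≤ tl)
    (htl1 : tl ≤ 1) (htt : tk * tl = 0) (hVk0 : 0 ≤ Vk) (hVl0 : 0 ≤ Vl) (hnk : 0 ≤ nk)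
    (hnl : 0 ≤ nl) (hVk : Vk ≤ a + c * nk) (hVl : Vl ≤ a + c * nl) :
    3 * ((tk + Vk) * bk + σ * a) * (3 * ((tl + Vl) * bl + σ * a)) ≤
      9 * (8 * a + 3 * c * (nk + nl) + c ^ 2 * (nk * nl)) * P := by
  have hP : 0 ≤ P := le_trans (sq_nonneg σ) h4
  have e1 : (tk + Vk) * (tl + Vl) ≤ Vk + Vl + Vk * Vl := by
    have : (tk + Vk) * (tl + Vl) = tk * tl + tk * Vl + Vk * tl + Vk * Vl := by ring
    nlinarith [mul_le_mul_of_nonneg_right htk1 hVl0, mul_le_mul_of_nonneg_left htl1 hVk0]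
  have e2 : Vk * Vl ≤ (a + c * nk) * (a + c * nl) :=
    mul_le_mul hVk hVl hVl0 (by positivity)
  have hck : 0 ≤ c * nk := by positivity
  have hcl : 0 ≤ c * nl := by positivity
  have e3 : (a + c * nk) * (a + c * nl) ≤ a + c * nk + c * nl + c ^ 2 * (nk * nl) := by
    nlinarith [mul_le_mul_of_nonneg_right ha1 hck, mul_le_mul_of_nonneg_right ha1 hcl,
      mul_le_mul_of_nonneg_right ha1 ha0]
  have f1 : (tk + Vk) * (tl + Vl) * (bk * bl) ≤
      (3 * a + 2 * (c * nk + c * nl) + c ^ 2 * (nk * nl)) * P :=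
    mul_le_mul (by linarith) h1 (by positivity) (by positivity)
  have f2 : a * (tk + Vk) * (σ * bk) ≤ (2 * a + c * nk) * P := by
    refine mul_le_mul ?_ h2 (by positivity) (by positivity)
    nlinarith [mul_le_mul_of_nonneg_right ha1 hck, mul_le_mul_of_nonneg_right ha1 ha0,
      mul_le_mul_of_nonneg_left htk1 ha0, mul_le_mul_of_nonneg_left hVk ha0]
  have f3 : a * (tl + Vl) * (σ * bl) ≤ (2 * a + c * nl) * P := by
    refine mul_le_mul ?_ h3 (by positivity) (by positivity)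
    nlinarith [mul_le_mul_of_nonneg_right ha1 hcl, mul_le_mul_of_nonneg_right ha1 ha0,
      mul_le_mul_of_nonneg_left htl1 ha0, mul_le_mul_of_nonneg_left hVl ha0]
  have f4 : a ^ 2 * σ ^ 2 ≤ a * P := by
    refine mul_le_mul ?_ h4 (by positivity) ha0
    nlinarith
  have : 3 * ((tk + Vk) * bk + σ * a) * (3 * ((tl + Vl) * bl + σ * a)) =
      9 * ((tk + Vk) * (tl + Vl) * (bk * bl) + a * (tk + Vk) * (σ * bk) +
        a * (tl + Vl) * (σ * bl) + a ^ 2 * σ ^ 2) := by ring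
  rw [this]
  nlinarith

variable {ι : Type} [Fintype ι] [DecidableEq ι]

noncomputable def bb (b V : ι → (ι → ℝ) → ℝ) (a : ℝ) (k : ι) (x : ι → ℝ) : ℝ :=
  3 * ((vt b k x + V k x) * b k x + sg b x * a)

theorem Pp_bb_le (hN : 2 ≤ Fintype.card ι) {b V : ι → (ι → ℝ) → ℝ} (hb : ∀ k x, 0 < b k x)
    {a c : ℝ} (ha0 : 0 ≤ a) (ha1 : a ≤ 1) (hc : 0 ≤ c) (x : ι → ℝ) (n : ι → ℝ)
    (hn : ∀ k, 0 ≤ n k) (hV0 : ∀ k, 0 ≤ V k x) (hV : ∀ k, V k x ≤ a + c * n k) :
    Pp (bb b V a) x ≤ ∑ k, ∑ l ∈ Finset.univ.erase k,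
      9 * (8 * a + 3 * c * (n k + n l) + c ^ 2 * (n k * n l)) * Pp b x := by
  obtain ⟨s0, s1, s2, s3, s4, -⟩ := sg_facts hN hb x
  refine Finset.sum_le_sum fun k _ => Finset.sum_le_sum fun l hl => ?_
  have hkl : k ≠ l := (Finset.ne_of_mem_erase hl).symm
  refine pair_bound (hb k x).le (hb l x).le s0.le (s3 k l hkl) (s2 k) (s2 l) s1 ha0 ha1 hc
    (st_nonneg _) (st_le_one _) (st_nonneg _) (st_le_one _) ?_ (hV0 k) (hV0 l) (hn k) (hn l)
    (hV k) (hV l)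
  by_contra h
  exact hkl (s4 k l (left_ne_zero_of_mul h) (right_ne_zero_of_mul h))

theorem sum_erase_le (f : ι → ι → ℝ) (hf : ∀ k l, 0 ≤ f k l) :
    ∑ k, ∑ l ∈ Finset.univ.erase k, f k l ≤ ∑ k, ∑ l, f k l :=
  Finset.sum_le_sum fun k _ =>
    Finset.sum_le_sum_of_subset_of_nonneg (Finset.erase_subset _ _) fun l _ _ => hf k l

theorem Pp_bb_crude (hN : 2 ≤ Fintype.card ι) {b V : ι → (ι → ℝ) → ℝ} (hb : ∀ k x, 0 < b k x)
    {a c : ℝ} (ha0 : 0 ≤ a) (ha1 : a ≤ 1) (hc : 1 ≤ c) (x : ι → ℝ)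
    (hV0 : ∀ k, 0 ≤ V k x) (hV : ∀ k, V k x ≤ a + c) :
    Pp (bb b V a) x ≤ 135 * (Fintype.card ι : ℝ) ^ 2 * c ^ 2 * Pp b x := by
  obtain ⟨s0, s1, -⟩ := sg_facts hN hb x
  have hP : 0 ≤ Pp b x := le_trans (sq_nonneg _) s1
  refine (Pp_bb_le (c := c) hN hb ha0 ha1 (by linarith) x (fun _ => 1) (fun _ => zero_le_one) hV0
    (fun k => by simpa using hV k)).trans ?_
  refine (sum_erase_le (fun _ _ => 9 * (8 * a + 3 * c * (1 + 1) + c ^ 2 * (1 * 1)) * Pp b x)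
    fun _ _ => by positivity).trans ?_
  simp only [Finset.sum_const, Finset.card_univ, nsmul_eq_mul]
  have h1 : 9 * (8 * a + 3 * c * (1 + 1) + c ^ 2 * (1 * 1)) ≤ 135 * c ^ 2 := by nlinarith
  have h2 := mul_le_mul_of_nonneg_right h1 hP
  have h3 : (0 : ℝ) ≤ (Fintype.card ι : ℝ) ^ 2 := by positivity
  nlinarith [mul_le_mul_of_nonneg_left h2 h3]

open Classical in
/-- indicator of the near set -/
noncomputable def nn (τ δ : ℝ) (ω : ι → ℝ) (x : ι → ℝ) (k : ι) : ℝ :=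
  if Near τ (vv δ ω k x) then 1 else 0

noncomputable def WW (c : ℝ) (p : ι × ι) : ℝ :=
  if p.1 = p.2 then 54 * Fintype.card ι * c else 9 * c ^ 2

theorem Pp_bb_ind (hN : 2 ≤ Fintype.card ι) {b V : ι → (ι → ℝ) → ℝ} (hb : ∀ k x, 0 < b k x)
    {a c : ℝ} (ha0 : 0 ≤ a) (ha1 : a ≤ 1) (hc : 0 ≤ c) (x : ι → ℝ) (n : ι → ℝ)
    (hn : ∀ k, n k = 0 ∨ n k = 1) (hV0 : ∀ k, 0 ≤ V k x) (hV : ∀ k, V k x ≤ a + c * n k) :
    Pp (bb b V a) x ≤ 72 * (Fintype.card ι : ℝ) ^ 2 * a * Pp b x +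
      ∑ p : ι × ι, n p.1 * n p.2 * (WW c p * Pp b x) := by
  obtain ⟨s0, s1, -⟩ := sg_facts hN hb x
  have hP : 0 ≤ Pp b x := le_trans (sq_nonneg _) s1
  have hn0 : ∀ k, 0 ≤ n k := fun k => by rcases hn k with h | h <;> simp [h]
  have hnn : ∀ k, n k * n k = n k := fun k => by rcases hn k with h | h <;> simp [h]
  refine (Pp_bb_le hN hb ha0 ha1 hc x n hn0 hV0 hV).trans ?_
  have e : ∀ k l, 9 * (8 * a + 3 * c * (n k + n l) + c ^ 2 * (n k * n l)) * Pp b x =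
      (72 * a * Pp b x + 27 * c * Pp b x * n k + 27 * c * Pp b x * n l) +
        n k * n l * (9 * c ^ 2 * Pp b x) := fun k l => by ring
  simp only [e, Finset.sum_add_distrib (s := Finset.univ.erase _) (g := fun l => n _ * n l * _)]
  rw [Finset.sum_add_distrib]
  have h1 := sum_erase_le
    (fun k l => 72 * a * Pp b x + 27 * c * Pp b x * n k + 27 * c * Pp b x * n l)
    fun k l => by have := hn0 k; have := hn0 l; positivity
  have h2 : ∑ k, ∑ l, (72 * a * Pp b x + 27 * c * Pp b x * n k + 27 * c * Pp b x * n l) =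
      72 * (Fintype.card ι : ℝ) ^ 2 * a * Pp b x +
        ∑ k, n k * n k * (54 * Fintype.card ι * c * Pp b x) := by
    simp only [Finset.sum_add_distrib, Finset.sum_const, Finset.card_univ, nsmul_eq_mul, hnn,
      ← Finset.mul_sum, ← Finset.sum_mul]
    ring
  have h3 : ∑ p : ι × ι, n p.1 * n p.2 * (WW c p * Pp b x) =
      ∑ k, n k * n k * (54 * Fintype.card ι * c * Pp b x) +
        ∑ k, ∑ l ∈ Finset.univ.erase k, n k * n l * (9 * c ^ 2 * Pp b x) := by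
    rw [Fintype.sum_prod_type, ← Finset.sum_add_distrib]
    refine Finset.sum_congr rfl fun k _ => ?_
    rw [← Finset.add_sum_erase _ _ (Finset.mem_univ k)]
    congr 1
    · simp [WW]
    · refine Finset.sum_congr rfl fun l hl => ?_
      have hkl : k ≠ l := (Finset.ne_of_mem_erase hl).symm
      simp [WW, hkl]
  linarith

theorem exists_phase (P : (ι → ℝ) → ℝ) (hP : Continuous P) {τ δ a c K1 : ℝ} (hτ0 : 0 < τ)
    (hτ1 : τ ≤ 1) (ha0 : 0 ≤ a) (ha1 : a ≤ 1) (hc : 0 ≤ c) (hK1 : 0 ≤ K1)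
    (hcτ : c * τ ≤ K1 * a) (μ : Measure (ι → ℝ)) :
    ∃ ω : ι → ℝ, ∑ p : ι × ι, ∫⁻ x, ENNReal.ofReal
        (nn τ δ ω x p.1 * nn τ δ ω x p.2 * (WW c p * P x)) ∂μ ≤
      ENNReal.ofReal ((Fintype.card ι : ℝ) ^ 2 * (540 * Fintype.card ι * K1 + 900 * K1 ^ 2) * a) *
        ∫⁻ x, ENNReal.ofReal (P x) ∂μ := by
  have hW0 : ∀ p : ι × ι, 0 ≤ WW c p := fun p => by
    unfold WW
    split_ifs <;> positivity
  obtain ⟨ω, hω⟩ := avg_shift μ τ hτ0 hτ1 (fun (x : ι → ℝ) k => x k / δ) (by fun_prop)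
    (Finset.univ : Finset (ι × ι)) (fun p => {p.1, p.2})
    (fun p x => ENNReal.ofReal (WW c p * P x))
    (fun p => ENNReal.measurable_ofReal.comp (continuous_const.mul hP).measurable)
  refine ⟨ω, le_trans (le_of_eq ?_) (hω.trans ?_)⟩
  · refine Finset.sum_congr rfl fun p _ => lintegral_congr fun x => ?_
    by_cases h1 : Near τ (vv δ ω p.1 x)
    · by_cases h2 : Near τ (vv δ ω p.2 x)
      · rw [indicator_of_mem]
        · simp [nn, h1, h2]
        · intro k hk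
          simp only [Finset.mem_insert, Finset.mem_singleton] at hk
          rcases hk with rfl | rfl
          · exact h1
          · exact h2
      · rw [indicator_of_notMem]
        · simp [nn, h2]
        · intro h
          exact h2 (h p.2 (by simp))
    · rw [indicator_of_notMem]
      · simp [nn, h1]
      · intro h
        exact h1 (h p.1 (by simp))
  · have key : ∀ p : ι × ι, ENNReal.ofReal ((10 * τ) ^ ({p.1, p.2} : Finset ι).card) *
        ∫⁻ x, ENNReal.ofReal (WW c p * P x) ∂μ ≤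
        ENNReal.ofReal ((540 * Fintype.card ι * K1 + 900 * K1 ^ 2) * a) *
          ∫⁻ x, ENNReal.ofReal (P x) ∂μ := by
      intro p
      simp only [ENNReal.ofReal_mul (hW0 p)]
      rw [lintegral_const_mul' _ _ ENNReal.ofReal_ne_top, ← mul_assoc,
        ← ENNReal.ofReal_mul (by positivity)]
      refine mul_le_mul_left (ENNReal.ofReal_le_ofReal ?_) _
      have hN0 : (0 : ℝ) ≤ Fintype.card ι := Nat.cast_nonneg _
      by_cases h : p.1 = p.2
      · simp only [WW, h, if_true, Finset.pair_eq_singleton, Finset.card_singleton, pow_one]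
        have := mul_le_mul_of_nonneg_left hcτ (show 0 ≤ 540 * (Fintype.card ι : ℝ) by positivity)
        have h5 : 0 ≤ 900 * K1 ^ 2 * a := by positivity
        nlinarith
      · simp only [WW, h, if_false, Finset.card_pair h]
        have h3 : (c * τ) ^ 2 ≤ (K1 * a) ^ 2 := pow_le_pow_left₀ (by positivity) hcτ 2
        have h4 : (K1 * a) ^ 2 ≤ K1 ^ 2 * a := by
          rw [mul_pow]
          exact mul_le_mul_of_nonneg_left (by nlinarith) (sq_nonneg _)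
        have h5 : 0 ≤ 540 * (Fintype.card ι : ℝ) * K1 * a := by positivity
        nlinarith
    refine (Finset.sum_le_sum fun p _ => key p).trans (le_of_eq ?_)
    rw [Finset.sum_const, Finset.card_univ, Fintype.card_prod, nsmul_eq_mul, ← mul_assoc,
      mul_assoc ((Fintype.card ι : ℝ) ^ 2), ENNReal.ofReal_mul (p := (Fintype.card ι : ℝ) ^ 2) (by positivity)]
    congr 2
    rw [← Nat.cast_pow, ENNReal.ofReal_natCast, pow_two]

end SJ.TStepX
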