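import Mathlib
import Pool.Agent.MP_edaf86_an.TStepB

namespace SJ.TStepX
open Set Filter Topology MeasureTheory Metric Function
open scoped ENNReal

variable {ι : Type} [Fintype ι] [DecidableEq ι]

noncomputable def VV (a c : ℝ) (ψ : ℝ → ℝ) (δ : ℝ) (ω : ι → ℝ) (k : ι) (x : ι → ℝ) : ℝ :=
  a + c * ψ (vv δ ω k x - 1 / 2)

omit [Fintype ι] [DecidableEq ι] in
theorem VV_ge {a c : ℝ} {ψ : ℝ → ℝ} (hc : 0 ≤ c) (hψ : ∀ u, 0 ≤ ψ u ∧ ψ u ≤ 1) (δ : ℝ)
    (ω : ι → ℝ) (k : ι) (x : ι → ℝ) : a ≤ VV a c ψ δ ω k x :=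
  le_add_of_nonneg_right (mul_nonneg hc (hψ _).1)

omit [Fintype ι] [DecidableEq ι] in
theorem VV_le {a c : ℝ} {ψ : ℝ → ℝ} (hc : 0 ≤ c) (hψ : ∀ u, 0 ≤ ψ u ∧ ψ u ≤ 1) (δ : ℝ)
    (ω : ι → ℝ) (k : ι) (x : ι → ℝ) : VV a c ψ δ ω k x ≤ a + c := by
  have := mul_le_mul_of_nonneg_left (hψ (vv δ ω k x - 1 / 2)).2 hc
  unfold VV
  linarith

omit [Fintype ι] [DecidableEq ι] in
theorem VV_le_nn {a c τ : ℝ} {ψ : ℝ → ℝ} (hc : 0 ≤ c) (hψ : ∀ u, 0 ≤ ψ u ∧ ψ u ≤ 1)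
    (hs : ∀ u, ψ u ≠ 0 → ∃ n : ℤ, |u - n| ≤ 2 * τ) (δ : ℝ)
    (ω : ι → ℝ) (k : ι) (x : ι → ℝ) : VV a c ψ δ ω k x ≤ a + c * nn τ δ ω x k := by
  unfold nn
  split_ifs with h
  · simpa using VV_le hc hψ δ ω k x
  · have : ψ (vv δ ω k x - 1 / 2) = 0 := by
      by_contra h0
      obtain ⟨n, hn⟩ := hs _ h0
      refine h ⟨n, ?_⟩
      convert hn using 2
      ring
    simp only [VV, this, le_refl]

omit [DecidableEq ι] in
theorem VV_c2b {a c δ A B : ℝ} {ψ : ℝ → ℝ} (hc : 0 ≤ c) (hδ : 0 < δ) (hψ : C2B ψ A B)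
    (ω : ι → ℝ) (k : ι) : C2B (VV a c ψ δ ω k) (c * (A / δ)) (c * (B / δ ^ 2)) := by
  have h1 : C2B (fun u : ℝ => ψ (u - 1 / 2)) A B := by
    simpa using hψ.comp (C2B.id'.sub_const (1 / 2 : ℝ))
  have h2 := ((comp_vv_c2b hδ ω k h1).const_mul c).add_const a
  rw [abs_of_nonneg hc] at h2
  have e : VV a c ψ δ ω k = fun x => c * ψ (vv δ ω k x - 1 / 2) + a := by
    funext x
    simp only [VV]
    ring
  rw [e]
  exact h2

omit [Fintype ι] [DecidableEq ι] in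
theorem slope_le {a c τ A δ : ℝ} {ψ D : ℝ → ℝ} (ha : 0 ≤ a) (hc : 0 ≤ c)
    (hψ : ∀ u, 0 ≤ ψ u ∧ ψ u ≤ 1) (h1 : ∀ (u : ℝ) (n : ℤ), |u - n| ≤ τ → ψ u = 1)
    (hD : ∀ u, |deriv D u| ≤ A) (hA : 1 + A ≤ c ^ 2)
    (hp : ∀ u : ℝ, (∀ n : ℤ, τ < |u - n - 1 / 2|) → deriv D u = 1 - a ^ 2)
    (ω : ι → ℝ) (k : ι) (x : ι → ℝ) : 1 - deriv D (vv δ ω k x) ≤ VV a c ψ δ ω k x ^ 2 := by
  by_cases h : ∀ n : ℤ, τ < |vv δ ω k x - n - 1 / 2|
  · rw [hp _ h]
    have := pow_le_pow_left₀ ha (VV_ge (a := a) hc hψ δ ω k x) 2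
    linarith
  · push Not at h
    obtain ⟨n, hn⟩ := h
    have h2 : ψ (vv δ ω k x - 1 / 2) = 1 := h1 _ n (by rwa [sub_right_comm])
    have h3 : c ≤ VV a c ψ δ ω k x := by
      simp only [VV, h2]
      linarith
    have h4 := pow_le_pow_left₀ hc h3 2
    have h5 := (abs_le.1 (hD (vv δ ω k x))).1
    linarith

theorem col_new (hN : 2 ≤ Fintype.card ι) {g : (ι → ℝ) → ι → ℝ} {b V : ι → (ι → ℝ) → ℝ}
    {U : (ι → ℝ) → ℝ} {r δ a Ka A B : ℝ} (hT : TS g b U r) (hδ : 0 < δ) (hδr : δ ≤ r)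
    (ha : 0 ≤ a) {D : ℝ → ℝ} (hD : C2B D A B) (hD0 : ∀ u, |D u| ≤ 1 / 2)
    (hD1 : ∀ u, deriv D u ≤ 1) (ω : ι → ℝ) (hreg : Reg Ka r (act b))
    (hloc : ∀ k x, act b k =ᶠ[𝓝 x] (fun _ => 0) ∨ b k x ≤ 2 * Fintype.card ι * sg b x)
    (hV0 : ∀ k x, 0 ≤ V k x) (hV : ∀ k x, 1 - deriv D (vv δ ω k x) ≤ V k x ^ 2)
    (hsm : 2 * (Fintype.card ι : ℝ) ^ 3 * (Ka / r) * δ ≤ a ^ 2) (x : ι → ℝ) (k : ι) :
    ‖fderiv ℝ (fun x => g (x - dd (act b) δ D ω x)) x (Pi.single k 1)‖ ≤ bb b V a k x ^ 2 := by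
  have hr := hT.rpos
  have hbpos : ∀ k x, 0 < b k x := fun k x => (hT.lg k).pos x
  obtain ⟨s0, -⟩ := sg_facts hN hbpos x
  have hdc : ContDiff ℝ 2 (dd (act b) δ D ω) :=
    contDiff_pi.2 fun l => (dd_coord_c2b hδ ω hD hD0 hreg.r01 hreg.rC l).cd
  have hKr : 0 ≤ Ka / r := (hreg.rC k).nonneg1
  refine (col_bound hT.cd hdc x k).trans ?_
  have hgl : ∀ l, ‖fderiv ℝ g (x - dd (act b) δ D ω x) (Pi.single l 1)‖ ≤ 9 * b l x ^ 2 := by
    intro l
    refine (hT.col _ l).trans ?_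
    have h1 : b l (x - dd (act b) δ D ω x) ≤ 3 * b l x := by
      refine (hT.lg l).sv (by linarith) x _ ?_
      rw [sub_sub_cancel]
      have := dd_norm hδ ω hD0 hreg.r01 x
      linarith
    have := pow_le_pow_left₀ (hbpos l _).le h1 2
    linarith
  have hcross : ∀ l, |fderiv ℝ (act b l) x (Pi.single k 1)| * b l x ^ 2 ≤
      Ka / r * (2 * Fintype.card ι * sg b x) ^ 2 := by
    intro l
    rcases hloc l x with h | h
    · rw [h.fderiv_eq]
      simp only [fderiv_fun_const, Pi.zero_apply, zero_apply, abs_zero, zero_mul]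
      positivity
    · refine mul_le_mul ?_ (pow_le_pow_left₀ (hbpos l x).le h 2) (sq_nonneg _) hKr
      rw [← Real.norm_eq_abs]
      refine (ContinuousLinearMap.le_opNorm _ _).trans ?_
      rw [Pi.norm_single, norm_one, mul_one]
      exact (hreg.rC l).d1 x
  have hterm : ∀ l, |(if l = k then 1 else 0) -
      fderiv ℝ (fun y => dd (act b) δ D ω y l) x (Pi.single k 1)| *
        ‖fderiv ℝ g (x - dd (act b) δ D ω x) (Pi.single l 1)‖ ≤
      (if l = k then 9 * ((vt b k x ^ 2 + V k x ^ 2) * b k x ^ 2) else 0) +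
        9 * (δ / 2) * (Ka / r * (2 * Fintype.card ι * sg b x) ^ 2) := by
    intro l
    rw [fderiv_dd hδ ω l k hD.cd (hreg.rC l).diff]
    have h1 := Dv_abs hδ ω l hD0 x
    have h2 : |δ * D (vv δ ω l x) * fderiv ℝ (act b l) x (Pi.single k 1)| ≤
        δ / 2 * |fderiv ℝ (act b l) x (Pi.single k 1)| := by
      rw [abs_mul]
      exact mul_le_mul_of_nonneg_right h1 (abs_nonneg _)
    have h3 := hcross l
    have h4 : |(if l = k then (1 : ℝ) else 0) - act b l x *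
        (if l = k then deriv D (vv δ ω l x) else 0)| ≤
        if l = k then vt b k x ^ 2 + V k x ^ 2 else 0 := by
      split_ifs with h
      · subst h
        have a0 := (hreg.r01 l x).1
        have a1 := (hreg.r01 l x).2
        have a2 := hD1 (vv δ ω l x)
        have a3 := hV l x
        have a4 : act b l x = 1 - vt b l x ^ 2 := rfl
        have a5 : 0 ≤ act b l x * (1 - deriv D (vv δ ω l x)) := mul_nonneg a0 (by linarith)
        have a6 : act b l x * (1 - deriv D (vv δ ω l x)) ≤ 1 * V l x ^ 2 :=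
          mul_le_mul a1 a3 (by linarith) zero_le_one
        rw [abs_le]
        constructor <;> nlinarith [sq_nonneg (vt b l x), sq_nonneg (V l x)]
      · simp
    have h5 : |(if l = k then (1 : ℝ) else 0) - (act b l x *
        (if l = k then deriv D (vv δ ω l x) else 0) +
          δ * D (vv δ ω l x) * fderiv ℝ (act b l) x (Pi.single k 1))| ≤
        (if l = k then vt b k x ^ 2 + V k x ^ 2 else 0) +
          δ / 2 * |fderiv ℝ (act b l) x (Pi.single k 1)| := by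
      rw [← sub_sub]
      exact (abs_sub _ _).trans (add_le_add h4 h2)
    have h6 : 0 ≤ (if l = k then vt b k x ^ 2 + V k x ^ 2 else 0) := by
      split_ifs <;> positivity
    refine (mul_le_mul h5 (hgl l) (norm_nonneg _) (by positivity)).trans ?_
    have h7 := mul_le_mul_of_nonneg_left h3 (show 0 ≤ 9 * (δ / 2) by positivity)
    split_ifs with h
    · subst h
      nlinarith
    · nlinarith
  refine (Finset.sum_le_sum fun l _ => hterm l).trans ?_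
  rw [Finset.sum_add_distrib, Finset.sum_ite_eq' Finset.univ k, if_pos (Finset.mem_univ k),
    Finset.sum_const, Finset.card_univ, nsmul_eq_mul]
  have h8 : (Fintype.card ι : ℝ) * (9 * (δ / 2) * (Ka / r * (2 * Fintype.card ι * sg b x) ^ 2)) ≤
      9 * (sg b x * a) ^ 2 := by
    have := mul_le_mul_of_nonneg_left hsm (show 0 ≤ 9 * sg b x ^ 2 by positivity)
    nlinarith
  have v0 : 0 ≤ vt b k x := st_nonneg _
  have v1 := hV0 k x
  have b0 := (hbpos k x).le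
  have h9 : 0 ≤ vt b k x * V k x * b k x ^ 2 := by positivity
  have h10 : 0 ≤ (vt b k x + V k x) * b k x * (sg b x * a) := by positivity
  unfold bb
  nlinarith

theorem lg_new (hN : 2 ≤ Fintype.card ι) {b V : ι → (ι → ℝ) → ℝ} {r ρ a A B A' B' : ℝ}
    (hr : 0 < r) (hρ : 0 < ρ) (hρr : ρ ≤ r / 2) (ha : 0 < a) (hb : ∀ k, Lg (b k) (2 * r))
    (hvt : ∀ k, C2B (vt b k) A B) (hV : ∀ k, C2B (V k) A' B') (hVa : ∀ k x, a ≤ V k x)
    (hA : A + A' ≤ a / (2 * ρ)) (hB : B + B' ≤ a / (2 * ρ) ^ 2) (k : ι) :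
    Lg (bb b V a k) ρ := by
  have h1 : Lg (fun x => vt b k x + V k x) (2 * ρ) :=
    Lg.of_c2b ha (by linarith) (fun x => le_add_of_nonneg_of_le (st_nonneg _) (hVa k x))
      ((hvt k).add (hV k)) hA hB
  have h2 := Lg.mul hρ h1 ((hb k).mono (by linarith) (by linarith))
  have h3 := ((sg_lg hN hr hb).mono hρ hρr).const_mul ha
  have h4 := (h2.add h3).const_mul (c := 3) (by norm_num)
  have e : bb b V a k = fun x => 3 * ((vt b k x + V k x) * b k x + a * sg b x) := by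
    funext x
    simp only [bb]
    ring
  rw [e]
  exact h4

end SJ.TStepX
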