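import Mathlib
import Pool.Agent.MP_edaf86_an.Act
import Pool.Agent.MP_edaf86_an.OneD2
import Pool.Agent.MP_edaf86_an.Avg
import Pool.Agent.MP_edaf86_an.TStepC

namespace SJ
open Set Filter Topology MeasureTheory Metric Function
open scoped ENNReal

namespace TStepX

theorem pow_step {K Λ : ℝ} (h1 : 1 ≤ Λ) (hK : K ≤ Λ) {i j : ℕ} (hij : i < j) :
    K * Λ ^ i ≤ Λ ^ j := by
  have h0 : 0 ≤ Λ ^ i := by positivity
  calc K * Λ ^ i ≤ Λ * Λ ^ i := mul_le_mul_of_nonneg_right hK h0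
    _ = Λ ^ (i + 1) := by ring
    _ ≤ Λ ^ j := pow_le_pow_right₀ h1 hij

theorem num_d1 {Ka Ks r Λ : ℝ} (hKa : 0 ≤ Ka) (hr : 0 < r) (h1 : 1 ≤ Λ) :
    Ka / r * (r / Λ ^ 5 / 2) + Ks / (1 / Λ ^ 4) ≤ (Ka + Ks) * Λ ^ 4 := by
  have e1 : Ka / r * (r / Λ ^ 5 / 2) = Ka * (1 / (2 * Λ ^ 5)) := by field_simp
  have e2 : Ks / (1 / Λ ^ 4) = Ks * Λ ^ 4 := by field_simp
  have e3 : 1 / (2 * Λ ^ 5) ≤ Λ ^ 4 := by
    have a1 : 1 ≤ Λ ^ 5 := one_le_pow₀ h1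
    have a2 : 1 ≤ Λ ^ 4 := one_le_pow₀ h1
    refine le_trans ?_ a2
    rw [div_le_one (by positivity)]
    linarith
  rw [e1, e2]
  nlinarith [mul_le_mul_of_nonneg_left e3 hKa]

theorem num_d2 {Ka Ks r Λ : ℝ} (hKa : 0 ≤ Ka) (hKs : 0 ≤ Ks) (hr : 0 < r) (h1 : 1 ≤ Λ) :
    Ka / r ^ 2 * (r / Λ ^ 5 / 2) + 2 * (Ka / r) * (Ks / (1 / Λ ^ 4)) +
      Ks / (1 / Λ ^ 4) ^ 2 / (r / Λ ^ 5) ≤ (Ka + 2 * Ka * Ks + Ks) * Λ ^ 13 / r := by
  have e : Ka / r ^ 2 * (r / Λ ^ 5 / 2) + 2 * (Ka / r) * (Ks / (1 / Λ ^ 4)) +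
      Ks / (1 / Λ ^ 4) ^ 2 / (r / Λ ^ 5) =
      (Ka * (1 / (2 * Λ ^ 5)) + 2 * Ka * Ks * Λ ^ 4 + Ks * Λ ^ 13) / r := by field_simp
  rw [e]
  refine div_le_div_of_nonneg_right ?_ hr.le
  have a1 : 1 ≤ Λ ^ 5 := one_le_pow₀ h1
  have a2 : 1 ≤ Λ ^ 13 := one_le_pow₀ h1
  have a3 : Λ ^ 4 ≤ Λ ^ 13 := pow_le_pow_right₀ h1 (by norm_num)
  have e3 : 1 / (2 * Λ ^ 5) ≤ Λ ^ 13 := by
    refine le_trans ?_ a2
    rw [div_le_one (by positivity)]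
    linarith
  nlinarith [mul_le_mul_of_nonneg_left e3 hKa,
    mul_le_mul_of_nonneg_left a3 (show 0 ≤ 2 * Ka * Ks by positivity)]

theorem num_lg1 {Ka K1 Kb r Λ : ℝ} (hKa : 0 ≤ Ka) (hr : 0 < r)
    (h1 : 1 ≤ Λ) (hK : 16 * (Ka + K1 * Kb) ≤ Λ) (_hK0 : 0 ≤ K1 * Kb) :
    Ka / r + K1 * Λ ^ 2 * (Kb / (1 / Λ ^ 4) / (r / Λ ^ 5)) ≤
      1 / Λ ^ 2 / (2 * (2 * (r / Λ ^ 15))) := by
  have e1 : Ka / r + K1 * Λ ^ 2 * (Kb / (1 / Λ ^ 4) / (r / Λ ^ 5)) =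
      (Ka + K1 * Kb * Λ ^ 11) / r := by field_simp
  have e2 : 1 / Λ ^ 2 / (2 * (2 * (r / Λ ^ 15))) = (Λ ^ 13 / 4) / r := by field_simp; ring
  rw [e1, e2]
  refine div_le_div_of_nonneg_right ?_ hr.le
  have a1 : 1 ≤ Λ ^ 11 := one_le_pow₀ h1
  have a2 := pow_step h1 hK (show 11 < 13 by norm_num)
  nlinarith [mul_le_mul_of_nonneg_left a1 hKa]

theorem num_lg2 {Ka K1 Kb r Λ : ℝ} (hKa : 0 ≤ Ka) (hr : 0 < r)
    (h1 : 1 ≤ Λ) (hK : 16 * (Ka + K1 * Kb) ≤ Λ) :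
    Ka / r ^ 2 + K1 * Λ ^ 2 * (Kb / (1 / Λ ^ 4) ^ 2 / (r / Λ ^ 5) ^ 2) ≤
      1 / Λ ^ 2 / (2 * (2 * (r / Λ ^ 15))) ^ 2 := by
  have e1 : Ka / r ^ 2 + K1 * Λ ^ 2 * (Kb / (1 / Λ ^ 4) ^ 2 / (r / Λ ^ 5) ^ 2) =
      (Ka + K1 * Kb * Λ ^ 20) / r ^ 2 := by field_simp
  have e2 : 1 / Λ ^ 2 / (2 * (2 * (r / Λ ^ 15))) ^ 2 = (Λ ^ 28 / 16) / r ^ 2 := by
    field_simp; ring
  rw [e1, e2]
  refine div_le_div_of_nonneg_right ?_ (by positivity)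
  have a1 : 1 ≤ Λ ^ 20 := one_le_pow₀ h1
  have a2 := pow_step h1 hK (show 20 < 28 by norm_num)
  nlinarith [mul_le_mul_of_nonneg_left a1 hKa]

theorem num_d2' {Kd Ke N u r Λ : ℝ} (hKd : 0 ≤ Kd) (hu : 0 ≤ u)
    (hr : 0 < r) (h1 : 1 ≤ Λ) :
    3 * u / r * (1 + Kd * Λ ^ 4) ^ 2 + N * (Ke * Λ ^ 13 / r * (36 * N ^ 2 * u)) ≤
      (3 * (1 + Kd) ^ 2 + 36 * N ^ 3 * Ke) * (1 / Λ ^ 2) * u / (r / Λ ^ 15) := by
  have e1 : 3 * u / r * (1 + Kd * Λ ^ 4) ^ 2 + N * (Ke * Λ ^ 13 / r * (36 * N ^ 2 * u)) =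
      (3 * (1 + Kd * Λ ^ 4) ^ 2 + 36 * N ^ 3 * Ke * Λ ^ 13) * u / r := by field_simp
  have e2 : (3 * (1 + Kd) ^ 2 + 36 * N ^ 3 * Ke) * (1 / Λ ^ 2) * u / (r / Λ ^ 15) =
      (3 * (1 + Kd) ^ 2 * Λ ^ 13 + 36 * N ^ 3 * Ke * Λ ^ 13) * u / r := by field_simp
  rw [e1, e2]
  refine div_le_div_of_nonneg_right (mul_le_mul_of_nonneg_right ?_ hu) hr.le
  have a1 : 1 ≤ Λ ^ 4 := one_le_pow₀ h1
  have a2 : 1 + Kd * Λ ^ 4 ≤ (1 + Kd) * Λ ^ 4 := by linarith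
  have a3 := pow_le_pow_left₀ (by positivity) a2 2
  have a4 : (Λ ^ 4) ^ 2 ≤ Λ ^ 13 := by
    rw [← pow_mul]
    exact pow_le_pow_right₀ h1 (by norm_num)
  rw [mul_pow] at a3
  nlinarith [mul_le_mul_of_nonneg_left a4 (sq_nonneg (1 + Kd))]

theorem int_new {ι : Type} [Fintype ι] (μ : Measure (ι → ℝ)) {P P' U : (ι → ℝ) → ℝ}
    (T : ι × ι → (ι → ℝ) → ℝ) {c1 c2 c3 c : ℝ} (hc1 : 0 ≤ c1) (hc2 : 0 ≤ c2) (hc3 : 0 ≤ c3)
    (hU : Continuous U) (hPU : ∀ x, P x ≤ U x) (hU0 : ∀ x, 0 ≤ U x) (hT0 : ∀ p x, 0 ≤ T p x)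
    (hTm : ∀ p, Measurable (T p)) (h : ∀ x, P' x ≤ c1 * P x + ∑ p, T p x)
    (hT : ∑ p, ∫⁻ x, ENNReal.ofReal (T p x) ∂μ ≤
      ENNReal.ofReal c2 * ∫⁻ x, ENNReal.ofReal (P x) ∂μ) (hc : c1 + c2 + c3 ≤ c) :
    ∫⁻ x, ENNReal.ofReal (P' x + c3 * U x) ∂μ ≤
      ENNReal.ofReal c * ∫⁻ x, ENNReal.ofReal (U x) ∂μ := by
  have hUm : Measurable fun x => ENNReal.ofReal (U x) :=
    ENNReal.measurable_ofReal.comp hU.measurable
  have h1 : ∀ x, ENNReal.ofReal (P' x + c3 * U x) ≤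
      ENNReal.ofReal (c1 + c3) * ENNReal.ofReal (U x) + ∑ p, ENNReal.ofReal (T p x) := by
    intro x
    rw [← ENNReal.ofReal_mul (by positivity), ← ENNReal.ofReal_sum_of_nonneg fun p _ => hT0 p x,
      ← ENNReal.ofReal_add (mul_nonneg (by positivity) (hU0 x))
        (Finset.sum_nonneg fun p _ => hT0 p x)]
    refine ENNReal.ofReal_le_ofReal ?_
    have := h x
    have := mul_le_mul_of_nonneg_left (hPU x) hc1
    linarith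
  have h2 : ∫⁻ x, ENNReal.ofReal (P x) ∂μ ≤ ∫⁻ x, ENNReal.ofReal (U x) ∂μ :=
    lintegral_mono fun x => ENNReal.ofReal_le_ofReal (hPU x)
  refine (lintegral_mono h1).trans ?_
  rw [lintegral_add_left (hUm.const_mul _), lintegral_const_mul _ hUm,
    lintegral_finsetSum _ (f := fun p x => ENNReal.ofReal (T p x))
      fun p _ => ENNReal.measurable_ofReal.comp (hTm p)]
  calc _ ≤ ENNReal.ofReal (c1 + c3) * ∫⁻ x, ENNReal.ofReal (U x) ∂μ +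
        ENNReal.ofReal c2 * ∫⁻ x, ENNReal.ofReal (U x) ∂μ :=
        add_le_add le_rfl (hT.trans (mul_le_mul_right h2 _))
    _ = ENNReal.ofReal (c1 + c3 + c2) * ∫⁻ x, ENNReal.ofReal (U x) ∂μ := by
        rw [← add_mul, ← ENNReal.ofReal_add (by positivity) hc2]
    _ ≤ _ := mul_le_mul_left (ENNReal.ofReal_le_ofReal (by linarith)) _

theorem nn_meas {ι : Type} [Fintype ι] (τ δ : ℝ) (ω : ι → ℝ) (k : ι) :
    Measurable fun x => nn τ δ ω x k := by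
  unfold nn
  refine Measurable.ite ?_ measurable_const measurable_const
  have hm : Measurable (vv δ ω k) := by
    unfold vv
    fun_prop
  exact hm (measurableSet_near τ)

end TStepX

open TStepX in
theorem t_step (ι : Type) [Fintype ι] [DecidableEq ι] (hN : 2 ≤ Fintype.card ι) :
    ∃ K : ℝ, 1 ≤ K ∧ ∀ (g : (ι → ℝ) → ι → ℝ) (b : ι → (ι → ℝ) → ℝ) (U : (ι → ℝ) → ℝ) (r Λ : ℝ),
      TS g b U r → K ≤ Λ →
      ∃ (d : (ι → ℝ) → ι → ℝ) (b' : ι → (ι → ℝ) → ℝ) (U' : (ι → ℝ) → ℝ),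
        TS (fun x => g (x - d x)) b' U' (r / Λ ^ 15) ∧ (∀ x, ‖d x‖ ≤ r / Λ ^ 5) ∧
        C2B d (Λ ^ 5) (Λ ^ 14 / r) ∧ (∀ x k, act b k x = 0 → d x k = 0) ∧
        (∀ ξ : ℝ, 0 ≤ ξ → ξ ≤ 1 → Injective fun x => x - ξ • d x) ∧
        (∀ x k, act b' k x ≠ 0 → b k x ^ 2 ≤ Λ ^ 9 * U x) ∧
        ∫⁻ x in ball (0 : ι → ℝ) 1, ENNReal.ofReal (U' x) ≤
          ENNReal.ofReal (1 / Λ) * ∫⁻ x in ball (0 : ι → ℝ) 1, ENNReal.ofReal (U x) := by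
  obtain ⟨Ka, hKa, hact⟩ := act_reg hN
  obtain ⟨Ks, hKs, hsaw⟩ := exists_saw
  obtain ⟨Kb, hKb, hbump⟩ := exists_bump
  obtain ⟨N, hNdef⟩ : ∃ N : ℝ, N = Fintype.card ι := ⟨_, rfl⟩
  have hN0 : 0 ≤ N := hNdef ▸ Nat.cast_nonneg _
  obtain ⟨K1, hK1⟩ : ∃ K1 : ℝ, K1 = 1 + Ks := ⟨_, rfl⟩
  have hK11 : 1 ≤ K1 := by linarith
  obtain ⟨Kd, hKd⟩ : ∃ Kd : ℝ, Kd = Ka + Ks := ⟨_, rfl⟩
  obtain ⟨Ke, hKe⟩ : ∃ Ke : ℝ, Ke = Ka + 2 * Ka * Ks + Ks := ⟨_, rfl⟩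
  have hKd0 : 0 ≤ Kd := by linarith
  have hKe0 : 0 ≤ Ke := by rw [hKe]; positivity
  obtain ⟨K2, hK2⟩ : ∃ K2 : ℝ, K2 = 3 * (1 + Kd) ^ 2 + 36 * N ^ 3 * Ke := ⟨_, rfl⟩
  have hK20 : 0 ≤ K2 := by rw [hK2]; positivity
  obtain ⟨K3, hK3⟩ : ∃ K3 : ℝ, K3 = N ^ 2 * (540 * N * K1 + 900 * K1 ^ 2) := ⟨_, rfl⟩
  have hK30 : 0 ≤ K3 := by rw [hK3]; positivity
  have p1 : 0 ≤ 16 * (Ka + K1 * Kb) := by positivity
  have p2 : 0 ≤ 135 * Ka * N ^ 2 * K1 ^ 2 := by positivity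
  have p3 : 0 ≤ 72 * N ^ 2 + K3 + K2 := by positivity
  have p4 : 0 ≤ 2 * N ^ 3 * Ka := by positivity
  refine ⟨16 + Kd + Ke + 16 * (Ka + K1 * Kb) + 135 * Ka * N ^ 2 * K1 ^ 2 +
    (72 * N ^ 2 + K3 + K2) + 2 * N ^ 3 * Ka, by linarith, fun g b U r Λ hT hΛ => ?_⟩
  have hr := hT.rpos
  have h16 : 16 ≤ Λ := by linarith
  have h1 : 1 ≤ Λ := by linarith
  have hΛ0 : 0 < Λ := by linarith
  have hbpos : ∀ k x, 0 < b k x := fun k x => (hT.lg k).pos x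
  obtain ⟨hreg, hvt, -, -, hloc⟩ := hact b r hr hT.lg
  have hPlg := Pp_lg hN hr hT.lg
  have hU0 : ∀ x, 0 ≤ U x := fun x => (hPlg.pos x).le.trans (hT.pu x)
  have hτ0 : 0 < 1 / Λ ^ 4 := by positivity
  have hτ8 : 1 / Λ ^ 4 ≤ 1 / 8 := by
    refine one_div_le_one_div_of_le (by norm_num) ?_
    have := pow_step h1 (show 8 ≤ Λ by linarith) (show 0 < 4 by norm_num)
    linarith
  have ha0 : 0 < 1 / Λ ^ 2 := by positivity
  have ha1 : 1 / Λ ^ 2 ≤ 1 := by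
    rw [div_le_one (by positivity)]
    exact one_le_pow₀ h1
  have hδ : 0 < r / Λ ^ 5 := by positivity
  have hδr : r / Λ ^ 5 ≤ r := div_le_self hr.le (one_le_pow₀ h1)
  have hc1 : 1 ≤ K1 * Λ ^ 2 := one_le_mul_of_one_le_of_one_le hK11 (one_le_pow₀ h1)
  have hc0 : 0 ≤ K1 * Λ ^ 2 := by linarith
  obtain ⟨D, hD, hD0, hDm, hD1, -, hDp⟩ := hsaw (1 / Λ ^ 4) (1 / Λ ^ 4) hτ0 (by linarith) hτ0 hτ8
  obtain ⟨ψ, hψ, hψ01, hψ1, hψs⟩ := hbump (1 / Λ ^ 4) hτ0 hτ8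
  obtain ⟨ω, hω⟩ := exists_phase (Pp b) hPlg.cd.continuous (δ := r / Λ ^ 5) (a := 1 / Λ ^ 2)
    (c := K1 * Λ ^ 2) (K1 := K1) hτ0 (by linarith) ha0.le ha1 hc0 (by linarith)
    (le_of_eq (by field_simp)) (volume.restrict (ball (0 : ι → ℝ) 1))
  obtain ⟨V, hVdef⟩ : ∃ V, V = VV (1 / Λ ^ 2) (K1 * Λ ^ 2) ψ (r / Λ ^ 5) ω := ⟨_, rfl⟩
  have hVa : ∀ k x, 1 / Λ ^ 2 ≤ V k x := fun k x => hVdef ▸ VV_ge hc0 hψ01 _ ω k x
  have hV0 : ∀ k x, 0 ≤ V k x := fun k x => ha0.le.trans (hVa k x)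
  have hslope : ∀ k x, 1 - deriv D (vv (r / Λ ^ 5) ω k x) ≤ V k x ^ 2 := by
    intro k x
    rw [hVdef]
    refine slope_le (τ := 1 / Λ ^ 4) (A := Ks / (1 / Λ ^ 4)) ha0.le hc0 hψ01 hψ1
      (fun u => by rw [← norm_fderiv_real]; exact hD.d1 u) ?_ (fun u hu => ?_) ω k x
    · have e : Ks / (1 / Λ ^ 4) = Ks * Λ ^ 4 := by field_simp
      have a1 : 1 ≤ Λ ^ 4 := one_le_pow₀ h1
      have a2 : K1 ≤ K1 ^ 2 := by nlinarith
      have a3 := mul_le_mul_of_nonneg_right a2 (show 0 ≤ Λ ^ 4 by positivity)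
      have a4 : (K1 * Λ ^ 2) ^ 2 = K1 ^ 2 * Λ ^ 4 := by ring
      have a5 : K1 * Λ ^ 4 = Λ ^ 4 + Ks * Λ ^ 4 := by rw [hK1]; ring
      rw [e, a4]
      linarith
    · rw [hDp u hu]
      field_simp
  have hdC : C2B (dd (act b) (r / Λ ^ 5) D ω) (Kd * Λ ^ 4) (Ke * Λ ^ 13 / r) := by
    refine C2B.pi (by positivity) (by positivity) fun k => ?_
    refine (dd_coord_c2b hδ ω hD hD0 hreg.r01 hreg.rC k).mono ?_ ?_
    · rw [hKd]; exact num_d1 (by linarith) hr h1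
    · rw [hKe]; exact num_d2 (by linarith) (by linarith) hr h1
  have hdn := dd_norm hδ ω hD0 hreg.r01
  have hr' : 0 < r / Λ ^ 15 := by positivity
  have hlg : ∀ k, Lg (bb b V (1 / Λ ^ 2) k) (2 * (r / Λ ^ 15)) := by
    intro k
    refine lg_new hN hr (by positivity) ?_ ha0 hT.lg hvt
      (fun k => hVdef ▸ VV_c2b hc0 hδ hψ ω k) hVa
      (num_lg1 (by linarith) hr h1 (by linarith) (by positivity))
      (num_lg2 (by linarith) hr h1 (by linarith)) k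
    have a1 := pow_step h1 (show 4 ≤ Λ by linarith) (show 0 < 15 by norm_num)
    have a2 : r / Λ ^ 15 ≤ r / 4 := div_le_div_of_nonneg_left hr.le (by norm_num) (by linarith)
    linarith
  have hP'lg := Pp_lg hN hr' hlg
  refine ⟨dd (act b) (r / Λ ^ 5) D ω, bb b V (1 / Λ ^ 2),
    fun x => Pp (bb b V (1 / Λ ^ 2)) x + K2 * (1 / Λ ^ 2) * U x,
    ⟨hr', hT.cd.comp (contDiff_id.sub hdC.cd), fun x k => ?_, fun x => ?_, hlg, fun x => ?_,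
      hP'lg.cd.continuous.add (continuous_const.mul hT.cu), ?_⟩,
    fun x => by linarith [hdn x], hdC.mono ?_ ?_, fun x k h => by simp [dd, h],
    fun ξ h0 h1' => ?_, fun x k h => ?_, ?_⟩
  · refine col_new hN hT hδ hδr ha0.le hD hD0 (fun u => by linarith [hD1 u]) ω hreg hloc hV0
      hslope ?_ x k
    rw [← hNdef]
    have e1 : 2 * N ^ 3 * (Ka / r) * (r / Λ ^ 5) = 2 * N ^ 3 * Ka / Λ ^ 5 := by field_simp
    have e2 : (1 / Λ ^ 2) ^ 2 = Λ / Λ ^ 5 := by field_simp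
    rw [e1, e2]
    exact div_le_div_of_nonneg_right (by linarith) (by positivity)
  · have hx : ‖x - (x - dd (act b) (r / Λ ^ 5) D ω x)‖ ≤ r := by
      rw [sub_sub_cancel]
      linarith [hdn x]
    have hs : ‖D2 g (x - dd (act b) (r / Λ ^ 5) D ω x)‖ ≤ 3 * U x / r :=
      (hT.d2 _).trans (div_le_div_of_nonneg_right (hT.sv x _ hx) hr.le)
    have key := d2_bound hT.cd hdC x hs (c := 36 * N ^ 2 * U x)
      (by have := hU0 x; positivity) fun l => by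
        rcases hloc l x with h | h
        · left
          filter_upwards [h] with y hy
          simp [dd, hy]
        · right
          refine (hT.col _ l).trans ?_
          have a1 : b l (x - dd (act b) (r / Λ ^ 5) D ω x) ≤ 3 * b l x :=
            (hT.lg l).sv (by linarith) x _ (by linarith)
          obtain ⟨s0, s1, -⟩ := sg_facts hN hbpos x
          rw [← hNdef] at h
          have a2 : b l (x - dd (act b) (r / Λ ^ 5) D ω x) ≤ 6 * N * sg b x := by linarith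
          have a3 := pow_le_pow_left₀ (hbpos l _).le a2 2
          have a4 := mul_le_mul_of_nonneg_left (s1.trans (hT.pu x))
            (show 0 ≤ 36 * N ^ 2 by positivity)
          nlinarith
    rw [← hNdef] at key
    refine key.trans ((num_d2' hKd0 (hU0 x) hr h1).trans ?_)
    rw [← hK2]
    exact div_le_div_of_nonneg_right (by linarith [hP'lg.pos x]) hr'.le
  · have := hU0 x
    have : 0 ≤ K2 * (1 / Λ ^ 2) * U x := by positivity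
    linarith
  · exact (hP'lg.sv hr').add ((hT.sv.mono (div_le_self hr.le (one_le_pow₀ h1))).const_mul
      (by positivity))
  · exact pow_step h1 (by linarith) (by norm_num)
  · exact div_le_div_of_nonneg_right (pow_step h1 (by linarith) (by norm_num)) hr.le
  · refine dd_inj hδ ω hD0 hτ0.le (by linarith) hDm hreg.r01 hreg.rC (by positivity) ?_ ξ h0 h1'
    have e1 : Ka / r * (r / Λ ^ 5) / 2 = Ka / 2 / Λ ^ 5 := by field_simp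
    have e2 : 1 / Λ ^ 4 = Λ / Λ ^ 5 := by field_simp
    rw [e1, e2]
    exact div_lt_div_of_pos_right (by linarith) (by positivity)
  · obtain ⟨-, -, -, hact', -⟩ := hact _ _ hr' hlg
    have a1 := hact' k x h
    have a2 := Pp_bb_crude hN hbpos ha0.le ha1 hc1 x (fun k => hV0 k x)
      (fun k => hVdef ▸ VV_le hc0 hψ01 _ ω k x)
    rw [← hNdef] at a2
    obtain ⟨s0, -⟩ := sg_facts hN hbpos x
    have a3 : 1 / Λ ^ 2 * b k x ≤ bb b V (1 / Λ ^ 2) k x := by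
      have v0 : 0 ≤ vt b k x := st_nonneg _
      have b0 := (hbpos k x).le
      have := mul_le_mul_of_nonneg_right (hVa k x) b0
      have : 0 ≤ vt b k x * b k x := by positivity
      have : 0 ≤ sg b x * (1 / Λ ^ 2) := by positivity
      have : 0 ≤ 1 / Λ ^ 2 * b k x := by positivity
      unfold bb
      linarith
    have a4 := pow_le_pow_left₀ (by have := hbpos k x; positivity) a3 2
    have a5 : b k x ^ 2 = Λ ^ 4 * (1 / Λ ^ 2 * b k x) ^ 2 := by field_simp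
    have a6 : Ka * Pp (bb b V (1 / Λ ^ 2)) x ≤ 135 * Ka * N ^ 2 * K1 ^ 2 * Λ ^ 4 * U x := by
      have a7 := mul_le_mul_of_nonneg_left (hT.pu x)
        (show 0 ≤ 135 * N ^ 2 * (K1 * Λ ^ 2) ^ 2 by positivity)
      have a8 := mul_le_mul_of_nonneg_left (a2.trans a7) (show 0 ≤ Ka by linarith)
      calc _ ≤ _ := a8
        _ = _ := by ring
    have a9 := mul_le_mul_of_nonneg_right
      (pow_step h1 (show 135 * Ka * N ^ 2 * K1 ^ 2 ≤ Λ by linarith) (show 8 < 9 by norm_num)) (hU0 x)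
    have a10 := mul_le_mul_of_nonneg_left (a4.trans (a1.trans a6)) (show 0 ≤ Λ ^ 4 by positivity)
    rw [a5]
    calc _ ≤ _ := a10
      _ = 135 * Ka * N ^ 2 * K1 ^ 2 * Λ ^ 8 * U x := by ring
      _ ≤ _ := a9
  · have hW0 : ∀ p : ι × ι, 0 ≤ WW (K1 * Λ ^ 2) p := fun p => by
      unfold WW
      split_ifs <;> positivity
    have hn01 : ∀ x k, nn (1 / Λ ^ 4) (r / Λ ^ 5) ω x k = 0 ∨
        nn (1 / Λ ^ 4) (r / Λ ^ 5) ω x k = 1 := fun x k => by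
      unfold nn
      split_ifs <;> simp
    have hn0 : ∀ x k, 0 ≤ nn (1 / Λ ^ 4) (r / Λ ^ 5) ω x k := fun x k => by
      rcases hn01 x k with h | h <;> rw [h] <;> norm_num
    rw [← hNdef, ← hK3] at hω
    refine int_new _ (P := Pp b) (c1 := 72 * N ^ 2 * (1 / Λ ^ 2)) (c2 := K3 * (1 / Λ ^ 2)) _
      (by positivity) (by positivity) (by positivity) hT.cu hT.pu hU0
      (fun p x => mul_nonneg (mul_nonneg (hn0 x _) (hn0 x _))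
        (mul_nonneg (hW0 p) (hPlg.pos x).le))
      (fun p => ((nn_meas _ _ ω p.1).mul (nn_meas _ _ ω p.2)).mul
        (continuous_const.mul hPlg.cd.continuous).measurable) (fun x => ?_) hω ?_
    · have := Pp_bb_ind hN hbpos ha0.le ha1 hc0 x _ (hn01 x) (fun k => hV0 k x)
        (fun k => hVdef ▸ VV_le_nn hc0 hψ01 hψs _ ω k x)
      rwa [← hNdef] at this
    · have e : 1 / Λ = Λ * (1 / Λ ^ 2) := by field_simp
      rw [e]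
      have := mul_le_mul_of_nonneg_right (show 72 * N ^ 2 + K3 + K2 ≤ Λ by linarith) ha0.le
      linarith

end SJ
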