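import Mathlib
import Pool.Agent.MP_edaf86_an.TStep
import Pool.Agent.MP_edaf86_an.Num

namespace SJ
open Set Filter Topology MeasureTheory Metric Function
open scoped ENNReal

variable {ι : Type} [Fintype ι] [DecidableEq ι]

namespace TPackX

theorem ts_init {r : ℝ} (hr : 0 < r) :
    TS (fun x : ι → ℝ => x) (fun _ _ => 1) (fun _ => (Fintype.card ι : ℝ) ^ 2) r := by
  refine ⟨hr, contDiff_id, fun x k => ?_, fun x => ?_, fun k => Lg.const one_pos (by positivity),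
    fun x => ?_, continuous_const, fun x x' _ => ?_⟩
  · simp [Pi.norm_single]
  · exact ((C2B.id' (E := ι → ℝ)).d2 x).trans (by positivity)
  · unfold Pp
    calc ∑ k : ι, ∑ l ∈ Finset.univ.erase k, (1 : ℝ) * 1
        ≤ ∑ _k : ι, (Fintype.card ι : ℝ) := by
          refine Finset.sum_le_sum fun k _ => ?_
          rw [Finset.sum_const, mul_one, nsmul_eq_mul, mul_one]
          exact_mod_cast Finset.card_le_univ _
      _ = (Fintype.card ι : ℝ) ^ 2 := by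
          rw [Finset.sum_const, nsmul_eq_mul, Finset.card_univ, pow_two]
  · have : (0 : ℝ) ≤ (Fintype.card ι : ℝ) ^ 2 := by positivity
    linarith

theorem Pp_nonneg {b : ι → (ι → ℝ) → ℝ} (hb : ∀ k x, 0 < b k x) (x : ι → ℝ) : 0 ≤ Pp b x :=
  Finset.sum_nonneg fun k _ => Finset.sum_nonneg fun l _ => (mul_pos (hb k x) (hb l x)).le

/-- the cut-off horizontal move -/
noncomputable def HH {X : Type*} [NormedAddCommGroup X] [NormedSpace ℝ X] (l : ℝ) (d : X → X)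
    (y : X × ℝ) : X × ℝ := (y.1 - zeta (8 * y.2 / l) • d y.1, y.2)

theorem HH_c2b {X : Type*} [NormedAddCommGroup X] [NormedSpace ℝ X] {l L K0 : ℝ} {d : X → X}
    (hl : 0 < l) (hK : 1 ≤ K0) (hz : C2B zeta K0 K0) (hL : 64 * K0 ≤ L)
    (h0 : ∀ x, ‖d x‖ ≤ l / L ^ 5) (hd : C2B d (L ^ 5) (L ^ 14 / l)) :
    C2B (HH l d) (L ^ 6) (L ^ 20 / l) := by
  have hL1 : 64 ≤ L := by linarith
  have hL0 : 0 < L := by linarith
  have h1 : C2B (fun y : X × ℝ => 8 * y.2 / l) (8 / l) 0 := by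
    have := ((C2B.snd' (E := X) (F := ℝ)).const_mul 8).div_const hl
    simpa using this
  have h2 := hz.comp h1
  have h3 := hd.comp (C2B.fst' (E := X) (F := ℝ))
  have h4 := C2B.smul (a0 := 1) (b0 := l / L ^ 5)
    (fun y : X × ℝ => by rw [abs_of_nonneg (zeta_nonneg _)]; exact zeta_le_one _) h2
    (fun y => h0 y.1) h3
  have h5 := (C2B.fst' (E := X) (F := ℝ)).sub h4
  have p5 : L ≤ L ^ 5 := le_self_pow₀ (by linarith) (by norm_num)
  have q5 : 0 < L ^ 5 := by positivity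
  have e1 : 64 * K0 / L ^ 5 ≤ 1 := (div_le_one q5).2 (by linarith)
  have e2 : 8 * K0 / L ^ 5 ≤ 1 := (div_le_one q5).2 (by linarith)
  have p14 : L ^ 6 ≤ L ^ 14 := pow_le_pow_right₀ (by linarith) (by norm_num)
  have p6 : 64 * L ^ 5 ≤ L ^ 6 := by rw [pow_succ L 5]; nlinarith
  have p19 : L ^ 14 ≤ L ^ 19 := pow_le_pow_right₀ (by linarith) (by norm_num)
  have p20 : 64 * L ^ 19 ≤ L ^ 20 := by
    have : 0 < L ^ 19 := by positivity
    rw [pow_succ L 19]; nlinarith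
  have p66 : 16 * K0 * L ^ 5 ≤ L ^ 6 := by rw [pow_succ L 5]; nlinarith
  refine C2B.prodMk (h5.mono ?_ ?_) ((C2B.snd' (E := X) (F := ℝ)).mono (by linarith)
    (by positivity))
  · have : K0 * (8 / l) * (l / L ^ 5) = 8 * K0 / L ^ 5 := by field_simp
    rw [this]; linarith
  · have : 0 + ((K0 * (8 / l) ^ 2 + K0 * 0) * (l / L ^ 5) + 2 * (K0 * (8 / l)) * (L ^ 5 * 1) +
        1 * (L ^ 14 / l * 1 ^ 2 + L ^ 5 * 0)) =
        (64 * K0 / L ^ 5 + 16 * K0 * L ^ 5 + L ^ 14) / l := by field_simp; ring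
    rw [this]
    refine div_le_div_of_nonneg_right ?_ hl.le
    linarith

end TPackX
open TPackX

theorem exists_packT (hN : 2 ≤ Fintype.card ι) : ∃ K1 x0 : ℝ, 1 ≤ K1 ∧
    ∀ lam : ℕ → ℝ, Geo lam → x0 ≤ lam 0 →
      ∃ (θ : ℕ → ι → (ι → ℝ) → ℝ) (H : ℕ → (ι → ℝ) × ℝ → (ι → ℝ) × ℝ)
        (g : ℕ → (ι → ℝ) → ι → ℝ) (U : ℕ → (ι → ℝ) → ℝ),
        PackT lam θ H g U ∧ ∀ j, Reg K1 (ell (lam j)) (θ j) := by
  obtain ⟨K, hK1, hK⟩ := t_step ι hN
  obtain ⟨Ka, hKa1, hKa⟩ := act_reg (ι := ι) hN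
  obtain ⟨K0, hK01, -, hz, -⟩ := exists_K0
  refine ⟨Ka, K + 9 * Ka + 64 * K0, hKa1, fun lam hg hx0 => ?_⟩
  have hLam : ∀ j, K + 9 * Ka + 64 * K0 ≤ Lam (lam j) := fun j => by
    have h1 : lam 0 ≤ lam j := hg.mono (Nat.zero_le j)
    have h2 := hg.ge400 j
    exact le_exp_of_le (by linarith)
  let S : ℕ → Type := fun j =>
    {p : ((ι → ℝ) → ι → ℝ) × (ι → (ι → ℝ) → ℝ) × ((ι → ℝ) → ℝ) //
      TS p.1 p.2.1 p.2.2 (ell (lam j))}
  have step : ∀ j (s : S j), ∃ (d : (ι → ℝ) → ι → ℝ) (s' : S (j + 1)),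
      s'.1.1 = (fun x => s.1.1 (x - d x)) ∧ (∀ x, ‖d x‖ ≤ ell (lam j) / Lam (lam j) ^ 5) ∧
        C2B d (Lam (lam j) ^ 5) (Lam (lam j) ^ 14 / ell (lam j)) ∧
        (∀ x k, act s.1.2.1 k x = 0 → d x k = 0) ∧
        (∀ ξ : ℝ, 0 ≤ ξ → ξ ≤ 1 → Injective fun x => x - ξ • d x) ∧
        (∀ x k, act s'.1.2.1 k x ≠ 0 → s.1.2.1 k x ^ 2 ≤ Lam (lam j) ^ 9 * s.1.2.2 x) ∧
        ∫⁻ x in ball (0 : ι → ℝ) 1, ENNReal.ofReal (s'.1.2.2 x) ≤
          ENNReal.ofReal (1 / Lam (lam j)) *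
            ∫⁻ x in ball (0 : ι → ℝ) 1, ENNReal.ofReal (s.1.2.2 x) := by
    intro j s
    obtain ⟨d, b', U', h1, h2⟩ := hK s.1.1 s.1.2.1 s.1.2.2 _ (Lam (lam j)) s.2
      (by have := hLam j; linarith)
    rw [← hg.ell_succ] at h1
    exact ⟨d, ⟨(_, b', U'), h1⟩, rfl, h2⟩
  choose d nx hs using step
  let s0 : S 0 := ⟨(fun x => x, fun _ _ => 1, fun _ => (Fintype.card ι : ℝ) ^ 2),
    ts_init (ell_pos _)⟩
  let s : (j : ℕ) → S j := fun j => Nat.rec (motive := S) s0 (fun j t => nx j t) j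
  have hs' : ∀ j, s (j + 1) = nx j (s j) := fun j => rfl
  have hreg := fun j => hKa (s j).1.2.1 _ (ell_pos (lam j)) (s j).2.lg
  have hup : ∀ j x, 0 ≤ (s j).1.2.2 x := fun j x =>
    (Pp_nonneg (fun k x => ((s j).2.lg k).pos x) x).trans ((s j).2.pu x)
  refine ⟨fun j => act (s j).1.2.1, fun j => HH (ell (lam j)) (d j (s j)), fun j => (s j).1.1,
    fun j => (s j).1.2.2, ⟨fun j => ?_, fun j y => rfl, fun j => ?_, fun j y => ?_,
      fun j y h => ?_, fun j y h => ?_, fun j y k h => ?_, fun x => rfl, fun j => (s j).2.cd,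
      fun j => (s j).2.d2, fun j x x' k hx h => ?_, hup, fun j => (s j).2.cu,
      fun j => (s j).2.sv, fun j => ?_⟩, fun j => (hreg j).1⟩
  · exact HH_c2b (ell_pos _) hK01 hz (by have := hLam j; linarith) (hs j (s j)).2.1
      (hs j (s j)).2.2.1
  · intro y y' h
    have h2 : y.2 = y'.2 := (congrArg Prod.snd h :)
    have h1 : y.1 - zeta (8 * y.2 / ell (lam j)) • d j (s j) y.1 =
        y'.1 - zeta (8 * y'.2 / ell (lam j)) • d j (s j) y'.1 := congrArg Prod.fst h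
    rw [← h2] at h1
    exact Prod.ext ((hs j (s j)).2.2.2.2.1 _ (zeta_nonneg _) (zeta_le_one _) h1) h2
  · have e : HH (ell (lam j)) (d j (s j)) y - y =
        (-(zeta (8 * y.2 / ell (lam j)) • d j (s j) y.1), 0) := by
      ext <;> simp [HH]
    have hL : 1 ≤ Lam (lam j) := by have := hLam j; linarith
    rw [e, Prod.norm_def, norm_neg, norm_smul, norm_zero, Real.norm_eq_abs,
      abs_of_nonneg (zeta_nonneg _), max_eq_left (mul_nonneg (zeta_nonneg _) (norm_nonneg _))]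
    refine (mul_le_of_le_one_left (norm_nonneg _) (zeta_le_one _)).trans
      (((hs j (s j)).2.1 _).trans ?_)
    exact div_le_div_of_nonneg_left (ell_pos _).le (Lam_pos _) (le_self_pow₀ hL (by norm_num))
  · have hl := ell_pos (lam j)
    have : zeta (8 * y.2 / ell (lam j)) = 0 := by
      refine zeta_zero ?_
      rw [abs_div, abs_mul, abs_of_pos hl, le_div_iff₀ hl, abs_of_pos (by norm_num : (0 : ℝ) < 8)]
      linarith
    simp [HH, this]
  · have hl := ell_pos (lam j)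
    have : zeta (8 * y.2 / ell (lam j)) = 1 := by
      refine zeta_one ?_
      rw [abs_div, abs_mul, abs_of_pos hl, div_le_iff₀ hl, abs_of_pos (by norm_num : (0 : ℝ) < 8)]
      linarith
    show (s (j + 1)).1.1 y.1 = _
    rw [hs', (hs j (s j)).1]
    simp [HH, this]
  · have := (hs j (s j)).2.2.2.1 y.1 k h
    simp [HH, this]
  · have hL := hLam j
    have hp := Lam_pos (lam j)
    have h1 := (s j).2.col x k
    have h2 : (s j).1.2.1 k x ≤ 3 * (s j).1.2.1 k x' :=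
      Lg.sv (by have := ell_pos (lam j); positivity) ((s j).2.lg k) x' x
        (by rwa [norm_sub_rev])
    have h3 := ((s j).2.lg k).pos x
    have h4 : (s j).1.2.1 k x ^ 2 ≤ 9 * (s j).1.2.1 k x' ^ 2 := by nlinarith
    have hu := hup j x'
    have h9 : 1 ≤ Lam (lam j) ^ 9 := one_le_pow₀ (by linarith)
    refine h1.trans (h4.trans ?_)
    rw [pow_succ (Lam (lam j)) 9]
    rcases h with h | h
    · have h5 := (hreg j).2.2.2.1 k x' h
      have h6 := mul_le_mul_of_nonneg_left ((s j).2.pu x') (show 0 ≤ Ka by linarith)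
      have h7 : 9 * Ka ≤ Lam (lam j) ^ 9 * Lam (lam j) := by nlinarith
      have h8 := mul_le_mul_of_nonneg_right h7 hu
      linarith
    · have h5 := (hs j (s j)).2.2.2.2.2.1 x' k h
      have h7 : 9 * Lam (lam j) ^ 9 ≤ Lam (lam j) ^ 9 * Lam (lam j) := by nlinarith
      have h8 := mul_le_mul_of_nonneg_right h7 hu
      linarith
  · exact (hs j (s j)).2.2.2.2.2.2

end SJ
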