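import Mathlib
import Pool.Agent.MP_edaf86_an.Wrap
import Pool.Agent.MP_edaf86_an.TPack
import Pool.Agent.MP_edaf86_an.FPack
import Pool.Agent.MP_edaf86_an.PLimit
import Pool.Agent.MP_edaf86_an.PSign
import Pool.Agent.MP_edaf86_an.PInt

namespace SJ
open Set Filter Topology MeasureTheory Metric Function
open scoped ENNReal


theorem main (n : ℕ) (hn : 1300000 ≤ n) (q : ℝ) (hq1 : 1 ≤ q) (hq2 : q ≤ 1 + 1 / 2000000) :
    SignChange n q := by
  obtain ⟨N, rfl⟩ : ∃ N, n = N + 1 := ⟨n - 1, by omega⟩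
  have hN : 1299999 ≤ Fintype.card (Fin N) := by rw [Fintype.card_fin]; omega
  obtain ⟨K1, x0, hK1, hT⟩ := exists_packT (ι := Fin N) (by omega)
  obtain ⟨x1, hF⟩ := exists_packF (ι := Fin N) hN K1 hK1
  obtain ⟨lam, hG, hl⟩ := exists_geo (max (max x0 x1) N)
  obtain ⟨θ, H, g, U, hPT, hreg⟩ := hT lam hG (le_trans (le_trans (le_max_left _ _) (le_max_left _ _)) hl)
  obtain ⟨κ, a, ρ, S, Γ, O, Bad, hPF⟩ :=
    hF lam hG (le_trans (le_trans (le_max_right _ _) (le_max_left _ _)) hl) θ hreg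
  have hNe : (Fintype.card (Fin N) : ℝ) ≤ Real.exp (lam 0) := by
    rw [Fintype.card_fin]
    have h1 : (N : ℝ) ≤ lam 0 := le_trans (le_max_right _ _) hl
    have h2 := Real.add_one_le_exp (lam 0)
    linarith
  obtain ⟨f, hfc, hfi, hlim, hbd⟩ := pack_limit hG hPT hPF
  obtain ⟨Pos, Neg, hP, hNg, hP0, hN0, hPd, hNd⟩ := pack_sign hG hPT hPF
  obtain ⟨C, hC, hint⟩ := pack_int hG hPT hPF hNe
  refine wrap N (FF H S Γ ρ a) f (fun j => 2800 * lam j) C 560000 q
    (fun j => (pack_sup hG hPT hPF j).cd) hfc hfi hlim (fun j y hy => (hbd j y hy).trans hC)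
    (fun j => ?_) (fun i j hij => ?_) (by norm_num)
    (fun j y => ⟨(pack_sup hG hPT hPF j).d1 y, (pack_sup hG hPT hPF j).d2 y⟩)
    (fun j hj => (hint j hj).1) (fun j hj => (hint j hj).2) Pos Neg hP hNg hP0 hN0 hPd hNd hq1
    (by linarith)
  · have := hG.ge j
    have h0 : (0 : ℝ) ≤ j := Nat.cast_nonneg j
    linarith
  · have := hG.mono hij
    show 2800 * lam i ≤ 2800 * lam j
    linarith

end SJ
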