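import Mathlib

namespace SJ
open MeasureTheory

/-- `v` is the weak derivative of `u` in the `i`-th coordinate direction on `Ω`:
integration by parts against every smooth test function with compact support inside `Ω`. -/
def WeakPD {n : ℕ} (Ω : Set (Fin n → ℝ)) (i : Fin n) (u v : (Fin n → ℝ) → ℝ) : Prop :=
  ∀ φ : (Fin n → ℝ) → ℝ, ContDiff ℝ ((⊤ : ℕ∞) : WithTop ℕ∞) φ → HasCompactSupport φ →
    tsupport φ ⊆ Ω →
    ∫ x in Ω, u x * fderiv ℝ φ x (Pi.single i 1) = - ∫ x in Ω, v x * φ x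

/-- `f` lies in `W^{2,q}(Ω, ℝ^n)` with weak differential `Df` (entry `a i` is the weak derivative of
the coordinate `f_a` in direction `i`): every coordinate, every weak first derivative and every
weak second derivative lies in `L^q(Ω)`. -/
def W2q {n : ℕ} (q : ℝ) (Ω : Set (Fin n → ℝ)) (f : (Fin n → ℝ) → Fin n → ℝ)
    (Df : (Fin n → ℝ) → Matrix (Fin n) (Fin n) ℝ) : Prop :=
  ∀ a : Fin n, MemLp (fun x => f x a) (ENNReal.ofReal q) (volume.restrict Ω) ∧
    ∀ i : Fin n, MemLp (fun x => Df x a i) (ENNReal.ofReal q) (volume.restrict Ω) ∧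
      WeakPD Ω i (fun x => f x a) (fun x => Df x a i) ∧
      ∀ j : Fin n, ∃ w : (Fin n → ℝ) → ℝ, MemLp w (ENNReal.ofReal q) (volume.restrict Ω) ∧
        WeakPD Ω j (fun x => Df x a i) w

end SJ
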