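import Mathlib
import Pool.Agent.MP_edaf86_an.Stmt

section

namespace NV
open Set Filter Topology MeasureTheory Metric Function
open scoped ENNReal Convolution

/-- the space R^(p+2) with the sup norm -/
abbrev W (p : ℕ) : Type := Fin (p + 2) → ℝ

/-- square matrices -/
abbrev Mx (p : ℕ) : Type := Matrix (Fin (p + 2)) (Fin (p + 2)) ℝ

variable {p : ℕ}

/-- rank -/
noncomputable def rk (B : W p →L[ℝ] W p) : ℕ :=
  Module.finrank ℝ (LinearMap.range (B : W p →ₗ[ℝ] W p))

/-- the fixed bump -/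
noncomputable def bump (p : ℕ) : ContDiffBump (0 : W p) := ⟨1 / 2, 1, by norm_num, by norm_num⟩

/-- mollification at scale 2^(-k) -/
noncomputable def mo (k : ℕ) (u : W p → ℝ) (x : W p) : ℝ :=
  ∫ y, ((2 : ℝ) ^ k) ^ (p + 2) * (bump p).normed volume ((2 : ℝ) ^ k • (x - y)) * u y

/-- matrix as a continuous linear map -/
noncomputable def toL (M : Mx p) : W p →L[ℝ] W p :=
  LinearMap.toContinuousLinearMap (Matrix.toLin' M)

/-- shadow of a set under a relation -/
def sh (T : W p → W p → Prop) (E : Set (W p)) : Set (W p) := {z | ∃ x ∈ E, T z x}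

/-- l1 distance of matrices -/
noncomputable def dd (B B' : Mx p) : ℝ := ∑ a, ∑ i, |B a i - B' a i|

/-- the measure with density |D - B| on O -/
noncomputable def nu (O : Set (W p)) (D : W p → Mx p) (B : Mx p) : Measure (W p) :=
  (volume.restrict O).withDensity fun y => ∑ a, ∑ i, ‖D y a i - B a i‖ₑ

/-- points with maximal function at most η up to scale ρ -/
def Gd (ν : Measure (W p)) (η ρ : ℝ) : Set (W p) :=
  {x | ∀ r : ℝ, 0 < r → r ≤ ρ → ν (ball x r) ≤ ENNReal.ofReal (η * r ^ (p + 2))}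

/-- first order data on O -/
structure D1 (O : Set (W p)) (f : W p → W p) (D : W p → Mx p) : Prop where
  op : IsOpen O
  ct : ContinuousOn f O
  i0 : ∀ a, IntegrableOn (fun x => f x a) O volume
  i1 : ∀ a i, IntegrableOn (fun x => D x a i) O volume
  wk : ∀ a i, SJ.WeakPD O i (fun x => f x a) (fun x => D x a i)

theorem sh_mono (T : W p → W p → Prop) {E E' : Set (W p)} (h : E ⊆ E') : sh T E ⊆ sh T E' :=
  fun _ ⟨x, hx, hz⟩ => ⟨x, h hx, hz⟩

theorem sh_iUnion {ι : Sort*} (T : W p → W p → Prop) (E : ι → Set (W p)) :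
    sh T (⋃ i, E i) = ⋃ i, sh T (E i) := by
  ext z
  simp only [sh, mem_ofPred_eq, mem_iUnion]
  exact ⟨fun ⟨x, ⟨i, hi⟩, h⟩ => ⟨i, x, hi, h⟩, fun ⟨i, x, hi, h⟩ => ⟨x, ⟨i, hi⟩, h⟩⟩

theorem vol_ball (x : W p) {r : ℝ} (hr : 0 < r) :
    volume (ball x r) = ENNReal.ofReal ((2 * r) ^ (p + 2)) := by
  rw [Real.volume_pi_ball x hr, Fintype.card_fin]

theorem isClosed_Gd (ν : Measure (W p)) (a ρ : ℝ) : IsClosed (Gd ν a ρ) := by
  refine isClosed_of_closure_subset fun x hx s hs hsρ => ?_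
  have e : ball x s = ⋃ n : ℕ, ball x (s - 1 / ((n : ℝ) + 1)) := by
    refine Subset.antisymm (fun y hy => ?_) (iUnion_subset fun n => ball_subset_ball ?_)
    · obtain ⟨n, hn⟩ := exists_nat_one_div_lt (sub_pos.2 (mem_ball.1 hy))
      exact mem_iUnion.2 ⟨n, mem_ball.2 (by linarith)⟩
    · have : (0 : ℝ) < 1 / ((n : ℝ) + 1) := Nat.one_div_pos_of_nat
      linarith
  have hm : Monotone fun n : ℕ => ball x (s - 1 / ((n : ℝ) + 1)) := fun m n hmn =>
    ball_subset_ball (by linarith [Nat.one_div_le_one_div (α := ℝ) hmn])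
  rw [e, hm.measure_iUnion]
  refine iSup_le fun n => ?_
  obtain ⟨y, hy, hd⟩ := Metric.mem_closure_iff.1 hx (1 / ((n : ℝ) + 1)) Nat.one_div_pos_of_nat
  exact (measure_mono (ball_subset_ball' (by linarith))).trans (hy s hs hsρ)

theorem Gd_mono {ν : Measure (W p)} {a b ρ ρ' : ℝ} (h : a ≤ b) (h' : ρ' ≤ ρ) :
    Gd ν a ρ ⊆ Gd ν b ρ' :=
  fun _ hx s hs hsρ => (hx s hs (hsρ.trans h')).trans
    (ENNReal.ofReal_le_ofReal (mul_le_mul_of_nonneg_right h (pow_nonneg hs.le _)))

theorem rk_le (B : W p →L[ℝ] W p) : rk B ≤ p + 2 := by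
  have := Submodule.finrank_le (LinearMap.range (B : W p →ₗ[ℝ] W p))
  simpa [rk] using this

theorem rk_eq_iff (B : W p →L[ℝ] W p) : rk B = p + 2 ↔ B.det ≠ 0 := by
  have h1 : B.det ≠ 0 ↔ LinearMap.range (B : W p →ₗ[ℝ] W p) = ⊤ := by
    rw [← LinearMap.isUnit_iff_range_eq_top, LinearMap.isUnit_iff_isUnit_det, isUnit_iff_ne_zero]
  rw [h1, rk]
  constructor
  · intro h
    exact Submodule.eq_top_of_finrank_eq (by rw [h]; simp)
  · intro h
    rw [h]
    simp

theorem det_toL (M : Matrix (Fin (p + 2)) (Fin (p + 2)) ℝ) : (toL M).det = M.det :=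
  LinearMap.det_toLin' M

namespace MoAX

/-- the rescaled kernel -/
noncomputable def Kk (p k : ℕ) (z : W p) : ℝ :=
  ((2 : ℝ) ^ k) ^ (p + 2) * (bump p).normed volume ((2 : ℝ) ^ k • z)

theorem contDiff_Kk (k : ℕ) {n : ℕ∞} : ContDiff ℝ n (Kk p k) :=
  contDiff_const.mul ((bump p).contDiff_normed.comp (contDiff_id.const_smul ((2 : ℝ) ^ k)))

theorem norm_lt_of_Kk {k : ℕ} {z : W p} (h : Kk p k z ≠ 0) : ‖z‖ < (1 / 2 : ℝ) ^ k := by
  have h1 : (2 : ℝ) ^ k • z ∈ support ((bump p).normed volume) := right_ne_zero_of_mul h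
  rw [ContDiffBump.support_normed_eq, mem_ball_zero_iff, norm_smul, Real.norm_eq_abs,
    abs_of_pos (by positivity)] at h1
  have h2 : (2 : ℝ) ^ k * ‖z‖ < 1 := h1
  rw [one_div, inv_pow, inv_eq_one_div, lt_div_iff₀ (by positivity)]
  linarith

theorem supp_Kk (k : ℕ) : HasCompactSupport (Kk p k) :=
  HasCompactSupport.of_support_subset_isCompact (isCompact_closedBall 0 ((1 / 2 : ℝ) ^ k))
    fun _ hz => mem_closedBall_zero_iff.2 (norm_lt_of_Kk hz).le

theorem mo_eq (k : ℕ) (u : W p → ℝ) :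
    mo k u = convolution u (Kk p k) (ContinuousLinearMap.lsmul ℝ ℝ) volume := by
  funext x
  rw [convolution_lsmul, mo]
  congr 1
  funext y
  rw [smul_eq_mul, Kk, mul_comm]

theorem weak_mono {n : ℕ} {Ω Ω' : Set (Fin n → ℝ)} (hΩ : MeasurableSet Ω) (hsub : Ω' ⊆ Ω)
    {i : Fin n} {u v : (Fin n → ℝ) → ℝ} (h : SJ.WeakPD Ω i u v) : SJ.WeakPD Ω' i u v := by
  intro φ h1 h2 h3
  have e := h φ h1 h2 (h3.trans hsub)
  rw [setIntegral_eq_of_subset_of_forall_sdiff_eq_zero hΩ hsub (fun x hx => by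
      rw [fderiv_of_notMem_tsupport ℝ fun hh => hx.2 (h3 hh)]; simp),
    setIntegral_eq_of_subset_of_forall_sdiff_eq_zero hΩ hsub (fun x hx => by
      rw [image_eq_zero_of_notMem_tsupport fun hh => hx.2 (h3 hh)]; simp)] at e
  exact e

end MoAX

open MoAX

theorem mo_contDiff (k : ℕ) {u : W p → ℝ} (hu : Integrable u volume) :
    ContDiff ℝ 2 (mo k u) := by
  rw [mo_eq]
  exact (supp_Kk k).contDiff_convolution_right (n := 2) _ hu.locallyIntegrable (contDiff_Kk k)

theorem mo_fderiv (k : ℕ) {Ω : Set (W p)} (hΩ : MeasurableSet Ω) {i : Fin (p + 2)}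
    {u v : W p → ℝ} (hu : IntegrableOn u Ω volume) (hv : IntegrableOn v Ω volume)
    (h : SJ.WeakPD Ω i u v) (x : W p) (hx : closedBall x ((1 / 2 : ℝ) ^ k) ⊆ Ω) :
    fderiv ℝ (mo k (Ω.indicator u)) x (Pi.single i 1) = mo k (Ω.indicator v) x := by
  have _ := hv
  have hl : LocallyIntegrable (Ω.indicator u) volume :=
    ((integrable_indicator_iff hΩ).2 hu).locallyIntegrable
  have h1 : ContDiff ℝ 1 (Kk p k) := contDiff_Kk (n := 1) k
  rw [mo_eq, ((supp_Kk k).hasFDerivAt_convolution_right _ hl h1 x).fderiv,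
    convolution_precompR_apply _ hl ((supp_Kk k).fderiv ℝ) (h1.continuous_fderiv one_ne_zero),
    convolution_lsmul]
  have hs : support (fun y => Kk p k (x - y)) ⊆ closedBall x ((1 / 2 : ℝ) ^ k) := fun y hy => by
    rw [mem_closedBall, dist_comm, dist_eq_norm]
    exact (norm_lt_of_Kk hy).le
  have e := h (fun y => Kk p k (x - y)) ((contDiff_Kk k).comp (contDiff_const.sub contDiff_id))
    (HasCompactSupport.of_support_subset_isCompact (isCompact_closedBall _ _) hs)
    ((closure_minimal hs isClosed_closedBall).trans hx)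
  have hd : ∀ y, fderiv ℝ (fun y => Kk p k (x - y)) y (Pi.single i 1) =
      -fderiv ℝ (Kk p k) (x - y) (Pi.single i 1) := fun y => by
    have := ((h1.differentiable one_ne_zero) (x - y)).hasFDerivAt.comp y
      ((hasFDerivAt_id y).const_sub x)
    rw [show (fun y => Kk p k (x - y)) = Kk p k ∘ HSub.hSub x from rfl, this.fderiv]
    simp
  simp only [hd, mul_neg, integral_neg, neg_inj] at e
  have e1 : (fun t => Ω.indicator u t • fderiv ℝ (Kk p k) (x - t) (Pi.single i 1)) =
      Ω.indicator fun t => u t * fderiv ℝ (Kk p k) (x - t) (Pi.single i 1) := by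
    funext t
    by_cases ht : t ∈ Ω <;> simp [ht]
  have e2 : (fun t => Ω.indicator v t • Kk p k (x - t)) =
      Ω.indicator fun t => v t * Kk p k (x - t) := by
    funext t
    by_cases ht : t ∈ Ω <;> simp [ht]
  rw [mo_eq, convolution_lsmul, e1, e2, integral_indicator hΩ, integral_indicator hΩ, e]

theorem mo_abs_le (p : ℕ) : ∃ Cρ : ℝ, 0 ≤ Cρ ∧ ∀ (k : ℕ) (u : W p → ℝ) (x : W p),
    Integrable u volume → |mo k u x| ≤
      Cρ * ((2 : ℝ) ^ k) ^ (p + 2) * ∫ y in ball x (2 * (1 / 2 : ℝ) ^ k), |u y| := by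
  obtain ⟨C, hC⟩ := ((bump p).continuous_normed (μ := volume)).bounded_above_of_compact_support
    (bump p).hasCompactSupport_normed
  refine ⟨C, (norm_nonneg _).trans (hC 0), fun k u x hu => ?_⟩
  rw [← integral_const_mul, ← integral_indicator measurableSet_ball, mo, ← Real.norm_eq_abs]
  refine norm_integral_le_of_norm_le
    ((integrable_indicator_iff measurableSet_ball).2 (hu.abs.const_mul _).integrableOn)
    (Eventually.of_forall fun y => ?_)
  by_cases hy : y ∈ ball x (2 * (1 / 2 : ℝ) ^ k)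
  · rw [indicator_of_mem hy, norm_mul, norm_mul, Real.norm_eq_abs (u y),
      Real.norm_of_nonneg (by positivity), mul_comm C]
    gcongr
    exact hC _
  · rw [indicator_of_notMem hy]
    have h0 : Kk p k (x - y) = 0 := by
      by_contra hne
      have h1 := norm_lt_of_Kk hne
      have h2 : (0 : ℝ) < (1 / 2 : ℝ) ^ k := by positivity
      refine hy ?_
      rw [mem_ball, dist_comm, dist_eq_norm]
      linarith
    rw [Kk] at h0
    rw [h0, zero_mul, norm_zero]

theorem W2q_mono {n : ℕ} {q : ℝ} {Ω Ω' : Set (Fin n → ℝ)} (hΩ : MeasurableSet Ω)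
    (hΩ' : MeasurableSet Ω') (hsub : Ω' ⊆ Ω) {f : (Fin n → ℝ) → Fin n → ℝ}
    {Df : (Fin n → ℝ) → Matrix (Fin n) (Fin n) ℝ} (h : SJ.W2q q Ω f Df) :
    SJ.W2q q Ω' f Df := by
  have _ := hΩ'
  have hm : volume.restrict Ω' ≤ volume.restrict Ω := Measure.restrict_mono hsub le_rfl
  intro a
  refine ⟨(h a).1.mono_measure hm, fun i => ?_⟩
  obtain ⟨h1, h2, h3⟩ := (h a).2 i
  refine ⟨h1.mono_measure hm, weak_mono hΩ hsub h2, fun j => ?_⟩
  obtain ⟨w, hw1, hw2⟩ := h3 j
  exact ⟨w, hw1.mono_measure hm, weak_mono hΩ hsub hw2⟩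


namespace MoBX

/-- the bump at scale 2^(-k) -/
noncomputable def bk (p k : ℕ) : ContDiffBump (0 : W p) :=
  ⟨(1 / 2 : ℝ) ^ k / 2, (1 / 2 : ℝ) ^ k, by positivity,
    half_lt_self (by positivity)⟩

theorem bk_apply (k : ℕ) (z : W p) : bk p k z = bump p ((2 : ℝ) ^ k • z) := by
  rw [ContDiffBump.apply, ContDiffBump.apply]
  have h1 : (bk p k).rOut / (bk p k).rIn = (bump p).rOut / (bump p).rIn := by
    simp only [bk, bump]
    have : (0 : ℝ) < (1 / 2 : ℝ) ^ k := by positivity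
    field_simp
  have h2 : (bk p k).rIn⁻¹ • (z - 0) = (bump p).rIn⁻¹ • ((2 : ℝ) ^ k • z - 0) := by
    simp only [bk, bump, sub_zero, smul_smul]
    congr 1
    rw [one_div, inv_pow]
    have : (0 : ℝ) < (2 : ℝ) ^ k := by positivity
    field_simp
  rw [h1, h2]

theorem bk_normed (k : ℕ) (z : W p) : (bk p k).normed volume z =
    ((2 : ℝ) ^ k) ^ (p + 2) * (bump p).normed volume ((2 : ℝ) ^ k • z) := by
  have h1 : ∫ x, bk p k x = (((2 : ℝ) ^ k) ^ (p + 2))⁻¹ * ∫ x, bump p x := by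
    simp only [bk_apply]
    rw [Measure.integral_comp_smul (volume : Measure (W p)) (fun x => bump p x) ((2 : ℝ) ^ k)]
    simp only [Module.finrank_fintype_fun_eq_card, Fintype.card_fin, smul_eq_mul]
    rw [abs_of_nonneg (by positivity)]
  rw [ContDiffBump.normed_def, ContDiffBump.normed_def, h1, bk_apply]
  have : (0 : ℝ) < ((2 : ℝ) ^ k) ^ (p + 2) := by positivity
  have h2 : 0 < ∫ x, bump p x := (bump p).integral_pos
  field_simp

theorem mo_eq (k : ℕ) (u : W p → ℝ) (x : W p) :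
    mo k u x = ∫ y, (bk p k).normed volume (x - y) * u y := by
  simp only [mo, bk_normed]

theorem mo_conv (k : ℕ) (u : W p → ℝ) (x : W p) :
    mo k u x = ((bk p k).normed volume ⋆[ContinuousLinearMap.lsmul ℝ ℝ, volume] u) x := by
  rw [mo_eq, convolution_eq_swap]
  simp

theorem mo_eq' (k : ℕ) (u : W p → ℝ) (x : W p) :
    mo k u x = ∫ t, (bk p k).normed volume t * u (x - t) := by
  rw [mo_conv, convolution_def]
  simp

theorem rOut_tendsto : Tendsto (fun k => (bk p k).rOut) atTop (𝓝 0) :=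
  tendsto_pow_atTop_nhds_zero_of_lt_one (by norm_num) (by norm_num)

theorem int_mul (k : ℕ) {g : W p → ℝ} (hg : Continuous g) :
    Integrable (fun t => (bk p k).normed volume t * g t) volume :=
  ((bk p k).continuous_normed.mul hg).integrable_of_hasCompactSupport
    (bk p k).hasCompactSupport_normed.mul_right

theorem int_bound (k : ℕ) {g : W p → ℝ} {C : ℝ}
    (hg : ∀ t, ‖t‖ < (1 / 2 : ℝ) ^ k → |g t| ≤ C) :
    |∫ t, (bk p k).normed volume t * g t| ≤ C := by
  have h1 : ∫ t, (bk p k).normed volume t * C = C := by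
    rw [integral_mul_const, (bk p k).integral_normed, one_mul]
  rw [← h1, ← Real.norm_eq_abs]
  refine norm_integral_le_of_norm_le (int_mul k continuous_const) (Eventually.of_forall fun t => ?_)
  rw [Real.norm_eq_abs, abs_mul, abs_of_nonneg ((bk p k).nonneg_normed t)]
  by_cases ht : (bk p k).normed volume t = 0
  · simp [ht]
  · have h2 : t ∈ support ((bk p k).normed volume) := ht
    rw [(bk p k).support_normed_eq, mem_ball_zero_iff] at h2
    exact mul_le_mul_of_nonneg_left (hg t h2) ((bk p k).nonneg_normed t)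

theorem swap_int (k l : ℕ) {u : W p → ℝ} (hu : Integrable u volume) (x : W p) :
    mo k (mo l u) x = ∫ z, (∫ y, (bk p k).normed volume (x - y) *
      (bk p l).normed volume (y - z)) * u z := by
  have h1 : Integrable (fun y => (bk p k).normed volume (x - y)) volume :=
    (bk p k).integrable_normed.comp_sub_left x
  obtain ⟨C, hC⟩ := (bk p l).continuous_normed (μ := volume).bounded_above_of_compact_support
    (bk p l).hasCompactSupport_normed
  have h2 : Integrable (fun q : W p × W p => (bk p l).normed volume (q.1 - q.2) *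
      ((bk p k).normed volume (x - q.1) * u q.2)) ((volume : Measure (W p)).prod volume) := by
    refine Integrable.bdd_mul (c := C) (h1.mul_prod hu) ?_ (Eventually.of_forall fun q => hC _)
    exact ((bk p l).continuous_normed.comp (continuous_fst.sub continuous_snd)).aestronglyMeasurable
  have h3 := integral_integral_swap (f := fun y z => (bk p l).normed volume (y - z) *
      ((bk p k).normed volume (x - y) * u z)) h2
  rw [mo_eq]
  simp only [mo_eq, ← integral_const_mul, ← integral_mul_const]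
  refine Eq.trans ?_ (h3.trans ?_)
  · refine integral_congr_ae (Eventually.of_forall fun y => ?_)
    exact integral_congr_ae (Eventually.of_forall fun z => by ring)
  · refine integral_congr_ae (Eventually.of_forall fun y => ?_)
    exact integral_congr_ae (Eventually.of_forall fun z => by ring)

end MoBX
open MoBX

theorem mo_comm (k l : ℕ) {u : W p → ℝ} (hu : Integrable u volume) :
    mo k (mo l u) = mo l (mo k u) := by
  funext x
  rw [swap_int k l hu, swap_int l k hu]
  congr 1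
  funext z
  congr 1
  rw [← integral_sub_left_eq_self _ volume (x + z)]
  congr 1
  funext y
  have a : x - (x + z - y) = y - z := by abel
  have b : x + z - y - z = x - y := by abel
  rw [a, b, mul_comm]

theorem mo_sub_le1 (k : ℕ) {h : W p → ℝ} (hh : ContDiff ℝ 2 h) (x : W p) {M : ℝ}
    (hM : ∀ z ∈ closedBall x ((1 / 2 : ℝ) ^ k), ‖fderiv ℝ h z‖ ≤ M) :
    |mo k h x - h x| ≤ M * (1 / 2 : ℝ) ^ k := by
  have hs : (0 : ℝ) < (1 / 2 : ℝ) ^ k := by positivity
  have hM0 : 0 ≤ M := (norm_nonneg _).trans (hM x (mem_closedBall_self hs.le))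
  have hc : Continuous fun t => h (x - t) := hh.continuous.comp (continuous_const.sub continuous_id)
  have h1 : mo k h x - h x = ∫ t, (bk p k).normed volume t * (h (x - t) - h x) := by
    simp only [mul_sub]
    rw [integral_sub (int_mul k hc) (int_mul k continuous_const), integral_mul_const,
      (bk p k).integral_normed, one_mul, mo_eq']
  rw [h1]
  refine int_bound k fun t ht => ?_
  have h2 : x - t ∈ closedBall x ((1 / 2 : ℝ) ^ k) := by
    rw [mem_closedBall, dist_eq_norm]; simpa using ht.le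
  have h3 := (convex_closedBall x ((1 / 2 : ℝ) ^ k)).norm_image_sub_le_of_norm_fderiv_le
    (fun z _ => hh.differentiable (by norm_num) z) hM (mem_closedBall_self hs.le) h2
  rw [Real.norm_eq_abs] at h3
  refine h3.trans (mul_le_mul_of_nonneg_left ?_ hM0)
  simpa using ht.le

theorem mo_tendsto {u : W p → ℝ} (hu : Integrable u volume) {x : W p} (hx : ContinuousAt u x) :
    Tendsto (fun k => mo k u x) atTop (𝓝 (u x)) := by
  simp only [mo_conv]
  exact ContDiffBump.convolution_tendsto_right (g := fun _ => u) (k := fun _ => x) rOut_tendsto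
    (Eventually.of_forall fun _ => hu.aestronglyMeasurable) (hx.tendsto.comp tendsto_snd)
    tendsto_const_nhds

theorem mo_ae_tendsto {u : W p → ℝ} (hu : Integrable u volume) :
    ∀ᵐ x ∂(volume : Measure (W p)), Tendsto (fun k => mo k u x) atTop (𝓝 (u x)) := by
  simp only [mo_conv]
  refine ContDiffBump.ae_convolution_tendsto_right_of_locallyIntegrable (K := 2) rOut_tendsto
    (Eventually.of_forall fun k => ?_) hu.locallyIntegrable
  simp only [bk]
  linarith


theorem expand {E : Type} [NormedAddCommGroup E] [NormedSpace ℝ E] (L : W p →L[ℝ] E) (v : W p) :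
    L v = ∑ j, v j • L (Pi.single j 1) := by
  conv_lhs => rw [pi_eq_sum_univ' v]
  simp [map_sum]

theorem toL_single (M : Matrix (Fin (p + 2)) (Fin (p + 2)) ℝ) (a i : Fin (p + 2)) :
    toL M (Pi.single i 1) a = M a i := by
  simp [toL]

theorem split1 (k : ℕ) {u : W p → ℝ} (hu : Integrable u volume) (z : W p) :
    |mo k u z - mo (k + 1) u z| ≤
      |mo (k + 1) (mo k u) z - mo k u z| + |mo k (mo (k + 1) u) z - mo (k + 1) u z| := by
  rw [mo_comm (k + 1) k hu, abs_sub_comm _ (mo k u z)]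
  exact abs_sub_le _ _ _

theorem half (k : ℕ) : (1 / 2 : ℝ) ^ (k + 1) ≤ (1 / 2 : ℝ) ^ k :=
  pow_le_pow_of_le_one (by norm_num) (by norm_num) k.le_succ


theorem opn {E : Type} [NormedAddCommGroup E] [NormedSpace ℝ E] (L : W p →L[ℝ] E) :
    ‖L‖ ≤ ∑ j, ‖L (Pi.single j 1)‖ := by
  refine L.opNorm_le_bound (Finset.sum_nonneg fun _ _ => norm_nonneg _) fun v => ?_
  rw [expand, Finset.sum_mul]
  refine (norm_sum_le _ _).trans (Finset.sum_le_sum fun j _ => ?_)
  rw [norm_smul, mul_comm]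
  exact mul_le_mul_of_nonneg_left (norm_le_pi_norm v j) (norm_nonneg _)

theorem dd_nonneg (B B' : Mx p) : 0 ≤ dd B B' :=
  Finset.sum_nonneg fun _ _ => Finset.sum_nonneg fun _ _ => abs_nonneg _

theorem norm_toL_sub (B B' : Mx p) : ‖toL B - toL B'‖ ≤ dd B B' := by
  refine (opn _).trans ?_
  rw [dd, Finset.sum_comm]
  refine Finset.sum_le_sum fun i _ => ?_
  refine (pi_norm_le_iff_of_nonneg (Finset.sum_nonneg fun _ _ => abs_nonneg _)).2 fun a => ?_
  rw [sub_apply, Pi.sub_apply, toL_single, toL_single, Real.norm_eq_abs]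
  exact Finset.single_le_sum (f := fun a => |B a i - B' a i|) (fun _ _ => abs_nonneg _)
    (Finset.mem_univ a)

end NV

end

section

namespace NV
open Set Filter Topology MeasureTheory Metric Function
open scoped ENNReal

variable {p : ℕ}

namespace PoincX

theorem sc {φ : W p → ℝ≥0∞} (hφ : Measurable φ) {t : ℝ} (ht : 1 / 2 ≤ t) (c : W p) :
    ∫⁻ y, φ (t • y + c) ≤ ENNReal.ofReal (2 ^ (p + 2)) * ∫⁻ y, φ y := by
  have h0 : 0 < t := by linarith
  have h1 := lintegral_map (μ := (volume : Measure (W p))) (hφ.comp (measurable_add_const c))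
    (measurable_const_smul t)
  rw [Measure.map_addHaar_smul _ h0.ne', lintegral_smul_measure] at h1
  simp only [comp_apply, lintegral_add_right_eq_self φ c, smul_eq_mul] at h1
  rw [← h1]
  gcongr
  rw [Module.finrank_fintype_fun_eq_card, Fintype.card_fin, abs_of_pos (by positivity), ← inv_pow]
  gcongr
  rw [inv_le_comm₀ h0 two_pos]
  linarith

theorem pt {w : W p → ℝ} (hw : ContDiff ℝ 1 w) {x : W p} {s : ℝ} {y z : W p} (hy : y ∈ ball x s)
    (hz : z ∈ ball x s) : ‖w y - w z‖ₑ ≤ ∫⁻ t in Ioc (0 : ℝ) 1, ENNReal.ofReal (2 * s) *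
      (ball x s).indicator (fun u => ‖fderiv ℝ w u‖ₑ) (t • y + (1 - t) • z) := by
  have hd : ∀ t : ℝ, HasDerivAt (fun t : ℝ => w (t • y + (1 - t) • z))
      (fderiv ℝ w (t • y + (1 - t) • z) (y - z)) t := fun t => by
    have := ((hasDerivAt_id t).smul_const y).add (((hasDerivAt_id t).const_sub 1).smul_const z)
    rw [one_smul, neg_smul, one_smul, ← sub_eq_add_neg] at this
    exact (hw.differentiable one_ne_zero _).hasFDerivAt.comp_hasDerivAt t this
  have hc : Continuous fun t : ℝ => fderiv ℝ w (t • y + (1 - t) • z) (y - z) :=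
    ((hw.continuous_fderiv one_ne_zero).comp (by fun_prop)).clm_apply continuous_const
  have h := intervalIntegral.integral_eq_sub_of_hasDerivAt (a := 0) (b := 1) (fun t _ => hd t)
    (hc.intervalIntegrable _ _)
  simp only [one_smul, sub_self, zero_smul, add_zero, sub_zero, zero_add] at h
  rw [← h, intervalIntegral.integral_of_le zero_le_one]
  refine (enorm_integral_le_lintegral_enorm _).trans (setLIntegral_mono' measurableSet_Ioc
    fun t ht => ?_)
  rw [indicator_of_mem (convex_ball x s hy hz ht.1.le (sub_nonneg.2 ht.2) (by ring)), mul_comm]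
  refine (ContinuousLinearMap.le_opENorm _ _).trans ?_
  gcongr
  rw [← ofReal_norm, ← dist_eq_norm]
  exact ENNReal.ofReal_le_ofReal (by
    linarith [dist_triangle_right y z x, mem_ball.1 hy, mem_ball.1 hz])

end PoincX

open PoincX

/-- L1 Poincare inequality on a cube for C1 functions -/
theorem poinc {w : W p → ℝ} (hw : ContDiff ℝ 1 w) (x : W p) {s : ℝ} (hs : 0 < s) :
    ∫⁻ y in ball x s, ∫⁻ z in ball x s, ‖w y - w z‖ₑ ≤
      ENNReal.ofReal (2 ^ (p + 3) * s * (2 * s) ^ (p + 2)) *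
        ∫⁻ y in ball x s, ‖fderiv ℝ w y‖ₑ := by
  set φ := (ball x s).indicator fun u => ‖fderiv ℝ w u‖ₑ with hφ
  have hm : Measurable φ :=
    (hw.continuous_fderiv one_ne_zero).enorm.measurable.indicator measurableSet_ball
  have hJ : ∀ t : ℝ, ∫⁻ y in ball x s, ∫⁻ z in ball x s, φ (t • y + (1 - t) • z) ≤
      ENNReal.ofReal (2 ^ (p + 2)) * (∫⁻ y, φ y) * volume (ball x s) := fun t => by
    rw [← setLIntegral_const]
    rcases le_total (1 / 2) t with ht | ht
    · rw [lintegral_lintegral_swap (f := fun y z => φ (t • y + (1 - t) • z))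
        (hm.comp (by fun_prop)).aemeasurable]
      exact lintegral_mono fun z => (setLIntegral_le_lintegral _ _).trans (sc hm ht _)
    · refine lintegral_mono fun y => (setLIntegral_le_lintegral _ _).trans ?_
      simp only [add_comm (t • y)]
      exact sc hm (by linarith) _
  calc _ ≤ ∫⁻ y in ball x s, ∫⁻ z in ball x s, ∫⁻ t in Ioc (0 : ℝ) 1,
        ENNReal.ofReal (2 * s) * φ (t • y + (1 - t) • z) :=
        setLIntegral_mono' measurableSet_ball fun y hy =>
          setLIntegral_mono' measurableSet_ball fun z hz => pt hw hy hz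
    _ = ∫⁻ y in ball x s, ∫⁻ t in Ioc (0 : ℝ) 1, ∫⁻ z in ball x s,
        ENNReal.ofReal (2 * s) * φ (t • y + (1 - t) • z) :=
        lintegral_congr fun y => lintegral_lintegral_swap
          ((hm.comp (by fun_prop)).const_mul _).aemeasurable
    _ = ∫⁻ t in Ioc (0 : ℝ) 1, ∫⁻ y in ball x s, ∫⁻ z in ball x s,
        ENNReal.ofReal (2 * s) * φ (t • y + (1 - t) • z) :=
        lintegral_lintegral_swap (Measurable.lintegral_prod_right'
          (f := fun q : (W p × ℝ) × W p => ENNReal.ofReal (2 * s) *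
            φ (q.1.2 • q.1.1 + (1 - q.1.2) • q.2))
          ((hm.comp (by fun_prop)).const_mul _)).aemeasurable
    _ ≤ ∫⁻ _ in Ioc (0 : ℝ) 1, ENNReal.ofReal (2 * s) *
        (ENNReal.ofReal (2 ^ (p + 2)) * (∫⁻ y, φ y) * volume (ball x s)) := by
        refine lintegral_mono fun t => ?_
        simp only [lintegral_const_mul' _ _ ENNReal.ofReal_ne_top]
        gcongr
        exact hJ t
    _ = _ := by
        rw [setLIntegral_const, Real.volume_Ioc, sub_zero, ENNReal.ofReal_one, mul_one,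
          vol_ball x hs, hφ, lintegral_indicator measurableSet_ball, mul_right_comm, ← mul_assoc,
          ← ENNReal.ofReal_mul (by positivity), ← ENNReal.ofReal_mul (by positivity)]
        congr 2
        ring

end NV

end

section

namespace NV
open Set Filter Topology MeasureTheory Metric Function
open scoped ENNReal

variable {p : ℕ}

/-- Vitali covering bound for shadows -/
theorem vit (T : W p → W p → Prop) (μ : Measure (W p)) (E Q : Set (W p)) {R : ℝ} {κ : ℝ≥0∞}
    (hE : ∀ x ∈ E, ∃ s : ℝ, 0 < s ∧ s ≤ R ∧ ball x s ⊆ Q ∧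
      ENNReal.ofReal (s ^ (p + 1)) ≤ μ (ball x s))
    (hT : ∀ (x : W p) (r : ℝ), 0 < r → r ≤ 5 * R →
      volume (sh T (ball x r)) ≤ κ * ENNReal.ofReal (r ^ (p + 1))) :
    volume (sh T E) ≤ κ * ENNReal.ofReal (5 ^ (p + 1)) * μ Q := by
  have hex : ∀ y : W p, ∃ s : ℝ, y ∈ E → 0 < s ∧ s ≤ R ∧ ball y s ⊆ Q ∧
      ENNReal.ofReal (s ^ (p + 1)) ≤ μ (ball y s) := fun y => by
    by_cases hy : y ∈ E
    · obtain ⟨s, hs⟩ := hE y hy
      exact ⟨s, fun _ => hs⟩
    · exact ⟨0, fun h => absurd h hy⟩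
  choose r hr using hex
  obtain ⟨u, huT, hd, hc⟩ := Vitali.exists_disjoint_subfamily_covering_enlargement_ball E id r R
    (fun y hy => (hr y hy).2.1) 5 (by norm_num)
  have hu : u.Countable := hd.countable_of_isOpen (fun _ _ => isOpen_ball)
    (fun z hz => nonempty_ball.2 (hr z (huT hz)).1)
  have hsub : sh T E ⊆ ⋃ z ∈ u, sh T (ball z (5 * r z)) := by
    rintro w ⟨y, hy, hw⟩
    obtain ⟨z, hz, hyz⟩ := hc y hy
    exact mem_biUnion hz ⟨y, hyz (mem_ball_self (hr y hy).1), hw⟩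
  have hvol : ∀ z ∈ u, volume (sh T (ball z (5 * r z))) ≤
      κ * ENNReal.ofReal (5 ^ (p + 1)) * μ (ball z (r z)) := by
    intro z hz
    obtain ⟨h1, h2, -, h4⟩ := hr z (huT hz)
    refine (hT z _ (by positivity) (by linarith)).trans ?_
    rw [mul_pow, ENNReal.ofReal_mul (by positivity), ← mul_assoc]
    exact mul_le_mul_right h4 _
  have := hu.to_subtype
  calc _ ≤ volume (⋃ z ∈ u, sh T (ball z (5 * r z))) := measure_mono hsub
    _ ≤ ∑' z : u, volume (sh T (ball (z : W p) (5 * r z))) := measure_biUnion_le _ hu _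
    _ ≤ ∑' z : u, κ * ENNReal.ofReal (5 ^ (p + 1)) * μ (ball (z : W p) (r z)) :=
        ENNReal.tsum_le_tsum fun z => hvol z z.2
    _ = κ * ENNReal.ofReal (5 ^ (p + 1)) * μ (⋃ z ∈ u, ball z (r z)) := by
        rw [ENNReal.tsum_mul_left]
        congr 1
        exact (measure_biUnion hu hd fun _ _ => measurableSet_ball).symm
    _ ≤ _ := mul_le_mul_right
        (measure_mono (iUnion₂_subset fun z hz => (hr z (huT hz)).2.2.1)) _

end NV

end

section

namespace NV
open Set Filter Topology MeasureTheory Metric Function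
open scoped ENNReal

variable {p : ℕ}

namespace BoxAX

theorem real_ball (x : W p) {r : ℝ} (hr : 0 < r) :
    volume.real (ball x r) = (2 * r) ^ (p + 2) := by
  rw [Measure.real, vol_ball x hr, ENNReal.toReal_ofReal (by positivity)]

theorem fin_of_sub {x : W p} {r : ℝ} {E : Set (W p)} (h : E ⊆ ball x r) : volume E ≠ ⊤ :=
  ne_top_of_le_ne_top measure_ball_lt_top.ne (measure_mono h)

theorem le_of_real {a c : ℝ} (hc : 0 < c) {I : ℝ≥0∞} (h : I ≠ ⊤ → a ≤ c * I.toReal) :
    ENNReal.ofReal a ≤ ENNReal.ofReal c * I := by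
  by_cases hI : I = ⊤
  · rw [hI, ENNReal.mul_top (ENNReal.ofReal_pos.mpr hc).ne']
    exact le_top
  · calc ENNReal.ofReal a ≤ ENNReal.ofReal (c * I.toReal) := ENNReal.ofReal_le_ofReal (h hI)
      _ = _ := by rw [ENNReal.ofReal_mul hc.le, ENNReal.ofReal_toReal hI]

theorem avg_le {v : W p → ℝ} (hv : Continuous v) {B E : Set (W p)} (hE : MeasurableSet E)
    (hEB : E ⊆ B) {a : ℝ} (h : ∀ z ∈ E, |v z| ≤ a) :
    (∫⁻ y in B, ‖v y‖ₑ) * volume E ≤
      ENNReal.ofReal a * volume E * volume B + ∫⁻ y in B, ∫⁻ z in B, ‖v y - v z‖ₑ := by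
  rw [← lintegral_mul_const _ hv.measurable.enorm, ← setLIntegral_const B,
    ← lintegral_add_left measurable_const]
  refine lintegral_mono (fun y => ?_)
  calc ‖v y‖ₑ * volume E = ∫⁻ _ in E, ‖v y‖ₑ := (setLIntegral_const _ _).symm
    _ ≤ ∫⁻ z in E, (ENNReal.ofReal a + ‖v y - v z‖ₑ) := by
        refine setLIntegral_mono' hE (fun z hz => ?_)
        have h1 : ‖v z‖ₑ ≤ ENNReal.ofReal a := by
          rw [Real.enorm_eq_ofReal_abs]
          exact ENNReal.ofReal_le_ofReal (h z hz)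
        calc ‖v y‖ₑ = ‖v z + (v y - v z)‖ₑ := by rw [add_sub_cancel]
          _ ≤ ‖v z‖ₑ + ‖v y - v z‖ₑ := enorm_add_le _ _
          _ ≤ _ := add_le_add h1 le_rfl
    _ = ENNReal.ofReal a * volume E + ∫⁻ z in E, ‖v y - v z‖ₑ := by
        rw [lintegral_add_left measurable_const, setLIntegral_const]
    _ ≤ _ := add_le_add le_rfl (lintegral_mono_set hEB)

theorem prod_le {w : W p → ℝ} {B E0 E1 : Set (W p)} (hE0 : MeasurableSet E0)
    (hE1 : MeasurableSet E1) (h0 : E0 ⊆ B) (h1 : E1 ⊆ B) (hw0 : ∀ z ∈ E0, w z = 0)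
    (hw1 : ∀ y ∈ E1, w y = 1) :
    volume E0 * volume E1 ≤ ∫⁻ y in B, ∫⁻ z in B, ‖w y - w z‖ₑ := by
  calc volume E0 * volume E1 = ∫⁻ _ in E1, volume E0 := (setLIntegral_const _ _).symm
    _ ≤ ∫⁻ y in E1, ∫⁻ z in B, ‖w y - w z‖ₑ := by
        refine setLIntegral_mono' hE1 (fun y hy => ?_)
        calc volume E0 = ∫⁻ _ in E0, 1 := by rw [setLIntegral_const, one_mul]
          _ ≤ ∫⁻ z in E0, ‖w y - w z‖ₑ := by
              refine setLIntegral_mono' hE0 (fun z hz => ?_)
              rw [hw1 y hy, hw0 z hz]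
              simp
          _ ≤ _ := lintegral_mono_set h0
    _ ≤ _ := lintegral_mono_set h1

theorem caseA {v : W p → ℝ} (hv : ContDiff ℝ 1 v) {x : W p} {lam s : ℝ} (hlam : 0 < lam)
    (hs : 0 < s)
    (hb : ENNReal.ofReal (3 * 2 ^ (p + 2) * lam * s ^ (p + 2)) < ∫⁻ y in ball x s, ‖v y‖ₑ)
    (hA : (2 * s) ^ (p + 2) / 2 ≤ volume.real (ball x s ∩ {y | |v y| < 2 * lam})) :
    ENNReal.ofReal (s ^ (p + 1)) ≤
      ENNReal.ofReal (2 ^ (p + 4) / lam) * ∫⁻ y in ball x s, ‖fderiv ℝ v y‖ₑ := by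
  refine le_of_real (by positivity) (fun hI => ?_)
  set E := ball x s ∩ {y | |v y| < 2 * lam} with hE
  have hEm : MeasurableSet E :=
    measurableSet_ball.inter (isOpen_lt hv.continuous.abs continuous_const).measurableSet
  have hEf : volume E ≠ ⊤ := fin_of_sub inter_subset_left
  have h1 := (mul_le_mul_left hb.le (volume E)).trans ((avg_le hv.continuous hEm
    inter_subset_left (a := 2 * lam) (fun z hz => le_of_lt hz.2)).trans
    (add_le_add le_rfl (poinc hv x hs)))
  rw [vol_ball x hs, ← ENNReal.ofReal_toReal hEf, ← ENNReal.ofReal_toReal hI,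
    ← ENNReal.ofReal_mul (by positivity), ← ENNReal.ofReal_mul (by positivity),
    ← ENNReal.ofReal_mul (by positivity), ← ENNReal.ofReal_mul (by positivity),
    ← ENNReal.ofReal_add (by positivity) (by positivity),
    ENNReal.ofReal_le_ofReal_iff (by positivity)] at h1
  set i := (∫⁻ y in ball x s, ‖fderiv ℝ v y‖ₑ).toReal with hi
  have hi0 : 0 ≤ i := ENNReal.toReal_nonneg
  rw [Measure.real] at hA
  set e := (volume E).toReal with he
  set V := (2 * s) ^ (p + 2) with hV
  have hV0 : 0 < V := by positivity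
  have h2 : 3 * 2 ^ (p + 2) * lam * s ^ (p + 2) = 3 * lam * V := by
    rw [hV, mul_pow]
    ring
  rw [h2] at h1
  have h3 : lam * V * (V / 2) ≤ lam * V * e := mul_le_mul_of_nonneg_left hA (by positivity)
  have h4 : V * (lam * V) ≤ V * (2 ^ (p + 4) * s * i) := by
    have : (2 : ℝ) ^ (p + 4) = 2 * 2 ^ (p + 3) := by ring
    rw [this]
    linarith
  have h5 := le_of_mul_le_mul_left h4 hV0
  have h6 : s * s ^ (p + 1) ≤ V := by
    rw [hV, ← pow_succ']
    exact pow_le_pow_left₀ hs.le (by linarith) _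
  rw [div_mul_eq_mul_div, le_div_iff₀ hlam]
  refine le_of_mul_le_mul_left ?_ hs
  nlinarith

end BoxAX

open BoxAX

/-- selection of a ball at a point where the maximal function is large -/
theorem boxA {v w : W p → ℝ} (hv : ContDiff ℝ 1 v) (hw : ContDiff ℝ 1 w) {x0 x : W p}
    {ρ lam α β s0 s : ℝ} (hlam : 0 < lam) (hs0 : 0 < s0) (hs0ρ : s0 ≤ ρ) (h1 : lam ≤ α)
    (h2 : α < β) (h3 : β ≤ 3 / 2 * lam) (hw0 : ∀ y, |v y| ≤ α → w y = 0)
    (hw1 : ∀ y, β ≤ |v y| → w y = 1)
    (huc : ∀ y ∈ ball x0 (3 * ρ), ∀ z ∈ ball x0 (3 * ρ), ‖y - z‖ ≤ 2 * s0 → |v y - v z| ≤ lam / 2)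
    (ha : ∫⁻ y in ball x0 (3 * ρ), ‖v y‖ₑ ≤ ENNReal.ofReal (lam * ρ ^ (p + 2) / 2))
    (hx : x ∈ ball x0 ρ) (hs : 0 < s) (hsρ : s ≤ ρ)
    (hb : ENNReal.ofReal (3 * 2 ^ (p + 2) * lam * s ^ (p + 2)) < ∫⁻ y in ball x s, ‖v y‖ₑ) :
    ∃ r : ℝ, 0 < r ∧ r ≤ 2 * ρ ∧ ENNReal.ofReal (r ^ (p + 1)) ≤
      ENNReal.ofReal (2 ^ (p + 4) / lam) * (∫⁻ y in ball x r, ‖fderiv ℝ v y‖ₑ) +
      ENNReal.ofReal (4 / s0) * volume (ball x r ∩ {y | α < |v y| ∧ |v y| < β}) +
      ENNReal.ofReal (2 ^ (p + 6)) * ∫⁻ y in ball x r, ‖fderiv ℝ w y‖ₑ := by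
  have hρ : 0 < ρ := lt_of_lt_of_le hs hsρ
  by_cases hA : (2 * s) ^ (p + 2) / 2 ≤ volume.real (ball x s ∩ {y | |v y| < 2 * lam})
  · exact ⟨s, hs, by linarith, (caseA hv hlam hs hb hA).trans (le_self_add.trans le_self_add)⟩
  have hsub : ∀ r, r ≤ 2 * ρ → ball x r ⊆ ball x0 (3 * ρ) := fun r hr =>
    ball_subset_ball' (by linarith [mem_ball.mp hx])
  set H : Set (W p) := {y | β ≤ |v y|} with hH
  have hHm : MeasurableSet H := (isClosed_le continuous_const hv.continuous.abs).measurableSet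
  have hE1 : (2 * s) ^ (p + 2) / 2 < volume.real (ball x s ∩ {y | 2 * lam ≤ |v y|}) := by
    have h4 : volume.real (ball x s) ≤ volume.real ((ball x s ∩ {y | |v y| < 2 * lam}) ∪
        (ball x s ∩ {y | 2 * lam ≤ |v y|})) := by
      refine measureReal_mono (fun y hy => ?_)
        (fin_of_sub (union_subset inter_subset_left inter_subset_left))
      rcases lt_or_ge |v y| (2 * lam) with h | h
      · exact Or.inl ⟨hy, h⟩
      · exact Or.inr ⟨hy, h⟩
    have h5 := h4.trans (measureReal_union_le _ _)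
    rw [real_ball x hs] at h5
    linarith [not_le.mp hA]
  have hstart : ∃ s1, s0 ≤ s1 ∧ s1 ≤ ρ ∧ (2 * s1) ^ (p + 2) / 4 ≤ volume.real (ball x s1 ∩ H) := by
    have hV : 0 < (2 * s) ^ (p + 2) := by positivity
    rcases le_or_gt s0 s with h | h
    · refine ⟨s, h, hsρ, le_trans (by linarith) (hE1.le.trans (measureReal_mono
        (inter_subset_inter_right _ (fun y hy => ?_)) (fin_of_sub inter_subset_left)))⟩
      have h4 : 2 * lam ≤ |v y| := hy
      show β ≤ |v y|
      linarith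
    · obtain ⟨z, hz1, hz2⟩ : (ball x s ∩ {y | 2 * lam ≤ |v y|}).Nonempty := by
        by_contra hne
        rw [not_nonempty_iff_eq_empty.mp hne, measureReal_empty] at hE1
        linarith
      have h4 : ball x s0 ⊆ H := by
        intro y hy
        have h5 := huc y (hsub s0 (by linarith) hy) z (hsub s (by linarith) hz1) (by
          rw [← dist_eq_norm]
          linarith [dist_triangle_right y z x, mem_ball.mp hy, mem_ball.mp hz1])
        have h6 : 2 * lam ≤ |v z| := hz2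
        have h7 := abs_sub_abs_le_abs_sub (v z) (v y)
        rw [abs_sub_comm] at h7
        show β ≤ |v y|
        linarith
      refine ⟨s0, le_rfl, hs0ρ, ?_⟩
      rw [inter_eq_left.mpr h4, real_ball x hs0]
      have : 0 < (2 * s0) ^ (p + 2) := by positivity
      linarith
  have hnot : ∀ r, r ≤ 2 * ρ → (2 * r) ^ (p + 2) / 4 ≤ volume.real (ball x r ∩ H) → r < ρ := by
    intro r hr hP
    by_contra hge
    have h4 : ENNReal.ofReal lam * volume (ball x r ∩ H) ≤
        ENNReal.ofReal (lam * ρ ^ (p + 2) / 2) := by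
      rw [← setLIntegral_const]
      refine le_trans (setLIntegral_mono' (measurableSet_ball.inter hHm) (fun y hy => ?_))
        ((lintegral_mono_set (inter_subset_left.trans (hsub r hr))).trans ha)
      have h5 : β ≤ |v y| := hy.2
      rw [Real.enorm_eq_ofReal_abs]
      exact ENNReal.ofReal_le_ofReal (by linarith)
    rw [← ENNReal.ofReal_toReal (fin_of_sub (E := ball x r ∩ H) inter_subset_left),
      ← ENNReal.ofReal_mul hlam.le, ENNReal.ofReal_le_ofReal_iff (by positivity),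
      mul_div_assoc] at h4
    have h5 := le_of_mul_le_mul_left h4 hlam
    have h6 : (2 * ρ) ^ (p + 2) ≤ (2 * r) ^ (p + 2) :=
      pow_le_pow_left₀ (by positivity) (by linarith [not_lt.mp hge]) _
    have h7 : 4 * ρ ^ (p + 2) ≤ (2 * ρ) ^ (p + 2) := by
      rw [mul_pow]
      refine mul_le_mul_of_nonneg_right ?_ (by positivity)
      have : (1 : ℝ) ≤ 2 ^ p := one_le_pow₀ (by norm_num)
      rw [pow_add]
      linarith
    have h8 : 0 < ρ ^ (p + 2) := by positivity
    rw [Measure.real] at hP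
    linarith
  obtain ⟨s1, a1, a2, a3⟩ := hstart
  have hstop : ∃ r, s1 ≤ r ∧ r ≤ ρ ∧ (2 * r) ^ (p + 2) / 4 ≤ volume.real (ball x r ∩ H) ∧
      volume.real (ball x (2 * r) ∩ H) < (2 * (2 * r)) ^ (p + 2) / 4 := by
    by_contra hcon
    push Not at hcon
    have hs1 : 0 < s1 := by linarith
    have h4 : ∀ j : ℕ, (2 * (2 ^ j * s1)) ^ (p + 2) / 4 ≤ volume.real (ball x (2 ^ j * s1) ∩ H) ∧
        2 ^ j * s1 < ρ := by
      intro j
      induction j with
      | zero =>
        rw [pow_zero, one_mul]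
        exact ⟨a3, hnot s1 (by linarith) a3⟩
      | succ j ih =>
        have h5 : (1 : ℝ) ≤ 2 ^ j := one_le_pow₀ (by norm_num)
        have h6 := hcon (2 ^ j * s1) (le_mul_of_one_le_left hs1.le h5) ih.2.le ih.1
        have h7 : (2 : ℝ) ^ (j + 1) * s1 = 2 * (2 ^ j * s1) := by ring
        rw [h7]
        exact ⟨h6, hnot _ (by linarith [ih.2]) h6⟩
    obtain ⟨j, hj⟩ := pow_unbounded_of_one_lt (ρ / s1) (by norm_num : (1 : ℝ) < 2)
    rw [div_lt_iff₀ hs1] at hj
    linarith [(h4 j).2]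
  obtain ⟨r, b1, b2, b3, b4⟩ := hstop
  have hr : 0 < r := by linarith
  have hR : 0 < 2 * r := by linarith
  have b5 : (2 * r) ^ (p + 2) / 4 ≤ volume.real (ball x (2 * r) ∩ H) :=
    b3.trans (measureReal_mono (inter_subset_inter_left _ (ball_subset_ball (by linarith)))
      (fin_of_sub inter_subset_left))
  have b6 : s0 ≤ 2 * r := by linarith
  refine ⟨2 * r, hR, by linarith, ?_⟩
  generalize 2 * r = R at hR b4 b5 b6 ⊢
  set V := (2 * R) ^ (p + 2) with hV
  have hV0 : 0 < V := by positivity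
  have hRp : 0 < R ^ (p + 1) := by positivity
  by_cases hband : V / 4 ≤ volume.real (ball x R ∩ {y | α < |v y| ∧ |v y| < β})
  · refine le_trans ?_ (le_add_self.trans le_self_add)
    refine le_of_real (by positivity) (fun _ => ?_)
    rw [Measure.real] at hband
    have h6 : R * R ^ (p + 1) ≤ V := by
      rw [hV, ← pow_succ']
      exact pow_le_pow_left₀ hR.le (by linarith) _
    rw [div_mul_eq_mul_div, le_div_iff₀ hs0]
    nlinarith
  refine le_trans ?_ le_add_self
  refine le_of_real (by positivity) (fun hI => ?_)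
  have hLm : MeasurableSet {y | |v y| ≤ α} :=
    (isClosed_le hv.continuous.abs continuous_const).measurableSet
  have hlo : V / 2 ≤ volume.real (ball x R ∩ {y | |v y| ≤ α}) := by
    have h4 : volume.real (ball x R) ≤ volume.real ((ball x R ∩ {y | |v y| ≤ α}) ∪
        ((ball x R ∩ {y | α < |v y| ∧ |v y| < β}) ∪ (ball x R ∩ H))) := by
      refine measureReal_mono (fun y hy => ?_) (fin_of_sub (union_subset inter_subset_left
        (union_subset inter_subset_left inter_subset_left)))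
      rcases le_or_gt |v y| α with h | h
      · exact Or.inl ⟨hy, h⟩
      · rcases lt_or_ge |v y| β with h' | h'
        · exact Or.inr (Or.inl ⟨hy, h, h'⟩)
        · exact Or.inr (Or.inr ⟨hy, h'⟩)
    have h5 := h4.trans ((measureReal_union_le _ _).trans
      (add_le_add le_rfl (measureReal_union_le _ _)))
    rw [real_ball x hR] at h5
    linarith [not_le.mp hband]
  have h4 := (prod_le (measurableSet_ball.inter hLm) (measurableSet_ball.inter hHm)
    inter_subset_left inter_subset_left (fun z hz => hw0 z hz.2) (fun y hy => hw1 y hy.2)).trans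
    (poinc hw x hR)
  rw [← ENNReal.ofReal_toReal (fin_of_sub (E := ball x R ∩ H) inter_subset_left),
    ← ENNReal.ofReal_toReal (fin_of_sub (E := ball x R ∩ {y | |v y| ≤ α}) inter_subset_left),
    ← ENNReal.ofReal_toReal hI, ← ENNReal.ofReal_mul (by positivity),
    ← ENNReal.ofReal_mul (by positivity), ENNReal.ofReal_le_ofReal_iff (by positivity)] at h4
  rw [Measure.real] at hlo b5
  have h5 := (mul_le_mul hlo b5 (by positivity) ENNReal.toReal_nonneg).trans h4
  refine le_of_mul_le_mul_left (a := R * V) ?_ (by positivity)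
  have h6 : (2 : ℝ) ^ (p + 6) = 8 * 2 ^ (p + 3) := by ring
  have h7 : R ^ (p + 2) = R * R ^ (p + 1) := by ring
  rw [h6]
  rw [h7] at h5
  linarith

end NV

end

section

namespace NV
open Set Filter Topology MeasureTheory Metric Function
open scoped ENNReal

variable {p : ℕ}

namespace BoxX

theorem sig_zero {t : ℝ} (h : t ≤ 0 ∨ 1 ≤ t) : deriv Real.smoothTransition t = 0 := by
  rcases h with h | h
  · refine IsLocalMin.deriv_eq_zero (Eventually.of_forall fun s => ?_)
    rw [Real.smoothTransition.zero_of_nonpos h]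
    exact Real.smoothTransition.nonneg s
  · refine IsLocalMax.deriv_eq_zero (Eventually.of_forall fun s => ?_)
    rw [Real.smoothTransition.one_of_one_le h]
    exact Real.smoothTransition.le_one s

theorem sig_bd : ∃ L : ℝ, 0 ≤ L ∧ ∀ t, |deriv Real.smoothTransition t| ≤ L := by
  have hc : Continuous (deriv Real.smoothTransition) :=
    (Real.smoothTransition.contDiff (n := 1)).continuous_deriv le_rfl
  obtain ⟨L, hL⟩ := (isCompact_Icc (a := (0 : ℝ)) (b := 1)).exists_bound_of_continuousOn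
    hc.continuousOn
  have h0 : 0 ≤ L := (norm_nonneg _).trans (hL 0 ⟨le_rfl, zero_le_one⟩)
  refine ⟨L, h0, fun t => ?_⟩
  by_cases h : t ≤ 0 ∨ 1 ≤ t
  · rw [sig_zero h, abs_zero]; exact h0
  · rw [not_or, not_le, not_le] at h
    exact hL t ⟨h.1.le, h.2.le⟩

/-- truncation between two levels -/
theorem cut : ∃ L : ℝ, 0 ≤ L ∧ ∀ (v : W p → ℝ) (α β : ℝ), ContDiff ℝ 1 v → 0 ≤ α → α < β →
    ∃ w : W p → ℝ, ContDiff ℝ 1 w ∧ (∀ y, |v y| ≤ α → w y = 0) ∧ (∀ y, β ≤ |v y| → w y = 1) ∧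
      ∀ y, ‖fderiv ℝ w y‖ₑ ≤ {y | α < |v y| ∧ |v y| < β}.indicator
        (fun y => ENNReal.ofReal (L / (β - α)) * ‖fderiv ℝ v y‖ₑ) y := by
  obtain ⟨L, L0, hL⟩ := sig_bd
  refine ⟨2 * L, by positivity, fun v α β hv h0 hab => ?_⟩
  have hd : 0 < β ^ 2 - α ^ 2 := by nlinarith
  have h1 : ∀ y, |v y| ≤ α → (v y ^ 2 - α ^ 2) / (β ^ 2 - α ^ 2) ≤ 0 := fun y hy =>
    div_nonpos_of_nonpos_of_nonneg (by nlinarith [sq_abs (v y), abs_nonneg (v y)]) hd.le
  have h2 : ∀ y, β ≤ |v y| → 1 ≤ (v y ^ 2 - α ^ 2) / (β ^ 2 - α ^ 2) := fun y hy =>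
    (one_le_div hd).2 (by nlinarith [sq_abs (v y)])
  refine ⟨fun y => Real.smoothTransition ((v y ^ 2 - α ^ 2) / (β ^ 2 - α ^ 2)),
    (Real.smoothTransition.contDiff (n := 1)).comp (((hv.pow 2).sub contDiff_const).div_const _),
    fun y hy => Real.smoothTransition.zero_of_nonpos (h1 y hy),
    fun y hy => Real.smoothTransition.one_of_one_le (h2 y hy), fun y => ?_⟩
  have d1 : HasDerivAt (fun t : ℝ => (t ^ 2 - α ^ 2) / (β ^ 2 - α ^ 2))
      (2 * v y / (β ^ 2 - α ^ 2)) (v y) := by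
    simpa using ((hasDerivAt_pow 2 (v y)).sub_const (α ^ 2)).div_const (β ^ 2 - α ^ 2)
  have d2 := (((Real.smoothTransition.contDiff (n := 1)).differentiable one_ne_zero)
    ((v y ^ 2 - α ^ 2) / (β ^ 2 - α ^ 2))).hasDerivAt.comp (v y) d1
  have d3 := (d2.comp_hasFDerivAt y (hv.differentiable one_ne_zero y).hasFDerivAt).fderiv
  have e : fderiv ℝ (fun y => Real.smoothTransition ((v y ^ 2 - α ^ 2) / (β ^ 2 - α ^ 2))) y =
      (deriv Real.smoothTransition ((v y ^ 2 - α ^ 2) / (β ^ 2 - α ^ 2)) *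
        (2 * v y / (β ^ 2 - α ^ 2))) • fderiv ℝ v y := d3
  rw [e]
  by_cases hy : y ∈ {y | α < |v y| ∧ |v y| < β}
  · rw [indicator_of_mem hy, enorm_smul, Real.enorm_eq_ofReal_abs]
    refine mul_le_mul_left (ENNReal.ofReal_le_ofReal ?_) _
    have h3 : |2 * v y / (β ^ 2 - α ^ 2)| ≤ 2 / (β - α) := by
      rw [abs_div, abs_mul, abs_two, abs_of_pos hd, div_le_div_iff₀ hd (by linarith)]
      nlinarith [hy.2]
    rw [abs_mul, mul_comm 2 L, mul_div_assoc L]
    exact mul_le_mul (hL _) h3 (abs_nonneg _) L0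
  · have h4 : |v y| ≤ α ∨ β ≤ |v y| := by
      simpa only [mem_ofPred_eq, not_and_or, not_lt] using hy
    rw [sig_zero (h4.imp (h1 y) (h2 y)), zero_mul, zero_smul, ← ofReal_norm, norm_zero,
      ENNReal.ofReal_zero]
    exact zero_le

/-- one of `N` bands has small measure -/
theorem pigeon (ν : Measure (W p)) {v : W p → ℝ} (hv : Continuous v) {a : ℕ → ℝ}
    (ha : Monotone a) {N : ℕ} (hN : 0 < N) {b : ℝ≥0∞} (h : ν univ ≤ N * b) :
    ∃ j < N, ν {y | a j < |v y| ∧ |v y| < a (j + 1)} ≤ b := by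
  have hm : ∀ j, MeasurableSet {y | a j < |v y| ∧ |v y| < a (j + 1)} := fun j =>
    ((isOpen_lt continuous_const hv.abs).inter (isOpen_lt hv.abs continuous_const)).measurableSet
  have h1 := sum_measure_le_measure_univ (μ := ν) (s := Finset.range N)
    (t := fun j => {y | a j < |v y| ∧ |v y| < a (j + 1)}) (fun j _ => (hm j).nullMeasurableSet)
    (fun i _ j _ hij => Disjoint.aedisjoint (Set.disjoint_left.2 fun y hi hj => by
      rcases lt_or_gt_of_ne hij with h | h
      · exact absurd (hi.2.trans_le (ha h)) (not_lt.2 hj.1.le)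
      · exact absurd (hj.2.trans_le (ha h)) (not_lt.2 hi.1.le)))
  obtain ⟨j, hj, h2⟩ := ENNReal.exists_le_of_sum_le (Finset.nonempty_range_iff.2 hN.ne')
    (g := fun _ => b) (h1.trans (by simpa using h))
  exact ⟨j, Finset.mem_range.1 hj, h2⟩

end BoxX

/-- boxing inequality (weak capacitary estimate for the maximal function), C1 functions -/
theorem box (p : ℕ) : ∃ C : ℝ, 0 < C ∧ ∀ (T : W p → W p → Prop) (κ : ℝ≥0∞) (v : W p → ℝ)
    (x0 : W p) (ρ lam δ : ℝ), ContDiff ℝ 1 v → 0 < ρ → 0 < lam → 0 < δ →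
    (∀ (x : W p) (r : ℝ), 0 < r → r ≤ 10 * ρ →
      volume (sh T (ball x r)) ≤ κ * ENNReal.ofReal (r ^ (p + 1))) →
    ∫⁻ y in ball x0 (3 * ρ), ‖v y‖ₑ ≤ ENNReal.ofReal (lam * ρ ^ (p + 2) / 2) →
    ∫⁻ y in ball x0 (3 * ρ), ‖fderiv ℝ v y‖ₑ ≤ ENNReal.ofReal (lam * δ) →
    volume (sh T {x | x ∈ ball x0 ρ ∧ ∃ s : ℝ, 0 < s ∧ s ≤ ρ ∧
      ENNReal.ofReal (C * lam * s ^ (p + 2)) < ∫⁻ y in ball x s, ‖v y‖ₑ}) ≤
      κ * ENNReal.ofReal (C * δ) := by
  obtain ⟨L, L0, hL⟩ := BoxX.cut (p := p)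
  refine ⟨3 * 2 ^ (p + 2) + 5 ^ (p + 1) * (2 ^ (p + 4) + (1 + 2 ^ (p + 6) * (2 * L))),
    by positivity, fun T κ v x0 ρ lam δ hv hρ hlam hδ hT ha hb => ?_⟩
  obtain ⟨d, d0, hd⟩ := Metric.uniformContinuousOn_iff.1
    ((isCompact_closedBall x0 (3 * ρ)).uniformContinuousOn_of_continuous
      hv.continuous.continuousOn) (lam / 2) (by positivity)
  obtain ⟨s0, hs0, hs0ρ, hs0d⟩ : ∃ s0 : ℝ, 0 < s0 ∧ s0 ≤ ρ ∧ 2 * s0 < d :=
    ⟨min ρ (d / 3), lt_min hρ (by positivity), min_le_left _ _,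
      by linarith [min_le_right ρ (d / 3)]⟩
  have huc : ∀ y ∈ ball x0 (3 * ρ), ∀ z ∈ ball x0 (3 * ρ), ‖y - z‖ ≤ 2 * s0 →
      |v y - v z| ≤ lam / 2 := fun y hy z hz h =>
    (hd y (ball_subset_closedBall hy) z (ball_subset_closedBall hz)
      (by rw [dist_eq_norm]; linarith)).le
  obtain ⟨N, hN⟩ := exists_nat_gt (4 / s0 * (2 * (3 * ρ)) ^ (p + 2) / δ)
  have N0 : (0 : ℝ) < N := lt_of_le_of_lt (by positivity) hN
  rw [div_lt_iff₀ hδ] at hN
  set D : Measure (W p) := volume.withDensity fun y => ‖fderiv ℝ v y‖ₑ with hD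
  have eD : ∀ s : Set (W p), MeasurableSet s → D s = ∫⁻ y in s, ‖fderiv ℝ v y‖ₑ := fun s hs =>
    withDensity_apply _ hs
  set ν : Measure (W p) := ENNReal.ofReal (4 / s0) • volume +
    (ENNReal.ofReal (2 ^ (p + 6)) * ENNReal.ofReal (L / (lam / (2 * N)))) • D with hν
  have eν : ∀ s : Set (W p), ν s = ENNReal.ofReal (4 / s0) * volume s +
      (ENNReal.ofReal (2 ^ (p + 6)) * ENNReal.ofReal (L / (lam / (2 * N)))) * D s := fun s => by
    rw [hν, Measure.add_apply, Measure.smul_apply, Measure.smul_apply, smul_eq_mul, smul_eq_mul]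
  have hQ : (ν.restrict (ball x0 (3 * ρ))) univ ≤
      N * ENNReal.ofReal ((1 + 2 ^ (p + 6) * (2 * L)) * δ) := by
    rw [Measure.restrict_apply_univ, eν, eD _ measurableSet_ball, vol_ball _ (by positivity)]
    refine (add_le_add le_rfl (mul_le_mul_right hb _)).trans ?_
    rw [← ENNReal.ofReal_mul (by positivity), ← ENNReal.ofReal_mul (by positivity),
      ← ENNReal.ofReal_mul (by positivity), ← ENNReal.ofReal_add (by positivity) (by positivity),
      ← ENNReal.ofReal_natCast, ← ENNReal.ofReal_mul N0.le]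
    refine ENNReal.ofReal_le_ofReal ?_
    have e : 2 ^ (p + 6) * (L / (lam / (2 * N))) * (lam * δ) =
        N * (2 ^ (p + 6) * (2 * L) * δ) := by field_simp
    rw [e]
    linarith
  have hmono : Monotone fun j : ℕ => lam + j * (lam / (2 * N)) := fun i j hij => by
    have : (i : ℝ) ≤ j := by exact_mod_cast hij
    simp only
    gcongr
  obtain ⟨j, hj, hjν⟩ := BoxX.pigeon _ hv.continuous hmono (by exact_mod_cast N0) hQ
  set α : ℝ := lam + j * (lam / (2 * N)) with hα
  set β : ℝ := lam + (j + 1 : ℕ) * (lam / (2 * N)) with hβ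
  have hq : 0 < lam / (2 * N) := by positivity
  have eab : β - α = lam / (2 * N) := by rw [hα, hβ]; push_cast; ring
  have h1 : lam ≤ α := le_add_of_nonneg_right (by positivity)
  have h2 : α < β := by linarith
  have h3 : β ≤ 3 / 2 * lam := by
    have k1 : ((j + 1 : ℕ) : ℝ) ≤ N := by exact_mod_cast hj
    have k2 : (N : ℝ) * (lam / (2 * N)) = lam / 2 := by field_simp
    have k3 := mul_le_mul_of_nonneg_right k1 hq.le
    linarith
  obtain ⟨w, hw, hw0, hw1, hw2⟩ := hL v α β hv (hlam.le.trans h1) h2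
  rw [eab] at hw2
  set S : Set (W p) := {y | α < |v y| ∧ |v y| < β} with hS
  have mS : MeasurableSet S := ((isOpen_lt continuous_const hv.continuous.abs).inter
    (isOpen_lt hv.continuous.abs continuous_const)).measurableSet
  have hV := vit T (ENNReal.ofReal (2 ^ (p + 4) / lam) • D + ν.restrict S)
    {x | x ∈ ball x0 ρ ∧ ∃ s : ℝ, 0 < s ∧ s ≤ ρ ∧
      ENNReal.ofReal (3 * 2 ^ (p + 2) * lam * s ^ (p + 2)) < ∫⁻ y in ball x s, ‖v y‖ₑ}
    (ball x0 (3 * ρ)) (R := 2 * ρ) (κ := κ) (fun x ⟨hx, s, hs, hsρ, hxs⟩ => by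
      obtain ⟨r, r0, rρ, hr⟩ := boxA hv hw hlam hs0 hs0ρ h1 h2 h3 hw0 hw1 huc ha hx hs hsρ hxs
      refine ⟨r, r0, rρ, ball_subset_ball' (by linarith [mem_ball.1 hx]), hr.trans ?_⟩
      rw [Measure.add_apply, Measure.smul_apply, smul_eq_mul, eD _ measurableSet_ball,
        Measure.restrict_apply measurableSet_ball, eν, eD _ (measurableSet_ball.inter mS),
        add_assoc, mul_assoc]
      refine add_le_add le_rfl (add_le_add le_rfl (mul_le_mul_right ?_ _))
      refine (lintegral_mono hw2).trans (le_of_eq ?_)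
      rw [lintegral_indicator mS, Measure.restrict_restrict mS, inter_comm,
        lintegral_const_mul' _ _ ENNReal.ofReal_ne_top])
    (fun x r r0 hr => hT x r r0 (by linarith))
  refine le_trans (le_trans (measure_mono (sh_mono T ?_)) hV) ?_
  · rintro x ⟨hx, s, hs, hsρ, hxs⟩
    refine ⟨hx, s, hs, hsρ, lt_of_le_of_lt (ENNReal.ofReal_le_ofReal ?_) hxs⟩
    gcongr
    exact le_add_of_nonneg_right (by positivity)
  · rw [mul_assoc]
    refine mul_le_mul_right ?_ _
    rw [Measure.restrict_apply mS, inter_comm] at hjν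
    rw [Measure.add_apply, Measure.smul_apply, smul_eq_mul, eD _ measurableSet_ball,
      Measure.restrict_apply measurableSet_ball]
    refine (mul_le_mul_right (add_le_add (mul_le_mul_right hb _) hjν) _).trans ?_
    rw [← ENNReal.ofReal_mul (by positivity), ← ENNReal.ofReal_add (by positivity) (by positivity),
      ← ENNReal.ofReal_mul (by positivity)]
    refine ENNReal.ofReal_le_ofReal ?_
    have e : 2 ^ (p + 4) / lam * (lam * δ) = 2 ^ (p + 4) * δ := by field_simp
    have k : (0 : ℝ) ≤ 3 * 2 ^ (p + 2) * δ := by positivity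
    rw [e]
    linarith

end NV

end

section

namespace NV
open Set Filter Topology MeasureTheory Metric Function
open scoped ENNReal

variable {p : ℕ}

namespace BoxWX

open MoBX

theorem ker_int (k : ℕ) (z : W p) : ∫⁻ y, ‖(bk p k).normed volume (y - z)‖ₑ = 1 := by
  rw [lintegral_sub_right_eq_self (fun y => ‖(bk p k).normed volume y‖ₑ) z,
    ← ofReal_integral_norm_eq_lintegral_enorm (bk p k).integrable_normed]
  simp only [Real.norm_of_nonneg ((bk p k).nonneg_normed _)]
  rw [(bk p k).integral_normed, ENNReal.ofReal_one]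

theorem mo_L1 (k : ℕ) {u : W p → ℝ} (hu : Integrable u volume) (x0 : W p) {ρ : ℝ}
    (hk : (1 / 2 : ℝ) ^ k ≤ ρ) :
    ∫⁻ y in ball x0 (3 * ρ), ‖mo k u y‖ₑ ≤ ∫⁻ y in ball x0 (4 * ρ), ‖u y‖ₑ := by
  set g : W p → ℝ≥0∞ := (ball x0 (4 * ρ)).indicator fun z => ‖u z‖ₑ with hg
  have hgm : AEMeasurable g volume := hu.aestronglyMeasurable.enorm.indicator measurableSet_ball
  have hK : Measurable fun q : W p × W p => ‖(bk p k).normed volume (q.1 - q.2)‖ₑ :=
    ((bk p k).continuous_normed.comp (continuous_fst.sub continuous_snd)).measurable.enorm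
  have h1 : ∀ y ∈ ball x0 (3 * ρ),
      ‖mo k u y‖ₑ ≤ ∫⁻ z, ‖(bk p k).normed volume (y - z)‖ₑ * g z := fun y hy => by
    rw [mo_eq]
    refine (enorm_integral_le_lintegral_enorm _).trans (lintegral_mono fun z => ?_)
    rw [enorm_mul]
    by_cases h0 : (bk p k).normed volume (y - z) = 0
    · simp [h0]
    · have h2 : y - z ∈ support ((bk p k).normed volume) := h0
      rw [(bk p k).support_normed_eq, mem_ball_zero_iff] at h2
      have h3 : ‖y - z‖ < (1 / 2 : ℝ) ^ k := h2
      have h4 : z ∈ ball x0 (4 * ρ) := by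
        have h5 := dist_triangle z y x0
        rw [dist_comm z y, dist_eq_norm y z] at h5
        have h6 := mem_ball.1 hy
        rw [mem_ball]
        linarith
      rw [hg, indicator_of_mem h4]
  calc ∫⁻ y in ball x0 (3 * ρ), ‖mo k u y‖ₑ
      ≤ ∫⁻ y in ball x0 (3 * ρ), ∫⁻ z, ‖(bk p k).normed volume (y - z)‖ₑ * g z :=
        setLIntegral_mono' measurableSet_ball h1
    _ ≤ ∫⁻ y, ∫⁻ z, ‖(bk p k).normed volume (y - z)‖ₑ * g z := setLIntegral_le_lintegral _ _
    _ = ∫⁻ z, ∫⁻ y, ‖(bk p k).normed volume (y - z)‖ₑ * g z :=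
        lintegral_lintegral_swap (hK.aemeasurable.mul hgm.comp_snd)
    _ = ∫⁻ z, g z := by
        refine lintegral_congr fun z => ?_
        have hz : Measurable fun y : W p => ‖(bk p k).normed volume (y - z)‖ₑ :=
          (((bk p k).continuous_normed (μ := volume)).measurable.comp
            (measurable_sub_const z)).enorm
        rw [lintegral_mul_const _ hz, ker_int, one_mul]
    _ = _ := lintegral_indicator measurableSet_ball _

theorem ind_eq {O S : Set (W p)} (hS : MeasurableSet S) (h : S ⊆ O) (u : W p → ℝ) :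
    ∫⁻ y in S, ‖O.indicator u y‖ₑ = ∫⁻ y in S, ‖u y‖ₑ :=
  setLIntegral_congr_fun hS fun y hy => by simp only [indicator_of_mem (h hy)]

theorem fd_L1 (k : ℕ) {O : Set (W p)} {v : W p → ℝ} {w : Fin (p + 2) → W p → ℝ} (x0 : W p) {ρ : ℝ}
    (hO : MeasurableSet O) (hv : IntegrableOn v O volume) (hw : ∀ j, IntegrableOn (w j) O volume)
    (hd : ∀ j, SJ.WeakPD O j v (w j)) (hs : ball x0 (4 * ρ) ⊆ O) (hk : (1 / 2 : ℝ) ^ k ≤ ρ) :
    ∫⁻ y in ball x0 (3 * ρ), ‖fderiv ℝ (mo k (O.indicator v)) y‖ₑ ≤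
      ∑ j, ∫⁻ y in ball x0 (4 * ρ), ‖w j y‖ₑ := by
  have hi : ∀ j, Integrable (O.indicator (w j)) volume := fun j =>
    (integrable_indicator_iff hO).2 (hw j)
  have h1 : ∀ y ∈ ball x0 (3 * ρ), ‖fderiv ℝ (mo k (O.indicator v)) y‖ₑ ≤
      ∑ j, ‖mo k (O.indicator (w j)) y‖ₑ := fun y hy => by
    have h2 : closedBall y ((1 / 2 : ℝ) ^ k) ⊆ O := fun z hz => hs <| by
      have h5 := dist_triangle z y x0
      have h6 := mem_ball.1 hy
      have h7 := mem_closedBall.1 hz
      rw [mem_ball]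
      linarith
    have h3 := opn (fderiv ℝ (mo k (O.indicator v)) y)
    simp only [fun j => mo_fderiv k hO hv (hw j) (hd j) y h2] at h3
    simp only [← ofReal_norm]
    rw [← ENNReal.ofReal_sum_of_nonneg fun _ _ => norm_nonneg _]
    exact ENNReal.ofReal_le_ofReal h3
  refine (setLIntegral_mono' measurableSet_ball h1).trans ?_
  rw [lintegral_finsetSum _ fun j _ => (mo_contDiff k (hi j)).continuous.measurable.enorm]
  exact Finset.sum_le_sum fun j _ =>
    (mo_L1 k (hi j) x0 hk).trans (ind_eq measurableSet_ball hs _).le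

theorem fatou {u : W p → ℝ} (hu : Integrable u volume) (S : Set (W p)) {c : ℝ≥0∞}
    (h : c < ∫⁻ y in S, ‖u y‖ₑ) : ∀ᶠ k in atTop, c < ∫⁻ y in S, ‖mo k u y‖ₑ := by
  have h1 : ∫⁻ y in S, ‖u y‖ₑ = ∫⁻ y in S, liminf (fun k => ‖mo k u y‖ₑ) atTop := by
    refine lintegral_congr_ae (ae_restrict_of_ae ((mo_ae_tendsto hu).mono fun y hy => ?_))
    exact (hy.enorm.liminf_eq).symm
  have h2 := lintegral_liminf_le' (μ := volume.restrict S) (u := atTop)
    (f := fun k y => ‖mo k u y‖ₑ)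
    fun k => (mo_contDiff k hu).continuous.measurable.enorm.aemeasurable
  exact eventually_lt_of_lt_liminf (h.trans_le (h1.le.trans h2))

end BoxWX

/-- boxing inequality for W^{1,1} functions -/
theorem boxW (p : ℕ) : ∃ C : ℝ, 0 < C ∧ ∀ (T : W p → W p → Prop) (κ : ℝ≥0∞) (O : Set (W p))
    (v : W p → ℝ) (w : Fin (p + 2) → W p → ℝ) (x0 : W p) (ρ lam δ : ℝ), MeasurableSet O →
    IntegrableOn v O volume → (∀ j, IntegrableOn (w j) O volume) →
    (∀ j, SJ.WeakPD O j v (w j)) → 0 < ρ → 0 < lam → 0 < δ → ball x0 (4 * ρ) ⊆ O →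
    (∀ (x : W p) (r : ℝ), 0 < r → r ≤ 10 * ρ →
      volume (sh T (ball x r)) ≤ κ * ENNReal.ofReal (r ^ (p + 1))) →
    ∫⁻ y in ball x0 (4 * ρ), ‖v y‖ₑ ≤ ENNReal.ofReal (lam * ρ ^ (p + 2) / 2) →
    ∑ j, ∫⁻ y in ball x0 (4 * ρ), ‖w j y‖ₑ ≤ ENNReal.ofReal (lam * δ) →
    volume (sh T {x | x ∈ ball x0 ρ ∧ ∃ s : ℝ, 0 < s ∧ s ≤ ρ ∧
      ENNReal.ofReal (C * lam * s ^ (p + 2)) < ∫⁻ y in ball x s, ‖v y‖ₑ}) ≤
      κ * ENNReal.ofReal (C * δ) := by
  obtain ⟨C, hC, hb⟩ := box p
  refine ⟨C, hC, fun T κ O v w x0 ρ lam δ hO hv hw hd hρ hl hδ hs hT h0 h1 => ?_⟩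
  have hi : Integrable (O.indicator v) volume := (integrable_indicator_iff hO).2 hv
  obtain ⟨k0, hk0⟩ := exists_pow_lt_of_lt_one hρ (by norm_num : (1 / 2 : ℝ) < 1)
  let E : ℕ → Set (W p) := fun k => {x | x ∈ ball x0 ρ ∧ ∃ s : ℝ, 0 < s ∧ s ≤ ρ ∧
    ENNReal.ofReal (C * lam * s ^ (p + 2)) < ∫⁻ y in ball x s, ‖mo k (O.indicator v) y‖ₑ}
  have hE : ∀ k, k0 ≤ k → volume (sh T (E k)) ≤ κ * ENNReal.ofReal (C * δ) := fun k hk => by
    have hk1 : (1 / 2 : ℝ) ^ k ≤ ρ :=
      (pow_le_pow_of_le_one (by norm_num) (by norm_num) hk).trans hk0.le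
    exact hb T κ _ x0 ρ lam δ ((mo_contDiff k hi).of_le (by norm_num)) hρ hl hδ hT
      ((BoxWX.mo_L1 k hi x0 hk1).trans ((BoxWX.ind_eq measurableSet_ball hs v).le.trans h0))
      ((BoxWX.fd_L1 k x0 hO hv hw hd hs hk1).trans h1)
  let F : ℕ → Set (W p) := fun m => {x | ∀ k, m ≤ k → x ∈ E k}
  have hF : Monotone fun m => sh T (F m) := fun m n hmn =>
    sh_mono T fun x hx k hk => hx k (hmn.trans hk)
  refine (measure_mono (sh_mono T (E' := ⋃ m, F m) ?_)).trans ?_
  · rintro x ⟨hx, s, hs0, hsρ, hlt⟩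
    have hsub : ball x s ⊆ O := fun z hz => hs <| by
      have h5 := dist_triangle z x x0
      have h6 := mem_ball.1 hx
      have h7 := mem_ball.1 hz
      rw [mem_ball]
      linarith
    rw [← BoxWX.ind_eq measurableSet_ball hsub v] at hlt
    obtain ⟨m, hm⟩ := eventually_atTop.1 (BoxWX.fatou hi _ hlt)
    exact mem_iUnion.2 ⟨m, fun k hk => ⟨hx, s, hs0, hsρ, hm k hk⟩⟩
  · rw [sh_iUnion, hF.measure_iUnion]
    refine iSup_le fun m => ?_
    have hm : F m ⊆ E (max m k0) := fun x hx => hx (max m k0) (le_max_left _ _)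
    exact (measure_mono (sh_mono T hm)).trans (hE _ (le_max_right _ _))

end NV

end

section

namespace NV
open Set Filter Topology MeasureTheory Metric Function
open scoped ENNReal

variable {p : ℕ}

namespace LebX

theorem int_mul {O : Set (W p)} {u ψ : W p → ℝ} (hu : IntegrableOn u O volume)
    (hψ : Continuous ψ) (hs : HasCompactSupport ψ) :
    IntegrableOn (fun x => u x * ψ x) O volume := by
  obtain ⟨C, hC⟩ := hψ.bounded_above_of_compact_support hs
  exact Integrable.mul_bdd hu hψ.aestronglyMeasurable (Eventually.of_forall hC)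

theorem int_mul' {u ψ : W p → ℝ} (hu : Continuous u) (hψ : Continuous ψ)
    (hs : HasCompactSupport ψ) : Integrable (fun x => u x * ψ x) volume :=
  (hu.mul hψ).integrable_of_hasCompactSupport hs.mul_left

theorem aem {O : Set (W p)} {D : W p → Mx p}
    (hD : ∀ a i, IntegrableOn (fun x => D x a i) O volume) (B : Mx p) (a i : Fin (p + 2)) :
    AEMeasurable (fun y => ‖D y a i - B a i‖ₑ) (volume.restrict O) :=
  ((hD a i).aestronglyMeasurable.sub aestronglyMeasurable_const).enorm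

theorem aem' {O : Set (W p)} {D : W p → Mx p}
    (hD : ∀ a i, IntegrableOn (fun x => D x a i) O volume) (B : Mx p) :
    AEMeasurable (fun y => ∑ a, ∑ i, ‖D y a i - B a i‖ₑ) (volume.restrict O) :=
  Finset.aemeasurable_fun_sum _ fun a _ => Finset.aemeasurable_fun_sum _ fun i _ => aem hD B a i

theorem dd_eq (B B' : Mx p) : ENNReal.ofReal (dd B B') = ∑ a, ∑ i, ‖B a i - B' a i‖ₑ := by
  rw [dd, ENNReal.ofReal_sum_of_nonneg fun a _ => Finset.sum_nonneg fun i _ => abs_nonneg _]
  refine Finset.sum_congr rfl fun a _ => ?_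
  rw [ENNReal.ofReal_sum_of_nonneg fun i _ => abs_nonneg _]
  exact Finset.sum_congr rfl fun i _ => (Real.enorm_eq_ofReal_abs _).symm

theorem dd0 (B B' : Mx p) : 0 ≤ dd B B' :=
  Finset.sum_nonneg fun _ _ => Finset.sum_nonneg fun _ _ => abs_nonneg _

theorem tri (X B B' : Mx p) : ∑ a, ∑ i, ‖X a i - B a i‖ₑ ≤
    ∑ a, ∑ i, ‖X a i - B' a i‖ₑ + ENNReal.ofReal (dd B B') := by
  rw [dd_eq, ← Finset.sum_add_distrib]
  refine Finset.sum_le_sum fun a _ => ?_
  rw [← Finset.sum_add_distrib]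
  refine Finset.sum_le_sum fun i _ => ?_
  rw [show X a i - B a i = (X a i - B' a i) - (B a i - B' a i) by ring]
  exact enorm_sub_le

theorem tri' (X B B' : Mx p) : ENNReal.ofReal (dd B B') ≤
    ∑ a, ∑ i, ‖X a i - B a i‖ₑ + ∑ a, ∑ i, ‖X a i - B' a i‖ₑ := by
  rw [dd_eq, ← Finset.sum_add_distrib]
  refine Finset.sum_le_sum fun a _ => ?_
  rw [← Finset.sum_add_distrib]
  refine Finset.sum_le_sum fun i _ => ?_
  rw [show B a i - B' a i = (X a i - B' a i) - (X a i - B a i) by ring, add_comm]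
  exact enorm_sub_le

end LebX

open LebX

/-- subtracting an affine function -/
theorem weak_sub {O : Set (W p)} (hO : MeasurableSet O) {i : Fin (p + 2)} {u v : W p → ℝ}
    (hu : IntegrableOn u O volume) (hv : IntegrableOn v O volume) (h : SJ.WeakPD O i u v)
    (l : W p →L[ℝ] ℝ) (c : ℝ) :
    SJ.WeakPD O i (fun x => u x - (l x + c)) (fun x => v x - l (Pi.single i 1)) := by
  have _ := hO
  intro φ h1 h2 h3
  have e := h φ h1 h2 h3
  have hc : Continuous φ := h1.continuous
  have hc' : Continuous fun x => fderiv ℝ φ x (Pi.single i 1) :=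
    (h1.continuous_fderiv (by simp)).clm_apply continuous_const
  have hs' : HasCompactSupport fun x => fderiv ℝ φ x (Pi.single i 1) := h2.fderiv_apply ℝ _
  have hl : Continuous fun x => l x + c := l.continuous.add continuous_const
  have hd : ∀ x, fderiv ℝ (fun x => l x + c) x = l := fun x => (l.hasFDerivAt.add_const c).fderiv
  have i1 := int_mul' hl hc' hs'
  have i2 : Integrable (fun x => l (Pi.single i 1) * φ x) volume :=
    int_mul' continuous_const hc h2
  have e2 : ∫ x, (l x + c) * fderiv ℝ φ x (Pi.single i 1) = -∫ x, l (Pi.single i 1) * φ x := by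
    have := integral_mul_fderiv_eq_neg_fderiv_mul_of_integrable (μ := volume)
      (f := fun x => l x + c) (g := φ) (v := Pi.single i 1) (i2.congr (Eventually.of_forall fun x => by simp only [hd])) i1
      (int_mul' hl hc h2) (fun x _ => (l.hasFDerivAt.add_const c).differentiableAt)
      (fun x _ => (h1.differentiable (by simp)) x)
    simpa only [hd] using this
  have e3 : ∫ x in O, (l x + c) * fderiv ℝ φ x (Pi.single i 1) =
      ∫ x, (l x + c) * fderiv ℝ φ x (Pi.single i 1) :=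
    setIntegral_eq_integral_of_forall_compl_eq_zero fun x hx => by
      rw [fderiv_of_notMem_tsupport ℝ fun hh => hx (h3 hh)]; simp
  have e4 : ∫ x in O, l (Pi.single i 1) * φ x = ∫ x, l (Pi.single i 1) * φ x :=
    setIntegral_eq_integral_of_forall_compl_eq_zero fun x hx => by
      rw [image_eq_zero_of_notMem_tsupport fun hh => hx (h3 hh)]; simp
  simp only [sub_mul]
  rw [integral_sub (int_mul hu hc' hs') i1.integrableOn,
    integral_sub (int_mul hv hc h2) i2.integrableOn, e, e3, e4, e2]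
  ring

/-- Lebesgue points -/
theorem leb1 {O : Set (W p)} (hO : IsOpen O) {g : W p → ℝ} (hg : IntegrableOn g O volume) :
    ∀ᵐ x ∂(volume : Measure (W p)), x ∈ O → ∀ η : ℝ, 0 < η → ∃ ρ : ℝ, 0 < ρ ∧ ∀ r : ℝ, 0 < r →
      r ≤ ρ → ∫⁻ y in ball x r, ‖g y - g x‖ₑ ≤ ENNReal.ofReal (η * r ^ (p + 2)) := by
  have hi : Integrable (O.indicator g) volume := (integrable_indicator_iff hO.measurableSet).2 hg
  filter_upwards [VitaliFamily.ae_tendsto_lintegral_enorm_sub_div_of_integrable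
    (Besicovitch.vitaliFamily (volume : Measure (W p))) hi] with x hx hxO η hη
  have h1 := hx.comp (Besicovitch.tendsto_filterAt volume x)
  have hpos : (0 : ℝ≥0∞) < ENNReal.ofReal (η / 2 ^ (p + 2)) :=
    ENNReal.ofReal_pos.2 (by positivity)
  obtain ⟨ρ, hρ, hsub⟩ := mem_nhdsGT_iff_exists_Ioc_subset.1 (h1.eventually (gt_mem_nhds hpos))
  obtain ⟨ε, hε, hεO⟩ := Metric.isOpen_iff.1 hO x hxO
  refine ⟨min ρ ε, lt_min hρ hε, fun r hr hrρ => ?_⟩
  have h3 : (∫⁻ y in closedBall x r, ‖O.indicator g y - O.indicator g x‖ₑ) /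
      volume (closedBall x r) < ENNReal.ofReal (η / 2 ^ (p + 2)) :=
    hsub ⟨hr, hrρ.trans (min_le_left _ _)⟩
  have hb : ball x r ⊆ O := (ball_subset_ball (hrρ.trans (min_le_right _ _))).trans hεO
  have hv : volume (closedBall x r) = ENNReal.ofReal ((2 * r) ^ (p + 2)) := by
    rw [Real.volume_pi_closedBall x hr.le, Fintype.card_fin]
  rw [hv] at h3
  calc ∫⁻ y in ball x r, ‖g y - g x‖ₑ
      = ∫⁻ y in ball x r, ‖O.indicator g y - O.indicator g x‖ₑ :=
        setLIntegral_congr_fun measurableSet_ball fun y hy => by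
          simp only [indicator_of_mem (hb hy), indicator_of_mem hxO]
    _ ≤ ∫⁻ y in closedBall x r, ‖O.indicator g y - O.indicator g x‖ₑ :=
        lintegral_mono_set ball_subset_closedBall
    _ ≤ ENNReal.ofReal (η / 2 ^ (p + 2)) * ENNReal.ofReal ((2 * r) ^ (p + 2)) :=
        (ENNReal.div_le_iff (ENNReal.ofReal_pos.2 (by positivity)).ne' ENNReal.ofReal_ne_top).1
          h3.le
    _ = ENNReal.ofReal (η * r ^ (p + 2)) := by
        rw [← ENNReal.ofReal_mul (by positivity), mul_pow]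
        congr 1
        field_simp

theorem nu_apply {O : Set (W p)} {D : W p → Mx p}
    (hD : ∀ a i, IntegrableOn (fun x => D x a i) O volume) (B : Mx p) {x : W p} {r : ℝ}
    (h : ball x r ⊆ O) :
    nu O D B (ball x r) = ∑ a, ∑ i, ∫⁻ y in ball x r, ‖D y a i - B a i‖ₑ := by
  have hm : ∀ a i, AEMeasurable (fun y => ‖D y a i - B a i‖ₑ) (volume.restrict (ball x r)) :=
    fun a i => (aem hD B a i).mono_measure (Measure.restrict_mono h le_rfl)
  rw [nu, withDensity_apply _ measurableSet_ball, Measure.restrict_restrict measurableSet_ball,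
    inter_eq_left.2 h,
    lintegral_finsetSum' _ fun a _ => Finset.aemeasurable_fun_sum _ fun i _ => hm a i]
  exact Finset.sum_congr rfl fun a _ => lintegral_finsetSum' _ fun i _ => hm a i

theorem nu_tri {O : Set (W p)} {D : W p → Mx p}
    (hD : ∀ a i, IntegrableOn (fun x => D x a i) O volume) (B B' : Mx p) (x : W p) {r : ℝ}
    (hr : 0 < r) : nu O D B (ball x r) ≤
      nu O D B' (ball x r) + ENNReal.ofReal (dd B B' * (2 * r) ^ (p + 2)) := by
  have _ := hD
  rw [nu, nu, withDensity_apply _ measurableSet_ball, withDensity_apply _ measurableSet_ball]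
  refine (lintegral_mono fun y => tri (D y) B B').trans ?_
  rw [lintegral_add_right _ measurable_const, setLIntegral_const, ENNReal.ofReal_mul (dd0 B B'),
    ← vol_ball x hr]
  gcongr
  exact Measure.restrict_le_self

theorem nu_tri' {O : Set (W p)} {D : W p → Mx p}
    (hD : ∀ a i, IntegrableOn (fun x => D x a i) O volume) (B B' : Mx p) {x : W p} {r : ℝ}
    (hr : 0 < r) (h : ball x r ⊆ O) : ENNReal.ofReal (dd B B' * (2 * r) ^ (p + 2)) ≤
      nu O D B (ball x r) + nu O D B' (ball x r) := by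
  rw [nu, nu, withDensity_apply _ measurableSet_ball, withDensity_apply _ measurableSet_ball,
    ← lintegral_add_left' (aem' hD B).restrict]
  refine le_trans ?_ (lintegral_mono fun y => tri' (D y) B B')
  rw [setLIntegral_const, ENNReal.ofReal_mul (dd0 B B'), ← vol_ball x hr,
    Measure.restrict_apply measurableSet_ball, inter_eq_left.2 h]

theorem leb {O : Set (W p)} (hO : IsOpen O) {D : W p → Mx p}
    (hD : ∀ a i, IntegrableOn (fun x => D x a i) O volume) :
    ∀ᵐ x ∂(volume : Measure (W p)), x ∈ O → ∀ η : ℝ, 0 < η → ∃ ρ : ℝ, 0 < ρ ∧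
      x ∈ Gd (nu O D (D x)) η ρ := by
  have h := ae_all_iff.2 fun a => ae_all_iff.2 fun i => leb1 hO (hD a i)
  filter_upwards [h] with x hx hxO η hη
  have hn : (0 : ℝ) < ((p + 2 : ℕ) : ℝ) := by positivity
  choose ρ hρ hb using fun a i => hx a i hxO (η / ((p + 2 : ℕ) : ℝ) ^ 2) (by positivity)
  obtain ⟨⟨a0, i0⟩, hm⟩ := Finite.exists_min fun q : Fin (p + 2) × Fin (p + 2) => ρ q.1 q.2
  obtain ⟨ε, hε, hεO⟩ := Metric.isOpen_iff.1 hO x hxO
  refine ⟨min (ρ a0 i0) ε, lt_min (hρ _ _) hε, fun r hr hrρ => ?_⟩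
  rw [nu_apply hD _ ((ball_subset_ball (hrρ.trans (min_le_right _ _))).trans hεO)]
  refine (Finset.sum_le_sum fun a _ => Finset.sum_le_sum fun i _ =>
    hb a i r hr ((hrρ.trans (min_le_left _ _)).trans (hm (a, i)))).trans (le_of_eq ?_)
  rw [Finset.sum_const, Finset.sum_const, Finset.card_univ, Fintype.card_fin, nsmul_eq_mul,
    nsmul_eq_mul, ← ENNReal.ofReal_natCast, ← ENNReal.ofReal_mul hn.le,
    ← ENNReal.ofReal_mul hn.le]
  congr 1
  field_simp

theorem dens {O : Set (W p)} (hO : IsOpen O) {g : W p → ℝ} (hg : IntegrableOn g O volume) :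
    ∀ᵐ x ∂(volume : Measure (W p)), x ∈ O → ∃ K ρ : ℝ, 0 < K ∧ 0 < ρ ∧ ∀ r : ℝ, 0 < r →
      r ≤ ρ → ∫⁻ y in ball x r, ‖g y‖ₑ ≤ ENNReal.ofReal (K * r ^ (p + 2)) := by
  filter_upwards [leb1 hO hg] with x hx hxO
  obtain ⟨ρ, hρ, hb⟩ := hx hxO 1 one_pos
  refine ⟨1 + |g x| * 2 ^ (p + 2), ρ, by positivity, hρ, fun r hr hrρ => ?_⟩
  calc ∫⁻ y in ball x r, ‖g y‖ₑ ≤ ∫⁻ y in ball x r, (‖g y - g x‖ₑ + ‖g x‖ₑ) :=
        lintegral_mono fun y => by
          simpa only [sub_add_cancel] using enorm_add_le (g y - g x) (g x)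
    _ = (∫⁻ y in ball x r, ‖g y - g x‖ₑ) + ‖g x‖ₑ * volume (ball x r) := by
        rw [lintegral_add_right _ measurable_const, setLIntegral_const]
    _ ≤ ENNReal.ofReal (1 * r ^ (p + 2)) + ‖g x‖ₑ * volume (ball x r) := by
        gcongr
        exact hb r hr hrρ
    _ = _ := by
        rw [vol_ball x hr, Real.enorm_eq_ofReal_abs, ← ENNReal.ofReal_mul (abs_nonneg _),
          ← ENNReal.ofReal_add (by positivity) (by positivity)]
        congr 1
        ring

end NV

end
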