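import Mathlib
import Pool.Agent.MP_edaf86_an.NvA

section

namespace NV
open Set Filter Topology MeasureTheory Metric Function
open scoped ENNReal

variable {p : ℕ}

namespace LipLX

theorem grad {C0 : ℝ} (h0 : 0 ≤ C0) (hC : ∀ (k : ℕ) (u : W p → ℝ) (x : W p),
    Integrable u volume → |mo k u x| ≤
      C0 * ((2 : ℝ) ^ k) ^ (p + 2) * ∫ y in ball x (2 * (1 / 2 : ℝ) ^ k), |u y|)
    {O : Set (W p)} {u : W p → ℝ} {v : Fin (p + 2) → W p → ℝ} {x : W p} {η ρ : ℝ}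
    (hO : IsOpen O) (hu : IntegrableOn u O volume) (hv : ∀ i, IntegrableOn (v i) O volume)
    (hw : ∀ i, SJ.WeakPD O i u (v i)) (hη : 0 ≤ η) (hx : ball x ρ ⊆ O)
    (hM : ∀ r : ℝ, 0 < r → r ≤ ρ →
      ∑ i, ∫⁻ z in ball x r, ‖v i z‖ₑ ≤ ENNReal.ofReal (η * r ^ (p + 2)))
    {j l : ℕ} (hj : 4 * (1 / 2 : ℝ) ^ j ≤ ρ) (hl : j ≤ l) (hl' : l ≤ j + 1) {z : W p}
    (hz : z ∈ closedBall x ((1 / 2 : ℝ) ^ j)) :
    ‖fderiv ℝ (mo l (O.indicator u)) z‖ ≤ C0 * 8 ^ (p + 2) * η := by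
  have hs : (0 : ℝ) < (1 / 2 : ℝ) ^ j := by positivity
  have h1 : (1 / 2 : ℝ) ^ l ≤ (1 / 2 : ℝ) ^ j :=
    pow_le_pow_of_le_one (by norm_num) (by norm_num) hl
  rw [mem_closedBall] at hz
  have hb : ball x (4 * (1 / 2 : ℝ) ^ j) ⊆ O := (ball_subset_ball hj).trans hx
  have h2 : closedBall z ((1 / 2 : ℝ) ^ l) ⊆ O :=
    (closedBall_subset_ball' (by linarith)).trans hb
  have h3 : ball z (2 * (1 / 2 : ℝ) ^ l) ⊆ ball x (4 * (1 / 2 : ℝ) ^ j) :=
    ball_subset_ball' (by linarith)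
  have hi : ∀ i, IntegrableOn (v i) (ball x (4 * (1 / 2 : ℝ) ^ j)) volume :=
    fun i => (hv i).mono_set hb
  have h4 : ∀ i, ‖fderiv ℝ (mo l (O.indicator u)) z (Pi.single i 1)‖ ≤
      C0 * ((2 : ℝ) ^ l) ^ (p + 2) * ∫ y in ball x (4 * (1 / 2 : ℝ) ^ j), ‖v i y‖ := by
    intro i
    rw [mo_fderiv l hO.measurableSet hu (hv i) (hw i) z h2, Real.norm_eq_abs]
    refine (hC l _ z ((integrable_indicator_iff hO.measurableSet).2 (hv i))).trans ?_
    refine mul_le_mul_of_nonneg_left ?_ (by positivity)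
    rw [setIntegral_congr_fun (g := fun y => ‖v i y‖) measurableSet_ball fun y hy => by
      simp only [indicator_of_mem (hb (h3 hy)), Real.norm_eq_abs]]
    exact setIntegral_mono_set (hi i).norm (Eventually.of_forall fun _ => norm_nonneg _)
      h3.eventuallyLE
  have h5 : ∑ i, ∫ y in ball x (4 * (1 / 2 : ℝ) ^ j), ‖v i y‖ ≤
      η * (4 * (1 / 2 : ℝ) ^ j) ^ (p + 2) := by
    refine (ENNReal.ofReal_le_ofReal_iff (by positivity)).1 ?_
    rw [ENNReal.ofReal_sum_of_nonneg fun i _ => integral_nonneg fun _ => norm_nonneg _]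
    refine le_trans (le_of_eq (Finset.sum_congr rfl fun i _ => ?_)) (hM _ (by positivity) hj)
    exact ofReal_integral_norm_eq_lintegral_enorm (hi i)
  have h6 : (2 : ℝ) ^ l * (4 * (1 / 2 : ℝ) ^ j) ≤ 8 := by
    have a : (2 : ℝ) ^ l ≤ 2 ^ (j + 1) := pow_le_pow_right₀ (by norm_num) hl'
    have b : (2 : ℝ) ^ j * (1 / 2 : ℝ) ^ j = 1 := by
      rw [← mul_pow]
      norm_num
    rw [pow_succ] at a
    nlinarith
  refine (opn _).trans ((Finset.sum_le_sum fun i _ => h4 i).trans ?_)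
  rw [← Finset.mul_sum]
  refine (mul_le_mul_of_nonneg_left h5 (by positivity)).trans ?_
  have h7 : ((2 : ℝ) ^ l * (4 * (1 / 2 : ℝ) ^ j)) ^ (p + 2) ≤ 8 ^ (p + 2) :=
    pow_le_pow_left₀ (by positivity) h6 _
  rw [mul_pow] at h7
  calc C0 * ((2 : ℝ) ^ l) ^ (p + 2) * (η * (4 * (1 / 2 : ℝ) ^ j) ^ (p + 2))
      = C0 * (((2 : ℝ) ^ l) ^ (p + 2) * (4 * (1 / 2 : ℝ) ^ j) ^ (p + 2)) * η := by ring
    _ ≤ _ := by gcongr

theorem lim {U : W p → ℝ} (hU : Integrable U volume) {x : W p} (hx : ContinuousAt U x) {M ρ : ℝ}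
    (hM : 0 ≤ M) (h : ∀ j l : ℕ, 4 * (1 / 2 : ℝ) ^ j ≤ ρ → j ≤ l → l ≤ j + 1 →
      ∀ z ∈ closedBall x ((1 / 2 : ℝ) ^ j), ‖fderiv ℝ (mo l U) z‖ ≤ M)
    {k : ℕ} (hk : 4 * (1 / 2 : ℝ) ^ k ≤ ρ) : |mo k U x - U x| ≤ 4 * M * (1 / 2 : ℝ) ^ k := by
  have st : ∀ j : ℕ, 4 * (1 / 2 : ℝ) ^ j ≤ ρ →
      |mo j U x - mo (j + 1) U x| ≤ 2 * M * (1 / 2 : ℝ) ^ j := by
    intro j hj
    have a := mo_sub_le1 (j + 1) (mo_contDiff j hU) x (M := M) fun z hz =>
      h j j hj le_rfl j.le_succ z (closedBall_subset_closedBall (half j) hz)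
    have b := mo_sub_le1 j (mo_contDiff (j + 1) hU) x (M := M) fun z hz =>
      h j (j + 1) hj j.le_succ le_rfl z hz
    have c := mul_le_mul_of_nonneg_left (half j) hM
    linarith [split1 j hU x]
  have ht : Tendsto (fun n => mo (n + k) U x) atTop (𝓝 (U x)) :=
    (mo_tendsto hU hx).comp (tendsto_add_atTop_nat k)
  have := dist_le_of_le_geometric_of_tendsto₀ (1 / 2) (2 * M * (1 / 2 : ℝ) ^ k) (by norm_num)
    (f := fun n => mo (n + k) U x) (fun n => by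
      have a : (1 / 2 : ℝ) ^ (n + k) ≤ (1 / 2 : ℝ) ^ k :=
        pow_le_pow_of_le_one (by norm_num) (by norm_num) (Nat.le_add_left k n)
      have b := st (n + k) (by linarith)
      rw [Real.dist_eq, show n + 1 + k = n + k + 1 by ring]
      refine b.trans (le_of_eq ?_)
      rw [pow_add]
      ring) ht
  rw [Real.dist_eq, zero_add] at this
  refine this.trans (le_of_eq ?_)
  ring

end LipLX

/-- pointwise Lipschitz estimate at two points with small maximal function of the gradient -/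
theorem lipL (p : ℕ) : ∃ C : ℝ, 0 < C ∧ ∀ (O : Set (W p)) (u : W p → ℝ)
    (v : Fin (p + 2) → W p → ℝ) (x y : W p) (η ρ : ℝ), IsOpen O → ContinuousOn u O →
    IntegrableOn u O volume → (∀ i, IntegrableOn (v i) O volume) →
    (∀ i, SJ.WeakPD O i u (v i)) → 0 ≤ η → 0 < ρ → ρ ≤ 1 → ball x ρ ⊆ O → ball y ρ ⊆ O →
    ‖x - y‖ ≤ ρ / 8 →
    (∀ r : ℝ, 0 < r → r ≤ ρ →
      ∑ i, ∫⁻ z in ball x r, ‖v i z‖ₑ ≤ ENNReal.ofReal (η * r ^ (p + 2))) →
    (∀ r : ℝ, 0 < r → r ≤ ρ →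
      ∑ i, ∫⁻ z in ball y r, ‖v i z‖ₑ ≤ ENNReal.ofReal (η * r ^ (p + 2))) →
    |u x - u y| ≤ C * η * ‖x - y‖ := by
  obtain ⟨C0, h0, hC⟩ := mo_abs_le p
  refine ⟨17 * (C0 * 8 ^ (p + 2)) + 1, by positivity, ?_⟩
  intro O u v x y η ρ hO hc hu hv hw hη hρ hρ1 hx hy hd hMx hMy
  have hU : Integrable (O.indicator u) volume := (integrable_indicator_iff hO.measurableSet).2 hu
  have ca : ∀ z ∈ O, ContinuousAt (O.indicator u) z := fun z hz =>
    (hc.continuousAt (hO.mem_nhds hz)).congr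
      (mem_of_superset (hO.mem_nhds hz) fun w hw => (indicator_of_mem hw u).symm)
  have hxO : x ∈ O := hx (mem_ball_self hρ)
  have hyO : y ∈ O := hy (mem_ball_self hρ)
  rcases (norm_nonneg (x - y)).eq_or_lt with h1 | h1
  · obtain rfl : x = y := sub_eq_zero.1 (norm_eq_zero.1 h1.symm)
    simp
  obtain ⟨k, k1, k2⟩ := exists_nat_pow_near_of_lt_one h1 (by linarith)
    (show (0 : ℝ) < 1 / 2 by norm_num) (by norm_num)
  rw [pow_succ] at k1
  have hk : 4 * (1 / 2 : ℝ) ^ k ≤ ρ := by linarith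
  have hM : 0 ≤ C0 * 8 ^ (p + 2) * η := by positivity
  have a := LipLX.lim hU (ca x hxO) hM (fun j l hj hl hl' z hz =>
    LipLX.grad h0 hC hO hu hv hw hη hx hMx hj hl hl' hz) hk
  have b := LipLX.lim hU (ca y hyO) hM (fun j l hj hl hl' z hz =>
    LipLX.grad h0 hC hO hu hv hw hη hy hMy hj hl hl' hz) hk
  have hyx : y ∈ closedBall x ((1 / 2 : ℝ) ^ k) := by
    rw [mem_closedBall, dist_comm, dist_eq_norm]
    exact k2
  have c := (convex_closedBall x ((1 / 2 : ℝ) ^ k)).norm_image_sub_le_of_norm_fderiv_le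
    (fun z _ => (mo_contDiff k hU).differentiable (by norm_num) z)
    (fun z hz => LipLX.grad h0 hC hO hu hv hw hη hx hMx hk le_rfl k.le_succ hz) hyx
    (mem_closedBall_self (by positivity))
  rw [indicator_of_mem hxO] at a
  rw [indicator_of_mem hyO] at b
  rw [Real.norm_eq_abs] at c
  have e : C0 * 8 ^ (p + 2) * η * (1 / 2 : ℝ) ^ k ≤ C0 * 8 ^ (p + 2) * η * (2 * ‖x - y‖) :=
    mul_le_mul_of_nonneg_left (by linarith) hM
  have f : 0 ≤ η * ‖x - y‖ := by positivity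
  rw [abs_le] at a b c ⊢
  constructor <;> nlinarith [a.1, a.2, b.1, b.2, c.1, c.2]

end NV

end

section

namespace NV
open Set Filter Topology MeasureTheory Metric Function
open scoped ENNReal

variable {p : ℕ}

namespace RankX

theorem img {h : ℝ → ℝ} {A : Set ℝ} {K : ℝ}
    (H : ∀ s ∈ A, ∀ t ∈ A, |h s - h t| ≤ K * |s - t|) :
    volume (h '' A) ≤ ENNReal.ofReal K * volume A := by
  have h1 : LipschitzOnWith K.toNNReal h A := LipschitzOnWith.of_dist_le' H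
  simpa [hausdorffMeasure_real, ENNReal.ofReal] using h1.hausdorffMeasure_image_le zero_le_one

end RankX

/-- kernel direction of nearby maps of no larger rank -/
theorem rankL (A : W p →L[ℝ] W p) (hA : rk A < p + 2) :
    ∃ (S : W p →L[ℝ] W p) (e : W p), ‖e‖ = 1 ∧ ∀ B : W p →L[ℝ] W p, rk B ≤ rk A →
      ‖S‖ * ‖B - A‖ ≤ 1 / 2 → ∃ w : W p, w + S ((B - A) w) = e ∧ B w = 0 := by
  obtain ⟨g, hg⟩ := (A : W p →ₗ[ℝ] W p).rangeRestrict.exists_rightInverse_of_surjective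
    (LinearMap.range_rangeRestrict _)
  obtain ⟨S, hS⟩ := g.exists_extend
  have hAS : ∀ x, A (S (A x)) = A x := fun x => by
    have h1 := LinearMap.congr_fun hS ⟨A x, x, rfl⟩
    have h2 := congrArg Subtype.val (LinearMap.congr_fun hg ⟨A x, x, rfl⟩)
    exact (congrArg A h1).trans h2
  have hk : ∀ B : W p →L[ℝ] W p,
      rk B + Module.finrank ℝ (LinearMap.ker (B : W p →ₗ[ℝ] W p)) = p + 2 := fun B => by
    simpa [rk] using (B : W p →ₗ[ℝ] W p).finrank_range_add_finrank_ker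
  obtain ⟨e, he, he0⟩ := Submodule.exists_mem_ne_zero_of_ne_bot
    (p := LinearMap.ker (A : W p →ₗ[ℝ] W p)) fun h => by
      have := hk A
      rw [h, finrank_bot] at this
      omega
  refine ⟨LinearMap.toContinuousLinearMap S, ‖e‖⁻¹ • e, norm_smul_inv_norm he0,
    fun B hB hn => ?_⟩
  obtain ⟨M, hM⟩ : ∃ M : W p →ₗ[ℝ] W p, ∀ u, M u = u + S ((B - A) u) :=
    ⟨LinearMap.id + S ∘ₗ (B - A : W p →L[ℝ] W p), fun u => rfl⟩
  have hi : Injective M := by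
    refine (injective_iff_map_eq_zero M).2 fun u hu => ?_
    have h1 : ‖S ((B - A) u)‖ ≤ 1 / 2 * ‖u‖ :=
      ((LinearMap.toContinuousLinearMap S).le_opNorm_of_le ((B - A).le_opNorm u)).trans (by
        rw [← mul_assoc]; exact mul_le_mul_of_nonneg_right hn (norm_nonneg _))
    rw [hM, add_eq_zero_iff_neg_eq] at hu
    rw [← hu, norm_neg] at h1
    exact norm_le_zero_iff.1 (by linarith)
  have hm : (LinearMap.ker (B : W p →ₗ[ℝ] W p)).map M = LinearMap.ker (A : W p →ₗ[ℝ] W p) := by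
    refine Submodule.eq_of_le_of_finrank_le ?_ ?_
    · rintro _ ⟨u, hu, rfl⟩
      have hu0 : B u = 0 := hu
      change A (M u) = 0
      simp [hM, hu0, hAS]
    · rw [← (Submodule.equivMapOfInjective M hi _).finrank_eq]
      have := hk A
      have := hk B
      omega
  obtain ⟨w, hw, e1⟩ : ‖e‖⁻¹ • e ∈ (LinearMap.ker (B : W p →ₗ[ℝ] W p)).map M :=
    hm ▸ Submodule.smul_mem _ _ he
  exact ⟨w, (hM w).symm.trans e1, hw⟩

/-- a Lipschitz function that is ε-Lipschitz on countably many pieces covering almost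
everything, for every ε, is constant -/
theorem lineZ {h : ℝ → ℝ} {τ L : ℝ}
    (hL : ∀ s ∈ Icc 0 τ, ∀ t ∈ Icc 0 τ, |h s - h t| ≤ L * |s - t|)
    (H : ∀ ε : ℝ, 0 < ε → ∃ F : Set (Set ℝ), F.Countable ∧ (∀ T ∈ F, MeasurableSet T) ∧
      (∀ᵐ t ∂(volume : Measure ℝ), t ∈ Icc 0 τ → t ∈ ⋃₀ F) ∧
      ∀ T ∈ F, ∀ s ∈ T ∩ Icc 0 τ, ∀ t ∈ T ∩ Icc 0 τ, |h s - h t| ≤ ε * |s - t|) :
    ∀ t ∈ Icc 0 τ, h t = h 0 := by
  intro t ht
  have hτ : 0 ≤ τ := ht.1.trans ht.2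
  have hc : ContinuousOn h (Icc 0 τ) := (LipschitzOnWith.of_dist_le' hL).continuousOn
  have h1 : ENNReal.ofReal |h t - h 0| ≤ volume (h '' Icc 0 τ) := by
    rw [← Real.volume_interval]
    exact measure_mono ((isPreconnected_Icc.image h hc).ordConnected.uIcc_subset
      ⟨0, ⟨le_rfl, hτ⟩, rfl⟩ ⟨t, ht, rfl⟩)
  have h2 : ∀ ε, 0 < ε → |h t - h 0| ≤ ε * τ := fun ε hε => by
    obtain ⟨F, c, m, ae, lip⟩ := H ε hε
    obtain ⟨T, hT⟩ := (c.insert ∅).exists_eq_range (insert_nonempty _ _)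
    have hT1 : ∀ i, T i = ∅ ∨ T i ∈ F := fun i => (hT ▸ mem_range_self i : T i ∈ insert ∅ F)
    have mT : ∀ i, MeasurableSet (disjointed T i ∩ Icc 0 τ) := fun i =>
      (MeasurableSet.disjointed (fun j => (hT1 j).elim (fun e => e ▸ MeasurableSet.empty)
        (m _)) i).inter measurableSet_Icc
    have z : volume (h '' (Icc 0 τ \ ⋃₀ F)) = 0 := by
      refine le_zero_iff.1 ((RankX.img fun s hs t ht => hL s hs.1 t ht.1).trans_eq ?_)
      rw [measure_mono_null (fun x hx h' => hx.2 (h' hx.1)) ae, mul_zero]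
    have cov : h '' Icc 0 τ ⊆ h '' (Icc 0 τ \ ⋃₀ F) ∪ ⋃ i, h '' (disjointed T i ∩ Icc 0 τ) := by
      rintro _ ⟨x, hx, rfl⟩
      by_cases hF : x ∈ ⋃₀ F
      · obtain ⟨U, hU, hxU⟩ := hF
        obtain ⟨i, rfl⟩ : U ∈ range T := hT ▸ mem_insert_of_mem _ hU
        obtain ⟨j, hj⟩ := mem_iUnion.1 (iUnion_disjointed (f := T) ▸ mem_iUnion.2 ⟨i, hxU⟩)
        exact Or.inr (mem_iUnion.2 ⟨j, x, ⟨hj, hx⟩, rfl⟩)
      · exact Or.inl ⟨x, ⟨hx, hF⟩, rfl⟩
    refine (ENNReal.ofReal_le_ofReal_iff (by positivity)).1 (h1.trans ((measure_mono cov).trans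
      ((measure_union_le _ _).trans ?_)))
    rw [z, zero_add]
    refine (measure_iUnion_le _).trans ((ENNReal.tsum_le_tsum fun i => RankX.img (K := ε)
      fun s hs u hu => ?_).trans ?_)
    · have hs' := disjointed_subset T i hs.1
      rcases hT1 i with e | e
      · exact absurd (e ▸ hs') (notMem_empty s)
      · exact lip _ e s ⟨hs', hs.2⟩ u ⟨disjointed_subset T i hu.1, hu.2⟩
    · rw [ENNReal.tsum_mul_left, ← measure_iUnion (fun i j hij =>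
        (disjoint_disjointed T hij).mono inter_subset_left inter_subset_left) mT,
        ENNReal.ofReal_mul hε.le]
      gcongr
      exact (measure_mono (iUnion_subset fun i => inter_subset_right)).trans_eq (by simp)
  refine sub_eq_zero.1 (abs_nonpos_iff.1 (le_of_forall_pos_le_add fun δ hδ => ?_))
  refine (h2 (δ / (τ + 1)) (by positivity)).trans ?_
  rw [zero_add, div_mul_eq_mul_div, div_le_iff₀ (by positivity)]
  nlinarith

end NV

end

section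

namespace NV
open Set Filter Topology MeasureTheory Metric Function
open scoped ENNReal

variable {p : ℕ}

/-- inverse of a small Lipschitz perturbation of the identity -/
theorem chart (G : W p → W p) (hG : ∀ x y, ‖G x - G y‖ ≤ ‖x - y‖ / 2) :
    ∃ Ψ : W p → W p, (∀ z, Ψ z + G (Ψ z) = z) ∧ (∀ x, Ψ (x + G x) = x) ∧
      (∀ z z', ‖z - z'‖ / 2 ≤ ‖Ψ z - Ψ z'‖) ∧ ∀ z z', ‖Ψ z - Ψ z'‖ ≤ 2 * ‖z - z'‖ := by
  have h1 : ∀ x y, ‖x - y‖ / 2 ≤ ‖(x + G x) - (y + G y)‖ ∧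
      ‖(x + G x) - (y + G y)‖ / 2 ≤ ‖x - y‖ := fun x y => by
    have e : (x + G x) - (y + G y) = (x - y) + (G x - G y) := by abel
    have a := norm_add_le (x - y) (G x - G y)
    have b := norm_sub_le ((x - y) + (G x - G y)) (G x - G y)
    rw [add_sub_cancel_right] at b
    have c := hG x y
    have d := norm_nonneg (x - y)
    rw [e]
    constructor <;> linarith
  have h2 : ∀ z, ∃ x, x + G x = z := fun z => by
    have hc : ContractingWith (1 / 2) (fun x => z - G x) := by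
      refine ⟨by norm_num, LipschitzWith.of_dist_le_mul fun x y => ?_⟩
      rw [dist_sub_left, dist_eq_norm, dist_eq_norm]
      have := hG x y
      push_cast
      linarith
    exact ⟨_, (sub_eq_iff_eq_add.1 hc.fixedPoint_isFixedPt.eq).symm⟩
  choose Ψ hΨ using h2
  refine ⟨Ψ, hΨ, fun x => ?_, fun z z' => ?_, fun z z' => ?_⟩
  · have a := (h1 (Ψ (x + G x)) x).1
    rw [hΨ, sub_self, norm_zero] at a
    exact sub_eq_zero.1 (norm_le_zero_iff.1 (by linarith))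
  · have a := (h1 (Ψ z) (Ψ z')).2
    rwa [hΨ, hΨ] at a
  · have a := (h1 (Ψ z) (Ψ z')).1
    rw [hΨ, hΨ] at a
    linarith

/-- volume of the set of segments whose image meets a ball -/
theorem tube (Ψ : W p → W p) (hΨ : ∀ z z', ‖z - z'‖ / 2 ≤ ‖Ψ z - Ψ z'‖) {e : W p}
    (he : ‖e‖ = 1) {τ : ℝ} (hτ : 0 ≤ τ) (x : W p) {r : ℝ} (hr : 0 < r) :
    volume (sh (fun z y => ∃ t ∈ Icc (0 : ℝ) τ, Ψ (z + t • e) = y) (ball x r)) ≤
      ENNReal.ofReal (12 ^ (p + 2) * (τ + r)) * ENNReal.ofReal (r ^ (p + 1)) := by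
  rcases (sh (fun z y => ∃ t ∈ Icc (0 : ℝ) τ, Ψ (z + t • e) = y) (ball x r)).eq_empty_or_nonempty
    with h | ⟨z0, y0, hy0, t0, -, rfl⟩
  · rw [h, measure_empty]
    exact zero_le
  have hsub : sh (fun z y => ∃ t ∈ Icc (0 : ℝ) τ, Ψ (z + t • e) = y) (ball x r) ⊆
      ⋃ j ∈ Finset.range (⌊τ / r⌋₊ + 1), ball (z0 + t0 • e - ((j : ℝ) * r) • e) (5 * r) := by
    rintro z ⟨y, hy, t, ⟨ht0, ht⟩, rfl⟩
    refine mem_iUnion₂.2 ⟨⌊t / r⌋₊, Finset.mem_range.2 (Nat.lt_succ_of_le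
      (Nat.floor_le_floor (div_le_div_of_nonneg_right ht hr.le))), ?_⟩
    have a := hΨ (z + t • e) (z0 + t0 • e)
    have b := dist_triangle_right (Ψ (z + t • e)) (Ψ (z0 + t0 • e)) x
    rw [dist_eq_norm] at b
    have c1 := Nat.floor_le (div_nonneg ht0 hr.le)
    have c2 := Nat.lt_floor_add_one (t / r)
    rw [le_div_iff₀ hr] at c1
    rw [div_lt_iff₀ hr] at c2
    have d : z - (z0 + t0 • e - ((⌊t / r⌋₊ : ℝ) * r) • e) =
        (z + t • e - (z0 + t0 • e)) - (t - (⌊t / r⌋₊ : ℝ) * r) • e := by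
      rw [sub_smul]; abel
    have f := norm_sub_le (z + t • e - (z0 + t0 • e)) ((t - (⌊t / r⌋₊ : ℝ) * r) • e)
    rw [norm_smul, he, mul_one, Real.norm_of_nonneg (sub_nonneg.2 c1)] at f
    rw [mem_ball] at hy hy0
    rw [mem_ball, dist_eq_norm, d]
    linarith
  refine (measure_mono hsub).trans ((measure_biUnion_finset_le _ _).trans ?_)
  rw [Finset.sum_congr rfl fun j _ => vol_ball _ (by positivity), Finset.sum_const,
    Finset.card_range, nsmul_eq_mul, ← ENNReal.ofReal_natCast,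
    ← ENNReal.ofReal_mul (Nat.cast_nonneg _), ← ENNReal.ofReal_mul (by positivity)]
  refine ENNReal.ofReal_le_ofReal ?_
  have c1 := Nat.floor_le (div_nonneg hτ hr.le)
  rw [le_div_iff₀ hr] at c1
  have c2 : ((⌊τ / r⌋₊ + 1 : ℕ) : ℝ) * r ≤ τ + r := by push_cast; linarith
  have c3 : (10 : ℝ) ^ (p + 2) ≤ 12 ^ (p + 2) := pow_le_pow_left₀ (by norm_num) (by norm_num) _
  calc ((⌊τ / r⌋₊ + 1 : ℕ) : ℝ) * (2 * (5 * r)) ^ (p + 2)
      = 10 ^ (p + 2) * (((⌊τ / r⌋₊ + 1 : ℕ) : ℝ) * r) * r ^ (p + 1) := by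
        rw [show 2 * (5 * r) = 10 * r by ring, mul_pow]; ring
    _ ≤ 12 ^ (p + 2) * (τ + r) * r ^ (p + 1) := by gcongr

/-- almost every curve meets a null set in a null set -/
theorem null_line (Ψ : W p → W p) (hΨ : ∀ z z', ‖z - z'‖ / 2 ≤ ‖Ψ z - Ψ z'‖) (e : W p)
    {P : W p → Prop} (hP : ∀ᵐ x ∂(volume : Measure (W p)), P x) :
    ∀ᵐ z ∂(volume : Measure (W p)), ∀ᵐ t ∂(volume : Measure ℝ), P (Ψ (z + t • e)) := by
  have hA : AntilipschitzWith 2 Ψ := AntilipschitzWith.of_le_mul_dist fun z z' => by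
    rw [dist_eq_norm, dist_eq_norm]
    have := hΨ z z'
    push_cast
    linarith
  have h0 : volume (Ψ ⁻¹' {x | ¬ P x}) = 0 := by
    have h := hA.hausdorffMeasure_preimage_le (d := Fintype.card (Fin (p + 2)))
      (Nat.cast_nonneg _) {x | ¬ P x}
    rw [hausdorffMeasure_pi_real, ae_iff.1 hP, mul_zero] at h
    exact le_zero_iff.1 h
  obtain ⟨N, hN, hNm, hN0⟩ := exists_measurable_superset_of_null h0
  have h1 := (ae_ae_add_linearMap_mem_iff (LinearMap.toSpanSingleton ℝ (W p) e)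
    (volume : Measure ℝ) (volume : Measure (W p)) hNm.compl).2 (compl_mem_ae_iff.2 hN0)
  filter_upwards [h1] with z hz
  filter_upwards [hz] with t ht
  by_contra h
  exact ht (hN h)

end NV

end

section

namespace NV
open Set Filter Topology MeasureTheory Metric Function
open scoped ENNReal

variable {p : ℕ}

namespace CoverX

theorem row {O : Set (W p)} {D : W p → Mx p}
    (hD : ∀ a i, IntegrableOn (fun x => D x a i) O volume) (B : Mx p) {x : W p} {η ρ : ℝ}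
    (hO : ball x ρ ⊆ O) (hx : x ∈ Gd (nu O D B) η ρ) (a : Fin (p + 2)) (r : ℝ) (h0 : 0 < r)
    (h1 : r ≤ ρ) :
    ∑ i, ∫⁻ z in ball x r, ‖D z a i - B a i‖ₑ ≤ ENNReal.ofReal (η * r ^ (p + 2)) := by
  refine le_trans ?_ (hx r h0 h1)
  rw [nu_apply hD B ((ball_subset_ball h1).trans hO)]
  exact Finset.single_le_sum (f := fun a => ∑ i, ∫⁻ z in ball x r, ‖D z a i - B a i‖ₑ)
    (fun _ _ => zero_le) (Finset.mem_univ a)

theorem approx (R : Set (Mx p)) : ∃ T : Set (Mx p), T ⊆ R ∧ T.Countable ∧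
    ∀ M ∈ R, ∀ δ : ℝ, 0 < δ → ∃ B ∈ T, dd B M < δ := by
  obtain ⟨T, h1, h2, h3⟩ := (TopologicalSpace.IsSeparable.of_separableSpace
    (α := Fin (p + 2) → Fin (p + 2) → ℝ) R).exists_countable_dense_subset
  refine ⟨T, h1, h2, fun M hM δ hδ => ?_⟩
  have hc : Continuous fun B : Fin (p + 2) → Fin (p + 2) → ℝ => ∑ a, ∑ i, |B a i - M a i| := by
    fun_prop
  obtain ⟨B, hB, hT⟩ := mem_closure_iff.1 (h3 hM) _ (isOpen_lt hc (continuous_const (y := δ)))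
    (by simpa using hδ)
  exact ⟨B, hT, hB⟩

theorem near {O : Set (W p)} {D : W p → Mx p}
    (hD : ∀ a i, IntegrableOn (fun x => D x a i) O volume) {A M : Mx p} {x : W p} {lam r : ℝ}
    (hlam : 0 < lam) (hr : 0 < r) (hO : ball x r ⊆ O) (h1 : x ∈ Gd (nu O D M) lam r)
    (h2 : x ∈ Gd (nu O D A) lam r) : dd M A ≤ lam := by
  have h3 := (nu_tri' hD M A hr hO).trans (add_le_add (h1 r hr le_rfl) (h2 r hr le_rfl))
  rw [← ENNReal.ofReal_add (by positivity) (by positivity),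
    ENNReal.ofReal_le_ofReal_iff (by positivity), mul_pow] at h3
  have h4 : (2 : ℝ) ≤ 2 ^ (p + 2) := le_self_pow₀ (by norm_num) (by omega)
  have h5 : 0 < r ^ (p + 2) := by positivity
  have h6 : dd M A * (2 * r ^ (p + 2)) ≤ dd M A * (2 ^ (p + 2) * r ^ (p + 2)) :=
    mul_le_mul_of_nonneg_left (mul_le_mul_of_nonneg_right h4 h5.le) (dd_nonneg _ _)
  refine le_of_mul_le_mul_right ?_ (show 0 < 2 * r ^ (p + 2) by positivity)
  linarith

theorem shift {O : Set (W p)} {D : W p → Mx p}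
    (hD : ∀ a i, IntegrableOn (fun x => D x a i) O volume) {B M : Mx p} {x : W p} {η ρ : ℝ}
    (hη : 0 < η) (h1 : x ∈ Gd (nu O D M) (η / 2) ρ) (h2 : dd B M < η / 2 / 2 ^ (p + 2)) :
    x ∈ Gd (nu O D B) η ρ := by
  intro r h0 hr
  refine (nu_tri hD B M x h0).trans ((add_le_add (h1 r h0 hr) le_rfl).trans ?_)
  have h3 := dd_nonneg B M
  rw [← ENNReal.ofReal_add (by positivity) (by positivity)]
  refine ENNReal.ofReal_le_ofReal ?_
  rw [lt_div_iff₀ (by positivity)] at h2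
  have h5 : 0 < r ^ (p + 2) := by positivity
  have h6 := mul_le_mul_of_nonneg_right h2.le h5.le
  rw [mul_pow]
  linarith

end CoverX

open CoverX

/-- vector form of `lipL` -/
theorem lipV (p : ℕ) : ∃ C : ℝ, 0 < C ∧ ∀ (O : Set (W p)) (f : W p → W p) (D : W p → Mx p)
    (B : Mx p) (x y : W p) (η ρ : ℝ), D1 O f D → Bornology.IsBounded O → 0 ≤ η → 0 < ρ → ρ ≤ 1 →
    ball x ρ ⊆ O → ball y ρ ⊆ O → ‖x - y‖ ≤ ρ / 8 → x ∈ Gd (nu O D B) η ρ →
    y ∈ Gd (nu O D B) η ρ → ‖f x - f y - toL B (x - y)‖ ≤ C * η * ‖x - y‖ := by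
  obtain ⟨C, hC, h⟩ := lipL p
  refine ⟨C, hC, fun O f D B x y η ρ hd hv hη hρ hρ1 hx hy hxy gx gy => ?_⟩
  refine (pi_norm_le_iff_of_nonneg (by positivity)).2 fun a => ?_
  have hfin : volume O < ⊤ := hv.measure_lt_top
  let l : W p →L[ℝ] ℝ := (ContinuousLinearMap.proj a).comp (toL B)
  have hl : ∀ i, l (Pi.single i 1) = B a i := fun i => toL_single B a i
  have il : IntegrableOn (fun z => l z + 0) O volume :=
    (((l.continuous.add continuous_const).continuousOn).integrableOn_compact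
      hv.isCompact_closure).mono_set subset_closure
  have key := h O (fun z => f z a - (l z + 0)) (fun i z => D z a i - B a i) x y η ρ hd.op
    (((continuous_apply a).comp_continuousOn hd.ct).sub
      (l.continuous.add continuous_const).continuousOn)
    ((hd.i0 a).sub il) (fun i => (hd.i1 a i).sub (integrableOn_const hfin.ne))
    (fun i => by
      have := weak_sub hd.op.measurableSet (hd.i0 a) (hd.i1 a i) (hd.wk a i) l 0
      rwa [hl] at this) hη hρ hρ1 hx hy hxy (row hd.i1 B hx gx a) (row hd.i1 B hy gy a)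
  refine le_trans (le_of_eq ?_) key
  rw [Real.norm_eq_abs]
  congr 1
  have e : ∀ z, l z = toL B z a := fun _ => rfl
  simp only [e, map_sub, Pi.sub_apply]
  ring

/-- almost all good points lie in countably many closed pieces on which f is η-close to a
linear map of rank at most r -/
theorem cover' {O : Set (W p)} {f : W p → W p} {D : W p → Mx p} (h : D1 O f D)
    (hv : Bornology.IsBounded O) (A : Mx p) {lam : ℝ} (hlam : 0 < lam) (r : ℕ)
    {η : ℝ} (hη : 0 < η) :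
    ∃ F : Set (Set (W p)), F.Countable ∧ (∀ S ∈ F, IsClosed S ∧ ∃ B : Mx p, rk (toL B) ≤ r ∧
      dd B A ≤ lam ∧ ∀ x ∈ S, ∀ y ∈ S, ‖f x - f y - toL B (x - y)‖ ≤ η * ‖x - y‖) ∧
      ∀ᵐ x ∂(volume : Measure (W p)), x ∈ O → rk (toL (D x)) ≤ r →
        (∃ ρ : ℝ, 0 < ρ ∧ x ∈ Gd (nu O D A) lam ρ) → x ∈ ⋃₀ F := by
  obtain ⟨C, hC, hL⟩ := lipV p
  obtain ⟨T, hT1, hT2, hT3⟩ := approx {B : Mx p | rk (toL B) ≤ r ∧ dd B A ≤ lam}
  obtain ⟨Z, hZ1, hZ2⟩ := TopologicalSpace.exists_countable_dense (W p)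
  have hη1 : 0 < η / C := by positivity
  refine ⟨(fun q : Mx p × ℕ × W p => Gd (nu O D q.1) (η / C) (1 / ((q.2.1 : ℝ) + 1)) ∩
      closedBall q.2.2 (1 / ((q.2.1 : ℝ) + 1) / 16)) ''
      ((T ×ˢ univ ×ˢ Z) ∩ {q | ball q.2.2 (2 * (1 / ((q.2.1 : ℝ) + 1))) ⊆ O}),
    ((hT2.prod (countable_univ.prod hZ1)).mono inter_subset_left).image _, ?_, ?_⟩
  · rintro S ⟨⟨B, j, c⟩, ⟨⟨hB, -⟩, hc⟩, rfl⟩
    refine ⟨(isClosed_Gd _ _ _).inter isClosed_closedBall, B, (hT1 hB).1, (hT1 hB).2, ?_⟩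
    have h0 : (0 : ℝ) < 1 / ((j : ℝ) + 1) := Nat.one_div_pos_of_nat
    have h1 : 1 / ((j : ℝ) + 1) ≤ 1 := by
      rw [div_le_one (by positivity)]
      linarith [Nat.cast_nonneg (α := ℝ) j]
    simp only [mem_ofPred_eq] at hc ⊢
    generalize 1 / ((j : ℝ) + 1) = ρ at *
    have hb : ∀ x ∈ closedBall c (ρ / 16), ball x ρ ⊆ O := fun x hx =>
      (ball_subset_ball' (by linarith [mem_closedBall.1 hx])).trans hc
    intro x hx y hy
    have hxy : ‖x - y‖ ≤ ρ / 8 := by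
      rw [← dist_eq_norm]
      linarith [dist_triangle_right x y c, mem_closedBall.1 hx.2, mem_closedBall.1 hy.2]
    have := hL O f D B x y (η / C) ρ h hv hη1.le h0 h1 (hb x hx.2) (hb y hy.2) hxy hx.1 hy.1
    rwa [mul_div_cancel₀ _ hC.ne'] at this
  · filter_upwards [leb h.op h.i1] with x h2 hx h1
    rintro ⟨ρ0, hρ0, g0⟩
    obtain ⟨ρ1, hρ1, g1⟩ := h2 hx lam hlam
    obtain ⟨ρ2, hρ2, g2⟩ := h2 hx (η / C / 2) (by positivity)
    obtain ⟨ε, hε, hb⟩ := Metric.isOpen_iff.1 h.op x hx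
    have hm : 0 < min (min ρ0 ρ1) ε := lt_min (lt_min hρ0 hρ1) hε
    have hA : dd (D x) A ≤ lam := near h.i1 hlam hm ((ball_subset_ball (min_le_right _ _)).trans hb)
      (Gd_mono le_rfl ((min_le_left _ _).trans (min_le_right _ _)) g1)
      (Gd_mono le_rfl ((min_le_left _ _).trans (min_le_left _ _)) g0)
    obtain ⟨B, hB, hBd⟩ := hT3 (D x) ⟨h1, hA⟩ (η / C / 2 / 2 ^ (p + 2)) (by positivity)
    obtain ⟨j, hj⟩ := exists_nat_one_div_lt (show 0 < min ρ2 (ε / 3) from lt_min hρ2 (by positivity))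
    have h0 : (0 : ℝ) < 1 / ((j : ℝ) + 1) := Nat.one_div_pos_of_nat
    obtain ⟨c, hc, hcZ⟩ := hZ2.inter_open_nonempty (ball x (1 / ((j : ℝ) + 1) / 16)) isOpen_ball
      ⟨x, mem_ball_self (by positivity)⟩
    have j1 := hj.le.trans (min_le_left _ _)
    have j2 := hj.le.trans (min_le_right _ _)
    refine ⟨_, ⟨(B, j, c), ⟨⟨hB, mem_univ _, hcZ⟩, ?_⟩, rfl⟩,
      Gd_mono le_rfl j1 (shift h.i1 hη1 g2 hBd), mem_closedBall'.2 (mem_ball.1 hc).le⟩
    refine (ball_subset_ball' ?_).trans hb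
    have := mem_ball.1 hc
    linarith

theorem cover {O : Set (W p)} {f : W p → W p} {D : W p → Mx p} (h : D1 O f D)
    (hv : Bornology.IsBounded O) (A : Mx p) {lam : ℝ} (hlam : 0 < lam) {r : ℕ}
    (hr : ∀ᵐ x ∂(volume : Measure (W p)), x ∈ O → rk (toL (D x)) ≤ r) {η : ℝ} (hη : 0 < η) :
    ∃ F : Set (Set (W p)), F.Countable ∧ (∀ S ∈ F, IsClosed S ∧ ∃ B : Mx p, rk (toL B) ≤ r ∧
      dd B A ≤ lam ∧ ∀ x ∈ S, ∀ y ∈ S, ‖f x - f y - toL B (x - y)‖ ≤ η * ‖x - y‖) ∧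
      ∀ᵐ x ∂(volume : Measure (W p)), x ∈ O → (∃ ρ : ℝ, 0 < ρ ∧ x ∈ Gd (nu O D A) lam ρ) →
        x ∈ ⋃₀ F := by
  obtain ⟨F, h1, h2, h3⟩ := cover' h hv A hlam r hη
  refine ⟨F, h1, h2, ?_⟩
  filter_upwards [hr, h3] with x a b hx using b hx (a hx)

end NV

end

section

namespace NV
open Set Filter Topology MeasureTheory Metric Function
open scoped ENNReal

variable {p : ℕ}

/-- the shadow of the bad set near a Lebesgue point is small -/
theorem bad_small {O : Set (W p)} (hO : IsOpen O) (hb : Bornology.IsBounded O) {D : W p → Mx p}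
    (hD : ∀ a i, IntegrableOn (fun x => D x a i) O volume)
    {w : Fin (p + 2) → Fin (p + 2) → Fin (p + 2) → W p → ℝ}
    (hw : ∀ a i j, IntegrableOn (w a i j) O volume)
    (hw' : ∀ a i j, SJ.WeakPD O j (fun x => D x a i) (w a i j)) (A : Mx p) {x0 : W p}
    (hx0 : x0 ∈ O) (h1 : ∀ η : ℝ, 0 < η → ∃ ρ : ℝ, 0 < ρ ∧ x0 ∈ Gd (nu O D A) η ρ)
    {K ρ1 : ℝ} (hK : 0 < K) (hρ1 : 0 < ρ1) (h2 : ∀ a i j, ∀ r : ℝ, 0 < r → r ≤ ρ1 →
      ∫⁻ y in ball x0 r, ‖w a i j y‖ₑ ≤ ENNReal.ofReal (K * r ^ (p + 2)))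
    {lam : ℝ} (hlam : 0 < lam) :
    ∃ K' ρ0 : ℝ, 0 < K' ∧ 0 < ρ0 ∧ ∀ ρ : ℝ, 0 < ρ → ρ ≤ ρ0 →
      ∀ (T : W p → W p → Prop) (κ : ℝ≥0∞), (∀ (x : W p) (r : ℝ), 0 < r → r ≤ 10 * ρ →
        volume (sh T (ball x r)) ≤ κ * ENNReal.ofReal (r ^ (p + 1))) →
      volume (sh T (ball x0 ρ \ Gd (nu O D A) lam ρ)) ≤ κ * ENNReal.ofReal (K' * ρ ^ (p + 2)) := by
  obtain ⟨C, hC, hbox⟩ := boxW p
  obtain ⟨n, hn⟩ : ∃ n : ℝ, n = (p : ℝ) + 2 := ⟨_, rfl⟩
  have n0 : 0 < n := by rw [hn]; positivity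
  have hsum : ∀ c : ℝ, ∑ _j : Fin (p + 2), ENNReal.ofReal c = ENNReal.ofReal (n * c) := by
    intro c
    rw [Finset.sum_const, Finset.card_univ, Fintype.card_fin, nsmul_eq_mul,
      ENNReal.ofReal_mul n0.le, hn]
    congr 1
    rw [← ENNReal.ofReal_natCast]
    push_cast
    rfl
  obtain ⟨l, hl⟩ : ∃ l : ℝ, l = lam / (n * n * C) := ⟨_, rfl⟩
  have l0 : 0 < l := by rw [hl]; positivity
  obtain ⟨ρ2, hρ2, hG⟩ := h1 (l / (2 * 4 ^ (p + 2))) (by positivity)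
  obtain ⟨ε, hε, hεO⟩ := Metric.isOpen_iff.1 hO x0 hx0
  have fin : IsFiniteMeasure (volume.restrict O) := isFiniteMeasure_restrict.2 hb.measure_lt_top.ne
  refine ⟨n * n * C * (n * K * 4 ^ (p + 2) / l), min (min ρ1 ρ2) ε / 4, by positivity,
    by positivity, fun ρ hρ hρ0 T κ hT => ?_⟩
  have a1 : 4 * ρ ≤ ρ1 := by
    linarith [min_le_left (min ρ1 ρ2) ε, min_le_left ρ1 ρ2]
  have a2 : 4 * ρ ≤ ρ2 := by
    linarith [min_le_left (min ρ1 ρ2) ε, min_le_right ρ1 ρ2]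
  have a3 : ball x0 (4 * ρ) ⊆ O :=
    (ball_subset_ball (by linarith [min_le_right (min ρ1 ρ2) ε])).trans hεO
  obtain ⟨E, hE⟩ : ∃ E : Fin (p + 2) → Fin (p + 2) → Set (W p), ∀ a i, E a i =
      {x | x ∈ ball x0 ρ ∧ ∃ s : ℝ, 0 < s ∧ s ≤ ρ ∧
        ENNReal.ofReal (C * l * s ^ (p + 2)) < ∫⁻ y in ball x s, ‖D y a i - A a i‖ₑ} :=
    ⟨_, fun _ _ => rfl⟩
  have b1 : ∀ a i, volume (sh T (E a i)) ≤
      κ * ENNReal.ofReal (C * (n * K * 4 ^ (p + 2) / l * ρ ^ (p + 2))) := by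
    intro a i
    rw [hE]
    refine hbox T κ O (fun y => D y a i - A a i) (w a i) x0 ρ l _ hO.measurableSet
      ((hD a i).sub (integrable_const _)) (hw a i) (fun j => ?_) hρ l0 (by positivity) a3 hT ?_ ?_
    · have := weak_sub hO.measurableSet (hD a i) (hw a i j) (hw' a i j) 0 (A a i)
      simpa using this
    · have e1 := hG (4 * ρ) (by positivity) a2
      rw [nu_apply hD A a3] at e1
      refine le_trans ?_ (e1.trans (le_of_eq ?_))
      · refine le_trans ?_ (Finset.single_le_sum (f := fun a => ∑ i,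
          ∫⁻ y in ball x0 (4 * ρ), ‖D y a i - A a i‖ₑ) (fun _ _ => zero_le) (Finset.mem_univ a))
        exact Finset.single_le_sum (f := fun i => ∫⁻ y in ball x0 (4 * ρ), ‖D y a i - A a i‖ₑ)
          (fun _ _ => zero_le) (Finset.mem_univ i)
      · congr 1
        rw [mul_pow]
        field_simp
    · refine (Finset.sum_le_sum fun j _ => h2 a i j (4 * ρ) (by positivity) a1).trans
        (le_of_eq ?_)
      rw [hsum]
      congr 1
      rw [mul_pow]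
      field_simp
  have b2 : ball x0 ρ \ Gd (nu O D A) lam ρ ⊆ ⋃ a, ⋃ i, E a i := by
    rintro x ⟨hx, hx'⟩
    by_contra hcon
    refine hx' fun r hr hrρ => ?_
    have hsub : ball x r ⊆ O := (ball_subset_ball' (by linarith [mem_ball.1 hx])).trans a3
    rw [nu_apply hD A hsub]
    have e2 : ∀ a i, ∫⁻ y in ball x r, ‖D y a i - A a i‖ₑ ≤
        ENNReal.ofReal (C * l * r ^ (p + 2)) := fun a i => by
      by_contra hlt
      refine hcon (mem_iUnion₂.2 ⟨a, i, ?_⟩)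
      rw [hE]
      exact ⟨hx, r, hr, hrρ, not_le.1 hlt⟩
    refine (Finset.sum_le_sum fun a _ => Finset.sum_le_sum fun i _ => e2 a i).trans (le_of_eq ?_)
    rw [hsum, hsum]
    congr 1
    rw [hl]
    field_simp
  refine (measure_mono (sh_mono T b2)).trans ?_
  rw [sh_iUnion]
  refine (measure_iUnion_fintype_le _ _).trans ?_
  refine (Finset.sum_le_sum (g := fun _ => ∑ _i : Fin (p + 2), κ * ENNReal.ofReal
    (C * (n * K * 4 ^ (p + 2) / l * ρ ^ (p + 2)))) fun a _ => ?_).trans (le_of_eq ?_)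
  · rw [sh_iUnion]
    exact (measure_iUnion_fintype_le _ _).trans (Finset.sum_le_sum fun i _ => b1 a i)
  · simp only [← Finset.mul_sum]
    rw [hsum, hsum]
    congr 2
    ring

end NV

end

section

namespace NV
open Set Filter Topology MeasureTheory Metric Function
open scoped ENNReal

variable {p : ℕ}

theorem key {A B S : W p →L[ℝ] W p} {e w d F : W p} {θ η : ℝ}
    (h1 : w + S ((B - A) w) = e) (h2 : B w = 0) (h3 : ‖S‖ * ‖B - A‖ ≤ 1 / 2)
    (h4 : d + S (F - A d) = θ • e) (h5 : ‖F - B d‖ ≤ η * ‖d‖) :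
    ‖F‖ ≤ (2 * ‖B‖ * ‖S‖ + 1) * (η * ‖d‖) := by
  have e1 : d - θ • w = -S (F - B d) - S ((B - A) (d - θ • w)) := by
    rw [← h1] at h4
    have e2 : S (F - A d) = S (F - B d) + S ((B - A) d) := by
      rw [← map_add]
      congr 1
      simp
    rw [e2, smul_add] at h4
    rw [map_sub (B - A), map_sub S ((B - A) d), map_smul, map_smul]
    linear_combination (exp := 1) h4
  have e3 : ‖S ((B - A) (d - θ • w))‖ ≤ 1 / 2 * ‖d - θ • w‖ :=
    calc _ ≤ ‖S‖ * (‖B - A‖ * ‖d - θ • w‖) :=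
          (S.le_opNorm _).trans (mul_le_mul_of_nonneg_left ((B - A).le_opNorm _) (norm_nonneg _))
      _ = ‖S‖ * ‖B - A‖ * ‖d - θ • w‖ := by ring
      _ ≤ _ := mul_le_mul_of_nonneg_right h3 (norm_nonneg _)
  have e4 : ‖S (F - B d)‖ ≤ ‖S‖ * (η * ‖d‖) :=
    (S.le_opNorm _).trans (mul_le_mul_of_nonneg_left h5 (norm_nonneg _))
  have e5 : ‖d - θ • w‖ ≤ 2 * (‖S‖ * (η * ‖d‖)) := by
    have := norm_sub_le (-S (F - B d)) (S ((B - A) (d - θ • w)))
    rw [← e1, norm_neg] at this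
    linarith
  have e6 : F = (F - B d) + B (d - θ • w) := by
    rw [map_sub, map_smul, h2, smul_zero]
    abel
  have e7 : ‖B (d - θ • w)‖ ≤ ‖B‖ * (2 * (‖S‖ * (η * ‖d‖))) :=
    (B.le_opNorm _).trans (mul_le_mul_of_nonneg_left e5 (norm_nonneg _))
  calc ‖F‖ = ‖(F - B d) + B (d - θ • w)‖ := by rw [← e6]
    _ ≤ η * ‖d‖ + ‖B‖ * (2 * (‖S‖ * (η * ‖d‖))) := (norm_add_le _ _).trans (add_le_add h5 e7)
    _ = _ := by ring

/-- f is constant on a bi-Lipschitz arc inside U -/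
def Arc {n : ℕ} (f : (Fin n → ℝ) → Fin n → ℝ) (U : Set (Fin n → ℝ)) : Prop :=
  ∃ (τ : ℝ) (γ : ℝ → Fin n → ℝ), 0 < τ ∧
    (∀ s t, |s - t| / 2 ≤ ‖γ s - γ t‖ ∧ ‖γ s - γ t‖ ≤ 2 * |s - t|) ∧
    ∀ t ∈ Icc 0 τ, γ t ∈ U ∧ f (γ t) = f (γ 0)

theorem arc {O : Set (W p)} {f : W p → W p} {D : W p → Mx p} (h : D1 O f D)
    (hb : Bornology.IsBounded O) {x0 : W p} (hx0 : x0 ∈ O) (hr0 : rk (toL (D x0)) < p + 2)
    (hr : ∀ᵐ x ∂(volume : Measure (W p)), x ∈ O → rk (toL (D x)) ≤ rk (toL (D x0)))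
    (hbad : ∀ lam : ℝ, 0 < lam → ∃ K' ρ0 : ℝ, 0 < K' ∧ 0 < ρ0 ∧ ∀ ρ : ℝ, 0 < ρ → ρ ≤ ρ0 →
      ∀ (T : W p → W p → Prop) (κ : ℝ≥0∞), (∀ (x : W p) (r : ℝ), 0 < r → r ≤ 10 * ρ →
        volume (sh T (ball x r)) ≤ κ * ENNReal.ofReal (r ^ (p + 1))) →
      volume (sh T (ball x0 ρ \ Gd (nu O D (D x0)) lam ρ)) ≤
        κ * ENNReal.ofReal (K' * ρ ^ (p + 2))) : Arc f O := by
  obtain ⟨A, hA⟩ : ∃ A, A = D x0 := ⟨_, rfl⟩
  rw [← hA] at hr0 hr hbad
  obtain ⟨S, e, he, hS⟩ := rankL (toL A) hr0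
  obtain ⟨C, hC, hL⟩ := lipV p
  have S0 := norm_nonneg S
  obtain ⟨lam, hlam⟩ : ∃ lam : ℝ, lam = 1 / (2 * (C + 1) * (‖S‖ + 1)) := ⟨_, rfl⟩
  have l0 : 0 < lam := by rw [hlam]; positivity
  have l1 : lam * (2 * (C + 1) * (‖S‖ + 1)) = 1 := by rw [hlam]; field_simp
  have l2 : ‖S‖ * (C * lam) ≤ 1 / 2 := by nlinarith [mul_pos l0 hC, mul_nonneg l0.le S0]
  have l3 : ‖S‖ * lam ≤ 1 / 2 := by
    nlinarith [mul_pos l0 hC, mul_nonneg (mul_pos l0 hC).le S0]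
  have l4 : lam ≤ 1 := by
    nlinarith [mul_pos l0 hC, mul_nonneg (mul_pos l0 hC).le S0, mul_nonneg l0.le S0]
  obtain ⟨K, ρ0, hK, hρ0, hB⟩ := hbad lam l0
  obtain ⟨ε, hε, hεO⟩ := Metric.isOpen_iff.1 h.op x0 hx0
  obtain ⟨c, hc⟩ : ∃ c : ℝ, c = 12 ^ (p + 2) * 161 * K * 32 ^ (p + 2) := ⟨_, rfl⟩
  have c0 : 0 < c := by rw [hc]; positivity
  obtain ⟨ρ, hρ, r1, r2, r3, r4⟩ : ∃ ρ : ℝ, 0 < ρ ∧ 16 * ρ ≤ ρ0 ∧ 16 * ρ ≤ 1 ∧ 17 * ρ ≤ ε ∧
      c * ρ < 1 := by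
    refine ⟨min (min (ρ0 / 16) (1 / 16)) (min (ε / 17) (1 / (2 * c))), by positivity, ?_, ?_, ?_, ?_⟩
    · linarith [min_le_left (min (ρ0 / 16) (1 / 16)) (min (ε / 17) (1 / (2 * c))),
        min_le_left (ρ0 / 16) (1 / 16)]
    · linarith [min_le_left (min (ρ0 / 16) (1 / 16)) (min (ε / 17) (1 / (2 * c))),
        min_le_right (ρ0 / 16) (1 / 16)]
    · linarith [min_le_right (min (ρ0 / 16) (1 / 16)) (min (ε / 17) (1 / (2 * c))),
        min_le_left (ε / 17) (1 / (2 * c))]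
    · have := (min_le_right (min (ρ0 / 16) (1 / 16)) (min (ε / 17) (1 / (2 * c)))).trans
        (min_le_right (ε / 17) (1 / (2 * c)))
      have h2 := mul_le_mul_of_nonneg_left this c0.le
      have h3 : c * (1 / (2 * c)) = 1 / 2 := by field_simp
      linarith
  obtain ⟨G, hG⟩ : ∃ G, G = ball x0 ρ ∩ Gd (nu O D A) lam (16 * ρ) := ⟨_, rfl⟩
  have sO : ∀ x ∈ ball x0 ρ, ball x (16 * ρ) ⊆ O := fun x hx =>
    (ball_subset_ball' (by linarith [mem_ball.1 hx])).trans hεO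
  have lipG : ∀ x ∈ G, ∀ y ∈ G, ‖f x - f y - toL A (x - y)‖ ≤ C * lam * ‖x - y‖ := by
    intro x hx y hy
    rw [hG] at hx hy
    refine hL O f D A x y lam (16 * ρ) h hb l0.le (by positivity) r2 (sO x hx.1) (sO y hy.1) ?_
      hx.2 hy.2
    rw [← dist_eq_norm]
    linarith [dist_triangle_right x y x0, mem_ball.1 hx.1, mem_ball.1 hy.1]
  have lipu : LipschitzOnWith ⟨C * lam, by positivity⟩ (fun x => f x - toL A x) G := by
    refine LipschitzOnWith.of_dist_le_mul fun x hx y hy => ?_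
    rw [dist_eq_norm, dist_eq_norm]
    refine le_trans (le_of_eq ?_) (lipG x hx y hy)
    rw [map_sub]
    congr 1
    abel
  obtain ⟨g, hg, hgu⟩ := lipu.extend_pi
  obtain ⟨Ψ, p1, p2, p3, p4⟩ := chart (fun x => S (g x)) fun x y => by
    rw [← map_sub]
    have h1 := hg.dist_le_mul x y
    rw [dist_eq_norm, dist_eq_norm] at h1
    have h2 : ‖g x - g y‖ ≤ C * lam * ‖x - y‖ := h1
    calc _ ≤ ‖S‖ * (C * lam * ‖x - y‖) :=
          (S.le_opNorm _).trans (mul_le_mul_of_nonneg_left h2 S0)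
      _ = ‖S‖ * (C * lam) * ‖x - y‖ := by ring
      _ ≤ 1 / 2 * ‖x - y‖ := mul_le_mul_of_nonneg_right l2 (norm_nonneg _)
      _ = _ := by ring
  obtain ⟨T, hT⟩ : ∃ T : W p → W p → Prop,
      T = fun z y => ∃ t ∈ Icc (0 : ℝ) (ρ / 4), Ψ (z + t • e) = y := ⟨_, rfl⟩
  have hsm : volume (sh T (ball x0 (16 * ρ) \ Gd (nu O D A) lam (16 * ρ))) <
      volume (ball (x0 + S (g x0)) (ρ / 4)) := by
    refine (hB (16 * ρ) (by positivity) r1 T (ENNReal.ofReal (12 ^ (p + 2) * (161 * ρ)))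
      fun x r hr hr' => ?_).trans_lt ?_
    · rw [hT]
      refine (tube Ψ p3 he (by positivity) x hr).trans ?_
      gcongr
      linarith
    · rw [vol_ball _ (by positivity), ← ENNReal.ofReal_mul (by positivity),
        ENNReal.ofReal_lt_ofReal_iff (by positivity)]
      have e1 : (16 * ρ) ^ (p + 2) = 32 ^ (p + 2) * (2 * (ρ / 4)) ^ (p + 2) := by
        rw [← mul_pow]
        congr 1
        ring
      have e2 : 0 < (2 * (ρ / 4)) ^ (p + 2) := by positivity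
      calc _ = c * ρ * (2 * (ρ / 4)) ^ (p + 2) := by rw [e1, hc]; ring
        _ < 1 * (2 * (ρ / 4)) ^ (p + 2) := mul_lt_mul_of_pos_right r4 e2
        _ = _ := one_mul _
  choose F hF1 hF2 hF3 using fun m : ℕ =>
    cover h hb A l0 hr (η := 1 / ((m : ℝ) + 1)) Nat.one_div_pos_of_nat
  have hN := null_line Ψ p3 e (ae_all_iff.2 hF3)
  obtain ⟨z, hz1, hz2, hz3⟩ : ∃ z ∈ ball (x0 + S (g x0)) (ρ / 4),
      z ∉ sh T (ball x0 (16 * ρ) \ Gd (nu O D A) lam (16 * ρ)) ∧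
      ∀ᵐ t ∂(volume : Measure ℝ), ∀ m, Ψ (z + t • e) ∈ O →
        (∃ ρ : ℝ, 0 < ρ ∧ Ψ (z + t • e) ∈ Gd (nu O D A) lam ρ) → Ψ (z + t • e) ∈ ⋃₀ F m := by
    by_contra hcon
    refine not_le.2 hsm (measure_mono_ae ?_)
    filter_upwards [hN] with z hz hz1
    by_contra hz2
    exact hcon ⟨z, hz1, hz2, hz⟩
  obtain ⟨γ, hγ⟩ : ∃ γ : ℝ → W p, ∀ t, γ t = Ψ (z + t • e) := ⟨_, fun _ => rfl⟩
  simp only [← hγ] at hz3
  have nn : ∀ s t : ℝ, ‖z + s • e - (z + t • e)‖ = |s - t| := fun s t => by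
    rw [add_sub_add_left_eq_sub, ← sub_smul, norm_smul, he, mul_one, Real.norm_eq_abs]
  have g1 : ∀ s t, |s - t| / 2 ≤ ‖γ s - γ t‖ ∧ ‖γ s - γ t‖ ≤ 2 * |s - t| := fun s t => by
    rw [hγ, hγ, ← nn]
    exact ⟨p3 _ _, p4 _ _⟩
  have gc : Continuous γ := by
    refine (LipschitzWith.of_dist_le_mul (K := 2) fun s t => ?_).continuous
    rw [dist_eq_norm, Real.dist_eq]
    exact (g1 s t).2
  have g2 : ∀ t ∈ Icc (0 : ℝ) (ρ / 4), γ t ∈ G := by
    intro t ht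
    have h1 : γ t ∈ ball x0 ρ := by
      have h2 := p4 (z + t • e) (x0 + S (g x0))
      rw [p2, ← hγ] at h2
      have h3 : ‖z + t • e - (x0 + S (g x0))‖ ≤ ‖z - (x0 + S (g x0))‖ + ‖t • e‖ := by
        rw [add_sub_right_comm]
        exact norm_add_le _ _
      rw [norm_smul, he, mul_one, Real.norm_eq_abs, abs_of_nonneg ht.1] at h3
      have h4 := mem_ball_iff_norm.1 hz1
      rw [mem_ball_iff_norm]
      linarith [ht.2]
    rw [hG]
    refine ⟨h1, ?_⟩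
    by_contra h5
    refine hz2 ⟨γ t, ⟨ball_subset_ball (by linarith) h1, h5⟩, ?_⟩
    rw [hT]
    exact ⟨t, ht, (hγ t).symm⟩
  have g3 : ∀ t ∈ Icc (0 : ℝ) (ρ / 4), γ t ∈ O := fun t ht => by
    have := g2 t ht
    rw [hG] at this
    exact sO _ this.1 (mem_ball_self (by positivity))
  refine ⟨ρ / 4, γ, by positivity, g1, fun t ht => ⟨g3 t ht, funext fun a => ?_⟩⟩
  have co : ∀ s t, |f (γ s) a - f (γ t) a| ≤ ‖f (γ s) - f (γ t)‖ := fun s t =>
    norm_le_pi_norm (f (γ s) - f (γ t)) a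
  refine lineZ (h := fun t => f (γ t) a) (L := (C * lam + ‖toL A‖) * 2)
    (fun s hs t ht => (co s t).trans ?_) (fun η hη => ?_) t ht
  · have h1 := lipG _ (g2 s hs) _ (g2 t ht)
    have h2 := (toL A).le_opNorm (γ s - γ t)
    have h3 := norm_add_le (f (γ s) - f (γ t) - toL A (γ s - γ t)) (toL A (γ s - γ t))
    rw [sub_add_cancel] at h3
    calc _ ≤ (C * lam + ‖toL A‖) * ‖γ s - γ t‖ := by linarith
      _ ≤ (C * lam + ‖toL A‖) * (2 * |s - t|) :=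
          mul_le_mul_of_nonneg_left (g1 s t).2 (by positivity)
      _ = _ := by ring
  · obtain ⟨c1, hc1⟩ : ∃ c1 : ℝ, c1 = 2 * (‖toL A‖ + 1) * ‖S‖ + 1 := ⟨_, rfl⟩
    have c10 : 0 < c1 := by rw [hc1]; positivity
    obtain ⟨m, hm⟩ := exists_nat_one_div_lt (show 0 < η / (2 * c1) by positivity)
    refine ⟨(fun S => γ ⁻¹' S) '' F m, (hF1 m).image _, ?_, ?_, ?_⟩
    · rintro _ ⟨S', hS', rfl⟩
      exact ((hF2 m S' hS').1.preimage gc).measurableSet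
    · filter_upwards [hz3] with t ht ht'
      have h1 := g2 t ht'
      rw [hG] at h1
      obtain ⟨S', hS', h2⟩ := ht m (g3 t ht') ⟨16 * ρ, by positivity, h1.2⟩
      exact ⟨_, ⟨S', hS', rfl⟩, h2⟩
    · rintro _ ⟨S', hS', rfl⟩ s ⟨hs, hs'⟩ t ⟨ht, ht'⟩
      obtain ⟨-, B, hB1, hB2, hB3⟩ := hF2 m S' hS'
      have n1 : ‖toL B - toL A‖ ≤ lam := (norm_toL_sub B A).trans hB2
      have n2 : ‖S‖ * ‖toL B - toL A‖ ≤ 1 / 2 := (mul_le_mul_of_nonneg_left n1 S0).trans l3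
      obtain ⟨w, hw1, hw2⟩ := hS (toL B) hB1 n2
      have n3 : ‖toL B‖ ≤ ‖toL A‖ + 1 := by
        have := norm_add_le (toL B - toL A) (toL A)
        rw [sub_add_cancel] at this
        linarith
      have n4 : γ s - γ t + S (f (γ s) - f (γ t) - toL A (γ s - γ t)) = (s - t) • e := by
        have a1 := p1 (z + s • e)
        have a2 := p1 (z + t • e)
        rw [← hγ] at a1 a2
        rw [← hgu (g2 s hs')] at a1
        rw [← hgu (g2 t ht')] at a2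
        simp only [map_sub] at a1 a2 ⊢
        rw [sub_smul]
        linear_combination (exp := 1) a1 - a2
      have n5 := key hw1 hw2 n2 n4 (hB3 _ hs _ ht)
      have m0 : (0 : ℝ) < 1 / ((m : ℝ) + 1) := Nat.one_div_pos_of_nat
      refine (co s t).trans (n5.trans ?_)
      calc _ ≤ c1 * (η / (2 * c1) * (2 * |s - t|)) := by
            rw [hc1] at hm ⊢
            gcongr
            exact (g1 s t).2
        _ = _ := by field_simp

theorem pick {O : Set (W p)} (hO : IsOpen O) (hne : O.Nonempty) (R : W p → ℕ) {P : W p → Prop}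
    (hP : ∀ᵐ x ∂(volume : Measure (W p)), x ∈ O → P x) (r : ℕ)
    (hr : ∀ᵐ x ∂(volume : Measure (W p)), x ∈ O → R x < r) :
    ∃ x0 ∈ O, P x0 ∧ R x0 < r ∧ ∀ᵐ x ∂(volume : Measure (W p)), x ∈ O → R x ≤ R x0 := by
  induction r with
  | zero =>
    exfalso
    refine (hO.measure_pos volume hne).ne' (measure_mono_null (fun x hx => ?_) (ae_iff.1 hr))
    simpa using hx
  | succ r ih =>
    by_cases h : ∃ x0 ∈ O, P x0 ∧ R x0 = r
    · obtain ⟨x0, h1, h2, h3⟩ := h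
      refine ⟨x0, h1, h2, by omega, ?_⟩
      filter_upwards [hr] with x hx hx'
      have := hx hx'
      omega
    · obtain ⟨x0, h1, h2, h3, h4⟩ := ih (by
        filter_upwards [hr, hP] with x hx hp hx'
        have h5 := hx hx'
        have h6 : R x ≠ r := fun h7 => h ⟨x, hx', hp hx', h7⟩
        omega)
      exact ⟨x0, h1, h2, by omega, h4⟩

theorem Arc.mono {n : ℕ} {f : (Fin n → ℝ) → Fin n → ℝ} {U V : Set (Fin n → ℝ)} (h : Arc f U)
    (hUV : U ⊆ V) : Arc f V := by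
  obtain ⟨τ, γ, h1, h2, h3⟩ := h
  exact ⟨τ, γ, h1, h2, fun t ht => ⟨hUV (h3 t ht).1, (h3 t ht).2⟩⟩

theorem non_vanishing {q : ℝ} (hq : 1 ≤ q) {Ω U : Set (W p)} (hO : IsOpen Ω) {f : W p → W p}
    {Df : W p → Mx p} (hf : ContinuousOn f Ω) (h : SJ.W2q q Ω f Df) (hU : IsOpen U)
    (hne : U.Nonempty) (hUΩ : U ⊆ Ω) (h0 : ∀ᵐ x ∂(volume.restrict U), (Df x).det = 0) :
    Arc f U := by
  obtain ⟨c, hc⟩ := hne
  obtain ⟨R, hR, hRU⟩ := Metric.isOpen_iff.1 hU c hc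
  obtain ⟨O, hOe⟩ : ∃ O, O = ball c R := ⟨_, rfl⟩
  rw [← hOe] at hRU
  have oO : IsOpen O := hOe ▸ isOpen_ball
  have bO : Bornology.IsBounded O := hOe ▸ isBounded_ball
  have nO : O.Nonempty := hOe ▸ nonempty_ball.2 hR
  have h' := W2q_mono hO.measurableSet oO.measurableSet (hRU.trans hUΩ) h
  have : IsFiniteMeasure (volume.restrict O) := isFiniteMeasure_restrict.2 bO.measure_lt_top.ne
  have hq' : 1 ≤ ENNReal.ofReal q := ENNReal.one_le_ofReal.2 hq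
  choose w hw hw' using fun a i j => ((h' a).2 i).2.2 j
  have i1 : ∀ a i, IntegrableOn (fun x => Df x a i) O volume := fun a i =>
    ((h' a).2 i).1.integrable hq'
  have i2 : ∀ a i j, IntegrableOn (w a i j) O volume := fun a i j => (hw a i j).integrable hq'
  have d1 : D1 O f Df := ⟨oO, hf.mono (hRU.trans hUΩ), fun a => (h' a).1.integrable hq', i1,
    fun a i => ((h' a).2 i).2.1⟩
  obtain ⟨g, hg⟩ : ∃ g : W p → ℝ, g = fun y => ∑ t : Fin (p + 2) × Fin (p + 2) × Fin (p + 2),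
      |w t.1 t.2.1 t.2.2 y| := ⟨_, rfl⟩
  have g1 : IntegrableOn g O volume := hg ▸ integrable_finsetSum _ fun t _ => (i2 _ _ _).abs
  have g2 : ∀ a i j y, ‖w a i j y‖ₑ ≤ ‖g y‖ₑ := fun a i j y => by
    rw [enorm_le_iff_norm_le, Real.norm_eq_abs, Real.norm_eq_abs]
    refine le_trans ?_ (le_abs_self _)
    rw [hg]
    exact Finset.single_le_sum (f := fun t : Fin (p + 2) × Fin (p + 2) × Fin (p + 2) =>
      |w t.1 t.2.1 t.2.2 y|) (fun _ _ => abs_nonneg _) (Finset.mem_univ (a, i, j))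
  have hr : ∀ᵐ x ∂(volume : Measure (W p)), x ∈ O → rk (toL (Df x)) < p + 2 := by
    filter_upwards [(ae_restrict_iff' hU.measurableSet).1 h0] with x hx hx'
    refine lt_of_le_of_ne (rk_le _) fun e => ?_
    exact (rk_eq_iff _).1 e ((det_toL _).trans (hx (hRU hx')))
  obtain ⟨x0, hx0, ⟨h1, K, ρ1, hK, hρ1, h2⟩, h3, h4⟩ := pick oO nO (fun x => rk (toL (Df x)))
    (P := fun x => (∀ η : ℝ, 0 < η → ∃ ρ : ℝ, 0 < ρ ∧ x ∈ Gd (nu O Df (Df x)) η ρ) ∧
      ∃ K ρ : ℝ, 0 < K ∧ 0 < ρ ∧ ∀ r : ℝ, 0 < r → r ≤ ρ →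
        ∫⁻ y in ball x r, ‖g y‖ₑ ≤ ENNReal.ofReal (K * r ^ (p + 2)))
    (by filter_upwards [leb oO i1, dens oO g1] with x a b hx using ⟨a hx, b hx⟩) _ hr
  exact (arc d1 bO hx0 h3 h4 fun lam hlam => bad_small oO bO i1 i2 hw' _ hx0 h1 hK hρ1
    (fun a i j r hr hr' => (lintegral_mono fun y => g2 a i j y).trans (h2 r hr hr')) hlam).mono hRU

end NV

end
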