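import Mathlib
import Pool.Agent.MP_edaf86_an.NvB

section

namespace NV
open Set Filter Topology MeasureTheory Metric Function
open scoped ENNReal

variable {p : ℕ}

/-- codimension one content bound, tested on shadows -/
def Ct (E : Set (W p)) (R m : ℝ) : Prop :=
  ∀ (T : W p → W p → Prop) (κ : ℝ≥0∞), (∀ (x : W p) (r : ℝ), 0 < r → r ≤ R →
    volume (sh T (ball x r)) ≤ κ * ENNReal.ofReal (r ^ (p + 1))) →
    volume (sh T E) ≤ κ * ENNReal.ofReal m

/-- points of small codimension one density up to scale R -/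
def G1 (μ : Measure (W p)) (δ R : ℝ) : Set (W p) :=
  {x | ∀ r : ℝ, 0 < r → r ≤ R → μ (ball x r) ≤ ENNReal.ofReal (δ * r ^ (p + 1))}

/-- second order data on O -/
structure D2 (O : Set (W p)) (D : W p → Mx p) (μ : Measure (W p))
    (w : Fin (p + 2) → Fin (p + 2) → Fin (p + 2) → W p → ℝ) : Prop where
  i2 : ∀ a i j, IntegrableOn (w a i j) O volume
  wk : ∀ a i j, SJ.WeakPD O j (fun x => D x a i) (w a i j)
  le : ∀ a i j (x : W p) (r : ℝ), ball x r ⊆ O → ∫⁻ y in ball x r, ‖w a i j y‖ₑ ≤ μ (ball x r)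

/-- a chart straightening all coordinates of f except the i-th on the good set G -/
structure Ch (O G : Set (W p)) (f : W p → W p) (A S : W p →L[ℝ] W p) (e : W p)
    (i : Fin (p + 2)) (Ψ : W p → W p) : Prop where
  ct : ContinuousOn f O
  inj : InjOn f O
  sub : G ⊆ O
  ne : ‖e‖ = 1
  lo : ∀ z z', ‖z - z'‖ / 2 ≤ ‖Ψ z - Ψ z'‖
  up : ∀ z z', ‖Ψ z - Ψ z'‖ ≤ 2 * ‖z - z'‖
  eq : ∀ z, Ψ z ∈ G → Ψ z + S (f (Ψ z) - A (Ψ z)) = z
  hp : ∀ (d F : W p) (θ : ℝ), d + S (F - A d) = θ • e → ∀ j, j ≠ i → F j = 0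

/-- b is the dominant direction of φ along e in the ball of radius s around y -/
def Dom (φ : W p → ℝ) (e : W p) (b : ℝ) (y : W p) (s θ : ℝ) : Prop :=
  volume {z | z ∈ ball y s ∧ b * (φ (z + s • e) - φ z) ≤ 0} ≤ ENNReal.ofReal (θ * s ^ (p + 2))

/-- constants -/
noncomputable def th (p : ℕ) : ℝ := (1 / 2) ^ (p + 4)

noncomputable def ep (p : ℕ) : ℝ := th p ^ 2 / (8 * 48 ^ (p + 2) * 642)

noncomputable def e0 (p : ℕ) : ℝ := 1 / (4 * 48 ^ (p + 2) * 4001)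

/-- local sign b at scale ρ, off a set of small content, with robust non-vanishing -/
def Loc (D : W p → Mx p) (x0 : W p) (ρ b : ℝ) : Prop :=
  (b = 1 ∨ b = -1) ∧ (∃ E : Set (W p), Ct E (4000 * ρ) (e0 p / 2 * ρ ^ (p + 1)) ∧
    ∀ᵐ x ∂(volume : Measure (W p)), x ∈ ball x0 ρ → x ∉ E → 0 ≤ b * (D x).det) ∧
  ∀ E' : Set (W p), Ct E' (4000 * ρ) (e0 p * ρ ^ (p + 1)) →
    volume {x | x ∈ ball x0 (ρ / 2) ∧ x ∉ E' ∧ (D x).det ≠ 0} ≠ 0

theorem th_pos (p : ℕ) : 0 < th p := by unfold th; positivity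

theorem ep_pos (p : ℕ) : 0 < ep p := by have := th_pos p; unfold ep; positivity

theorem e0_pos (p : ℕ) : 0 < e0 p := by unfold e0; positivity

theorem Ct.mono {E E' : Set (W p)} {R R' m m' : ℝ} (h : Ct E R m) (h1 : E' ⊆ E) (h2 : R ≤ R')
    (h3 : m ≤ m') : Ct E' R' m' := fun T κ hT =>
  (measure_mono (sh_mono T h1)).trans ((h T κ fun x r hr hr' => hT x r hr (hr'.trans h2)).trans
    (mul_le_mul_right (ENNReal.ofReal_le_ofReal h3) _))

theorem Ct.union {E E' : Set (W p)} {R m m' : ℝ} (h : Ct E R m) (h' : Ct E' R m') (h1 : 0 ≤ m)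
    (h2 : 0 ≤ m') : Ct (E ∪ E') R (m + m') := fun T κ hT => by
  have e : sh T (E ∪ E') ⊆ sh T E ∪ sh T E' := by
    rintro z ⟨x, hx | hx, hz⟩
    exacts [Or.inl ⟨x, hx, hz⟩, Or.inr ⟨x, hx, hz⟩]
  rw [ENNReal.ofReal_add h1 h2, mul_add]
  exact (measure_mono e).trans ((measure_union_le _ _).trans (add_le_add (h T κ hT) (h' T κ hT)))

end NV

end

section

namespace NV
open Set Filter Topology MeasureTheory Metric Function
open scoped ENNReal

variable {p : ℕ}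

/-- segments whose image meets a set of small content -/
theorem Ct.tube {E : Set (W p)} {R m : ℝ} (h : Ct E R m) (hR : 0 ≤ R) (Ψ : W p → W p)
    (hΨ : ∀ z z', ‖z - z'‖ / 2 ≤ ‖Ψ z - Ψ z'‖) (c : W p) {e : W p} (he : ‖e‖ = 1) {τ : ℝ}
    (hτ : 0 ≤ τ) : volume {z | ∃ t ∈ Icc (0 : ℝ) τ, Ψ (z + c + t • e) ∈ E} ≤
      ENNReal.ofReal (12 ^ (p + 2) * (τ + R) * m) := by
  have e1 : {z | ∃ t ∈ Icc (0 : ℝ) τ, Ψ (z + c + t • e) ∈ E} ⊆
      sh (fun z y => ∃ t ∈ Icc (0 : ℝ) τ, Ψ (z + t • e + c) = y) E := by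
    rintro z ⟨t, ht, hz⟩
    exact ⟨_, hz, t, ht, by rw [add_right_comm]⟩
  refine (measure_mono e1).trans ((h _ (ENNReal.ofReal (12 ^ (p + 2) * (τ + R)))
    fun x r hr hr' => ?_).trans (le_of_eq ?_))
  · refine (NV.tube (fun u => Ψ (u + c)) (fun z z' => ?_) he hτ x hr).trans ?_
    · simpa only [add_sub_add_right_eq_sub] using hΨ (z + c) (z' + c)
    · gcongr
  · rw [ENNReal.ofReal_mul (p := 12 ^ (p + 2) * (τ + R)) (by positivity)]

theorem Ct.vol {E : Set (W p)} {R m : ℝ} (h : Ct E R m) (hR : 0 ≤ R) :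
    volume E ≤ ENNReal.ofReal (2 ^ (p + 2) * R * m) := by
  have e1 : ∀ F : Set (W p), sh Eq F = F := fun F => by
    ext z
    exact ⟨fun ⟨x, hx, e⟩ => e ▸ hx, fun hz => ⟨z, hz, rfl⟩⟩
  have h1 := h Eq (ENNReal.ofReal (2 ^ (p + 2) * R)) fun x r hr hr' => by
    rw [e1, vol_ball x hr, ← ENNReal.ofReal_mul (by positivity)]
    refine ENNReal.ofReal_le_ofReal ?_
    rw [mul_pow, pow_succ' r, ← mul_assoc]
    gcongr
  rwa [e1, ← ENNReal.ofReal_mul (by positivity)] at h1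

/-- content of the bad set at one scale -/
theorem bad_at (p : ℕ) : ∃ C : ℝ, 1 ≤ C ∧ ∀ (O : Set (W p)) (D : W p → Mx p) (μ : Measure (W p))
    (w : Fin (p + 2) → Fin (p + 2) → Fin (p + 2) → W p → ℝ) (A : Mx p) (x : W p) (s lam δ : ℝ),
    IsOpen O → Bornology.IsBounded O → (∀ a i, IntegrableOn (fun x => D x a i) O volume) →
    D2 O D μ w → 0 < s → 0 < lam → 0 < δ → ball x (4 * s) ⊆ O →
    nu O D A (ball x (4 * s)) ≤ ENNReal.ofReal (lam * s ^ (p + 2) / C) →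
    μ (ball x (4 * s)) ≤ ENNReal.ofReal (lam * δ) →
    Ct (ball x s \ Gd (nu O D A) lam s) (10 * s) (C * δ) := by
  obtain ⟨C, hC, hbox⟩ := boxW p
  obtain ⟨n, hn⟩ : ∃ n : ℝ, n = (p : ℝ) + 2 := ⟨_, rfl⟩
  have n0 : 0 < n := by rw [hn]; positivity
  have hsum : ∀ c : ℝ, ∑ _j : Fin (p + 2), ENNReal.ofReal c = ENNReal.ofReal (n * c) := by
    intro c
    rw [Finset.sum_const, Finset.card_univ, Fintype.card_fin, nsmul_eq_mul,
      ENNReal.ofReal_mul n0.le, hn]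
    congr 1
    rw [← ENNReal.ofReal_natCast]
    push_cast
    rfl
  have q1 : 0 < 2 * (n * n * C) := by positivity
  have q2 : 0 < n * (n * (C * (n * (n * n * C)))) := by positivity
  refine ⟨1 + 2 * (n * n * C) + n * (n * (C * (n * (n * n * C)))), by linarith,
    fun O D μ w A x0 ρ lam δ hO hb hD h2 hρ hlam hδ a3 e1 e3 T κ hT => ?_⟩
  obtain ⟨l, hl⟩ : ∃ l : ℝ, l = lam / (n * n * C) := ⟨_, rfl⟩
  have l0 : 0 < l := by rw [hl]; positivity
  have fin : IsFiniteMeasure (volume.restrict O) := isFiniteMeasure_restrict.2 hb.measure_lt_top.ne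
  obtain ⟨E, hE⟩ : ∃ E : Fin (p + 2) → Fin (p + 2) → Set (W p), ∀ a i, E a i =
      {x | x ∈ ball x0 ρ ∧ ∃ s : ℝ, 0 < s ∧ s ≤ ρ ∧
        ENNReal.ofReal (C * l * s ^ (p + 2)) < ∫⁻ y in ball x s, ‖D y a i - A a i‖ₑ} :=
    ⟨_, fun _ _ => rfl⟩
  have b1 : ∀ a i, volume (sh T (E a i)) ≤
      κ * ENNReal.ofReal (C * (n * (n * n * C) * δ)) := by
    intro a i
    rw [hE]
    refine hbox T κ O (fun y => D y a i - A a i) (w a i) x0 ρ l _ hO.measurableSet
      ((hD a i).sub (integrable_const _)) (h2.i2 a i) (fun j => ?_) hρ l0 (by positivity) a3 hT ?_ ?_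
    · have := weak_sub hO.measurableSet (hD a i) (h2.i2 a i j) (h2.wk a i j) 0 (A a i)
      simpa using this
    · rw [nu_apply hD A a3] at e1
      refine le_trans ?_ (e1.trans (ENNReal.ofReal_le_ofReal ?_))
      · refine le_trans ?_ (Finset.single_le_sum (f := fun a => ∑ i,
          ∫⁻ y in ball x0 (4 * ρ), ‖D y a i - A a i‖ₑ) (fun _ _ => zero_le) (Finset.mem_univ a))
        exact Finset.single_le_sum (f := fun i => ∫⁻ y in ball x0 (4 * ρ), ‖D y a i - A a i‖ₑ)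
          (fun _ _ => zero_le) (Finset.mem_univ i)
      · refine (div_le_div_of_nonneg_left (by positivity) q1 (by linarith)).trans (le_of_eq ?_)
        rw [hl]
        field_simp
    · refine (Finset.sum_le_sum fun j _ => (h2.le a i j x0 _ a3).trans e3).trans (le_of_eq ?_)
      rw [hsum]
      congr 1
      rw [hl]
      field_simp
  have b2 : ball x0 ρ \ Gd (nu O D A) lam ρ ⊆ ⋃ a, ⋃ i, E a i := by
    rintro x ⟨hx, hx'⟩
    by_contra hcon
    refine hx' fun r hr hrρ => ?_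
    have hsub : ball x r ⊆ O := (ball_subset_ball' (by linarith [mem_ball.1 hx])).trans a3
    rw [nu_apply hD A hsub]
    have e2 : ∀ a i, ∫⁻ y in ball x r, ‖D y a i - A a i‖ₑ ≤
        ENNReal.ofReal (C * l * r ^ (p + 2)) := fun a i => by
      by_contra hlt
      refine hcon (mem_iUnion₂.2 ⟨a, i, ?_⟩)
      rw [hE]
      exact ⟨hx, r, hr, hrρ, not_le.1 hlt⟩
    refine (Finset.sum_le_sum fun a _ => Finset.sum_le_sum fun i _ => e2 a i).trans (le_of_eq ?_)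
    rw [hsum, hsum]
    congr 1
    rw [hl]
    field_simp
  refine (measure_mono (sh_mono T b2)).trans ?_
  rw [sh_iUnion]
  refine (measure_iUnion_fintype_le _ _).trans ?_
  refine (Finset.sum_le_sum (g := fun _ => ∑ _i : Fin (p + 2), κ * ENNReal.ofReal
    (C * (n * (n * n * C) * δ))) fun a _ => ?_).trans ?_
  · rw [sh_iUnion]
    exact (measure_iUnion_fintype_le _ _).trans (Finset.sum_le_sum fun i _ => b1 a i)
  · simp only [← Finset.mul_sum]
    rw [hsum, hsum]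
    refine mul_le_mul_right (ENNReal.ofReal_le_ofReal ?_) _
    nlinarith [mul_pos q1 hδ]

theorem g1_ct (μ : Measure (W p)) (x : W p) {ρ R δ m : ℝ} (hδ : 0 < δ) (hm : 0 ≤ m)
    (h : μ (ball x (ρ + R)) ≤ ENNReal.ofReal (δ * m)) :
    Ct (ball x ρ \ G1 μ δ R) (5 * R) (5 ^ (p + 1) * m) := by
  intro T κ hT
  have _ := hm
  have hs : ∀ c : ℝ, ENNReal.ofReal (1 / δ) * ENNReal.ofReal (δ * c) =
      ENNReal.ofReal c := fun c => by
    rw [← ENNReal.ofReal_mul (by positivity), ← mul_assoc, one_div_mul_cancel hδ.ne', one_mul]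
  refine (vit T (ENNReal.ofReal (1 / δ) • μ) _ (ball x (ρ + R)) (fun y hy => ?_) hT).trans ?_
  · have h1 := hy.2
    simp only [G1, mem_ofPred_eq, not_forall, not_le] at h1
    obtain ⟨s, hs0, hsR, h2⟩ := h1
    refine ⟨s, hs0, hsR, ball_subset_ball' (by linarith [mem_ball.1 hy.1]), ?_⟩
    rw [Measure.smul_apply, smul_eq_mul, ← hs]
    exact mul_le_mul_right h2.le _
  · rw [Measure.smul_apply, smul_eq_mul, ENNReal.ofReal_mul (p := 5 ^ (p + 1)) (by positivity),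
      mul_assoc, ← hs m]
    gcongr

/-- almost every point is a Lebesgue point with small bad sets -/
theorem ae_bad {O : Set (W p)} (hO : IsOpen O) (hb : Bornology.IsBounded O) {D : W p → Mx p}
    (hD : ∀ a i, IntegrableOn (fun x => D x a i) O volume) {μ : Measure (W p)}
    {w : Fin (p + 2) → Fin (p + 2) → Fin (p + 2) → W p → ℝ} (h2 : D2 O D μ w) :
    ∀ᵐ x ∂(volume : Measure (W p)), x ∈ O →
      (∀ η : ℝ, 0 < η → ∃ ρ : ℝ, 0 < ρ ∧ x ∈ Gd (nu O D (D x)) η ρ) ∧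
      ∀ η : ℝ, 0 < η → ∃ K ρ0 : ℝ, 0 < K ∧ 0 < ρ0 ∧ ∀ ρ : ℝ, 0 < ρ → ρ ≤ ρ0 →
        Ct (ball x ρ \ Gd (nu O D (D x)) η ρ) (10 * ρ) (K * ρ ^ (p + 2)) := by
  obtain ⟨g, hg⟩ : ∃ g : W p → ℝ, g = fun y => ∑ t : Fin (p + 2) × Fin (p + 2) × Fin (p + 2),
      |w t.1 t.2.1 t.2.2 y| := ⟨_, rfl⟩
  have g1 : IntegrableOn g O volume := hg ▸ integrable_finsetSum _ fun t _ => (h2.i2 _ _ _).abs
  have g2 : ∀ a i j y, ‖w a i j y‖ₑ ≤ ‖g y‖ₑ := fun a i j y => by
    rw [enorm_le_iff_norm_le, Real.norm_eq_abs, Real.norm_eq_abs]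
    refine le_trans ?_ (le_abs_self _)
    rw [hg]
    exact Finset.single_le_sum (f := fun t : Fin (p + 2) × Fin (p + 2) × Fin (p + 2) =>
      |w t.1 t.2.1 t.2.2 y|) (fun _ _ => abs_nonneg _) (Finset.mem_univ (a, i, j))
  filter_upwards [leb hO hD, dens hO g1] with x a b hx
  obtain ⟨K, ρ1, hK, hρ1, h3⟩ := b hx
  exact ⟨a hx, fun η hη => bad_small hO hb hD h2.i2 h2.wk _ hx (a hx) hK hρ1
    (fun a i j r hr hr' => (lintegral_mono fun y => g2 a i j y).trans (h3 r hr hr')) hη⟩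

end NV

end

section

namespace NV
open Set Filter Topology MeasureTheory Metric Function
open scoped ENNReal

variable {p : ℕ}

namespace LinBX
open Matrix

theorem fin_le (v : Fin (p + 2) → W p) (b : Set (Fin (p + 2))) :
    Module.finrank ℝ (Submodule.span ℝ (v '' b)) ≤ b.ncard := by
  classical
  have := Fintype.ofFinite (v '' b)
  refine (finrank_span_le_card (v '' b)).trans ?_
  rw [← Set.ncard_eq_toFinset_card']
  exact Set.ncard_image_le

theorem toL_apply (M : Mx p) (v : W p) : toL M v = M *ᵥ v := rfl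

/-- the projection that kills row `i` -/
def P (i : Fin (p + 2)) : Mx p := Matrix.diagonal fun j => if j = i then 0 else 1

theorem upd (A B : Mx p) (i : Fin (p + 2)) (r : W p) :
    B.updateRow i r = A.updateRow i r + P i * (B - A) := by
  ext j k
  by_cases h : j = i <;> simp [P, Matrix.updateRow_apply, Matrix.diagonal_mul, h]

theorem upd_mulVec (A : Mx p) (i j : Fin (p + 2)) (r v : W p) :
    (A.updateRow i r *ᵥ v) j = if j = i then r ⬝ᵥ v else (A *ᵥ v) j := by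
  by_cases h : j = i
  · subst h
    simp [Matrix.mulVec]
  · simp [Matrix.mulVec, h]

theorem det_pos (N : Mx p) (h : ∀ v, ‖N *ᵥ v‖ ≤ 1 / 2 * ‖v‖) : 0 < (1 + N).det := by
  have c : Continuous fun t : ℝ => (1 + t • N).det :=
    (continuous_const.add (continuous_id.smul continuous_const)).matrix_det
  by_contra hn
  obtain ⟨t, ht, e⟩ := intermediate_value_Icc' zero_le_one c.continuousOn
    (show (0 : ℝ) ∈ Icc _ _ from ⟨by simpa using hn, by simp⟩)
  obtain ⟨v, v0, hv⟩ := Matrix.exists_mulVec_eq_zero_iff.2 e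
  rw [Matrix.add_mulVec, Matrix.one_mulVec, Matrix.smul_mulVec] at hv
  have h1 : ‖v‖ = t * ‖N *ᵥ v‖ := by
    rw [eq_neg_of_add_eq_zero_left hv, norm_neg, norm_smul, Real.norm_of_nonneg ht.1,
      ← eq_neg_of_add_eq_zero_left hv]
  have h2 := norm_pos_iff.2 v0
  nlinarith [h v, ht.1, ht.2, norm_nonneg (N *ᵥ v)]

end LinBX

open LinBX Matrix

theorem adj_ne (B : Mx p) (h : p + 1 ≤ B.rank) : B.adjugate ≠ 0 := by
  obtain ⟨b, -, -, h1, h2⟩ := exists_linearIndepOn_extension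
    (linearIndepOn_empty ℝ B.row) (subset_univ _)
  rw [Matrix.rank_eq_finrank_span_row] at h
  rw [image_univ] at h1
  have h3 := h.trans ((Submodule.finrank_mono (Submodule.span_le.2 h1)).trans (fin_le _ b))
  have h4 := Set.ncard_add_ncard_compl b
  rw [Nat.card_eq_fintype_card, Fintype.card_fin] at h4
  obtain ⟨i, hi⟩ := (Set.ncard_le_one_iff_subset_singleton (s := bᶜ)).1 (by omega)
  have h5 : LinearIndepOn ℝ B.row {i}ᶜ := h2.mono (compl_subset_comm.1 hi)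
  obtain ⟨a, ha⟩ : ∃ a, Pi.single a 1 ∉ Submodule.span ℝ (B.row '' {i}ᶜ) := by
    by_contra hn
    push Not at hn
    have h6 : ⊤ ≤ Submodule.span ℝ (B.row '' {i}ᶜ) := by
      rw [← (Pi.basisFun ℝ (Fin (p + 2))).span_eq, Submodule.span_le]
      rintro _ ⟨a, rfl⟩
      simpa using hn a
    have h7 := (Submodule.finrank_mono h6).trans (fin_le _ _)
    have h8 := Set.ncard_add_ncard_compl ({i} : Set (Fin (p + 2)))
    simp at h7 h8
    omega
  have e : EqOn B.row (B.updateRow i (Pi.single a 1)).row {i}ᶜ := fun j hj =>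
    (Matrix.updateRow_ne hj).symm
  have h9 := (h5.congr e).insert (x := i) (by
    rw [← e.image_eq]
    simpa [Matrix.row] using ha)
  rw [insert_eq, union_compl_self, linearIndepOn_univ_iff,
    Matrix.linearIndependent_rows_iff_isUnit, Matrix.isUnit_iff_isUnit_det,
    ← Matrix.adjugate_apply] at h9
  intro h0
  rw [h0] at h9
  exact not_isUnit_zero h9

/-- linear algebra of the chart at a matrix of corank at most one -/
theorem linB (A : Mx p) (hA : A.adjugate ≠ 0) :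
    ∃ (S : W p →L[ℝ] W p) (e : W p) (i : Fin (p + 2)) (σ : ℝ), (σ = 1 ∨ σ = -1) ∧ ‖e‖ = 1 ∧
      (∀ (d F : W p) (θ : ℝ), d + S (F - toL A d) = θ • e → ∀ j, j ≠ i → F j = 0) ∧
      ∀ B : Mx p, ‖S‖ * ‖toL B - toL A‖ ≤ 1 / 2 → ∃ (w : W p) (β κ : ℝ), 0 < κ ∧
        w + S ((toL B - toL A) w) = e ∧ toL B w = β • Pi.single i 1 ∧ B.det = σ * κ * β := by
  obtain ⟨a, i, hd⟩ : ∃ a i, A.adjugate a i ≠ 0 := by
    by_contra hn
    push Not at hn
    exact hA (Matrix.ext hn)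
  rw [Matrix.adjugate_apply] at hd
  obtain ⟨A1, hA1⟩ : ∃ A1, A1 = A.updateRow i (Pi.single a 1) := ⟨_, rfl⟩
  rw [← hA1] at hd
  have hi : A1 * A1⁻¹ = 1 := Matrix.mul_nonsing_inv _ (Ne.isUnit hd)
  obtain ⟨e0, he0⟩ : ∃ e0 : W p, A1 *ᵥ e0 = Pi.single i 1 :=
    ⟨A1⁻¹ *ᵥ Pi.single i 1, by rw [Matrix.mulVec_mulVec, hi, Matrix.one_mulVec]⟩
  have n0 : 0 < ‖e0‖ := norm_pos_iff.2 fun h => by simpa [h] using congrFun he0 i
  obtain ⟨σ, hσ, hσ'⟩ : ∃ σ : ℝ, (σ = 1 ∨ σ = -1) ∧ A1.det = σ * |A1.det| := by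
    rcases abs_choice A1.det with h | h
    · exact ⟨1, Or.inl rfl, by rw [h, one_mul]⟩
    · exact ⟨-1, Or.inr rfl, by rw [h]; ring⟩
  refine ⟨toL (A1⁻¹ * P i), ‖e0‖⁻¹ • e0, i, σ, hσ, norm_smul_inv_norm (norm_pos_iff.1 n0),
    fun d F θ h j hj => ?_, fun B hB => ?_⟩
  · have h1 := congrFun (congrArg (A1 *ᵥ ·) h) j
    simp only [toL_apply, Matrix.mulVec_add, Matrix.mulVec_mulVec, ← Matrix.mul_assoc, hi,
      Matrix.one_mul, Matrix.mulVec_smul, he0, Pi.add_apply, Pi.smul_apply,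
      Pi.single_eq_of_ne hj, smul_zero] at h1
    rw [hA1, upd_mulVec, if_neg hj, P, Matrix.mulVec_diagonal, if_neg hj, Pi.sub_apply] at h1
    linarith
  · have hN : ∀ v, toL (A1⁻¹ * P i) ((toL B - toL A) v) = (A1⁻¹ * P i * (B - A)) *ᵥ v := fun v => by
      rw [_root_.sub_apply, toL_apply, toL_apply, toL_apply, ← Matrix.sub_mulVec,
        Matrix.mulVec_mulVec]
    have hM := det_pos (A1⁻¹ * P i * (B - A)) fun v => by
      rw [← hN]
      refine ((toL (A1⁻¹ * P i)).le_opNorm _).trans ((mul_le_mul_of_nonneg_left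
        ((toL B - toL A).le_opNorm v) (norm_nonneg _)).trans ?_)
      rw [← mul_assoc]
      exact mul_le_mul_of_nonneg_right hB (norm_nonneg _)
    have hB1 : B.updateRow i (Pi.single a 1) = A1 * (1 + A1⁻¹ * P i * (B - A)) := by
      rw [upd A B, ← hA1, Matrix.mul_add, Matrix.mul_one, ← Matrix.mul_assoc, ← Matrix.mul_assoc,
        hi, Matrix.one_mul]
    obtain ⟨w, hw⟩ : ∃ w : W p, (1 + A1⁻¹ * P i * (B - A)) *ᵥ w = ‖e0‖⁻¹ • e0 :=
      ⟨(1 + A1⁻¹ * P i * (B - A))⁻¹ *ᵥ (‖e0‖⁻¹ • e0), by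
        rw [Matrix.mulVec_mulVec, Matrix.mul_nonsing_inv _ (Ne.isUnit hM.ne'), Matrix.one_mulVec]⟩
    have h1 : B.updateRow i (Pi.single a 1) *ᵥ w = ‖e0‖⁻¹ • Pi.single i 1 := by
      rw [hB1, ← Matrix.mulVec_mulVec, hw, Matrix.mulVec_smul, he0]
    have h2 : w a = ‖e0‖⁻¹ := by simpa [upd_mulVec] using congrFun h1 i
    have h3 : B *ᵥ w = (B *ᵥ w) i • Pi.single i 1 := by
      funext j
      by_cases hj : j = i
      · simp [hj]
      · simpa [upd_mulVec, hj] using congrFun h1 j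
    refine ⟨w, (B *ᵥ w) i, |A1.det| * (1 + A1⁻¹ * P i * (B - A)).det * ‖e0‖,
      by positivity, ?_, h3, ?_⟩
    · rw [hN, ← hw, Matrix.add_mulVec, Matrix.one_mulVec]
    · have h4 := congrFun (congrArg (B.adjugate *ᵥ ·) h3) a
      simp only [Matrix.mulVec_mulVec, Matrix.adjugate_mul, Matrix.smul_mulVec, Matrix.one_mulVec,
        Matrix.mulVec_smul, Pi.smul_apply, smul_eq_mul, h2, Matrix.mulVec_single_one,
        Matrix.col_apply] at h4
      rw [Matrix.adjugate_apply, hB1, Matrix.det_mul, mul_inv_eq_iff_eq_mul₀ n0.ne'] at h4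
      rw [h4]
      linear_combination ((B *ᵥ w) i * (1 + A1⁻¹ * P i * (B - A)).det * ‖e0‖) * hσ'

end NV

end

section

namespace NV
open Set Filter Topology MeasureTheory Metric Function
open scoped ENNReal

variable {p : ℕ}

theorem conv {U V : Set (W p)} (hU : MeasurableSet U) (hV : MeasurableSet V) {y : W p} {r : ℝ}
    (hU' : U ⊆ ball y r) (hV' : V ⊆ ball y r) {m : ℝ≥0∞}
    (h : ∀ v : W p, ‖v‖ < 2 * r → volume {z | z ∈ U ∧ z + v ∈ V} ≤ m) :
    volume U * volume V ≤ m * volume (ball (0 : W p) (2 * r)) := by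
  have hQ : MeasurableSet {q : W p × W p | q.1 ∈ U ∧ q.1 + q.2 ∈ V} :=
    (measurable_fst hU).inter ((measurable_fst.add measurable_snd) hV)
  have h1 := Measure.prod_apply (μ := (volume : Measure (W p))) (ν := (volume : Measure (W p))) hQ
  have h2 := Measure.prod_apply_symm (μ := (volume : Measure (W p)))
    (ν := (volume : Measure (W p))) hQ
  have e1 : (fun z : W p => volume (Prod.mk z ⁻¹' {q : W p × W p | q.1 ∈ U ∧ q.1 + q.2 ∈ V})) =
      U.indicator fun _ => volume V := by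
    funext z
    by_cases hz : z ∈ U
    · rw [indicator_of_mem hz, ← measure_preimage_add volume z V]
      congr 1
      ext v
      simp [hz]
    · rw [indicator_of_notMem hz]
      have : Prod.mk z ⁻¹' {q : W p × W p | q.1 ∈ U ∧ q.1 + q.2 ∈ V} = ∅ := by
        ext v
        simp [hz]
      rw [this, measure_empty]
  rw [e1, lintegral_indicator_const hU] at h1
  rw [mul_comm, ← h1, h2, ← lintegral_indicator_const measurableSet_ball]
  refine lintegral_mono fun v => ?_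
  by_cases hv : v ∈ ball (0 : W p) (2 * r)
  · rw [indicator_of_mem hv]
    exact h v (mem_ball_zero_iff.1 hv)
  · rw [indicator_of_notMem hv]
    have : (fun z : W p => (z, v)) ⁻¹' {q : W p × W p | q.1 ∈ U ∧ q.1 + q.2 ∈ V} = ∅ := by
      refine eq_empty_of_forall_notMem fun z hz => hv ?_
      have a := mem_ball.1 (hU' hz.1)
      have b := mem_ball.1 (hV' hz.2)
      have c := dist_triangle_right (z + v) z y
      rw [dist_self_add_left] at c
      rw [mem_ball_zero_iff]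
      linarith
    rw [this, measure_empty]

namespace MajX

variable {O G : Set (W p)} {f : W p → W p} {A S : W p →L[ℝ] W p} {e : W p} {i : Fin (p + 2)}
  {Ψ : W p → W p}

theorem cont (h : Ch O G f A S e i Ψ) : Continuous Ψ :=
  (LipschitzWith.of_dist_le_mul (K := 2) fun z z' => by
    rw [dist_eq_norm, dist_eq_norm]
    exact h.up z z').continuous

theorem maps (h : Ch O G f A S e i Ψ) {y z : W p} {s : ℝ} (hz : z ∈ ball y (2 * s)) :
    Ψ z ∈ ball (Ψ y) (4 * s) := by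
  have := h.up z y
  rw [mem_ball, dist_eq_norm] at hz ⊢
  linarith

theorem shift (h : Ch O G f A S e i Ψ) {y z : W p} {s : ℝ} (hs : 0 < s) (hz : z ∈ ball y s) :
    z + s • e ∈ ball y (2 * s) := by
  have c := dist_triangle (z + s • e) z y
  rw [dist_self_add_left, norm_smul, h.ne, Real.norm_of_nonneg hs.le] at c
  rw [mem_ball] at hz ⊢
  linarith

theorem differs (h : Ch O G f A S e i Ψ) {z : W p} {s : ℝ} (hs : 0 < s) (h1 : Ψ z ∈ G)
    (h2 : Ψ (z + s • e) ∈ G) : f (Ψ (z + s • e)) i - f (Ψ z) i ≠ 0 := fun h0 => by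
  have a := h.eq z h1
  have b := h.eq _ h2
  have c : (Ψ (z + s • e) - Ψ z) + S ((f (Ψ (z + s • e)) - f (Ψ z)) - A (Ψ (z + s • e) - Ψ z)) =
      s • e := by
    have d : s • e = (z + s • e) - z := by abel
    conv_rhs => rw [d, ← b]
    conv_rhs => enter [2]; rw [← a]
    simp only [map_sub]
    abel
  have hF : f (Ψ (z + s • e)) = f (Ψ z) := by
    funext j
    by_cases hj : j = i
    · subst hj
      linarith
    · have := h.hp _ _ _ c j hj
      rw [Pi.sub_apply] at this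
      linarith
  have hx := h.inj (h.sub h2) (h.sub h1) hF
  have l := h.lo (z + s • e) z
  rw [hx, sub_self, norm_zero, add_sub_cancel_left, norm_smul, h.ne,
    Real.norm_of_nonneg hs.le] at l
  linarith

theorem zero_bad (h : Ch O G f A S e i Ψ) {y z : W p} {s : ℝ} (hs : 0 < s) (hz : z ∈ ball y s)
    (h0 : f (Ψ (z + s • e)) i - f (Ψ z) i = 0) :
    Ψ z ∈ ball (Ψ y) (4 * s) \ G ∨ Ψ (z + s • e) ∈ ball (Ψ y) (4 * s) \ G := by
  by_cases h1 : Ψ z ∈ G
  · exact Or.inr ⟨maps h (shift h hs hz), fun h2 => differs h hs h1 h2 h0⟩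
  · exact Or.inl ⟨maps h (ball_subset_ball (by linarith) hz), h1⟩

theorem contg (h : Ch O G f A S e i Ψ) {y : W p} {s : ℝ} (hs : 0 < s)
    (hO : ball (Ψ y) (4 * s) ⊆ O) :
    ContinuousOn (fun z => f (Ψ (z + s • e)) i - f (Ψ z) i) (ball y s) := by
  have a : ContinuousOn (fun z => f (Ψ (z + s • e))) (ball y s) :=
    h.ct.comp ((cont h).comp (continuous_id.add continuous_const)).continuousOn
      fun z hz => hO (maps h (shift h hs hz))
  have b : ContinuousOn (fun z => f (Ψ z)) (ball y s) :=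
    h.ct.comp (cont h).continuousOn fun z hz => hO (maps h (ball_subset_ball (by linarith) hz))
  exact ((continuous_apply i).comp_continuousOn a).sub ((continuous_apply i).comp_continuousOn b)

theorem pair (h : Ch O G f A S e i Ψ) {y : W p} {s : ℝ} (hs : 0 < s)
    (hO : ball (Ψ y) (4 * s) ⊆ O)
    (hc : Ct (ball (Ψ y) (4 * s) \ G) (640 * s) (ep p * s ^ (p + 1))) (v : W p)
    (hv : ‖v‖ < 2 * s) :
    volume {z | z ∈ ball y s ∩ (fun z => f (Ψ (z + s • e)) i - f (Ψ z) i) ⁻¹' Ioi 0 ∧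
      z + v ∈ ball y s ∩ (fun z => f (Ψ (z + s • e)) i - f (Ψ z) i) ⁻¹' Iio 0} ≤
      ENNReal.ofReal (2 * (12 ^ (p + 2) * (642 * s) * (ep p * s ^ (p + 1)))) := by
  have hep := ep_pos p
  rcases eq_or_ne v 0 with rfl | hv0
  · refine le_trans (le_of_eq ?_) zero_le
    refine measure_mono_null (fun z hz => ?_) measure_empty
    have a : (0 : ℝ) < f (Ψ (z + s • e)) i - f (Ψ z) i := hz.1.2
    have b : f (Ψ (z + 0 + s • e)) i - f (Ψ (z + 0)) i < 0 := hz.2.2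
    rw [add_zero] at b
    exact absurd a b.not_gt
  have hτ : 0 < ‖v‖ := norm_pos_iff.2 hv0
  have he : ‖‖v‖⁻¹ • v‖ = 1 := norm_smul_inv_norm hv0
  have t1 := hc.tube (by positivity) Ψ h.lo 0 he hτ.le
  have t2 := hc.tube (by positivity) Ψ h.lo (s • e) he hτ.le
  have bd : ENNReal.ofReal (12 ^ (p + 2) * (‖v‖ + 640 * s) * (ep p * s ^ (p + 1))) ≤
      ENNReal.ofReal (12 ^ (p + 2) * (642 * s) * (ep p * s ^ (p + 1))) := by
    refine ENNReal.ofReal_le_ofReal ?_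
    gcongr
    linarith
  rw [two_mul, ENNReal.ofReal_add (by positivity) (by positivity)]
  refine le_trans (measure_mono fun z hz => ?_)
    ((measure_union_le _ _).trans (add_le_add (t1.trans bd) (t2.trans bd)))
  have hin : ∀ t ∈ Icc (0 : ℝ) ‖v‖, z + t • ‖v‖⁻¹ • v ∈ ball y s := fun t ht => by
    rw [smul_smul]
    exact (convex_ball y s).add_smul_mem hz.1.1 hz.2.1
      ⟨mul_nonneg ht.1 (inv_nonneg.2 hτ.le), by rw [← div_eq_mul_inv]; exact div_le_one_of_le₀ ht.2 hτ.le⟩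
  have hk : ContinuousOn (fun t : ℝ => f (Ψ (z + t • ‖v‖⁻¹ • v + s • e)) i -
      f (Ψ (z + t • ‖v‖⁻¹ • v)) i) (Icc 0 ‖v‖) :=
    (contg h hs hO).comp (continuous_const.add (continuous_id.smul continuous_const)).continuousOn
      hin
  have a : (0 : ℝ) < f (Ψ (z + s • e)) i - f (Ψ z) i := hz.1.2
  have b : f (Ψ (z + v + s • e)) i - f (Ψ (z + v)) i < 0 := hz.2.2
  obtain ⟨t, ht, h0⟩ := intermediate_value_Icc' hτ.le hk (a := 0) (b := ‖v‖)
    (show (0 : ℝ) ∈ _ from ⟨by rw [smul_inv_smul₀ hτ.ne']; exact b.le,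
      by rw [zero_smul, add_zero]; exact a.le⟩)
  rcases zero_bad h hs (hin t ht) h0 with c | c
  · exact Or.inl ⟨t, ht, by rwa [add_zero]⟩
  · exact Or.inr ⟨t, ht, by rwa [add_right_comm]⟩

theorem th_le (p : ℕ) : th p ≤ 1 := pow_le_one₀ (by norm_num) (by norm_num)

theorem num (p : ℕ) : 12 ^ (p + 2) * 641 * ep p ≤ th p / 2 := by
  have a := th_pos p
  have b := th_le p
  have c : (12 : ℝ) ^ (p + 2) ≤ 48 ^ (p + 2) := by gcongr; norm_num
  have d : (0 : ℝ) < 12 ^ (p + 2) := by positivity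
  rw [ep, ← mul_div_assoc, div_le_iff₀ (by positivity)]
  have e : 12 ^ (p + 2) * th p ≤ 48 ^ (p + 2) := by nlinarith
  nlinarith [mul_le_mul_of_nonneg_right e a.le, mul_pos a (d.trans_le c)]

end MajX

open MajX in
/-- one direction dominates -/
theorem maj {O G : Set (W p)} {f : W p → W p} {A S : W p →L[ℝ] W p} {e : W p} {i : Fin (p + 2)}
    {Ψ : W p → W p} (h : Ch O G f A S e i Ψ) {y : W p} {s : ℝ} (hs : 0 < s)
    (hO : ball (Ψ y) (4 * s) ⊆ O)
    (hc : Ct (ball (Ψ y) (4 * s) \ G) (640 * s) (ep p * s ^ (p + 1))) :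
    Dom (fun z => f (Ψ z) i) e 1 y s (th p) ∨ Dom (fun z => f (Ψ z) i) e (-1) y s (th p) := by
  have hep := ep_pos p
  have hth := th_pos p
  have hU := ((contg h hs hO).isOpen_inter_preimage isOpen_ball (isOpen_Ioi (a := 0))).measurableSet
  have hV := ((contg h hs hO).isOpen_inter_preimage isOpen_ball (isOpen_Iio (a := 0))).measurableSet
  have hm := conv hU hV inter_subset_left inter_subset_left (pair h hs hO hc)
  have e1 : 2 * (12 ^ (p + 2) * (642 * s) * (ep p * s ^ (p + 1))) * (2 * (2 * s)) ^ (p + 2) =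
      (th p / 2 * s ^ (p + 2)) * (th p / 2 * s ^ (p + 2)) := by
    have : (48 : ℝ) ^ (p + 2) = 12 ^ (p + 2) * 4 ^ (p + 2) := by rw [← mul_pow]; norm_num
    rw [ep, this, show 2 * (2 * s) = 4 * s by ring, mul_pow]
    field_simp
    ring
  rw [vol_ball _ (by positivity), ← ENNReal.ofReal_mul (by positivity), e1,
    ENNReal.ofReal_mul (by positivity)] at hm
  have hZ : volume {z | z ∈ ball y s ∧ f (Ψ (z + s • e)) i - f (Ψ z) i = 0} ≤
      ENNReal.ofReal (th p / 2 * s ^ (p + 2)) := by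
    refine le_trans (measure_mono fun z hz => ?_)
      ((hc.tube (by positivity) Ψ h.lo 0 h.ne hs.le).trans (ENNReal.ofReal_le_ofReal ?_))
    · rcases zero_bad h hs hz.1 hz.2 with c | c
      · exact ⟨0, ⟨le_rfl, hs.le⟩, by rwa [zero_smul, add_zero, add_zero]⟩
      · exact ⟨s, ⟨hs.le, le_rfl⟩, by rwa [add_zero]⟩
    · calc _ = (12 ^ (p + 2) * 641 * ep p) * s ^ (p + 2) := by ring
        _ ≤ _ := mul_le_mul_of_nonneg_right (num p) (by positivity)
  have e2 : ENNReal.ofReal (th p * s ^ (p + 2)) =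
      ENNReal.ofReal (th p / 2 * s ^ (p + 2)) + ENNReal.ofReal (th p / 2 * s ^ (p + 2)) := by
    rw [← ENNReal.ofReal_add (by positivity) (by positivity)]
    congr 1
    ring
  by_contra hn
  obtain ⟨n1, n2⟩ := not_or.1 hn
  refine absurd hm (not_le.2 (ENNReal.mul_lt_mul (not_le.1 fun c => n2 ?_) (not_le.1 fun c => n1 ?_)))
  · rw [Dom, e2]
    refine le_trans (measure_mono fun z hz => ?_) ((measure_union_le _ _).trans (add_le_add c hZ))
    have a : (0 : ℝ) ≤ f (Ψ (z + s • e)) i - f (Ψ z) i := by linarith [hz.2]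
    exact a.lt_or_eq.imp (fun b => ⟨hz.1, b⟩) fun b => ⟨hz.1, b.symm⟩
  · rw [Dom, e2]
    refine le_trans (measure_mono fun z hz => ?_) ((measure_union_le _ _).trans (add_le_add c hZ))
    have a : f (Ψ (z + s • e)) i - f (Ψ z) i ≤ 0 := by linarith [hz.2]
    exact a.lt_or_eq.imp (fun b => ⟨hz.1, b⟩) fun b => ⟨hz.1, b⟩

end NV

end

section

namespace NV
open Set Filter Topology MeasureTheory Metric Function
open scoped ENNReal

variable {p : ℕ}

namespace LinkX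

theorem th_le (p : ℕ) : th p ≤ 1 := by
  unfold th
  exact pow_le_one₀ (by norm_num) (by norm_num)

theorem tube_c (p : ℕ) : 12 ^ (p + 2) * 641 * ep p ≤ th p := by
  have h0 := th_pos p
  have h1 := th_le p
  have ha : (12 : ℝ) ^ (p + 2) ≤ 48 ^ (p + 2) := pow_le_pow_left₀ (by norm_num) (by norm_num) _
  have hc : (0 : ℝ) < 48 ^ (p + 2) := by positivity
  have hb : (0 : ℝ) < 12 ^ (p + 2) := by positivity
  unfold ep
  rw [← mul_div_assoc, div_le_iff₀ (by positivity)]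
  have h2 : th p ^ 2 ≤ th p := by nlinarith
  have h3 : (12 : ℝ) ^ (p + 2) * th p ^ 2 ≤ 48 ^ (p + 2) * th p :=
    mul_le_mul ha h2 (by positivity) hc.le
  have h4 : (0 : ℝ) < 48 ^ (p + 2) * th p := by positivity
  nlinarith

theorem e0_c (p : ℕ) : 2 ^ (p + 2) * 4000 * e0 p ≤ 1 := by
  have ha : (2 : ℝ) ^ (p + 2) ≤ 48 ^ (p + 2) := pow_le_pow_left₀ (by norm_num) (by norm_num) _
  have hc : (0 : ℝ) < 48 ^ (p + 2) := by positivity
  unfold e0
  rw [mul_one_div, div_le_one (by positivity)]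
  nlinarith

/-- a point of a set outside three sets of smaller total measure -/
theorem pick {B X Y Z : Set (W p)} {a b c v : ℝ} (hX : volume X ≤ ENNReal.ofReal a)
    (hY : volume Y ≤ ENNReal.ofReal b) (hZ : volume Z ≤ ENNReal.ofReal c) (ha : 0 ≤ a)
    (hb : 0 ≤ b) (hc : 0 ≤ c) (hB : volume B = ENNReal.ofReal v) (hv : a + b + c < v) :
    ∃ z ∈ B, z ∉ X ∧ z ∉ Y ∧ z ∉ Z := by
  by_contra hn
  have hs : B ⊆ X ∪ Y ∪ Z := fun z hz => by
    by_contra h1
    exact hn ⟨z, hz, fun h => h1 (Or.inl (Or.inl h)), fun h => h1 (Or.inl (Or.inr h)),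
      fun h => h1 (Or.inr h)⟩
  have h1 : volume B ≤ ENNReal.ofReal (a + b + c) := by
    rw [ENNReal.ofReal_add (add_nonneg ha hb) hc, ENNReal.ofReal_add ha hb]
    exact (measure_mono hs).trans ((measure_union_le _ _).trans
      (add_le_add ((measure_union_le _ _).trans (add_le_add hX hY)) hZ))
  rw [hB, ENNReal.ofReal_le_ofReal_iff (by positivity)] at h1
  linarith

/-- along a segment mapped into G the i-th coordinate is strictly monotone -/
theorem seg {O G : Set (W p)} {f : W p → W p} {A S : W p →L[ℝ] W p} {e : W p} {i : Fin (p + 2)}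
    {Ψ : W p → W p} (h : Ch O G f A S e i Ψ) {z : W p} {s : ℝ} (hs : 0 ≤ s)
    (hG : ∀ t ∈ Icc (0 : ℝ) s, Ψ (z + t • e) ∈ G) :
    StrictMonoOn (fun t : ℝ => f (Ψ (z + t • e)) i) (Icc 0 s) ∨
      StrictAntiOn (fun t : ℝ => f (Ψ (z + t • e)) i) (Icc 0 s) := by
  have hL : LipschitzWith 2 Ψ := LipschitzWith.of_dist_le_mul fun a b => by
    rw [dist_eq_norm, dist_eq_norm]
    exact_mod_cast h.up a b
  have hc : Continuous fun t : ℝ => Ψ (z + t • e) :=
    hL.continuous.comp (continuous_const.add (continuous_id.smul continuous_const))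
  refine ContinuousOn.strictMonoOn_of_injOn_Icc' hs ?_ ?_
  · exact (continuous_apply i).comp_continuousOn
      (h.ct.comp hc.continuousOn fun t ht => h.sub (hG t ht))
  · intro t ht t' ht' htt
    have e1 := h.eq _ (hG t ht)
    have e2 := h.eq _ (hG t' ht')
    have e3 : (Ψ (z + t • e) - Ψ (z + t' • e)) + S ((f (Ψ (z + t • e)) - f (Ψ (z + t' • e))) -
        A (Ψ (z + t • e) - Ψ (z + t' • e))) = (t - t') • e := by
      have e4 : (t - t') • e = (z + t • e) - (z + t' • e) := by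
        rw [sub_smul]
        abel
      rw [e4]
      refine Eq.trans ?_ (congrArg₂ (fun a b => a - b) e1 e2)
      simp only [map_sub]
      abel
    have e5 : f (Ψ (z + t • e)) = f (Ψ (z + t' • e)) := by
      funext j
      by_cases hj : j = i
      · rw [hj]
        exact htt
      · exact sub_eq_zero.1 (h.hp _ _ _ e3 j hj)
    have e6 := h.inj (h.sub (hG t ht)) (h.sub (hG t' ht')) e5
    have e7 := h.lo (z + t • e) (z + t' • e)
    have e8 : (z + t • e) - (z + t' • e) = (t - t') • e := by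
      rw [sub_smul]
      abel
    rw [e6, sub_self, norm_zero, e8, norm_smul, h.ne, mul_one, Real.norm_eq_abs] at e7
    have e9 := abs_nonneg (t - t')
    exact sub_eq_zero.1 (abs_eq_zero.1 (by linarith))

end LinkX

/-- dominant directions at comparable scales agree -/
theorem link {O G : Set (W p)} {f : W p → W p} {A S : W p →L[ℝ] W p} {e : W p} {i : Fin (p + 2)}
    {Ψ : W p → W p} (h : Ch O G f A S e i Ψ) {y y' : W p} {s s' b b' : ℝ} (hs' : 0 < s')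
    (h1 : s ≤ 3 * s') (h2 : s' ≤ s) (hsub : ball y' s' ⊆ ball y s)
    (hc : Ct (ball (Ψ y) (4 * s) \ G) (640 * s) (ep p * s ^ (p + 1)))
    (hb : b = 1 ∨ b = -1) (hb' : b' = 1 ∨ b' = -1)
    (d : Dom (fun z => f (Ψ z) i) e b y s (th p))
    (d' : Dom (fun z => f (Ψ z) i) e b' y' s' (th p)) : b = b' := by
  have hs : 0 < s := hs'.trans_le h2
  have h0 := th_pos p
  have hT := hc.tube (by positivity) Ψ h.lo 0 h.ne hs.le
  have hT' : 12 ^ (p + 2) * (s + 640 * s) * (ep p * s ^ (p + 1)) ≤ th p * s ^ (p + 2) := by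
    have e : 12 ^ (p + 2) * (s + 640 * s) * (ep p * s ^ (p + 1)) =
        12 ^ (p + 2) * 641 * ep p * s ^ (p + 2) := by ring
    rw [e]
    exact mul_le_mul_of_nonneg_right (LinkX.tube_c p) (by positivity)
  have hlt : th p * s ^ (p + 2) + th p * s' ^ (p + 2) + th p * s ^ (p + 2) <
      (2 * s') ^ (p + 2) := by
    have a1 : s' ^ (p + 2) ≤ s ^ (p + 2) := pow_le_pow_left₀ hs'.le h2 _
    have a2 : th p * s ^ (p + 2) = (s / 2) ^ (p + 2) / 4 := by
      unfold th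
      ring
    have a3 : (s / 2) ^ (p + 2) ≤ (2 * s') ^ (p + 2) :=
      pow_le_pow_left₀ (by positivity) (by linarith) _
    have a4 : (0 : ℝ) < (2 * s') ^ (p + 2) := by positivity
    have a5 := mul_le_mul_of_nonneg_left a1 h0.le
    linarith
  obtain ⟨z, hz, z1, z2, z3⟩ := LinkX.pick d d' (hT.trans (ENNReal.ofReal_le_ofReal hT'))
    (by positivity) (by positivity) (by positivity) (vol_ball y' hs') hlt
  have hzy := hsub hz
  have hG : ∀ t ∈ Icc (0 : ℝ) s, Ψ (z + t • e) ∈ G := fun t ht => by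
    by_contra hn
    refine z3 ⟨t, ht, ?_⟩
    rw [add_zero]
    refine ⟨?_, hn⟩
    have a1 := h.up (z + t • e) y
    have a2 : ‖z + t • e - y‖ ≤ ‖z - y‖ + ‖t • e‖ := by
      rw [add_sub_right_comm]
      exact norm_add_le _ _
    rw [norm_smul, h.ne, mul_one, Real.norm_of_nonneg ht.1] at a2
    rw [mem_ball, dist_eq_norm] at hzy ⊢
    linarith [ht.2]
  have b1 : 0 < b * (f (Ψ (z + s • e)) i - f (Ψ z) i) := lt_of_not_ge fun hh => z1 ⟨hzy, hh⟩
  have b2 : 0 < b' * (f (Ψ (z + s' • e)) i - f (Ψ z) i) := lt_of_not_ge fun hh => z2 ⟨hz, hh⟩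
  have m0 : (0 : ℝ) ∈ Icc (0 : ℝ) s := ⟨le_rfl, hs.le⟩
  have m1 : s ∈ Icc (0 : ℝ) s := ⟨hs.le, le_rfl⟩
  have m2 : s' ∈ Icc (0 : ℝ) s := ⟨hs'.le, h2⟩
  rcases LinkX.seg h hs.le hG with hm | hm
  all_goals
    have c1 := hm m0 m1 hs
    have c2 := hm m0 m2 hs'
    simp only [zero_smul, add_zero] at c1 c2
    rcases hb with rfl | rfl <;> rcases hb' with rfl | rfl
    all_goals first | rfl | (exfalso; linarith)

theorem loc_link {D : W p → Mx p} {x0 x1 : W p} {ρ b b' : ℝ} (hρ : 0 < ρ) (h : Loc D x0 ρ b)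
    (h' : Loc D x1 ρ b') (hx : ‖x0 - x1‖ ≤ ρ / 2) : b = b' := by
  obtain ⟨hb, ⟨E, hE, ha⟩, hn⟩ := h
  obtain ⟨hb', ⟨E', hE', ha'⟩, -⟩ := h'
  have h0 := e0_pos p
  have hU := hE.union hE' (by positivity) (by positivity)
  have hne := hn (E ∪ E') (hU.mono Subset.rfl le_rfl (le_of_eq (by ring)))
  by_contra hbb
  refine hne (measure_eq_zero_iff_ae_notMem.2 ?_)
  filter_upwards [ha, ha'] with x a1 a2
  rintro ⟨x1', x2, x3⟩
  have c0 : ‖x - x0‖ < ρ / 2 := by rwa [mem_ball, dist_eq_norm] at x1'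
  have c1 := a1 (ball_subset_ball (by linarith) x1') fun hh => x2 (Or.inl hh)
  have c2 := a2 (by
    rw [mem_ball, dist_eq_norm]
    linarith [norm_sub_le_norm_sub_add_norm_sub x x0 x1]) fun hh => x2 (Or.inr hh)
  rcases hb with rfl | rfl <;> rcases hb' with rfl | rfl
  · exact hbb rfl
  · exact x3 (le_antisymm (by linarith) (by linarith))
  · exact x3 (le_antisymm (by linarith) (by linarith))
  · exact hbb rfl

theorem loc_end {D : W p → Mx p} {x0 : W p} {ρ b σ : ℝ} (hρ : 0 < ρ) (h : Loc D x0 ρ b)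
    (hσ : σ = 1 ∨ σ = -1) (hv : volume (ball x0 ρ ∩ {x | σ * (D x).det ≤ 0}) ≤
      ENNReal.ofReal (ρ ^ (p + 2) / 2)) : b = σ := by
  obtain ⟨hb, ⟨E, hE, ha⟩, -⟩ := h
  have h0 := e0_pos p
  have hV := hE.vol (by positivity)
  have hV' : 2 ^ (p + 2) * (4000 * ρ) * (e0 p / 2 * ρ ^ (p + 1)) ≤ ρ ^ (p + 2) / 2 := by
    have e : 2 ^ (p + 2) * (4000 * ρ) * (e0 p / 2 * ρ ^ (p + 1)) =
        2 ^ (p + 2) * 4000 * e0 p * (ρ ^ (p + 2) / 2) := by ring
    rw [e]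
    exact mul_le_of_le_one_left (by positivity) (LinkX.e0_c p)
  have hlt : ρ ^ (p + 2) / 2 + ρ ^ (p + 2) / 2 + 0 < (2 * ρ) ^ (p + 2) := by
    have a1 : ρ ^ (p + 2) < (2 * ρ) ^ (p + 2) :=
      pow_lt_pow_left₀ (by linarith) hρ.le (by omega)
    linarith
  have hN : volume {x | ¬ (x ∈ ball x0 ρ → x ∉ E → 0 ≤ b * (D x).det)} ≤ ENNReal.ofReal 0 :=
    (ae_iff.1 ha).le.trans bot_le
  obtain ⟨z, hz, z1, z2, z3⟩ := LinkX.pick hv (hV.trans (ENNReal.ofReal_le_ofReal hV')) hN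
    (by positivity) (by positivity) le_rfl (vol_ball x0 hρ) hlt
  have c1 : 0 < σ * (D z).det := lt_of_not_ge fun hh => z1 ⟨hz, hh⟩
  have c2 : 0 ≤ b * (D z).det := by
    by_contra hh
    exact z3 fun h3 => hh (h3 hz z2)
  rcases hb with rfl | rfl <;> rcases hσ with rfl | rfl
  all_goals first | rfl | (exfalso; linarith)

end NV

end

section

namespace NV
open Set Filter Topology MeasureTheory Metric Function
open scoped ENNReal

variable {p : ℕ}

namespace IdentX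

theorem key {A B S : W p →L[ℝ] W p} {e w d F : W p} {θ η : ℝ}
    (h1 : w + S ((B - A) w) = e) (h3 : ‖S‖ * ‖B - A‖ ≤ 1 / 2)
    (h4 : d + S (F - A d) = θ • e) (h5 : ‖F - B d‖ ≤ η * ‖d‖) :
    ‖F - θ • B w‖ ≤ (2 * ‖B‖ * ‖S‖ + 1) * (η * ‖d‖) := by
  have e1 : d - θ • w = -S (F - B d) - S ((B - A) (d - θ • w)) := by
    rw [← h1] at h4
    have e2 : S (F - A d) = S (F - B d) + S ((B - A) d) := by
      rw [← map_add]
      congr 1
      simp
    rw [e2, smul_add] at h4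
    rw [map_sub (B - A), map_sub S ((B - A) d), map_smul, map_smul]
    linear_combination (exp := 1) h4
  have e3 : ‖S ((B - A) (d - θ • w))‖ ≤ 1 / 2 * ‖d - θ • w‖ :=
    calc _ ≤ ‖S‖ * (‖B - A‖ * ‖d - θ • w‖) :=
          (S.le_opNorm _).trans (mul_le_mul_of_nonneg_left ((B - A).le_opNorm _) (norm_nonneg _))
      _ = ‖S‖ * ‖B - A‖ * ‖d - θ • w‖ := by ring
      _ ≤ _ := mul_le_mul_of_nonneg_right h3 (norm_nonneg _)
  have e4 : ‖S (F - B d)‖ ≤ ‖S‖ * (η * ‖d‖) :=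
    (S.le_opNorm _).trans (mul_le_mul_of_nonneg_left h5 (norm_nonneg _))
  have e5 : ‖d - θ • w‖ ≤ 2 * (‖S‖ * (η * ‖d‖)) := by
    have := norm_sub_le (-S (F - B d)) (S ((B - A) (d - θ • w)))
    rw [← e1, norm_neg] at this
    linarith
  have e6 : F - θ • B w = (F - B d) + B (d - θ • w) := by
    rw [map_sub, map_smul]
    abel
  have e7 : ‖B (d - θ • w)‖ ≤ ‖B‖ * (2 * (‖S‖ * (η * ‖d‖))) :=
    (B.le_opNorm _).trans (mul_le_mul_of_nonneg_left e5 (norm_nonneg _))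
  calc _ = ‖(F - B d) + B (d - θ • w)‖ := by rw [← e6]
    _ ≤ η * ‖d‖ + ‖B‖ * (2 * (‖S‖ * (η * ‖d‖))) := (norm_add_le _ _).trans (add_le_add h5 e7)
    _ = _ := by ring

theorem ep_le (p : ℕ) : 12 ^ (p + 2) * 641 * ep p ≤ th p / 2 := by
  have h0 := th_pos p
  have h1 : th p ≤ 1 := pow_le_one₀ (by norm_num) (by norm_num)
  have h2 : (12 : ℝ) ^ (p + 2) ≤ 48 ^ (p + 2) := by gcongr; norm_num
  have h3 : (0 : ℝ) < 12 ^ (p + 2) := by positivity
  rw [ep, ← mul_div_assoc, div_le_iff₀ (by positivity)]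
  nlinarith [mul_le_mul_of_nonneg_left h2 h0.le, mul_pos h0 h3,
    mul_le_mul_of_nonneg_left h1 (mul_pos h0 h3).le]

end IdentX

/-- at a Lebesgue point with nonzero Jacobian the dominant direction is the sign of β -/
theorem ident {O G : Set (W p)} {f : W p → W p} {D : W p → Mx p} {A : Mx p}
    {S : W p →L[ℝ] W p} {e : W p} {i : Fin (p + 2)} {Ψ : W p → W p}
    (h : Ch O G f (toL A) S e i Ψ) (h1 : D1 O f D) (hb : Bornology.IsBounded O) {y : W p}
    {B : Mx p} {w : W p} {β : ℝ} (hw1 : w + S ((toL B - toL A) w) = e)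
    (hw2 : toL B w = β • Pi.single i 1) (hβ : β ≠ 0) (hS : ‖S‖ * ‖toL B - toL A‖ ≤ 1 / 2)
    (hy : Ψ y ∈ O)
    (hbad : ∀ η : ℝ, 0 < η → ∃ K ρ0 : ℝ, 0 < K ∧ 0 < ρ0 ∧ ∀ ρ : ℝ, 0 < ρ → ρ ≤ ρ0 →
      Ct (ball (Ψ y) ρ \ Gd (nu O D B) η ρ) (10 * ρ) (K * ρ ^ (p + 2))) :
    ∃ s0 : ℝ, 0 < s0 ∧ ∀ s : ℝ, 0 < s → s ≤ s0 →
      Ct (ball (Ψ y) (4 * s) \ G) (640 * s) (ep p * s ^ (p + 1)) →
      Dom (fun z => f (Ψ z) i) e (if 0 < β then 1 else -1) y s (th p) := by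
  obtain ⟨C, hC, hL⟩ := lipV p
  obtain ⟨c1, hc1⟩ : ∃ c1 : ℝ, c1 = 2 * ‖toL B‖ * ‖S‖ + 1 := ⟨_, rfl⟩
  have c10 : 0 < c1 := by rw [hc1]; positivity
  have b0 : 0 < |β| := abs_pos.2 hβ
  have η0 : 0 < |β| / (4 * c1 * C) := by positivity
  obtain ⟨K, ρ0, hK, hρ0, hB⟩ := hbad _ η0
  obtain ⟨ε, hε, hεO⟩ := Metric.isOpen_iff.1 h1.op _ hy
  obtain ⟨c, hc⟩ : ∃ c : ℝ, c = 12 ^ (p + 2) * 161 * K * 16 ^ (p + 2) := ⟨_, rfl⟩
  have c0 : 0 < c := by rw [hc]; positivity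
  have t0 := th_pos p
  refine ⟨min (min (ρ0 / 16) (1 / 16)) (min (ε / 20) (th p / (2 * c))), by positivity,
    fun s hs hs0 hG => ?_⟩
  simp only [le_min_iff] at hs0
  obtain ⟨⟨r1, r2⟩, r3, r4⟩ := hs0
  rw [le_div_iff₀ (by positivity)] at r4
  have v1 := hG.tube (by positivity) Ψ h.lo 0 h.ne hs.le
  have v2 := (hB (16 * s) (by positivity) (by linarith)).tube (by positivity) Ψ h.lo 0 h.ne hs.le
  have sp : 0 < s ^ (p + 2) := by positivity
  have e0 := ep_pos p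
  refine (measure_mono fun z hz => ?_).trans ((measure_union_le _ _).trans
    ((add_le_add v1 v2).trans ?_))
  · by_contra hn
    rw [mem_union, not_or] at hn
    have g : ∀ t ∈ Icc (0 : ℝ) s, Ψ (z + t • e) ∈ G ∧
        Ψ (z + t • e) ∈ Gd (nu O D B) (|β| / (4 * c1 * C)) (16 * s) ∧
        ball (Ψ (z + t • e)) (16 * s) ⊆ O := fun t ht => by
      have h2 := h.up (z + t • e) y
      have h3 : ‖z + t • e - y‖ ≤ ‖z - y‖ + ‖t • e‖ := by
        rw [add_sub_right_comm]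
        exact norm_add_le _ _
      rw [norm_smul, h.ne, mul_one, Real.norm_eq_abs, abs_of_nonneg ht.1] at h3
      have h4 := mem_ball_iff_norm.1 hz.1
      have h5 : Ψ (z + t • e) ∈ ball (Ψ y) (4 * s) := by
        rw [mem_ball_iff_norm]
        linarith [ht.2]
      refine ⟨?_, ?_, (ball_subset_ball' (by linarith [mem_ball.1 h5])).trans hεO⟩
      · by_contra q
        exact hn.1 ⟨t, ht, by rw [add_zero]; exact ⟨h5, q⟩⟩
      · by_contra q
        exact hn.2 ⟨t, ht, by rw [add_zero]; exact ⟨ball_subset_ball (by linarith) h5, q⟩⟩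
    obtain ⟨a1, a2, a3⟩ := g s ⟨hs.le, le_rfl⟩
    obtain ⟨b1, b2, b3⟩ := g 0 ⟨le_rfl, hs.le⟩
    rw [zero_smul, add_zero] at b1 b2 b3
    have n1 := h.up (z + s • e) z
    rw [add_sub_cancel_left, norm_smul, h.ne, mul_one, Real.norm_eq_abs, abs_of_pos hs] at n1
    have n2 := hL O f D B _ _ _ _ h1 hb η0.le (by positivity) (by linarith) a3 b3 (by linarith)
      a2 b2
    have n4 : Ψ (z + s • e) - Ψ z +
        S (f (Ψ (z + s • e)) - f (Ψ z) - toL A (Ψ (z + s • e) - Ψ z)) = s • e := by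
      have a4 := h.eq _ a1
      have b4 := h.eq _ b1
      simp only [map_sub] at a4 b4 ⊢
      linear_combination (exp := 1) a4 - b4
    have n5 := IdentX.key hw1 hS n4 n2
    rw [← hc1, hw2] at n5
    have n6 : c1 * (C * (|β| / (4 * c1 * C)) * ‖Ψ (z + s • e) - Ψ z‖) ≤ s * |β| / 2 :=
      calc _ ≤ c1 * (C * (|β| / (4 * c1 * C)) * (2 * s)) := by gcongr
        _ = _ := by field_simp; ring
    have n7 := (norm_le_pi_norm _ i).trans (n5.trans n6)
    simp only [Pi.sub_apply, Pi.smul_apply, Pi.single_eq_same, smul_eq_mul, mul_one,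
      Real.norm_eq_abs, abs_le] at n7
    have n8 := hz.2
    split_ifs at n8 with q
    · rw [abs_of_pos q] at n7
      nlinarith [n7.1, mul_pos hs q]
    · have q' : β < 0 := lt_of_le_of_ne (not_lt.1 q) hβ
      rw [abs_of_neg q'] at n7
      nlinarith [n7.2, mul_pos hs (neg_pos.2 q')]
  · rw [← ENNReal.ofReal_add (by positivity) (by positivity)]
    refine ENNReal.ofReal_le_ofReal ?_
    calc _ = (12 ^ (p + 2) * 641 * ep p + s * (2 * c) / 2) * s ^ (p + 2) := by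
          rw [hc, mul_pow]; ring
      _ ≤ _ := mul_le_mul_of_nonneg_right (by linarith [IdentX.ep_le p]) sp.le

end NV

end

section

namespace NV
open Set Filter Topology MeasureTheory Metric Function
open scoped ENNReal

variable {p : ℕ}

theorem exists_ch {O G : Set (W p)} {f : W p → W p} {A S : W p →L[ℝ] W p} {e : W p}
    {i : Fin (p + 2)} (ct : ContinuousOn f O) (inj : InjOn f O) (sub : G ⊆ O) (ne : ‖e‖ = 1)
    (hp : ∀ (d F : W p) (θ : ℝ), d + S (F - A d) = θ • e → ∀ j, j ≠ i → F j = 0) {K : ℝ}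
    (K0 : 0 ≤ K) (hK : ‖S‖ * K ≤ 1 / 2)
    (lipG : ∀ x ∈ G, ∀ y ∈ G, ‖f x - f y - A (x - y)‖ ≤ K * ‖x - y‖) :
    ∃ Ψ : W p → W p, Ch O G f A S e i Ψ ∧ Surjective Ψ := by
  have lipu : LipschitzOnWith ⟨K, K0⟩ (fun x => f x - A x) G := by
    refine LipschitzOnWith.of_dist_le_mul fun x hx y hy => ?_
    rw [dist_eq_norm, dist_eq_norm]
    refine le_trans (le_of_eq ?_) (lipG x hx y hy)
    rw [map_sub]
    congr 1
    abel
  obtain ⟨g, hg, hgu⟩ := lipu.extend_pi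
  obtain ⟨Ψ, p1, p2, p3, p4⟩ := chart (fun x => S (g x)) fun x y => by
    rw [← map_sub]
    have h1 := hg.dist_le_mul x y
    rw [dist_eq_norm, dist_eq_norm] at h1
    have h2 : ‖g x - g y‖ ≤ K * ‖x - y‖ := h1
    calc _ ≤ ‖S‖ * (K * ‖x - y‖) :=
          (S.le_opNorm _).trans (mul_le_mul_of_nonneg_left h2 (norm_nonneg _))
      _ = ‖S‖ * K * ‖x - y‖ := by ring
      _ ≤ 1 / 2 * ‖x - y‖ := mul_le_mul_of_nonneg_right hK (norm_nonneg _)
      _ = _ := by ring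
  refine ⟨Ψ, ⟨ct, inj, sub, ne, p3, p4, fun z hz => ?_, hp⟩, fun x => ⟨_, p2 x⟩⟩
  have := p1 z
  rwa [← hgu hz] at this

/-- a good vertical segment cannot lie almost entirely in pieces of rank n - 1 -/
theorem line_ne {O G : Set (W p)} {f : W p → W p} {A S : W p →L[ℝ] W p} {e : W p}
    {i : Fin (p + 2)} {Ψ : W p → W p} (h : Ch O G f A S e i Ψ) {K : ℝ} (K0 : 0 ≤ K)
    (lipG : ∀ x ∈ G, ∀ y ∈ G, ‖f x - f y - A (x - y)‖ ≤ K * ‖x - y‖) {z : W p} {τ : ℝ}
    (hτ : 0 < τ) (g2 : ∀ t ∈ Icc (0 : ℝ) τ, Ψ (z + t • e) ∈ G) (F : ℕ → Set (Set (W p)))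
    (hF1 : ∀ m, (F m).Countable)
    (hF2 : ∀ m, ∀ T ∈ F m, IsClosed T ∧ ∃ (B : W p →L[ℝ] W p) (w : W p),
      w + S ((B - A) w) = e ∧ B w = 0 ∧ ‖S‖ * ‖B - A‖ ≤ 1 / 2 ∧ ‖B‖ ≤ ‖A‖ + 1 ∧
      ∀ x ∈ T, ∀ y ∈ T, ‖f x - f y - B (x - y)‖ ≤ 1 / ((m : ℝ) + 1) * ‖x - y‖)
    (hz : ∀ᵐ t ∂(volume : Measure ℝ), t ∈ Icc (0 : ℝ) τ → ∀ m, Ψ (z + t • e) ∈ ⋃₀ F m) :
    False := by
  have S0 := norm_nonneg S
  obtain ⟨γ, hγ⟩ : ∃ γ : ℝ → W p, ∀ t, γ t = Ψ (z + t • e) := ⟨_, fun _ => rfl⟩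
  simp only [← hγ] at hz g2
  have nn : ∀ s t : ℝ, ‖z + s • e - (z + t • e)‖ = |s - t| := fun s t => by
    rw [add_sub_add_left_eq_sub, ← sub_smul, norm_smul, h.ne, mul_one, Real.norm_eq_abs]
  have g1 : ∀ s t, |s - t| / 2 ≤ ‖γ s - γ t‖ ∧ ‖γ s - γ t‖ ≤ 2 * |s - t| := fun s t => by
    rw [hγ, hγ, ← nn]
    exact ⟨h.lo _ _, h.up _ _⟩
  have gc : Continuous γ := by
    refine (LipschitzWith.of_dist_le_mul (K := 2) fun s t => ?_).continuous
    rw [dist_eq_norm, Real.dist_eq]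
    exact (g1 s t).2
  have t1 : τ ∈ Icc (0 : ℝ) τ := ⟨hτ.le, le_rfl⟩
  have t0 : (0 : ℝ) ∈ Icc (0 : ℝ) τ := ⟨le_rfl, hτ.le⟩
  suffices hh : f (γ τ) = f (γ 0) by
    have h1 := (g1 τ 0).1
    rw [h.inj (h.sub (g2 τ t1)) (h.sub (g2 0 t0)) hh, sub_self, norm_zero, sub_zero,
      abs_of_pos hτ] at h1
    linarith
  funext a
  have co : ∀ s t, |f (γ s) a - f (γ t) a| ≤ ‖f (γ s) - f (γ t)‖ := fun s t =>
    norm_le_pi_norm (f (γ s) - f (γ t)) a
  refine lineZ (h := fun t => f (γ t) a) (L := (K + ‖A‖) * 2)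
    (fun s hs t ht => (co s t).trans ?_) (fun η hη => ?_) τ t1
  · have h1 := lipG _ (g2 s hs) _ (g2 t ht)
    have h2 := A.le_opNorm (γ s - γ t)
    have h3 := norm_add_le (f (γ s) - f (γ t) - A (γ s - γ t)) (A (γ s - γ t))
    rw [sub_add_cancel] at h3
    calc _ ≤ (K + ‖A‖) * ‖γ s - γ t‖ := by linarith
      _ ≤ (K + ‖A‖) * (2 * |s - t|) := mul_le_mul_of_nonneg_left (g1 s t).2 (by positivity)
      _ = _ := by ring
  · obtain ⟨c1, hc1⟩ : ∃ c1 : ℝ, c1 = 2 * (‖A‖ + 1) * ‖S‖ + 1 := ⟨_, rfl⟩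
    have c10 : 0 < c1 := by rw [hc1]; positivity
    obtain ⟨m, hm⟩ := exists_nat_one_div_lt (show 0 < η / (2 * c1) by positivity)
    refine ⟨(fun S => γ ⁻¹' S) '' F m, (hF1 m).image _, ?_, ?_, ?_⟩
    · rintro _ ⟨S', hS', rfl⟩
      exact ((hF2 m S' hS').1.preimage gc).measurableSet
    · filter_upwards [hz] with t ht ht'
      obtain ⟨S', hS', h2⟩ := ht ht' m
      exact ⟨_, ⟨S', hS', rfl⟩, h2⟩
    · rintro _ ⟨S', hS', rfl⟩ s ⟨hs, hs'⟩ t ⟨ht, ht'⟩
      obtain ⟨-, B, w, hw1, hw2, n2, n3, hB3⟩ := hF2 m S' hS'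
      have n4 : γ s - γ t + S (f (γ s) - f (γ t) - A (γ s - γ t)) = (s - t) • e := by
        have a1 := h.eq (z + s • e) (hγ s ▸ g2 s hs')
        have a2 := h.eq (z + t • e) (hγ t ▸ g2 t ht')
        rw [← hγ] at a1 a2
        simp only [map_sub] at a1 a2 ⊢
        rw [sub_smul]
        linear_combination (exp := 1) a1 - a2
      have n5 := key hw1 hw2 n2 n4 (hB3 _ hs _ ht)
      have m0 : (0 : ℝ) < 1 / ((m : ℝ) + 1) := Nat.one_div_pos_of_nat
      refine (co s t).trans (n5.trans ?_)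
      calc _ ≤ c1 * (η / (2 * c1) * (2 * |s - t|)) := by
            rw [hc1] at hm ⊢
            gcongr
            exact (g1 s t).2
        _ = _ := by field_simp

theorem maj' {O G : Set (W p)} {f : W p → W p} {A S : W p →L[ℝ] W p} {e : W p} {i : Fin (p + 2)}
    {Ψ : W p → W p} (h : Ch O G f A S e i Ψ) {y : W p} {s : ℝ} (hs : 0 < s)
    (hO : ball (Ψ y) (4 * s) ⊆ O)
    (hc : Ct (ball (Ψ y) (4 * s) \ G) (640 * s) (ep p * s ^ (p + 1))) :
    ∃ b : ℝ, (b = 1 ∨ b = -1) ∧ Dom (fun z => f (Ψ z) i) e b y s (th p) := by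
  rcases maj h hs hO hc with h1 | h1
  exacts [⟨1, Or.inl rfl, h1⟩, ⟨-1, Or.inr rfl, h1⟩]

theorem chainL {O G : Set (W p)} {f : W p → W p} {A S : W p →L[ℝ] W p} {e : W p}
    {i : Fin (p + 2)} {Ψ : W p → W p} (h : Ch O G f A S e i Ψ) {y : W p} {ρ b : ℝ} (hρ : 0 < ρ)
    (hO : ball (Ψ y) (4 * ρ) ⊆ O) (hc : ∀ s : ℝ, 0 < s → s ≤ ρ →
      Ct (ball (Ψ y) (4 * s) \ G) (640 * s) (ep p * s ^ (p + 1))) (hb : b = 1 ∨ b = -1)
    (d : Dom (fun z => f (Ψ z) i) e b y ρ (th p)) (k : ℕ) :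
    Dom (fun z => f (Ψ z) i) e b y (ρ * (1 / 2) ^ k) (th p) := by
  have le : ∀ k : ℕ, ρ * (1 / 2) ^ k ≤ ρ := fun k =>
    mul_le_of_le_one_right hρ.le (pow_le_one₀ (by norm_num) (by norm_num))
  induction k with
  | zero => simpa using d
  | succ k ih =>
    have s0 : 0 < ρ * (1 / 2 : ℝ) ^ k := by positivity
    have e1 : ρ * (1 / 2 : ℝ) ^ (k + 1) = ρ * (1 / 2) ^ k / 2 := by ring
    obtain ⟨b', hb', d'⟩ := maj' h (y := y) (s := ρ * (1 / 2) ^ (k + 1)) (by positivity)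
      ((ball_subset_ball (by linarith [le (k + 1)])).trans hO) (hc _ (by positivity) (le _))
    rwa [link h (by positivity) (by linarith) (by linarith) (ball_subset_ball (by linarith))
      (hc _ s0 (le k)) hb hb' ih d']

theorem sign_at {O G : Set (W p)} {f : W p → W p} {D : W p → Mx p} {A : Mx p}
    {S : W p →L[ℝ] W p} {e : W p} {i : Fin (p + 2)} {Ψ : W p → W p}
    (h : Ch O G f (toL A) S e i Ψ) (h1 : D1 O f D) (hb : Bornology.IsBounded O) {y : W p}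
    {B : Mx p} {w : W p} {β : ℝ} (hw1 : w + S ((toL B - toL A) w) = e)
    (hw2 : toL B w = β • Pi.single i 1) (hS : ‖S‖ * ‖toL B - toL A‖ ≤ 1 / 2)
    (hbad : ∀ η : ℝ, 0 < η → ∃ K ρ0 : ℝ, 0 < K ∧ 0 < ρ0 ∧ ∀ ρ : ℝ, 0 < ρ → ρ ≤ ρ0 →
      Ct (ball (Ψ y) ρ \ Gd (nu O D B) η ρ) (10 * ρ) (K * ρ ^ (p + 2)))
    {ρ b : ℝ} (hρ : 0 < ρ) (hO : ball (Ψ y) (4 * ρ) ⊆ O) (hc : ∀ s : ℝ, 0 < s → s ≤ ρ →
      Ct (ball (Ψ y) (4 * s) \ G) (640 * s) (ep p * s ^ (p + 1))) (hb1 : b = 1 ∨ b = -1)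
    (d : Dom (fun z => f (Ψ z) i) e b y ρ (th p)) : 0 ≤ b * β := by
  by_cases hβ : β = 0
  · rw [hβ, mul_zero]
  obtain ⟨s0, hs0, hid⟩ := ident h h1 hb hw1 hw2 hβ hS (hO (mem_ball_self (by positivity))) hbad
  obtain ⟨k, hk⟩ := exists_pow_lt_of_lt_one (div_pos hs0 hρ) (show (1 / 2 : ℝ) < 1 by norm_num)
  have s1 : 0 < ρ * (1 / 2 : ℝ) ^ k := by positivity
  have s2 : ρ * (1 / 2 : ℝ) ^ k ≤ ρ :=
    mul_le_of_le_one_right hρ.le (pow_le_one₀ (by norm_num) (by norm_num))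
  have s3 : ρ * (1 / 2 : ℝ) ^ k ≤ s0 := by
    rw [lt_div_iff₀ hρ] at hk
    linarith
  have e1 := link h s1 (by linarith) le_rfl Subset.rfl (hc _ s1 s2) hb1
    (b' := if 0 < β then 1 else -1) (by split_ifs <;> simp) (chainL h hρ hO hc hb1 d k)
    (hid _ s1 s3 (hc _ s1 s2))
  rw [e1]
  split_ifs with h0
  · linarith
  · linarith [not_lt.1 h0]

end NV

end

section

namespace NV
open Set Filter Topology MeasureTheory Metric Function
open scoped ENNReal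

variable {p : ℕ}

/-- robust non-vanishing in a chart -/
theorem nv_ch {O G : Set (W p)} {f : W p → W p} {D : W p → Mx p} {A : Mx p}
    {S : W p →L[ℝ] W p} {e : W p} {i : Fin (p + 2)} {Ψ : W p → W p}
    (h : Ch O G f (toL A) S e i Ψ) (h1 : D1 O f D) (hb : Bornology.IsBounded O) {K lam R : ℝ}
    (K0 : 0 ≤ K) (lipG : ∀ x ∈ G, ∀ y ∈ G, ‖f x - f y - toL A (x - y)‖ ≤ K * ‖x - y‖)
    (l0 : 0 < lam) (l1 : lam ≤ 1) (l3 : ‖S‖ * lam ≤ 1 / 2) (R0 : 0 < R)
    (hG : G ⊆ Gd (nu O D A) lam R)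
    (hS : ∀ B : Mx p, ‖S‖ * ‖toL B - toL A‖ ≤ 1 / 2 → B.det = 0 →
      ∃ w : W p, w + S ((toL B - toL A) w) = e ∧ toL B w = 0) {y0 : W p} {ρ : ℝ} (hρ : 0 < ρ)
    (hc : Ct (ball (Ψ y0) (12 * ρ) \ G) (4000 * ρ) (e0 p * ρ ^ (p + 1))) (E' : Set (W p))
    (hE' : Ct E' (4000 * ρ) (e0 p * ρ ^ (p + 1))) :
    volume {x | x ∈ ball (Ψ y0) (ρ / 2) ∧ x ∉ E' ∧ (D x).det ≠ 0} ≠ 0 := by
  intro h0
  choose F hF1 hF2 hF3 using fun m : ℕ =>
    cover' h1 hb A l0 (p + 1) (η := 1 / ((m : ℝ) + 1)) Nat.one_div_pos_of_nat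
  have hN := null_line Ψ h.lo e ((ae_all_iff.2 hF3).and (measure_eq_zero_iff_ae_notMem.1 h0))
  have hU := (hc.union hE' (by have := e0_pos p; positivity)
    (by have := e0_pos p; positivity)).tube (by positivity) Ψ h.lo 0 h.ne (τ := ρ / 8)
    (by positivity)
  have hsm := hU.trans_lt (show _ < volume (ball y0 (ρ / 8)) by
    rw [vol_ball _ (by positivity), ENNReal.ofReal_lt_ofReal_iff (by positivity)]
    have e1 : (48 : ℝ) ^ (p + 2) = 12 ^ (p + 2) * 4 ^ (p + 2) := by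
      rw [← mul_pow]
      norm_num
    have e2 : (2 * (ρ / 8)) ^ (p + 2) = ρ * ρ ^ (p + 1) / 4 ^ (p + 2) := by
      rw [← pow_succ', ← div_pow]
      congr 1
      ring
    have e3 : 12 ^ (p + 2) * (4001 * ρ) * (e0 p * ρ ^ (p + 1) + e0 p * ρ ^ (p + 1)) =
        ρ * ρ ^ (p + 1) / 4 ^ (p + 2) / 2 := by
      rw [e0, e1]
      field_simp
      norm_num
    have e4 : 0 < ρ * ρ ^ (p + 1) / 4 ^ (p + 2) := by positivity
    have e5 := e0_pos p
    calc _ ≤ 12 ^ (p + 2) * (4001 * ρ) * (e0 p * ρ ^ (p + 1) + e0 p * ρ ^ (p + 1)) := by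
          gcongr
          linarith
      _ < _ := by rw [e3, e2]; linarith)
  obtain ⟨z, hz1, hz2, hz3⟩ : ∃ z ∈ ball y0 (ρ / 8), (¬ ∃ t ∈ Icc (0 : ℝ) (ρ / 8),
      Ψ (z + 0 + t • e) ∈ (ball (Ψ y0) (12 * ρ) \ G) ∪ E') ∧
      ∀ᵐ t ∂(volume : Measure ℝ), (∀ m, Ψ (z + t • e) ∈ O →
        rk (toL (D (Ψ (z + t • e)))) ≤ p + 1 →
        (∃ ρ : ℝ, 0 < ρ ∧ Ψ (z + t • e) ∈ Gd (nu O D A) lam ρ) → Ψ (z + t • e) ∈ ⋃₀ F m) ∧
        Ψ (z + t • e) ∉ {x | x ∈ ball (Ψ y0) (ρ / 2) ∧ x ∉ E' ∧ (D x).det ≠ 0} := by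
    by_contra hcon
    refine not_le.2 hsm (measure_mono_ae ?_)
    filter_upwards [hN] with z hz hz1
    by_contra hz2
    exact hcon ⟨z, hz1, hz2, hz⟩
  simp only [add_zero] at hz2
  have g1 : ∀ t ∈ Icc (0 : ℝ) (ρ / 8), Ψ (z + t • e) ∈ ball (Ψ y0) (ρ / 2) := by
    intro t ht
    have h2 := h.up (z + t • e) y0
    have h3 : ‖z + t • e - y0‖ ≤ ‖z - y0‖ + ‖t • e‖ := by
      rw [add_sub_right_comm]
      exact norm_add_le _ _
    rw [norm_smul, h.ne, mul_one, Real.norm_eq_abs, abs_of_nonneg ht.1] at h3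
    have h4 := mem_ball_iff_norm.1 hz1
    rw [mem_ball_iff_norm]
    linarith [ht.2]
  have g2 : ∀ t ∈ Icc (0 : ℝ) (ρ / 8), Ψ (z + t • e) ∈ G := fun t ht => by
    by_contra h5
    exact hz2 ⟨t, ht, Or.inl ⟨ball_subset_ball (by linarith) (g1 t ht), h5⟩⟩
  refine line_ne h K0 lipG (z := z) (τ := ρ / 8) (by positivity) g2 F hF1 (fun m T hT => ?_) ?_
  · obtain ⟨c1, B, b1, b2, b3⟩ := hF2 m T hT
    have n1 : ‖toL B - toL A‖ ≤ lam := (norm_toL_sub B A).trans b2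
    have n2 : ‖S‖ * ‖toL B - toL A‖ ≤ 1 / 2 :=
      (mul_le_mul_of_nonneg_left n1 (norm_nonneg _)).trans l3
    obtain ⟨w, hw1, hw2⟩ := hS B n2 (by
      by_contra h6
      have := (rk_eq_iff (toL B)).2 (by rwa [det_toL])
      omega)
    refine ⟨c1, toL B, w, hw1, hw2, n2, ?_, b3⟩
    have := norm_add_le (toL B - toL A) (toL A)
    rw [sub_add_cancel] at this
    linarith
  · filter_upwards [hz3] with t ht ht' m
    refine ht.1 m (h.sub (g2 t ht')) ?_ ⟨R, R0, hG (g2 t ht')⟩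
    have h7 : (D (Ψ (z + t • e))).det = 0 := by
      by_contra h8
      exact ht.2 ⟨g1 t ht', fun h9 => hz2 ⟨t, ht', Or.inr h9⟩, h8⟩
    have h10 := rk_le (toL (D (Ψ (z + t • e))))
    have h11 : rk (toL (D (Ψ (z + t • e)))) ≠ p + 2 := fun h12 =>
      (rk_eq_iff _).1 h12 ((det_toL _).trans h7)
    omega

/-- the local sign lemma -/
theorem ls (A : Mx p) (hA : A.adjugate ≠ 0) : ∃ δ : ℝ, 0 < δ ∧ ∀ (O : Set (W p)) (f : W p → W p)
    (D : W p → Mx p) (μ : Measure (W p))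
    (w : Fin (p + 2) → Fin (p + 2) → Fin (p + 2) → W p → ℝ) (x0 : W p) (ρ : ℝ),
    D1 O f D → D2 O D μ w → Bornology.IsBounded O → InjOn f O → 0 < ρ → 1600 * ρ ≤ 1 →
    ball x0 (1600 * ρ) ⊆ O →
    nu O D A (ball x0 (1600 * ρ)) ≤ ENNReal.ofReal (δ * ρ ^ (p + 2)) →
    μ (ball x0 (1600 * ρ)) ≤ ENNReal.ofReal (δ * ρ ^ (p + 1)) → ∃ b, Loc D x0 ρ b := by
  obtain ⟨S, e, i, σ, hσ, he, hp, hS⟩ := linB A hA
  obtain ⟨C, hC, hL⟩ := lipV p
  obtain ⟨Cb, hCb, hB⟩ := bad_at p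
  have Cb0 : 0 < Cb := by linarith
  have S0 := norm_nonneg S
  have ep0 := ep_pos p
  have e00 := e0_pos p
  obtain ⟨lam, hlam⟩ : ∃ lam : ℝ, lam = 1 / (2 * (C + 1) * (‖S‖ + 1)) := ⟨_, rfl⟩
  have l0 : 0 < lam := by rw [hlam]; positivity
  have l1 : lam * (2 * (C + 1) * (‖S‖ + 1)) = 1 := by rw [hlam]; field_simp
  have l2 : ‖S‖ * (C * lam) ≤ 1 / 2 := by nlinarith [mul_pos l0 hC, mul_nonneg l0.le S0]
  have l3 : ‖S‖ * lam ≤ 1 / 2 := by
    nlinarith [mul_pos l0 hC, mul_nonneg (mul_pos l0 hC).le S0]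
  have l4 : lam ≤ 1 := by
    nlinarith [mul_pos l0 hC, mul_nonneg (mul_pos l0 hC).le S0, mul_nonneg l0.le S0]
  obtain ⟨l', hl'⟩ : ∃ l' : ℝ, l' = lam / (4 ^ (p + 2) * Cb) := ⟨_, rfl⟩
  have l'0 : 0 < l' := by rw [hl']; positivity
  have l'1 : l' * 2 ^ (p + 2) ≤ lam := by
    rw [hl', div_mul_eq_mul_div, div_le_iff₀ (by positivity)]
    refine mul_le_mul_of_nonneg_left ?_ l0.le
    exact (pow_le_pow_left₀ (by norm_num) (by norm_num) _).trans
      (le_mul_of_one_le_right (by positivity) hCb)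
  have l'2 : l' ≤ lam := (le_mul_of_one_le_right l'0.le (one_le_pow₀ one_le_two)).trans l'1
  obtain ⟨δ1, hδ1⟩ : ∃ δ1 : ℝ, δ1 = lam * ep p / (Cb * 16 ^ (p + 1)) := ⟨_, rfl⟩
  have δ10 : 0 < δ1 := by rw [hδ1]; positivity
  obtain ⟨δ, δ0, c1, c2, c3, c4⟩ : ∃ δ : ℝ, 0 < δ ∧ δ ≤ l' / Cb ∧ δ ≤ e0 p / 4 * l' / Cb ∧
      δ ≤ ep p * l' / Cb ∧ δ ≤ e0 p / 4 * δ1 / 5 ^ (p + 1) :=
    ⟨min (min (l' / Cb) (e0 p / 4 * l' / Cb)) (min (ep p * l' / Cb) (e0 p / 4 * δ1 / 5 ^ (p + 1))),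
      by positivity, (min_le_left _ _).trans (min_le_left _ _),
      (min_le_left _ _).trans (min_le_right _ _), (min_le_right _ _).trans (min_le_left _ _),
      (min_le_right _ _).trans (min_le_right _ _)⟩
  refine ⟨δ, δ0, fun O f D μ w x0 ρ h1 h2 hb hi hρ r1 hO hν hμ => ?_⟩
  have P1 : 0 < ρ ^ (p + 1) := by positivity
  -- bad sets at the top scales
  have top : ∀ a l m : ℝ, 1 ≤ a → a ≤ 400 → l' ≤ l → δ ≤ m * l' / Cb →
      Ct (ball x0 (a * ρ) \ Gd (nu O D A) l (a * ρ)) (10 * (a * ρ)) (m * ρ ^ (p + 1)) := by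
    intro a l m a1 a2 hl hm
    have l5 : 0 < l := l'0.trans_le hl
    have sb : ball x0 (4 * (a * ρ)) ⊆ ball x0 (1600 * ρ) := ball_subset_ball (by nlinarith)
    refine (hB O D μ w A x0 (a * ρ) l (δ / l * ρ ^ (p + 1)) h1.op hb h1.i1 h2 (by positivity) l5
      (by positivity) (sb.trans hO) ((measure_mono sb).trans (hν.trans ?_))
      ((measure_mono sb).trans (hμ.trans (le_of_eq ?_)))).mono Subset.rfl le_rfl ?_
    · refine ENNReal.ofReal_le_ofReal ?_
      calc δ * ρ ^ (p + 2) ≤ l / Cb * (a * ρ) ^ (p + 2) := by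
            gcongr
            · exact c1.trans (by gcongr)
            · nlinarith
        _ = _ := by ring
    · congr 1
      field_simp
    · rw [← mul_assoc]
      refine mul_le_mul_of_nonneg_right ?_ P1.le
      rw [le_div_iff₀ Cb0] at hm
      have m0 : 0 ≤ m := by
        by_contra h
        nlinarith [mul_pos δ0 Cb0, mul_pos (neg_pos.2 (not_le.1 h)) l'0]
      rw [← mul_div_assoc, div_le_iff₀ l5]
      nlinarith [mul_le_mul_of_nonneg_left hl m0]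
  obtain ⟨G, hG⟩ : ∃ G, G = ball x0 (12 * ρ) ∩ Gd (nu O D A) lam (192 * ρ) := ⟨_, rfl⟩
  have sO : ∀ x ∈ ball x0 (12 * ρ), ball x (192 * ρ) ⊆ O := fun x hx =>
    (ball_subset_ball' (by linarith [mem_ball.1 hx])).trans hO
  have lipG : ∀ x ∈ G, ∀ y ∈ G, ‖f x - f y - toL A (x - y)‖ ≤ C * lam * ‖x - y‖ := by
    intro x hx y hy
    rw [hG] at hx hy
    refine hL O f D A x y lam (192 * ρ) h1 hb l0.le (by positivity) (by linarith) (sO x hx.1)
      (sO y hy.1) ?_ hx.2 hy.2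
    rw [← dist_eq_norm]
    linarith [dist_triangle_right x y x0, mem_ball.1 hx.1, mem_ball.1 hy.1]
  have GO : G ⊆ O := fun x hx => by
    rw [hG] at hx
    exact sO x hx.1 (mem_ball_self (by positivity))
  obtain ⟨Ψ, h, hsur⟩ := exists_ch h1.ct hi GO he hp (by positivity) l2 lipG
  obtain ⟨y0, hy0⟩ := hsur x0
  have sG : ball x0 (12 * ρ) \ G ⊆ ball x0 (192 * ρ) \ Gd (nu O D A) lam (192 * ρ) := by
    rintro x ⟨hx, hx'⟩
    exact ⟨ball_subset_ball (by linarith) hx, fun h3 => hx' (hG ▸ ⟨hx, h3⟩)⟩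
  have hc0 : Ct (ball (Ψ y0) (4 * (3 * ρ)) \ G) (640 * (3 * ρ)) (ep p * (3 * ρ) ^ (p + 1)) := by
    rw [hy0, show 4 * (3 * ρ) = 12 * ρ by ring]
    refine (top 192 lam (ep p) (by norm_num) (by norm_num) l'2 c3).mono sG (by linarith) ?_
    gcongr
    linarith
  obtain ⟨b0, hb0, d0⟩ := maj' h (y := y0) (s := 3 * ρ) (by positivity)
    (by rw [hy0]; exact (ball_subset_ball (by linarith)).trans hO) hc0
  refine ⟨σ * b0, by rcases hσ with rfl | rfl <;> rcases hb0 with rfl | rfl <;> simp,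
    ⟨(ball x0 (384 * ρ) \ Gd (nu O D A) l' (384 * ρ)) ∪ (ball x0 ρ \ G1 μ δ1 (16 * ρ)), ?_, ?_⟩,
    fun E' hE' => ?_⟩
  · refine (((top 384 l' (e0 p / 4) (by norm_num) (by norm_num) le_rfl c2).mono Subset.rfl
      (R' := 4000 * ρ) (by linarith) le_rfl).union ((g1_ct μ x0 (ρ := ρ) (R := 16 * ρ)
        (m := δ / δ1 * ρ ^ (p + 1)) δ10 (by positivity) ?_).mono Subset.rfl (by linarith)
        (m' := e0 p / 4 * ρ ^ (p + 1)) ?_) (by positivity) (by positivity)).mono Subset.rfl le_rfl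
      (le_of_eq (by ring))
    · refine (measure_mono (ball_subset_ball (by linarith))).trans (hμ.trans (le_of_eq ?_))
      congr 1
      field_simp
    · rw [← mul_assoc]
      refine mul_le_mul_of_nonneg_right ?_ P1.le
      rw [le_div_iff₀ (by positivity)] at c4
      rw [← mul_div_assoc, div_le_iff₀ δ10]
      linarith
  · filter_upwards [ae_bad h1.op hb h1.i1 h2] with x hx hx1 hx2
    have x1 : x ∈ Gd (nu O D A) l' (384 * ρ) := by
      by_contra h3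
      exact hx2 (Or.inl ⟨ball_subset_ball (by linarith) hx1, h3⟩)
    have x2 : x ∈ G1 μ δ1 (16 * ρ) := by
      by_contra h3
      exact hx2 (Or.inr ⟨hx1, h3⟩)
    have x3 : ball x (192 * ρ) ⊆ O := sO x (ball_subset_ball (by linarith) hx1)
    obtain ⟨y, rfl⟩ := hsur x
    obtain ⟨hx3, hx4⟩ := hx (x3 (mem_ball_self (by positivity)))
    have hcs : ∀ s : ℝ, 0 < s → s ≤ ρ →
        Ct (ball (Ψ y) (4 * s) \ G) (640 * s) (ep p * s ^ (p + 1)) := by
      intro s hs hs'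
      refine (hB O D μ w A (Ψ y) (4 * s) lam (ep p * s ^ (p + 1) / Cb) h1.op hb h1.i1 h2
        (by positivity) l0 (by positivity) ((ball_subset_ball (by linarith)).trans x3)
        ((x1 _ (by positivity) (by linarith)).trans (le_of_eq ?_))
        ((x2 _ (by positivity) (by linarith)).trans (le_of_eq ?_))).mono ?_ (by linarith)
        (le_of_eq (by field_simp))
      · congr 1
        rw [hl', mul_pow 4 (4 * s)]
        field_simp
      · congr 1
        rw [hδ1, ← mul_assoc 4 4 s, mul_pow, show (4 * 4 : ℝ) = 16 by norm_num]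
        field_simp
      · rintro z ⟨hz, hz'⟩
        refine ⟨hz, fun h3 => hz' ?_⟩
        rw [hG]
        have z1 := mem_ball.1 hz
        refine ⟨mem_ball.2 (by linarith [dist_triangle z (Ψ y) x0, mem_ball.1 hx1]),
          fun r hr hr' => ?_⟩
        rcases le_total r (4 * s) with h4 | h4
        · exact h3 r hr h4
        · refine (measure_mono (ball_subset_ball' (show r + dist z (Ψ y) ≤ 2 * r by
            linarith))).trans ((x1 (2 * r) (by positivity) (by linarith)).trans ?_)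
          refine ENNReal.ofReal_le_ofReal ?_
          rw [mul_pow, ← mul_assoc]
          exact mul_le_mul_of_nonneg_right l'1 (by positivity)
    have hO4 : ball (Ψ y) (4 * ρ) ⊆ O := (ball_subset_ball (by linarith)).trans x3
    obtain ⟨b1, hb1, d1⟩ := maj' h hρ hO4 (hcs ρ hρ le_rfl)
    have yy : dist y y0 < 2 * ρ := by
      have h3 := h.lo y y0
      rw [hy0, ← dist_eq_norm, ← dist_eq_norm] at h3
      linarith [mem_ball.1 hx1]
    rw [← link h hρ le_rfl (by linarith) (ball_subset_ball' (by linarith)) hc0 hb0 hb1 d0 d1] at d1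
    obtain ⟨ρ1, hρ1, g1⟩ := hx3 lam l0
    have n0 : dd (D (Ψ y)) A ≤ lam := CoverX.near h1.i1 l0 (lt_min hρ hρ1)
      ((ball_subset_ball (by linarith [min_le_left ρ ρ1])).trans x3)
      (Gd_mono le_rfl (min_le_right _ _) g1)
      (Gd_mono l'2 (by linarith [min_le_left ρ ρ1]) x1)
    have n2 : ‖S‖ * ‖toL (D (Ψ y)) - toL A‖ ≤ 1 / 2 :=
      (mul_le_mul_of_nonneg_left ((norm_toL_sub _ A).trans n0) S0).trans l3
    obtain ⟨v, β, κ, κ0, v1, v2, v3⟩ := hS _ n2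
    have n3 := sign_at h h1 hb v1 v2 n2 hx4 hρ hO4 hcs hb0 d1
    have n4 : σ * b0 * (σ * κ * β) = κ * (b0 * β) := by
      rcases hσ with rfl | rfl <;> ring
    rw [v3, n4]
    positivity
  · rw [← hy0]
    refine nv_ch h h1 hb (by positivity) lipG l0 l4 l3 (R := 192 * ρ) (by positivity)
      (hG ▸ inter_subset_right) (fun B n2 hB0 => ?_) hρ ?_ E' hE'
    · obtain ⟨v, β, κ, κ0, v1, v2, v3⟩ := hS B n2
      refine ⟨v, v1, ?_⟩
      have : β = 0 := by
        rw [hB0] at v3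
        rcases hσ with rfl | rfl <;> simpa [κ0.ne'] using v3
      rw [v2, this, zero_smul]
    · rw [hy0]
      exact (top 192 lam (e0 p / 4) (by norm_num) (by norm_num) l'2 c2).mono sG (by linarith)
        (by nlinarith)

end NV

end
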