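import Mathlib
import Pool.Agent.MP_edaf86_an.NvC

section

namespace NV
open Set Filter Topology MeasureTheory Metric Function
open scoped ENNReal

variable {p : ℕ}

theorem mo_L1_le (k : ℕ) {u : W p → ℝ} (hu : Integrable u volume) :
    ∫⁻ y, ‖mo k u y‖ₑ ≤ ∫⁻ y, ‖u y‖ₑ := by
  have hgm : AEMeasurable (fun z => ‖u z‖ₑ) volume := hu.aestronglyMeasurable.enorm
  have hK : Measurable fun q : W p × W p => ‖(MoBX.bk p k).normed volume (q.1 - q.2)‖ₑ :=
    ((MoBX.bk p k).continuous_normed.comp (continuous_fst.sub continuous_snd)).measurable.enorm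
  calc ∫⁻ y, ‖mo k u y‖ₑ ≤ ∫⁻ y, ∫⁻ z, ‖(MoBX.bk p k).normed volume (y - z)‖ₑ * ‖u z‖ₑ := by
        refine lintegral_mono fun y => ?_
        rw [MoBX.mo_eq]
        exact (enorm_integral_le_lintegral_enorm _).trans (lintegral_mono fun z =>
          (enorm_mul _ _).le)
    _ = ∫⁻ z, ∫⁻ y, ‖(MoBX.bk p k).normed volume (y - z)‖ₑ * ‖u z‖ₑ :=
        lintegral_lintegral_swap (hK.aemeasurable.mul hgm.comp_snd)
    _ = ∫⁻ z, ‖u z‖ₑ := by
        refine lintegral_congr fun z => ?_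
        have hz : Measurable fun y : W p => ‖(MoBX.bk p k).normed volume (y - z)‖ₑ :=
          (((MoBX.bk p k).continuous_normed (μ := volume)).measurable.comp
            (measurable_sub_const z)).enorm
        rw [lintegral_mul_const _ hz, BoxWX.ker_int, one_mul]

/-- L1 convergence of mollifications -/
theorem mo_L1_tendsto {u : W p → ℝ} (hu : Integrable u volume) :
    Tendsto (fun k => ∫⁻ y, ‖u y - mo k u y‖ₑ) atTop (𝓝 0) := by
  have mc : ∀ k, Continuous (mo k u) := fun k => (mo_contDiff k hu).continuous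
  have mi : ∀ k, Integrable (mo k u) volume := fun k =>
    ⟨(mc k).aestronglyMeasurable, (mo_L1_le k hu).trans_lt hu.2⟩
  obtain ⟨G, hG⟩ : ∃ G : ℕ → W p → ℝ, ∀ k y, G k y = ‖u y‖ - ‖mo k u y‖ + ‖u y - mo k u y‖ :=
    ⟨_, fun _ _ => rfl⟩
  -- the function |u - u_k| - |u_k| + |u| is dominated by 2 |u| and tends to 0
  have h1 : Tendsto (fun k => ∫ y, G k y) atTop (𝓝 (∫ _y : W p, (0 : ℝ))) := by
    refine tendsto_integral_of_dominated_convergence (fun y => 2 * ‖u y‖) (fun k => ?_)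
      (hu.norm.const_mul 2) (fun k => Eventually.of_forall fun y => ?_) ?_
    · rw [show G k = fun y => ‖u y‖ - ‖mo k u y‖ + ‖u y - mo k u y‖ from funext (hG k)]
      exact ((hu.norm.sub (mi k).norm).add (hu.sub (mi k)).norm).aestronglyMeasurable
    · rw [hG, Real.norm_eq_abs (_ + _), abs_le]
      have a1 := norm_sub_le (u y) (mo k u y)
      have a2 := norm_sub_le (u y) (u y - mo k u y)
      rw [sub_sub_cancel] at a2
      constructor <;> linarith [norm_nonneg (u y)]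
    · filter_upwards [mo_ae_tendsto hu] with y hy
      simp only [hG]
      simpa using ((tendsto_const_nhds (x := ‖u y‖)).sub hy.norm).add
        ((tendsto_const_nhds (x := u y)).sub hy).norm
  rw [integral_zero] at h1
  have h2 : ∀ k, ∫ y, ‖u y - mo k u y‖ ≤ ∫ y, G k y := fun k => by
    simp only [hG]
    have b1 : Integrable (fun y => ‖u y‖ - ‖mo k u y‖) volume := hu.norm.sub (mi k).norm
    have b2 : Integrable (fun y => ‖u y - mo k u y‖) volume := (hu.sub (mi k)).norm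
    rw [integral_add b1 b2, integral_sub hu.norm (mi k).norm]
    have h3 := mo_L1_le k hu
    rw [← ofReal_integral_norm_eq_lintegral_enorm hu,
      ← ofReal_integral_norm_eq_lintegral_enorm (mi k),
      ENNReal.ofReal_le_ofReal_iff (integral_nonneg fun _ => norm_nonneg _)] at h3
    linarith
  have h4 : Tendsto (fun k => ENNReal.ofReal (∫ y, G k y)) atTop (𝓝 0) := by
    simpa using ENNReal.tendsto_ofReal h1
  refine tendsto_of_tendsto_of_tendsto_of_le_of_le tendsto_const_nhds h4 (fun _ => zero_le)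
    fun k => ?_
  exact (ofReal_integral_norm_eq_lintegral_enorm (hu.sub (mi k))).ge.trans
    (ENNReal.ofReal_le_ofReal (h2 k))

/-- subtracting a C1 function -/
theorem weak_sub' {O : Set (W p)} (hO : MeasurableSet O) {i : Fin (p + 2)} {u v h h' : W p → ℝ}
    (hu : IntegrableOn u O volume) (hv : IntegrableOn v O volume) (hw : SJ.WeakPD O i u v)
    (hh : ContDiff ℝ 1 h) (hh' : ∀ x ∈ O, fderiv ℝ h x (Pi.single i 1) = h' x) :
    SJ.WeakPD O i (fun x => u x - h x) (fun x => v x - h' x) := by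
  intro φ h1 h2 h3
  have e := hw φ h1 h2 h3
  have hc : Continuous φ := h1.continuous
  have hc' : Continuous fun x => fderiv ℝ φ x (Pi.single i 1) :=
    (h1.continuous_fderiv (by simp)).clm_apply continuous_const
  have hs' : HasCompactSupport fun x => fderiv ℝ φ x (Pi.single i 1) := h2.fderiv_apply ℝ _
  have hd : Continuous fun x => fderiv ℝ h x (Pi.single i 1) :=
    (hh.continuous_fderiv one_ne_zero).clm_apply continuous_const
  have a1 := LebX.int_mul' hh.continuous hc' hs'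
  have a2 := LebX.int_mul' hd hc h2
  have e2 := integral_mul_fderiv_eq_neg_fderiv_mul_of_integrable a2 a1
    (LebX.int_mul' hh.continuous hc h2) (fun x _ => hh.differentiable one_ne_zero x)
    (fun x _ => h1.differentiable (by simp) x)
  rw [← setIntegral_eq_integral_of_forall_compl_eq_zero (s := O) (fun x hx => by
      rw [fderiv_of_notMem_tsupport ℝ fun hh => hx (h3 hh)]; simp),
    ← setIntegral_eq_integral_of_forall_compl_eq_zero (s := O)
      (f := fun x => fderiv ℝ h x (Pi.single i 1) * φ x) (fun x hx => by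
      rw [image_eq_zero_of_notMem_tsupport fun hh => hx (h3 hh)]; simp)] at e2
  have e3 : ∫ x in O, (v x - h' x) * φ x = ∫ x in O, (v x - fderiv ℝ h x (Pi.single i 1)) * φ x :=
    setIntegral_congr_fun hO fun x hx => by simp only [hh' x hx]
  rw [e3]
  simp only [sub_mul]
  rw [integral_sub (LebX.int_mul hu hc' hs') a1.integrableOn,
    integral_sub (LebX.int_mul hv hc h2) a2.integrableOn, e, e2]
  ring

end NV

end

section

namespace NV
open Set Filter Topology MeasureTheory Metric Function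
open scoped ENNReal

variable {p : ℕ}

/-- continuous approximation of the differential off a set of small content -/
theorem approxW {O : Set (W p)} (hO : IsOpen O) {D : W p → Mx p}
    (hD : ∀ a i, IntegrableOn (fun x => D x a i) O volume) {μ : Measure (W p)}
    {w : Fin (p + 2) → Fin (p + 2) → Fin (p + 2) → W p → ℝ} (h2 : D2 O D μ w) {c : W p} {R : ℝ}
    (hR : 0 < R) (hsub : ball c (9 * R) ⊆ O) {lam ε : ℝ} (hlam : 0 < lam) (hε : 0 < ε) :
    ∃ (V : W p → Mx p) (ν : Measure (W p)), (∀ a i, Continuous fun x => V x a i) ∧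
      Ct (ball c (2 * R) \ Gd ν lam (2 * R)) (20 * R) ε ∧
      ∀ (x : W p) (r : ℝ), ball x r ⊆ ball c (8 * R) →
        ∑ a, ∑ i, ∫⁻ y in ball x r, ‖D y a i - V y a i‖ₑ ≤ ν (ball x r) := by
  obtain ⟨C, hC, hB⟩ := bad_at p
  have C0 : 0 < C := by linarith
  obtain ⟨O1, hO1⟩ : ∃ O1, O1 = ball c (8 * R) := ⟨_, rfl⟩
  have o1 : IsOpen O1 := hO1 ▸ isOpen_ball
  have b1 : Bornology.IsBounded O1 := hO1 ▸ isBounded_ball
  have s1 : O1 ⊆ O := hO1 ▸ (ball_subset_ball (by linarith)).trans hsub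
  have mO := hO.measurableSet
  have j1 := fun a i => (integrable_indicator_iff mO).2 (hD a i)
  have j2 := fun a i j => (integrable_indicator_iff mO).2 (h2.i2 a i j)
  have loc : ∀ (u : W p → ℝ) (k : ℕ), ∫⁻ y in O1, ‖u y - mo k (O.indicator u) y‖ₑ ≤
      ∫⁻ y, ‖O.indicator u y - mo k (O.indicator u) y‖ₑ := fun u k => by
    refine le_trans (le_of_eq ?_) (setLIntegral_le_lintegral O1 _)
    refine setLIntegral_congr_fun o1.measurableSet fun y hy => ?_
    simp only [indicator_of_mem (s1 hy)]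
  have t1 : Tendsto (fun k => ∑ a, ∑ i, ∫⁻ y, ‖O.indicator (fun x => D x a i) y -
      mo k (O.indicator fun x => D x a i) y‖ₑ) atTop (𝓝 0) := by
    simpa using tendsto_finsetSum _ fun a _ => tendsto_finsetSum _ fun i _ =>
      mo_L1_tendsto (j1 a i)
  have t2 : Tendsto (fun k => ∑ t : Fin (p + 2) × Fin (p + 2) × Fin (p + 2),
      ∫⁻ y, ‖O.indicator (w t.1 t.2.1 t.2.2) y -
      mo k (O.indicator (w t.1 t.2.1 t.2.2)) y‖ₑ) atTop (𝓝 0) := by
    simpa using tendsto_finsetSum (Finset.univ : Finset (Fin (p + 2) × Fin (p + 2) × Fin (p + 2)))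
      fun t _ => mo_L1_tendsto (j2 t.1 t.2.1 t.2.2)
  have t3 : Tendsto (fun k : ℕ => (1 / 2 : ℝ) ^ k) atTop (𝓝 0) :=
    tendsto_pow_atTop_nhds_zero_of_lt_one (by norm_num) (by norm_num)
  obtain ⟨k, k1, k2, k3⟩ := ((t1.eventually (ge_mem_nhds (ENNReal.ofReal_pos.2
    (show 0 < lam * (2 * R) ^ (p + 2) / C by positivity)))).and ((t2.eventually (ge_mem_nhds
    (ENNReal.ofReal_pos.2 (show 0 < lam * (ε / C) by positivity)))).and
    (t3.eventually (ge_mem_nhds hR)))).exists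
  have ic : ∀ {u : W p → ℝ}, Integrable u volume → IntegrableOn (mo k u) O1 volume := fun hu =>
    ((mo_contDiff k hu).continuous.continuousOn.integrableOn_compact
      b1.isCompact_closure).mono_set subset_closure
  obtain ⟨V, hV⟩ : ∃ V : W p → Mx p, ∀ x a i, V x a i = mo k (O.indicator fun x => D x a i) x :=
    ⟨fun x => Matrix.of fun a i => mo k (O.indicator fun x => D x a i) x, fun _ _ _ => rfl⟩
  obtain ⟨w1, hw1⟩ : ∃ w1 : Fin (p + 2) → Fin (p + 2) → Fin (p + 2) → W p → ℝ, ∀ a i j,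
      w1 a i j = fun x => w a i j x - mo k (O.indicator (w a i j)) x := ⟨_, fun _ _ _ => rfl⟩
  have i1 : ∀ a i, IntegrableOn (fun x => (D x - V x) a i) O1 volume := fun a i => by
    rw [show (fun x => (D x - V x) a i) = fun x => D x a i -
      mo k (O.indicator fun x => D x a i) x from funext fun x => by rw [Matrix.sub_apply, hV]]
    exact ((hD a i).mono_set s1).sub (ic (j1 a i))
  have i2 : ∀ a i j, IntegrableOn (w1 a i j) O1 volume := fun a i j => by
    rw [hw1]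
    exact ((h2.i2 a i j).mono_set s1).sub (ic (j2 a i j))
  obtain ⟨μ1, hμ1⟩ : ∃ μ1 : Measure (W p), μ1 = (volume.restrict O1).withDensity fun y =>
      ∑ t : Fin (p + 2) × Fin (p + 2) × Fin (p + 2), ‖w1 t.1 t.2.1 t.2.2 y‖ₑ := ⟨_, rfl⟩
  have d2 : D2 O1 (fun x => D x - V x) μ1 w1 := by
    refine ⟨i2, fun a i j => ?_, fun a i j x r hx => ?_⟩
    · simp only [Matrix.sub_apply, hV, hw1]
      refine weak_sub' o1.measurableSet ((hD a i).mono_set s1) ((h2.i2 a i j).mono_set s1)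
        (MoAX.weak_mono mO s1 (h2.wk a i j)) ((mo_contDiff k (j1 a i)).of_le (by norm_num))
        fun x hx => mo_fderiv k mO (hD a i) (h2.i2 a i j) (h2.wk a i j) x ?_
      rw [hO1] at hx
      exact (closedBall_subset_ball' (by linarith [mem_ball.1 hx])).trans hsub
    · rw [hμ1, withDensity_apply _ measurableSet_ball,
        Measure.restrict_restrict measurableSet_ball, inter_eq_left.2 hx]
      exact lintegral_mono fun y => Finset.single_le_sum
        (f := fun t : Fin (p + 2) × Fin (p + 2) × Fin (p + 2) => ‖w1 t.1 t.2.1 t.2.2 y‖ₑ)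
        (fun _ _ => zero_le) (Finset.mem_univ (a, i, j))
  have e8 : ball c (4 * (2 * R)) = O1 := by rw [hO1, show 4 * (2 * R) = 8 * R by ring]
  have na : ∀ (x : W p) (r : ℝ), ball x r ⊆ O1 → nu O1 (fun x => D x - V x) 0 (ball x r) =
      ∑ a, ∑ i, ∫⁻ y in ball x r, ‖D y a i - V y a i‖ₑ := fun x r hx => by
    rw [nu_apply i1 0 hx]
    simp only [Matrix.sub_apply, Matrix.zero_apply, sub_zero]
  refine ⟨V, nu O1 (fun x => D x - V x) 0, fun a i => ?_, ?_, fun x r hx => (na x r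
    (hO1 ▸ hx)).ge⟩
  · simp only [hV]
    exact (mo_contDiff k (j1 a i)).continuous
  · refine (hB O1 _ μ1 w1 0 c (2 * R) lam (ε / C) o1 b1 i1 d2 (by positivity) hlam
      (by positivity) e8.le ?_ ?_).mono Subset.rfl (by linarith) (le_of_eq (by field_simp))
    · rw [na _ _ e8.le, e8]
      refine le_trans (Finset.sum_le_sum fun a _ => Finset.sum_le_sum fun i _ => ?_) k1
      simp only [hV]
      exact loc (fun x => D x a i) k
    · rw [e8, hμ1, withDensity_apply _ o1.measurableSet,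
        Measure.restrict_restrict o1.measurableSet, inter_self,
        lintegral_finsetSum' _ fun t _ => (i2 t.1 t.2.1 t.2.2).aestronglyMeasurable.enorm]
      refine le_trans (Finset.sum_le_sum fun t _ => ?_) k2
      rw [hw1]
      exact loc _ k

end NV

end

section

namespace NV
open Set Filter Topology MeasureTheory Metric Function
open scoped ENNReal

variable {p : ℕ}

namespace HausX

theorem geo {ε : ℝ} (hε : 0 ≤ ε) :
    ∑' j : ℕ, ENNReal.ofReal (ε * (1 / 2) ^ (j + 1)) = ENNReal.ofReal ε := by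
  have h : HasSum (fun j : ℕ => ε * (1 / 2) ^ (j + 1)) ε := by
    have h1 := hasSum_geometric_two.mul_left (ε / 2)
    rw [div_mul_cancel₀ _ two_ne_zero] at h1
    exact h1.congr_fun fun j => by ring
  rw [← ENNReal.ofReal_tsum_of_nonneg (fun j => by positivity) h.summable, h.tsum_eq]

theorem one {t : Set (W p)} {R δ : ℝ} (hR : 0 < R) (hδ : 0 < δ)
    (ht : ediam t ≤ ENNReal.ofReal (R / 2)) : ∃ U : Set (W p), IsOpen U ∧ t ⊆ U ∧
      ∀ (T : W p → W p → Prop) (κ : ℝ≥0∞), (∀ (x : W p) (r : ℝ), 0 < r → r ≤ R →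
        volume (sh T (ball x r)) ≤ κ * ENNReal.ofReal (r ^ (p + 1))) → volume (sh T U) ≤
        κ * ((⨆ _ : t.Nonempty, ediam t ^ ((p : ℝ) + 1)) + ENNReal.ofReal δ) := by
  rcases t.eq_empty_or_nonempty with rfl | ⟨x, hx⟩
  · refine ⟨∅, isOpen_empty, subset_rfl, fun T κ _ => ?_⟩
    rw [show sh T (∅ : Set (W p)) = ∅ from eq_empty_of_forall_notMem fun z ⟨_, h, _⟩ => h,
      measure_empty]
    exact zero_le
  have h0 : ediam t ≠ ⊤ := ne_top_of_le_ne_top ENNReal.ofReal_ne_top ht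
  have h1 : diam t ≤ R / 2 := ENNReal.toReal_le_of_le_ofReal (half_pos hR).le ht
  have h2 : ∀ᶠ r in 𝓝[>] diam t, r ^ (p + 1) < diam t ^ (p + 1) + δ ∧ r < R :=
    nhdsWithin_le_nhds (((continuous_pow (p + 1)).tendsto _).eventually
      (gt_mem_nhds (lt_add_of_pos_right _ hδ)) |>.and (gt_mem_nhds (by linarith)))
  obtain ⟨r, ⟨h3, h4⟩, h5⟩ := (h2.and self_mem_nhdsWithin).exists
  refine ⟨ball x r, isOpen_ball, fun y hy => (dist_le_diam_of_mem' h0 hy hx).trans_lt h5,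
    fun T κ hT => (hT x r (diam_nonneg.trans_lt h5) h4.le).trans (mul_le_mul_right ?_ _)⟩
  refine (ENNReal.ofReal_le_ofReal h3.le).trans (ENNReal.ofReal_add_le.trans_eq ?_)
  rw [iSup_pos ⟨x, hx⟩, ENNReal.ofReal_pow diam_nonneg, diam, ENNReal.ofReal_toReal h0,
    ← ENNReal.rpow_natCast, Nat.cast_succ]

end HausX

theorem Ct.iUnion {E : ℕ → Set (W p)} {R ε : ℝ} (hε : 0 ≤ ε)
    (h : ∀ j, Ct (E j) R (ε * (1 / 2) ^ (j + 1))) : Ct (⋃ j, E j) R ε := by
  intro T κ hT
  rw [sh_iUnion, ← HausX.geo hε, ← ENNReal.tsum_mul_left]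
  exact (measure_iUnion_le _).trans (ENNReal.tsum_le_tsum fun j => h j T κ hT)

/-- a Hausdorff null set has open neighbourhoods of small content -/
theorem haus {N : Set (W p)} (hN : Measure.hausdorffMeasure ((p : ℝ) + 1) N = 0) {R ε : ℝ}
    (hR : 0 < R) (hε : 0 < ε) : ∃ V : Set (W p), IsOpen V ∧ N ⊆ V ∧ Ct V R ε := by
  rw [Measure.hausdorffMeasure_apply] at hN
  have h1 := (ENNReal.iSup_eq_zero.1 (ENNReal.iSup_eq_zero.1 hN (ENNReal.ofReal (R / 2)))
    (ENNReal.ofReal_pos.2 (half_pos hR))).trans_lt (ENNReal.ofReal_pos.2 (half_pos hε))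
  simp only [iInf_lt_iff] at h1
  obtain ⟨t, h2, h3, h4⟩ := h1
  choose U u1 u2 u3 using fun n => HausX.one (δ := ε / 2 * (1 / 2) ^ (n + 1)) hR (by positivity)
    (h3 n)
  refine ⟨⋃ n, U n, isOpen_iUnion u1, h2.trans (iUnion_mono u2), fun T κ hT => ?_⟩
  rw [sh_iUnion]
  refine (measure_iUnion_le _).trans ((ENNReal.tsum_le_tsum fun n => u3 n T κ hT).trans ?_)
  rw [ENNReal.tsum_mul_left, ENNReal.tsum_add, HausX.geo (half_pos hε).le]
  refine mul_le_mul_right ((add_le_add h4.le le_rfl).trans_eq ?_) _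
  rw [← ENNReal.ofReal_add (half_pos hε).le (half_pos hε).le, add_halves]

end NV

end

section

namespace NV
open Set Filter Topology MeasureTheory Metric Function
open scoped ENNReal

variable {p : ℕ}

namespace QuasiX

theorem key {O : Set (W p)} {D V : W p → Mx p}
    (hD : ∀ a i, IntegrableOn (fun x => D x a i) O volume)
    (hV : ∀ a i, Continuous fun x => V x a i) {y : W p} {r lam M : ℝ} (hr : 0 < r)
    (hlam : 0 ≤ lam) (hM : 0 ≤ M) (hO : ball y r ⊆ O)
    (h : ∑ a, ∑ i, ∫⁻ z in ball y r, ‖D z a i - V z a i‖ₑ ≤ ENNReal.ofReal (lam * r ^ (p + 2)))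
    {A : Mx p} (hA : ∀ z ∈ ball y r, dd A (V z) ≤ M) :
    nu O D A (ball y r) ≤ ENNReal.ofReal ((lam + 2 ^ (p + 2) * M) * r ^ (p + 2)) := by
  have hm : ∀ a i, AEMeasurable (fun z => ‖D z a i - V z a i‖ₑ) (volume.restrict (ball y r)) :=
    fun a i => (((hD a i).mono_set hO).aestronglyMeasurable.sub
      (hV a i).aestronglyMeasurable).enorm
  rw [nu, withDensity_apply _ measurableSet_ball, Measure.restrict_restrict measurableSet_ball,
    inter_eq_left.2 hO]
  refine (setLIntegral_mono' measurableSet_ball fun z hz => (LebX.tri (D z) A (V z)).trans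
    (add_le_add le_rfl (ENNReal.ofReal_le_ofReal (hA z hz)))).trans ?_
  rw [lintegral_add_right _ measurable_const, setLIntegral_const, vol_ball y hr,
    lintegral_finsetSum' _ fun a _ => Finset.aemeasurable_fun_sum _ fun i _ => hm a i,
    Finset.sum_congr rfl fun a _ => lintegral_finsetSum' _ fun i _ => hm a i,
    ← ENNReal.ofReal_mul hM, add_mul, ENNReal.ofReal_add (by positivity) (by positivity)]
  refine add_le_add h (le_of_eq ?_)
  rw [mul_pow]
  congr 1
  ring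

theorem dd_tri (A B C : Mx p) : dd A C ≤ dd A B + dd B C := by
  simp only [dd, ← Finset.sum_add_distrib]
  exact Finset.sum_le_sum fun a _ => Finset.sum_le_sum fun i _ => abs_sub_le _ _ _

theorem entry (A B : Mx p) (a i : Fin (p + 2)) : |A a i - B a i| ≤ dd A B :=
  (Finset.single_le_sum (f := fun i => |A a i - B a i|) (fun _ _ => abs_nonneg _)
    (Finset.mem_univ i)).trans (Finset.single_le_sum (f := fun a => ∑ i, |A a i - B a i|)
      (fun _ _ => Finset.sum_nonneg fun _ _ => abs_nonneg _) (Finset.mem_univ a))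

theorem near {V : W p → Mx p} (hV : ∀ a i, Continuous fun x => V x a i) (x : W p) {δ : ℝ}
    (hδ : 0 < δ) : ∃ ρ : ℝ, 0 < ρ ∧ ∀ z ∈ ball x ρ, dd (V x) (V z) ≤ δ := by
  have hc : Continuous fun z => dd (V x) (V z) :=
    continuous_finsetSum _ fun a _ => continuous_finsetSum _ fun i _ =>
      (continuous_const.sub (hV a i)).abs
  have h0 : dd (V x) (V x) < δ := by simpa [dd] using hδ
  obtain ⟨ρ, hρ, h⟩ := Metric.eventually_nhds_iff_ball.1 (hc.continuousAt.eventually_lt_const h0)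
  exact ⟨ρ, hρ, fun z hz => (h z hz).le⟩

theorem close {O : Set (W p)} {D V V' : W p → Mx p}
    (hD : ∀ a i, IntegrableOn (fun x => D x a i) O volume)
    (hV : ∀ a i, Continuous fun x => V x a i) (hV' : ∀ a i, Continuous fun x => V' x a i)
    {x : W p} {ρ lam lam' : ℝ} (hρ : 0 < ρ) (hlam : 0 ≤ lam) (hlam' : 0 ≤ lam')
    (hO : ball x ρ ⊆ O)
    (h : ∀ r, 0 < r → r ≤ ρ →
      ∑ a, ∑ i, ∫⁻ z in ball x r, ‖D z a i - V z a i‖ₑ ≤ ENNReal.ofReal (lam * r ^ (p + 2)))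
    (h' : ∀ r, 0 < r → r ≤ ρ →
      ∑ a, ∑ i, ∫⁻ z in ball x r, ‖D z a i - V' z a i‖ₑ ≤ ENNReal.ofReal (lam' * r ^ (p + 2))) :
    dd (V x) (V' x) ≤ lam + lam' := by
  refine le_of_forall_pos_le_add fun δ hδ => ?_
  obtain ⟨a, ha, h1⟩ := near hV x (half_pos hδ)
  obtain ⟨b, hb, h2⟩ := near hV' x (half_pos hδ)
  have hr : 0 < min ρ (min a b) := lt_min hρ (lt_min ha hb)
  have r1 : min ρ (min a b) ≤ ρ := min_le_left _ _
  have r2 : min ρ (min a b) ≤ a := (min_le_right _ _).trans (min_le_left _ _)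
  have r3 : min ρ (min a b) ≤ b := (min_le_right _ _).trans (min_le_right _ _)
  generalize min ρ (min a b) = r at hr r1 r2 r3
  have hs := (ball_subset_ball r1).trans hO
  have k := (nu_tri' hD (V x) (V' x) hr hs).trans (add_le_add
    (QuasiX.key hD hV hr hlam (half_pos hδ).le hs (h r hr r1) fun z hz => h1 z (ball_subset_ball r2 hz))
    (QuasiX.key hD hV' hr hlam' (half_pos hδ).le hs (h' r hr r1)
      fun z hz => h2 z (ball_subset_ball r3 hz)))
  rw [← ENNReal.ofReal_add (by positivity) (by positivity),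
    ENNReal.ofReal_le_ofReal_iff (by positivity), mul_pow, ← mul_assoc, ← add_mul] at k
  have k2 := le_of_mul_le_mul_right k (by positivity)
  have t : (1 : ℝ) ≤ 2 ^ (p + 2) := one_le_pow₀ (by norm_num)
  refine le_of_mul_le_mul_right (a := 2 ^ (p + 2)) (k2.trans ?_) (by positivity)
  nlinarith [mul_le_mul_of_nonneg_left t (add_nonneg hlam hlam')]

end QuasiX

open QuasiX in
/-- quasi-continuity of the precise representative of the differential -/
theorem quasi {O : Set (W p)} (hO : IsOpen O) {D : W p → Mx p}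
    (hD : ∀ a i, IntegrableOn (fun x => D x a i) O volume) {μ : Measure (W p)}
    {w : Fin (p + 2) → Fin (p + 2) → Fin (p + 2) → W p → ℝ} (h2 : D2 O D μ w) {c : W p} {R : ℝ}
    (hR : 0 < R) (hsub : ball c (9 * R) ⊆ O) {ε : ℝ} (hε : 0 < ε) :
    ∃ G : Set (W p), IsClosed G ∧ Ct (ball c (2 * R) \ G) (20 * R) ε ∧
      ∀ x ∈ G ∩ ball c (2 * R), ∃ A : Mx p, ∀ η : ℝ, 0 < η → ∃ t : ℝ, 0 < t ∧
        ∀ y ∈ G ∩ ball x t, y ∈ Gd (nu O D A) η t := by
  choose V ν hV hC hI using fun j : ℕ => approxW hO hD h2 hR hsub (lam := (1 / 2) ^ j)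
    (ε := ε * (1 / 2) ^ (j + 1)) (by positivity) (by positivity)
  refine ⟨⋂ j, Gd (ν j) ((1 / 2) ^ j) (2 * R), isClosed_iInter fun j => isClosed_Gd _ _ _,
    (Ct.iUnion hε.le hC).mono (by rw [sdiff_iInter]) le_rfl le_rfl, ?_⟩
  rintro x ⟨hxG, hx⟩
  have h8 : ball c (8 * R) ⊆ O := (ball_subset_ball (by linarith)).trans hsub
  have hb : ∀ j, ∀ y ∈ ⋂ j, Gd (ν j) ((1 / 2) ^ j) (2 * R), ∀ r, 0 < r → r ≤ 2 * R →
      ball y r ⊆ ball c (8 * R) → ∑ a, ∑ i, ∫⁻ z in ball y r, ‖D z a i - V j z a i‖ₑ ≤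
        ENNReal.ofReal ((1 / 2) ^ j * r ^ (p + 2)) := fun j y hy r hr hr' hs =>
    (hI j y r hs).trans (mem_iInter.1 hy j r hr hr')
  have hx8 : ∀ r, r ≤ 6 * R → ball x r ⊆ ball c (8 * R) := fun r hr =>
    ball_subset_ball' (by linarith [mem_ball.1 hx])
  have hc : ∀ j l, dd (V j x) (V l x) ≤ (1 / 2) ^ j + (1 / 2) ^ l := fun j l =>
    close hD (hV j) (hV l) (ρ := 2 * R) (by positivity) (by positivity) (by positivity)
      ((hx8 _ (by linarith)).trans h8)
      (fun r hr hr' => hb j x hxG r hr hr' (hx8 r (by linarith)))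
      (fun r hr hr' => hb l x hxG r hr hr' (hx8 r (by linarith)))
  choose A hA using fun a i : Fin (p + 2) => cauchySeq_tendsto_of_complete
    (cauchySeq_of_le_geometric (1 / 2 : ℝ) 2 (by norm_num) (f := fun j => V j x a i) fun j => by
      rw [Real.dist_eq]
      linarith [entry (V j x) (V (j + 1) x) a i, hc j (j + 1), half j])
  have hl : ∀ j, dd (Matrix.of A) (V j x) ≤ (1 / 2) ^ j := fun j => by
    have t1 : Tendsto (fun l => dd (V l x) (V j x)) atTop (𝓝 (dd (Matrix.of A) (V j x))) :=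
      tendsto_finsetSum _ fun a _ => tendsto_finsetSum _ fun i _ =>
        ((hA a i).sub_const _).abs
    have t2 : Tendsto (fun l : ℕ => (1 / 2 : ℝ) ^ l + (1 / 2) ^ j) atTop (𝓝 (0 + (1 / 2) ^ j)) :=
      (tendsto_pow_atTop_nhds_zero_of_lt_one (by norm_num) (by norm_num)).add_const _
    rw [zero_add] at t2
    exact le_of_tendsto_of_tendsto' t1 t2 fun l => hc l j
  refine ⟨Matrix.of A, fun η hη => ?_⟩
  have hn : (0 : ℝ) < 2 ^ (p + 2) := by positivity
  obtain ⟨j, hj⟩ := exists_pow_lt_of_lt_one (x := η / 2 / (1 + 2 ^ (p + 2))) (y := (1 / 2 : ℝ))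
    (by positivity) (by norm_num)
  rw [lt_div_iff₀ (by positivity)] at hj
  obtain ⟨ρ, hρ, hz⟩ := near (hV j) x (δ := η / 2 / 2 ^ (p + 2)) (by positivity)
  have t1 : min (ρ / 2) (2 * R) ≤ ρ / 2 := min_le_left _ _
  have t2 : min (ρ / 2) (2 * R) ≤ 2 * R := min_le_right _ _
  refine ⟨min (ρ / 2) (2 * R), by positivity, fun y hy r hr hr' => ?_⟩
  have hyx := mem_ball.1 hy.2
  have s1 : ball y r ⊆ ball x ρ := ball_subset_ball' (by linarith)
  have s2 : ball y r ⊆ ball c (8 * R) :=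
    (ball_subset_ball' (by linarith)).trans (hx8 (4 * R) (by linarith))
  refine (QuasiX.key hD (hV j) hr (by positivity) (M := (1 / 2) ^ j + η / 2 / 2 ^ (p + 2))
    (by positivity) (s2.trans h8) (hb j y hy.1 r hr (hr'.trans t2) s2) fun z hz' =>
      (dd_tri _ (V j x) _).trans (add_le_add (hl j) (hz z (s1 hz')))).trans
    (ENNReal.ofReal_le_ofReal (mul_le_mul_of_nonneg_right ?_ (by positivity)))
  rw [mul_add, mul_div_cancel₀ _ hn.ne']
  linarith

end NV

end

section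

namespace NV
open Set Filter Topology MeasureTheory Metric Function
open scoped ENNReal

variable {p : ℕ}

/-- uniform local signs off a set of small content -/
theorem ptsC {O : Set (W p)} {f : W p → W p} {D : W p → Mx p} {μ : Measure (W p)}
    {w : Fin (p + 2) → Fin (p + 2) → Fin (p + 2) → W p → ℝ} (h1 : D1 O f D) (h2 : D2 O D μ w)
    (hb : Bornology.IsBounded O) (hi : InjOn f O) {c : W p} {R : ℝ} (hR : 0 < R)
    (hsub : ball c (9 * R) ⊆ O) {N : Set (W p)}
    (hN : Measure.hausdorffMeasure ((p : ℝ) + 1) N = 0)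
    (hr : ∀ x ∈ O, x ∉ N → ∀ A : Mx p,
      (∀ η : ℝ, 0 < η → ∃ ρ : ℝ, 0 < ρ ∧ x ∈ Gd (nu O D A) η ρ) → A.adjugate ≠ 0)
    {ε : ℝ} (hε : 0 < ε) : ∃ (E : Set (W p)) (δ ρ0 : ℝ), Ct E (20 * R) ε ∧ 0 < δ ∧ 0 < ρ0 ∧
      ∀ x ∈ ball c R, x ∉ E → ∀ ρ : ℝ, 0 < ρ → ρ ≤ ρ0 →
        μ (ball x (3200 * ρ)) ≤ ENNReal.ofReal (δ * ρ ^ (p + 1)) → ∃ b, Loc D x ρ b := by
  obtain ⟨G, hG, hGc, hq⟩ := quasi h1.op h1.i1 h2 hR hsub (half_pos hε)
  obtain ⟨V, hV, hNV, hVc⟩ := haus hN (R := 20 * R) (by positivity) (half_pos hε)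
  have hZ : IsCompact (closedBall c R ∩ (G ∩ Vᶜ)) :=
    (isCompact_closedBall c R).inter_right (hG.inter hV.isClosed_compl)
  have s2 : closedBall c R ⊆ ball c (2 * R) := closedBall_subset_ball (by linarith)
  have s3 : ball c (2 * R) ⊆ O := (ball_subset_ball (by linarith)).trans hsub
  have H : ∀ x ∈ closedBall c R ∩ (G ∩ Vᶜ), ∃ δ t : ℝ, 0 < δ ∧ 0 < t ∧ ∀ y ∈ G ∩ ball x t,
      ∀ ρ : ℝ, 0 < ρ → 1600 * ρ ≤ t → 1600 * ρ ≤ 1 → ball y (1600 * ρ) ⊆ O →
      μ (ball y (1600 * ρ)) ≤ ENNReal.ofReal (δ * ρ ^ (p + 1)) → ∃ b, Loc D y ρ b := by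
    rintro x ⟨hx1, hx2, hx3⟩
    obtain ⟨A, hA⟩ := hq x ⟨hx2, s2 hx1⟩
    obtain ⟨δ, hδ, hl⟩ := ls A (hr x (s3 (s2 hx1)) (fun h => hx3 (hNV h)) A fun η hη => by
      obtain ⟨t, ht, h⟩ := hA η hη
      exact ⟨t, ht, h x ⟨hx2, mem_ball_self ht⟩⟩)
    obtain ⟨t, ht, h⟩ := hA (δ / 1600 ^ (p + 2)) (by positivity)
    refine ⟨δ, t, hδ, ht, fun y hy ρ hρ r1 r2 r3 r4 => hl O f D μ w y ρ h1 h2 hb hi hρ r2 r3
      ((h y hy _ (by positivity) r1).trans (le_of_eq ?_)) r4⟩
    congr 1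
    rw [mul_pow]
    field_simp
  choose! δ t hδ ht hL using H
  obtain ⟨F, hF1, hF2⟩ := hZ.elim_nhds_subcover (fun x => ball x (t x))
    fun x hx => ball_mem_nhds x (ht x hx)
  obtain ⟨m, hm0, hm⟩ : ∃ m : ℝ, 0 < m ∧ ∀ x ∈ F, m ≤ δ x ∧ m ≤ t x := by
    rcases F.eq_empty_or_nonempty with rfl | hne
    · exact ⟨1, one_pos, by simp⟩
    · obtain ⟨x, hx, h⟩ := F.exists_min_image (fun x => min (δ x) (t x)) hne
      exact ⟨_, lt_min (hδ x (hF1 x hx)) (ht x (hF1 x hx)), fun y hy => le_min_iff.1 (h y hy)⟩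
  refine ⟨(ball c (2 * R) \ G) ∪ V, m, min m (min 1 R) / 1600,
    (hGc.union hVc (half_pos hε).le (half_pos hε).le).mono Subset.rfl le_rfl (by linarith), hm0,
    by positivity, fun y hy hyE ρ hρ r1 r2 => ?_⟩
  have y1 : y ∈ G := by
    by_contra h
    exact hyE (Or.inl ⟨s2 (ball_subset_closedBall hy), h⟩)
  obtain ⟨x, hx, hyx⟩ := mem_iUnion₂.1
    (hF2 ⟨ball_subset_closedBall hy, y1, fun h => hyE (Or.inr h)⟩)
  have a1 := min_le_left m (min 1 R)
  have a2 := (min_le_right m (min 1 R)).trans (min_le_left 1 R)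
  have a3 := (min_le_right m (min 1 R)).trans (min_le_right 1 R)
  refine hL x (hF1 x hx) y ⟨y1, hyx⟩ ρ hρ (by linarith [(hm x hx).2]) (by linarith)
    ((ball_subset_ball' (by linarith [mem_ball.1 hy])).trans s3)
    ((measure_mono (ball_subset_ball (by linarith))).trans (r2.trans ?_))
  exact ENNReal.ofReal_le_ofReal (mul_le_mul_of_nonneg_right (hm x hx).1 (by positivity))

end NV

end

section

namespace NV
open Set Filter Topology MeasureTheory Metric Function
open scoped ENNReal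

variable {p : ℕ}

namespace ThinX

theorem ms (p : ℕ) (r : ℝ) : MeasurableSet {q : W p × W p | dist q.2 q.1 < r} :=
  (isOpen_lt (continuous_snd.dist continuous_fst) continuous_const).measurableSet

theorem meas_ball (μ : Measure (W p)) [IsFiniteMeasure μ] (r : ℝ) :
    Measurable fun y : W p => μ (ball y r) :=
  measurable_measure_prodMk_left (ms p r)

theorem lint_ball (μ : Measure (W p)) [IsFiniteMeasure μ] {r : ℝ} (hr : 0 < r) :
    ∫⁻ y, μ (ball y r) = ENNReal.ofReal ((2 * r) ^ (p + 2)) * μ univ := by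
  have h1 : (volume : Measure (W p)).prod μ {q : W p × W p | dist q.2 q.1 < r} =
      ∫⁻ y, μ (ball y r) := Measure.prod_apply (ms p r)
  rw [← h1, Measure.prod_apply_symm (ms p r), ← lintegral_const]
  refine lintegral_congr fun z => ?_
  rw [← vol_ball z hr]
  congr 1
  ext y
  simp only [mem_preimage, mem_ofPred_eq, mem_ball, dist_comm]

theorem ac (μ : Measure (W p)) [IsFiniteMeasure μ] (hμ : μ ≪ volume) {η : ℝ} (hη : 0 < η) :
    ∃ θ : ℝ, 0 < θ ∧ ∀ s : Set (W p), MeasurableSet s → volume s ≤ ENNReal.ofReal θ →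
      μ s ≤ ENNReal.ofReal η := by
  obtain ⟨θ, h0, hθ⟩ := exists_pos_setLIntegral_lt_of_measure_lt (μ := volume)
    (f := μ.rnDeriv volume) (Measure.lintegral_rnDeriv_lt_top μ volume).ne
    (ENNReal.ofReal_pos.2 hη).ne'
  obtain ⟨t, -, ht0, ht⟩ := ENNReal.lt_iff_exists_real_btwn.1 h0
  refine ⟨t, ENNReal.ofReal_pos.1 ht0, fun s hs h => ?_⟩
  rw [← Measure.setLIntegral_rnDeriv' hμ hs]
  exact (hθ s (h.trans_lt ht)).le

theorem cont_dd (A : Mx p) : Continuous fun B : Mx p => dd A B := by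
  unfold dd
  exact continuous_finsetSum _ fun a _ => continuous_finsetSum _ fun i _ =>
    (continuous_const.sub (continuous_id.matrix_elem a i)).abs

theorem dd_comm (A B : Mx p) : dd A B = dd B A := by
  simp only [dd, abs_sub_comm]

theorem cpt (L : ℝ) : IsCompact {B : Mx p | dd B 0 ≤ L} := by
  have h1 : IsCompact (X := Mx p) (univ.pi fun _ => univ.pi fun _ => Icc (-L) L) :=
    isCompact_univ_pi fun _ => isCompact_univ_pi fun _ => isCompact_Icc
  have h2 : IsClosed {B : Mx p | dd B 0 ≤ L} := by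
    simp only [fun B : Mx p => dd_comm B 0]
    exact isClosed_le (cont_dd 0) continuous_const
  refine h1.of_isClosed_subset h2 fun B hB a _ i _ => abs_le.1 ?_
  have h3 : |B a i - (0 : Mx p) a i| ≤ ∑ i, |B a i - (0 : Mx p) a i| :=
    Finset.single_le_sum (f := fun i => |B a i - (0 : Mx p) a i|) (fun _ _ => abs_nonneg _)
      (Finset.mem_univ i)
  have h4 : ∑ i, |B a i - (0 : Mx p) a i| ≤ dd B 0 :=
    Finset.single_le_sum (f := fun a => ∑ i, |B a i - (0 : Mx p) a i|)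
      (fun _ _ => Finset.sum_nonneg fun _ _ => abs_nonneg _) (Finset.mem_univ a)
  rw [Matrix.zero_apply, sub_zero] at h3
  exact h3.trans (h4.trans hB)

end ThinX
open ThinX

/-- the centres of heavy balls of radius c ρ have small content -/
theorem thin (μ : Measure (W p)) [IsFiniteMeasure μ] (hμ : μ ≪ volume) {δ ε c : ℝ} (hδ : 0 < δ)
    (hε : 0 < ε) (hc : 0 < c) : ∃ ρ0 : ℝ, 0 < ρ0 ∧ ∀ ρ : ℝ, 0 < ρ → ρ ≤ ρ0 →
      Ct {x | ENNReal.ofReal (δ * ρ ^ (p + 1)) < μ (ball x (c * ρ))} (5 * (c * ρ)) ε := by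
  obtain ⟨θ, hθ, hs⟩ := ac μ hμ (η := ε / (5 ^ (p + 1) * (c ^ (p + 1) / δ))) (by positivity)
  have hM : 0 ≤ (μ univ).toReal := ENNReal.toReal_nonneg
  refine ⟨θ * δ / ((4 * c) ^ (p + 2) * ((μ univ).toReal + 1)), by positivity,
    fun ρ hρ hρ0 T κ hT => ?_⟩
  have ha : 0 < δ * ρ ^ (p + 1) := by positivity
  have hQ : MeasurableSet
      {y : W p | ENNReal.ofReal (δ * ρ ^ (p + 1)) ≤ μ (ball y (2 * (c * ρ)))} :=
    measurableSet_le measurable_const (meas_ball μ _)
  have h1 := mul_meas_ge_le_lintegral (μ := volume) (meas_ball μ (2 * (c * ρ)))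
    (ENNReal.ofReal (δ * ρ ^ (p + 1)))
  rw [lint_ball μ (by positivity), ← ENNReal.ofReal_toReal (measure_ne_top μ univ),
    ← ENNReal.ofReal_mul (by positivity)] at h1
  have h2 : (2 * (2 * (c * ρ))) ^ (p + 2) * (μ univ).toReal ≤ δ * ρ ^ (p + 1) * θ := by
    rw [le_div_iff₀ (by positivity)] at hρ0
    have e : (2 * (2 * (c * ρ))) ^ (p + 2) = ρ ^ (p + 1) * (ρ * (4 * c) ^ (p + 2)) := by
      rw [show 2 * (2 * (c * ρ)) = 4 * c * ρ by ring, mul_pow (4 * c) ρ]
      ring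
    have h3 : ρ * (4 * c) ^ (p + 2) * (μ univ).toReal ≤ θ * δ := by
      refine le_trans ?_ hρ0
      rw [mul_assoc]
      gcongr
      linarith
    calc _ = ρ ^ (p + 1) * (ρ * (4 * c) ^ (p + 2) * (μ univ).toReal) := by rw [e]; ring
      _ ≤ ρ ^ (p + 1) * (θ * δ) := by gcongr
      _ = _ := by ring
  have h3 := h1.trans (ENNReal.ofReal_le_ofReal h2)
  rw [ENNReal.ofReal_mul ha.le, ENNReal.mul_le_mul_iff_right (ENNReal.ofReal_pos.2 ha).ne'
    ENNReal.ofReal_ne_top] at h3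
  have h4 := hs _ hQ h3
  refine (vit T (ENNReal.ofReal (c ^ (p + 1) / δ) • μ) _
    {y : W p | ENNReal.ofReal (δ * ρ ^ (p + 1)) ≤ μ (ball y (2 * (c * ρ)))} (R := c * ρ)
    (fun x hx => ⟨c * ρ, by positivity, le_rfl, fun y hy => ?_, ?_⟩) hT).trans ?_
  · refine (le_of_lt hx).trans (measure_mono (ball_subset_ball' ?_))
    have := mem_ball'.1 hy
    linarith
  · rw [Measure.smul_apply, smul_eq_mul]
    refine le_trans (le_of_eq ?_) (mul_le_mul_right (le_of_lt hx) _)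
    rw [← ENNReal.ofReal_mul (by positivity)]
    congr 1
    rw [mul_pow]
    field_simp
  · rw [Measure.smul_apply, smul_eq_mul, mul_assoc]
    refine mul_le_mul_right ?_ _
    refine (mul_le_mul_right (mul_le_mul_right h4 _) _).trans (le_of_eq ?_)
    rw [← ENNReal.ofReal_mul (by positivity), ← ENNReal.ofReal_mul (by positivity)]
    congr 1
    field_simp

theorem unif {K : Set (Mx p)} (hK : IsClosed K) (δ : Mx p → ℝ) (hδ : ∀ A ∈ K, 0 < δ A) (L : ℝ)
    {c : ℝ} (hc : 0 < c) : ∃ δ0 : ℝ, 0 < δ0 ∧ ∀ B ∈ K, dd B 0 ≤ L →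
      ∃ A ∈ K, δ0 ≤ δ A ∧ c * dd A B ≤ δ A / 2 := by
  have _ := hc
  obtain ⟨t, ht, hcov⟩ := ((cpt L).inter_left hK).elim_nhds_subcover
    (fun A => {B | c * dd A B < δ A / 2}) fun A hA =>
      (isOpen_lt (continuous_const.mul (cont_dd A)) continuous_const).mem_nhds (by
        have := hδ A hA.1
        show c * dd A A < δ A / 2
        simp only [dd, sub_self, abs_zero, Finset.sum_const_zero, mul_zero]
        linarith)
  obtain ⟨δ0, h0, h1⟩ : ∃ δ0 : ℝ, 0 < δ0 ∧ ∀ A ∈ t, δ0 ≤ δ A := by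
    rcases t.eq_empty_or_nonempty with h | h
    · exact ⟨1, one_pos, fun A hA => by simp [h] at hA⟩
    · obtain ⟨A, hA, hm⟩ := t.exists_min_image δ h
      exact ⟨δ A, hδ A (ht A hA).1, hm⟩
  refine ⟨δ0, h0, fun B hB hL => ?_⟩
  obtain ⟨A, hA, hAB⟩ := mem_iUnion₂.1 (hcov ⟨hB, hL⟩)
  exact ⟨A, (ht A hA).1, h1 A hA, le_of_lt hAB⟩

end NV

end

section

namespace NV
open Set Filter Topology MeasureTheory Metric Function
open scoped ENNReal

variable {p : ℕ}

namespace Glob1X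

theorem aem_det {O : Set (W p)} {D : W p → Mx p}
    (hD : ∀ a i, IntegrableOn (fun x => D x a i) O volume) :
    AEMeasurable (fun x => (D x).det) (volume.restrict O) := by
  rw [show (fun x => (D x).det) = _ from funext fun x => Matrix.det_apply' (D x)]
  exact Finset.aemeasurable_fun_sum _ fun s _ => AEMeasurable.const_mul
    (Finset.aemeasurable_fun_prod _ fun i _ => (hD _ _).aemeasurable) _

theorem dens {O N : Set (W p)} (hO : IsOpen O) (hf : volume O ≠ ⊤)
    (hN : NullMeasurableSet N (volume.restrict O)) :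
    ∀ᵐ x ∂(volume : Measure (W p)), x ∈ O → x ∉ N →
      ∃ k : ℕ, x ∈ Gd (volume.restrict N) (1 / 2) (1 / ((k : ℝ) + 1)) := by
  have hg : IntegrableOn (N.indicator fun _ => (1 : ℝ)) O volume :=
    Integrable.indicator₀ (integrableOn_const hf) hN
  filter_upwards [leb1 hO hg] with x hx hxO hxN
  obtain ⟨ρ, hρ, h⟩ := hx hxO (1 / 2) (by norm_num)
  obtain ⟨ε, hε, hεO⟩ := Metric.isOpen_iff.1 hO x hxO
  obtain ⟨k, hk⟩ := exists_nat_one_div_lt (lt_min hρ hε)
  refine ⟨k, fun r hr hrk => le_trans (le_of_eq ?_)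
    (h r hr (hrk.trans (hk.le.trans (min_le_left _ _))))⟩
  have hs : ball x r ⊆ O :=
    (ball_subset_ball (hrk.trans (hk.le.trans (min_le_right _ _)))).trans hεO
  rw [Measure.restrict_apply measurableSet_ball, inter_comm,
    ← Measure.restrict_apply' measurableSet_ball,
    ← lintegral_indicator_one₀ (hN.mono (Measure.restrict_mono hs le_rfl))]
  refine lintegral_congr fun y => ?_
  by_cases hy : y ∈ N <;> simp [hy, hxN]

theorem pos {O N : Set (W p)} (hO : IsOpen O) (hf : volume O ≠ ⊤)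
    (hN : NullMeasurableSet N (volume.restrict O)) {c : W p} {R : ℝ} (hs : ball c R ⊆ O)
    (h : ¬ ∀ᵐ x ∂(volume.restrict (ball c R)), x ∈ N) : ∀ᶠ k : ℕ in atTop,
      volume (ball c R ∩ Gd (volume.restrict N) (1 / 2) (1 / ((k : ℝ) + 1))) ≠ 0 := by
  have h1 : ∃ k : ℕ,
      volume (ball c R ∩ Gd (volume.restrict N) (1 / 2) (1 / ((k : ℝ) + 1))) ≠ 0 := by
    by_contra h0
    push Not at h0
    refine h ((ae_restrict_iff' measurableSet_ball).2 ?_)
    filter_upwards [dens hO hf hN, ae_all_iff.2 fun k => measure_eq_zero_iff_ae_notMem.1 (h0 k)]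
      with x h2 h3 hx
    by_contra hxN
    obtain ⟨k, hk⟩ := h2 (hs hx) hxN
    exact h3 k ⟨hx, hk⟩
  obtain ⟨k, hk⟩ := h1
  filter_upwards [eventually_ge_atTop k] with j hj h0
  exact hk (measure_mono_null (inter_subset_inter_right _
    (Gd_mono le_rfl (Nat.one_div_le_one_div hj))) h0)

theorem dir (v : W p) : ∃ e : W p, ‖e‖ = 1 ∧ ‖v‖ • e = v := by
  rcases eq_or_ne v 0 with rfl | h
  · exact ⟨fun _ => 1, by simp, by simp⟩
  · have := norm_ne_zero_iff.2 h
    exact ⟨‖v‖⁻¹ • v, by rw [norm_smul, norm_inv, norm_norm, inv_mul_cancel₀ this],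
      by rw [smul_smul, mul_inv_cancel₀ this, one_smul]⟩

theorem chain {D : W p → Mx p} {z e : W p} {τ ρ b : ℝ} (he : ‖e‖ = 1) (hτ : 0 ≤ τ) (hρ : 0 < ρ)
    (h : ∀ t ∈ Icc (0 : ℝ) τ, ∃ b, Loc D (z + t • e) ρ b) (h0 : Loc D z ρ b) :
    Loc D (z + τ • e) ρ b := by
  have key : ∀ j : ℕ, Loc D (z + min τ (j * (ρ / 2)) • e) ρ b := by
    intro j
    induction j with
    | zero => simpa [min_eq_right hτ] using h0
    | succ j ih =>
      obtain ⟨b', hb'⟩ := h (min τ ((j + 1 : ℕ) * (ρ / 2)))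
        ⟨le_min hτ (by positivity), min_le_left _ _⟩
      rw [loc_link hρ ih hb' ?_]
      · exact hb'
      rw [add_sub_add_left_eq_sub, ← sub_smul, norm_smul, he, mul_one, Real.norm_eq_abs]
      refine (abs_min_sub_min_le_max _ _ _ _).trans ?_
      push_cast
      rw [sub_self, abs_zero, show (j : ℝ) * (ρ / 2) - (j + 1) * (ρ / 2) = -(ρ / 2) by ring,
        abs_neg, abs_of_pos (by positivity)]
      exact max_le (by positivity) le_rfl
  obtain ⟨j, hj⟩ := exists_nat_ge (τ / (ρ / 2))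
  have := key j
  rwa [min_eq_left ((div_le_iff₀ (by positivity)).1 hj)] at this

theorem endp {D : W p → Mx p} {x : W p} {ρ r b σ : ℝ} (hρ : 0 < ρ) (hr : ρ ≤ r)
    (h : Loc D x ρ b) (hσ : σ = 1 ∨ σ = -1)
    (hx : x ∈ Gd (volume.restrict {x | σ * (D x).det ≤ 0}) (1 / 2) r) : b = σ := by
  refine loc_end hρ h hσ ?_
  have := hx ρ hρ hr
  rwa [Measure.restrict_apply measurableSet_ball, one_div_mul_eq_div] at this

end Glob1X

open Glob1X

/-- no sign change in a ball -/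
theorem glob1 {O : Set (W p)} {D : W p → Mx p} {μ : Measure (W p)} [IsFiniteMeasure μ]
    {c : W p} {R : ℝ} (hR : 0 < R) (hO : IsOpen O) (hf : volume O ≠ ⊤) (hs : ball c R ⊆ O)
    (hD : ∀ a i, IntegrableOn (fun x => D x a i) O volume) (hμ : μ ≪ volume)
    (hZ : ∀ ε : ℝ, 0 < ε → ∃ (E : Set (W p)) (δ ρ0 : ℝ), Ct E (20 * R) ε ∧ 0 < δ ∧ 0 < ρ0 ∧
      ∀ x ∈ ball c R, x ∉ E → ∀ ρ : ℝ, 0 < ρ → ρ ≤ ρ0 →
        μ (ball x (3200 * ρ)) ≤ ENNReal.ofReal (δ * ρ ^ (p + 1)) → ∃ b, Loc D x ρ b) :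
    (∀ᵐ x ∂(volume.restrict (ball c R)), 0 ≤ (D x).det) ∨
      ∀ᵐ x ∂(volume.restrict (ball c R)), (D x).det ≤ 0 := by
  by_contra hcon
  obtain ⟨n1, n2⟩ := not_or.1 hcon
  have hN : ∀ σ : ℝ, NullMeasurableSet {x | σ * (D x).det ≤ 0} (volume.restrict O) :=
    fun σ => nullMeasurableSet_le ((aem_det hD).const_mul σ) aemeasurable_const
  obtain ⟨k, k1, k2⟩ := ((pos hO hf (hN 1) hs
    (by simpa using n2)).and (pos hO hf (hN (-1)) hs
    (by simpa using n1))).exists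
  obtain ⟨v, hv, hm⟩ : ∃ v : W p, ‖v‖ < 2 * R ∧ 0 < volume {z | z ∈ ball c R ∩
      Gd (volume.restrict {x | 1 * (D x).det ≤ 0}) (1 / 2) (1 / ((k : ℝ) + 1)) ∧ z + v ∈ ball c R ∩
      Gd (volume.restrict {x | -1 * (D x).det ≤ 0}) (1 / 2) (1 / ((k : ℝ) + 1))} := by
    by_contra h0
    push Not at h0
    have := conv (measurableSet_ball.inter (isClosed_Gd _ _ _).measurableSet)
      (measurableSet_ball.inter (isClosed_Gd _ _ _).measurableSet) inter_subset_left
      inter_subset_left h0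
    rw [zero_mul, nonpos_iff_eq_zero, mul_eq_zero] at this
    exact this.elim k1 k2
  obtain ⟨m, -, hm0, hm⟩ := ENNReal.lt_iff_exists_real_btwn.1 hm
  rw [ENNReal.ofReal_pos] at hm0
  obtain ⟨e, he, hve⟩ := dir v
  have hτ := norm_nonneg v
  generalize ‖v‖ = τ at hv hve hτ
  obtain ⟨ε, hε, hεm⟩ : ∃ ε : ℝ, 0 < ε ∧ 12 ^ (p + 2) * (22 * R) * ε = m / 2 :=
    ⟨m / 2 / (12 ^ (p + 2) * (22 * R)), by positivity, by field_simp⟩
  have tb : ∀ (E : Set (W p)) (r : ℝ), 0 ≤ r → r ≤ 20 * R → Ct E r ε →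
      volume {z | ∃ t ∈ Icc (0 : ℝ) τ, z + t • e ∈ E} ≤ ENNReal.ofReal (m / 2) := by
    intro E r hr hr' hE
    have := hE.tube hr id (fun z z' => half_le_self (norm_nonneg _)) 0 he hτ
    simp only [id, add_zero] at this
    refine this.trans (ENNReal.ofReal_le_ofReal ?_)
    rw [← hεm]
    gcongr
    linarith
  obtain ⟨E, δ, ρ1, hb, hδ, hρ1, hp⟩ := hZ ε hε
  obtain ⟨ρ0, hρ0, ht⟩ := thin μ hμ hδ hε (c := 3200) (by norm_num)
  obtain ⟨ρ, hρ, r1, r2, r3, r4⟩ : ∃ ρ : ℝ, 0 < ρ ∧ ρ ≤ ρ0 ∧ ρ ≤ 1 / ((k : ℝ) + 1) ∧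
      ρ ≤ ρ1 ∧ ρ ≤ R / 1600 :=
    ⟨min ρ0 (min _ (min _ _)), by positivity, min_le_left _ _,
      (min_le_right _ _).trans (min_le_left _ _),
      (min_le_right _ _).trans ((min_le_right _ _).trans (min_le_left _ _)),
      (min_le_right _ _).trans ((min_le_right _ _).trans (min_le_right _ _))⟩
  have t1 := tb _ _ (by positivity) le_rfl hb
  have t2 := tb _ _ (by positivity) (by linarith) (ht ρ hρ r1)
  have t3 := (measure_union_le _ _).trans (add_le_add t1 t2)
  rw [← ENNReal.ofReal_add (by positivity) (by positivity), add_halves] at t3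
  obtain ⟨z, ⟨hz, hz'⟩, hz2⟩ := not_subset.1 fun h => (t3.trans_lt hm).not_ge (measure_mono h)
  have hl : ∀ t ∈ Icc (0 : ℝ) τ, ∃ b, Loc D (z + t • e) ρ b := by
    intro t htτ
    have hx : z + t • e ∈ ball c R := by
      rcases hτ.eq_or_lt with h0 | h0
      · rw [le_antisymm (htτ.2.trans h0.ge) htτ.1, zero_smul, add_zero]
        exact hz.1
      · have := (convex_ball c R).add_smul_mem hz.1 hz'.1 (t := t / τ)
          ⟨div_nonneg htτ.1 hτ, (div_le_one h0).2 htτ.2⟩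
        rwa [← hve, smul_smul, div_mul_cancel₀ _ h0.ne'] at this
    refine hp _ hx (fun h0 => hz2 (Or.inl ⟨t, htτ, h0⟩)) ρ hρ r3 ?_
    by_contra h0
    exact hz2 (Or.inr ⟨t, htτ, not_le.1 h0⟩)
  obtain ⟨b, hb0⟩ := hl 0 ⟨le_rfl, hτ⟩
  rw [zero_smul, add_zero] at hb0
  have c1 := chain he hτ hρ hl hb0
  rw [hve] at c1
  have e1 := endp hρ r2 hb0 (Or.inl rfl) hz.2
  have e2 := endp hρ r2 c1 (Or.inr rfl) hz'.2
  linarith

/-- Lebesgue points of D whose value has rank at most n - 2 -/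
def Sig {n : ℕ} (Ω : Set (Fin n → ℝ)) (D : (Fin n → ℝ) → Matrix (Fin n) (Fin n) ℝ) :
    Set (Fin n → ℝ) :=
  {x | x ∈ Ω ∧ ∃ B : Matrix (Fin n) (Fin n) ℝ, B.rank + 2 ≤ n ∧ ∀ a i,
    Tendsto (fun r : ℝ => ⨍ y in ball x r, |D y a i - B a i|) (𝓝[>] 0) (𝓝 0)}

theorem avg_tendsto {O : Set (W p)} (hO : IsOpen O) (hf : volume O ≠ ⊤) {D : W p → Mx p}
    (hD : ∀ a i, IntegrableOn (fun x => D x a i) O volume) {x : W p} (hx : x ∈ O) {A : Mx p}
    (h : ∀ η : ℝ, 0 < η → ∃ ρ : ℝ, 0 < ρ ∧ x ∈ Gd (nu O D A) η ρ) (a i : Fin (p + 2)) :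
    Tendsto (fun r : ℝ => ⨍ y in ball x r, |D y a i - A a i|) (𝓝[>] 0) (𝓝 0) := by
  obtain ⟨ε, hε, hεO⟩ := Metric.isOpen_iff.1 hO x hx
  refine Metric.tendsto_nhds.2 fun η hη => ?_
  obtain ⟨ρ, hρ, hG⟩ := h (η / 2) (by positivity)
  filter_upwards [Ioc_mem_nhdsGT (lt_min hρ hε)] with r hr
  have sub : ball x r ⊆ O := (ball_subset_ball (hr.2.trans (min_le_right _ _))).trans hεO
  have h1 := hG r hr.1 (hr.2.trans (min_le_left _ _))
  rw [nu_apply hD A sub] at h1
  have h2 : ∫⁻ y in ball x r, ‖D y a i - A a i‖ₑ ≤ ENNReal.ofReal (η / 2 * r ^ (p + 2)) := by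
    refine le_trans ?_ h1
    refine le_trans ?_ (Finset.single_le_sum (f := fun a => ∑ i,
      ∫⁻ y in ball x r, ‖D y a i - A a i‖ₑ) (fun _ _ => zero_le) (Finset.mem_univ a))
    exact Finset.single_le_sum (f := fun i => ∫⁻ y in ball x r, ‖D y a i - A a i‖ₑ)
      (fun _ _ => zero_le) (Finset.mem_univ i)
  have hi : IntegrableOn (fun y => D y a i - A a i) (ball x r) volume :=
    ((hD a i).sub (integrableOn_const hf)).mono_set sub
  have r0 := hr.1
  rw [← ofReal_integral_norm_eq_lintegral_enorm hi,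
    ENNReal.ofReal_le_ofReal_iff (by positivity)] at h2
  simp only [Real.norm_eq_abs] at h2
  have h3 : 0 ≤ ∫ y in ball x r, |D y a i - A a i| := integral_nonneg fun _ => abs_nonneg _
  have h4 : r ^ (p + 2) ≤ (2 * r) ^ (p + 2) := by
    gcongr
    linarith
  rw [dist_zero_right, setAverage_eq, measureReal_def, vol_ball x r0,
    ENNReal.toReal_ofReal (by positivity), smul_eq_mul, Real.norm_of_nonneg (by positivity),
    inv_mul_lt_iff₀ (by positivity)]
  have h5 : 0 < r ^ (p + 2) := by positivity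
  nlinarith

theorem loc_sign {q : ℝ} (hq : 1 ≤ q) {Ω : Set (W p)} (hO : IsOpen Ω) {f : W p → W p}
    {Df : W p → Mx p} (hf : ContinuousOn f Ω) (hi : InjOn f Ω) (h : SJ.W2q q Ω f Df)
    (hN : Measure.hausdorffMeasure ((p : ℝ) + 1) (Sig Ω Df) = 0) {c : W p} (hc : c ∈ Ω) :
    ∃ R : ℝ, 0 < R ∧ ((∀ᵐ x ∂(volume.restrict (ball c R)), 0 ≤ (Df x).det) ∨
      ∀ᵐ x ∂(volume.restrict (ball c R)), (Df x).det ≤ 0) := by
  obtain ⟨R9, hR9, hRU⟩ := Metric.isOpen_iff.1 hO c hc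
  obtain ⟨R, rfl⟩ : ∃ R, R9 = 9 * R := ⟨R9 / 9, by ring⟩
  have hR : 0 < R := by linarith
  obtain ⟨O, hOe⟩ : ∃ O, O = ball c (9 * R) := ⟨_, rfl⟩
  rw [← hOe] at hRU
  have oO : IsOpen O := hOe ▸ isOpen_ball
  have bO : Bornology.IsBounded O := hOe ▸ isBounded_ball
  have h' := W2q_mono hO.measurableSet oO.measurableSet hRU h
  have : IsFiniteMeasure (volume.restrict O) := isFiniteMeasure_restrict.2 bO.measure_lt_top.ne
  have hq' : 1 ≤ ENNReal.ofReal q := ENNReal.one_le_ofReal.2 hq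
  choose w hw hw' using fun a i j => ((h' a).2 i).2.2 j
  have i1 : ∀ a i, IntegrableOn (fun x => Df x a i) O volume := fun a i =>
    ((h' a).2 i).1.integrable hq'
  have i2 : ∀ a i j, IntegrableOn (w a i j) O volume := fun a i j => (hw a i j).integrable hq'
  have d1 : D1 O f Df := ⟨oO, hf.mono hRU, fun a => (h' a).1.integrable hq', i1,
    fun a i => ((h' a).2 i).2.1⟩
  obtain ⟨g, hg⟩ : ∃ g : W p → ℝ, g = fun y => ∑ t : Fin (p + 2) × Fin (p + 2) × Fin (p + 2),
      |w t.1 t.2.1 t.2.2 y| := ⟨_, rfl⟩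
  have g1 : IntegrableOn g O volume := hg ▸ integrable_finsetSum _ fun t _ => (i2 _ _ _).abs
  have g2 : ∀ a i j y, ‖w a i j y‖ₑ ≤ ‖g y‖ₑ := fun a i j y => by
    rw [enorm_le_iff_norm_le, Real.norm_eq_abs, Real.norm_eq_abs]
    refine le_trans ?_ (le_abs_self _)
    rw [hg]
    exact Finset.single_le_sum (f := fun t : Fin (p + 2) × Fin (p + 2) × Fin (p + 2) =>
      |w t.1 t.2.1 t.2.2 y|) (fun _ _ => abs_nonneg _) (Finset.mem_univ (a, i, j))
  obtain ⟨μ, hμ⟩ : ∃ μ : Measure (W p), μ = (volume.restrict O).withDensity fun y => ‖g y‖ₑ :=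
    ⟨_, rfl⟩
  have : IsFiniteMeasure μ := hμ ▸ isFiniteMeasure_withDensity g1.2.ne
  have ac : μ ≪ volume :=
    hμ ▸ (withDensity_absolutelyContinuous _ _).trans Measure.absolutelyContinuous_restrict
  have d2 : D2 O Df μ w := ⟨i2, hw', fun a i j x r hx => by
    rw [hμ, withDensity_apply _ measurableSet_ball, Measure.restrict_restrict measurableSet_ball,
      inter_eq_left.2 hx]
    exact lintegral_mono fun y => g2 a i j y⟩
  refine ⟨R, hR, glob1 hR oO bO.measure_lt_top.ne (hOe ▸ ball_subset_ball (by linarith)) i1 ac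
    fun ε hε => ptsC d1 d2 bO (hi.mono hRU) hR hOe.ge hN (fun x hx hx' A hA => adj_ne A ?_) hε⟩
  by_contra h0
  exact hx' ⟨hRU hx, A, by omega, avg_tendsto oO bO.measure_lt_top.ne i1 hx hA⟩

/-- points near which a property holds almost everywhere -/
def Near (P : W p → Prop) : Set (W p) :=
  {x | ∃ r : ℝ, 0 < r ∧ ∀ᵐ y ∂(volume.restrict (ball x r)), P y}

theorem near_open (P : W p → Prop) : IsOpen (Near P) := by
  refine Metric.isOpen_iff.2 ?_
  rintro x ⟨r, hr, h⟩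
  refine ⟨r / 2, by linarith, fun y hy => ⟨r / 2, by linarith, ?_⟩⟩
  refine ae_restrict_of_ae_restrict_of_subset (fun z hz => ?_) h
  rw [mem_ball] at hy hz ⊢
  linarith [dist_triangle z y x]

theorem ae_of_near {P : W p → Prop} {Ω : Set (W p)} (h : Ω ⊆ Near P) :
    volume {x | x ∈ Ω ∧ ¬ P x} = 0 := by
  refine measure_null_of_locally_null _ fun x hx => ?_
  obtain ⟨r, hr, h1⟩ := h hx.1
  rw [ae_restrict_iff' measurableSet_ball, ae_iff] at h1
  refine ⟨{a | a ∈ Ω ∧ ¬ P a} ∩ ball x r,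
    inter_mem_nhdsWithin _ (ball_mem_nhds x hr), measure_mono_null (fun a ha => ?_) h1⟩
  exact fun h' => ha.1.2 (h' ha.2)

theorem corank_two {q : ℝ} (hq : 1 ≤ q) {Ω : Set (W p)} (hO : IsOpen Ω) (hc : IsConnected Ω)
    {f : W p → W p} {Df : W p → Mx p} (hf : ContinuousOn f Ω) (hi : InjOn f Ω)
    (h : SJ.W2q q Ω f Df) (hp : 0 < volume {x | x ∈ Ω ∧ 0 < (Df x).det})
    (hm : 0 < volume {x | x ∈ Ω ∧ (Df x).det < 0}) :
    0 < Measure.hausdorffMeasure ((p : ℝ) + 1) (Sig Ω Df) := by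
  refine pos_iff_ne_zero.2 fun hN => ?_
  have hcov : Ω ⊆ Near (fun x => 0 ≤ (Df x).det) ∪ Near (fun x => (Df x).det ≤ 0) := by
    intro x hx
    obtain ⟨R, hR, hb | hb⟩ := loc_sign hq hO hf hi h hN hx
    exacts [Or.inl ⟨R, hR, hb⟩, Or.inr ⟨R, hR, hb⟩]
  have hdis : Ω ∩ (Near (fun x => 0 ≤ (Df x).det) ∩ Near (fun x => (Df x).det ≤ 0)) = ∅ := by
    refine eq_empty_of_forall_notMem ?_
    rintro x ⟨hx, ⟨r1, hr1, h1⟩, ⟨r2, hr2, h2⟩⟩
    obtain ⟨R, hR, hRΩ⟩ := Metric.isOpen_iff.1 hO x hx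
    have sub : ball x (min R (min r1 r2)) ⊆ Ω := (ball_subset_ball (min_le_left _ _)).trans hRΩ
    obtain ⟨τ, γ, hτ, g1, g2⟩ := non_vanishing hq hO hf h isOpen_ball
      (nonempty_ball.2 (lt_min hR (lt_min hr1 hr2))) sub (by
        filter_upwards [ae_restrict_of_ae_restrict_of_subset
            (ball_subset_ball ((min_le_right _ _).trans (min_le_left _ _))) h1,
          ae_restrict_of_ae_restrict_of_subset
            (ball_subset_ball ((min_le_right _ _).trans (min_le_right _ _))) h2] with y a1 a2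
        exact le_antisymm a2 a1)
    have g3 := (g1 τ 0).1
    rw [hi (sub (g2 τ ⟨hτ.le, le_rfl⟩).1) (sub (g2 0 ⟨le_rfl, hτ.le⟩).1) (g2 τ ⟨hτ.le, le_rfl⟩).2,
      sub_self, norm_zero, sub_zero, abs_of_pos hτ] at g3
    linarith
  rcases isPreconnected_iff_subset_of_disjoint.1 hc.isPreconnected _ _ (near_open _)
    (near_open _) hcov hdis with h1 | h1
  · exact hm.ne' (by simpa only [not_le] using ae_of_near h1)
  · exact hp.ne' (by simpa only [not_le] using ae_of_near h1)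

end NV

end
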